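import Pool.Agent.W_MP_55e37b_an.Defs

open MeasureTheory Metric Set Filter Topology
open scoped ENNReal

namespace HMor

variable {n : ℕ}

namespace BasicsAux

theorem inner_gradient' {φ : E n → ℝ} (x v : E n) : inner ℝ (gradient φ x) v = fderiv ℝ φ x v := by
  rw [← toDual_gradient, InnerProductSpace.toDual_apply_apply]

theorem cont_fderiv {φ : E n → ℝ} (h : ContDiff ℝ 1 φ) : Continuous (fun x => fderiv ℝ φ x) :=
  h.continuous_fderiv (by simp)

theorem cont_fderiv_apply {φ : E n → ℝ} (h : ContDiff ℝ 1 φ) (v : E n) :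
    Continuous (fun x => fderiv ℝ φ x v) :=
  (cont_fderiv h).clm_apply continuous_const

theorem supp_fderiv_apply {φ : E n → ℝ} (hc : HasCompactSupport φ) (v : E n) :
    HasCompactSupport (fun x => fderiv ℝ φ x v) :=
  hc.fderiv_apply (𝕜 := ℝ) v

theorem cont_gradient {φ : E n → ℝ} (h : ContDiff ℝ 1 φ) : Continuous (gradient φ) := by
  unfold gradient
  exact (InnerProductSpace.toDual ℝ (E n)).symm.continuous.comp (cont_fderiv h)

theorem supp_gradient {φ : E n → ℝ} (hc : HasCompactSupport φ) :
    HasCompactSupport (gradient φ) := by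
  refine (hc.fderiv (𝕜 := ℝ)).mono fun x hx => ?_
  contrapose! hx
  rw [Function.mem_support, not_not] at hx ⊢
  simp [gradient, hx]

theorem one_of_smooth {φ : E n → ℝ} (h : ContDiff ℝ ((⊤ : ℕ∞) : WithTop ℕ∞) φ) :
    ContDiff ℝ 1 φ := h.of_le (by exact_mod_cast le_top)

/-- the left-hand side of the weak gradient identity is integrable -/
theorem int1 {u φ : E n → ℝ} (hu : Continuous u) (hφ : ContDiff ℝ 1 φ)
    (hc : HasCompactSupport φ) (v : E n) : Integrable (fun x => u x * fderiv ℝ φ x v) :=
  (hu.mul (cont_fderiv_apply hφ v)).integrable_of_hasCompactSupport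
    (supp_fderiv_apply hc v).mul_left

/-- the right-hand side of the weak gradient identity is integrable -/
theorem int2 {g : E n → E n} {φ : E n → ℝ} (hg : LocallyIntegrable g volume) (hφ : Continuous φ)
    (hc : HasCompactSupport φ) (v : E n) : Integrable (fun x => inner ℝ (g x) v * φ x) := by
  have h := (hg.integrable_smul_left_of_hasCompactSupport hφ hc).inner_const (𝕜 := ℝ) v
  refine h.congr (Eventually.of_forall fun x => ?_)
  simp only [real_inner_smul_left, mul_comm]

theorem weak_of_contDiff {u : E n → ℝ} (hu : ContDiff ℝ 1 u) : WeakGrad u (gradient u) := by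
  intro φ hφ hc v
  have hφ1 := one_of_smooth hφ
  simp only [inner_gradient']
  refine integral_mul_fderiv_eq_neg_fderiv_mul_of_integrable ?_ (int1 hu.continuous hφ1 hc v) ?_
    (fun x _ => (hu.differentiable (by simp)) x) (fun x _ => (hφ1.differentiable (by simp)) x)
  · exact ((cont_fderiv_apply hu v).mul hφ.continuous).integrable_of_hasCompactSupport
      hc.mul_left
  · exact (hu.continuous.mul hφ.continuous).integrable_of_hasCompactSupport hc.mul_left

end BasicsAux

open BasicsAux

theorem IsD.wg {p : ℝ} (hp : 1 ≤ p) {u : E n → ℝ} {g : E n → E n} (h : IsD p u g) : WG u g where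
  cont := h.cont
  locInt := h.memLp.locallyIntegrable (by
    rw [← ENNReal.ofReal_one]; exact ENNReal.ofReal_le_ofReal hp)
  weak := h.weak

theorem WG.add {u v : E n → ℝ} {g h : E n → E n} (hu : WG u g) (hv : WG v h) :
    WG (fun x => u x + v x) (fun x => g x + h x) where
  cont := hu.cont.add hv.cont
  locInt := hu.locInt.add hv.locInt
  weak := by
    intro φ hφ hc w
    have hφ1 := one_of_smooth hφ
    simp only [add_mul, inner_add_left]
    rw [integral_add (int1 hu.cont hφ1 hc w) (int1 hv.cont hφ1 hc w),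
      integral_add (int2 hu.locInt hφ.continuous hc w) (int2 hv.locInt hφ.continuous hc w),
      hu.weak φ hφ hc w, hv.weak φ hφ hc w]
    ring

theorem WG.const_mul {u : E n → ℝ} {g : E n → E n} (hu : WG u g) (c : ℝ) :
    WG (fun x => c * u x) (fun x => c • g x) where
  cont := continuous_const.mul hu.cont
  locInt := hu.locInt.smul c
  weak := by
    intro φ hφ hc w
    simp only [real_inner_smul_left, mul_assoc]
    rw [integral_const_mul, integral_const_mul, hu.weak φ hφ hc w]
    ring

theorem WG.sub {u v : E n → ℝ} {g h : E n → E n} (hu : WG u g) (hv : WG v h) :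
    WG (fun x => u x - v x) (fun x => g x - h x) := by
  have := hu.add (hv.const_mul (-1))
  simpa only [neg_mul, one_mul, neg_smul, one_smul, ← sub_eq_add_neg] using this

theorem WG.of_contDiff {u : E n → ℝ} (hu : ContDiff ℝ 1 u) : WG u (gradient u) where
  cont := hu.continuous
  locInt := (cont_gradient hu).locallyIntegrable
  weak := weak_of_contDiff hu

theorem WG.const (c : ℝ) : WG (fun _ : E n => c) (fun _ => 0) := by
  have h := WG.of_contDiff (n := n) (u := fun _ => c) contDiff_const
  have e : gradient (fun _ : E n => c) = fun _ => 0 := by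
    funext x
    exact gradient_fun_const' c |> fun h => congrFun h x
  rwa [e] at h

theorem WG.congr_ae {u : E n → ℝ} {g g' : E n → E n} (h : WG u g) (h' : g' =ᵐ[volume] g) :
    WG u g' where
  cont := h.cont
  locInt := h.locInt.congr h'.symm
  weak := by
    intro φ hφ hc w
    have : ∫ x, inner ℝ (g' x) w * φ x = ∫ x, inner ℝ (g x) w * φ x :=
      integral_congr_ae (h'.mono fun x hx => by simp only [hx])
    rw [this]
    exact h.weak φ hφ hc w

theorem WG.mul_smooth {u : E n → ℝ} {g : E n → E n} (hu : WG u g) {η : E n → ℝ}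
    (hη : ContDiff ℝ ((⊤ : ℕ∞) : WithTop ℕ∞) η) :
    WG (fun x => η x * u x) (fun x => η x • g x + u x • gradient η x) where
  cont := hη.continuous.mul hu.cont
  locInt := by
    refine LocallyIntegrable.add ?_ ?_
    · exact hu.locInt.continuous_smul hη.continuous
    · exact (hu.cont.smul (cont_gradient (one_of_smooth hη))).locallyIntegrable
  weak := by
    intro φ hφ hc w
    have hη1 := one_of_smooth hη
    have hφ1 := one_of_smooth hφ
    have hprod : ContDiff ℝ ((⊤ : ℕ∞) : WithTop ℕ∞) (fun x => η x * φ x) := hη.mul hφ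
    have hcp : HasCompactSupport (fun x => η x * φ x) := hc.mul_left
    have key := hu.weak _ hprod hcp w
    have e1 : ∀ x, fderiv ℝ (fun x => η x * φ x) x w =
        η x * fderiv ℝ φ x w + φ x * fderiv ℝ η x w := fun x => by
      rw [fderiv_fun_mul ((hη1.differentiable (by simp)) x) ((hφ1.differentiable (by simp)) x)]
      simp
    have i0 : Integrable (fun x => u x * fderiv ℝ (fun x => η x * φ x) x w) :=
      int1 hu.cont (one_of_smooth hprod) hcp w
    have i2 : Integrable (fun x => u x * (φ x * fderiv ℝ η x w)) :=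
      (hu.cont.mul (hφ.continuous.mul (cont_fderiv_apply hη1 w))).integrable_of_hasCompactSupport
        (hc.mul_right.mul_left)
    have i3 : Integrable (fun x => inner ℝ (g x) w * (η x * φ x)) :=
      int2 hu.locInt hprod.continuous hcp w
    have e2 : ∫ x, η x * u x * fderiv ℝ φ x w =
        (∫ x, u x * fderiv ℝ (fun x => η x * φ x) x w) - ∫ x, u x * (φ x * fderiv ℝ η x w) := by
      rw [← integral_sub i0 i2]
      refine integral_congr_ae (Eventually.of_forall fun x => ?_)
      simp only [e1 x]
      ring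
    have e3 : ∫ x, inner ℝ (η x • g x + u x • gradient η x) w * φ x =
        (∫ x, inner ℝ (g x) w * (η x * φ x)) + ∫ x, u x * (φ x * fderiv ℝ η x w) := by
      rw [← integral_add i3 i2]
      refine integral_congr_ae (Eventually.of_forall fun x => ?_)
      simp only [inner_add_left, real_inner_smul_left, inner_gradient']
      ring
    rw [e2, e3, key]
    ring

theorem WG.ae_eq {u : E n → ℝ} {g g' : E n → E n} (h : WG u g) (h' : WG u g') :
    g =ᵐ[volume] g' := by
  refine ae_eq_of_integral_contDiff_smul_eq h.locInt h'.locInt fun φ hφ hc => ?_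
  have i1 := h.locInt.integrable_smul_left_of_hasCompactSupport hφ.continuous hc
  have i2 := h'.locInt.integrable_smul_left_of_hasCompactSupport hφ.continuous hc
  refine ext_inner_left ℝ fun v => ?_
  rw [← integral_inner i1, ← integral_inner i2]
  have e : ∀ k : E n → E n, ∫ x, inner ℝ v (φ x • k x) = ∫ x, inner ℝ (k x) v * φ x := fun k =>
    integral_congr_ae (Eventually.of_forall fun x => by
      simp only [real_inner_smul_right, real_inner_comm v, mul_comm])
  rw [e, e]
  have a1 := h.weak φ hφ hc v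
  have a2 := h'.weak φ hφ hc v
  linarith

/-- testing with the radial field `ψ(x) (x - ζ)` -/
theorem WG.test_radial {u : E n → ℝ} {g : E n → E n} (hu : WG u g) {ψ : E n → ℝ}
    (hψ : ContDiff ℝ ((⊤ : ℕ∞) : WithTop ℕ∞) ψ) (hc : HasCompactSupport ψ) (ζ : E n) :
    ∫ x, inner ℝ (g x) (x - ζ) * ψ x =
      - ∫ x, u x * (fderiv ℝ ψ x (x - ζ) + n * ψ x) := by
  set e : Fin n → E n := fun i => EuclideanSpace.single i 1 with he
  have hψ1 := one_of_smooth hψ
  have hexp : ∀ y : E n, y = ∑ i, y i • e i := fun y => by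
    ext j
    simp [he, Pi.single_apply]
  set θ : Fin n → E n → ℝ := fun i x => (x i - ζ i) * ψ x with hθ
  have hcoord : ∀ i, ContDiff ℝ ((⊤ : ℕ∞) : WithTop ℕ∞) (fun x : E n => x i - ζ i) := fun i =>
    ((EuclideanSpace.proj i : E n →L[ℝ] ℝ).contDiff).sub contDiff_const
  have hθs : ∀ i, ContDiff ℝ ((⊤ : ℕ∞) : WithTop ℕ∞) (θ i) := fun i => (hcoord i).mul hψ
  have hθc : ∀ i, HasCompactSupport (θ i) := fun i => hc.mul_left
  have hd : ∀ i x, fderiv ℝ (θ i) x (e i) = (x i - ζ i) * fderiv ℝ ψ x (e i) + ψ x := by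
    intro i x
    have h1 : HasFDerivAt (fun x : E n => x i - ζ i) (EuclideanSpace.proj i : E n →L[ℝ] ℝ) x :=
      ((EuclideanSpace.proj i : E n →L[ℝ] ℝ).hasFDerivAt).sub_const _
    have h2 := h1.mul ((hψ1.differentiable (by simp)) x).hasFDerivAt
    have h3 : fderiv ℝ (θ i) x = _ := h2.fderiv
    rw [h3]
    simp [he]
  have key : ∀ i, ∫ x, u x * fderiv ℝ (θ i) x (e i) = - ∫ x, inner ℝ (g x) (e i) * θ i x :=
    fun i => hu.weak (θ i) (hθs i) (hθc i) (e i)
  have hs : (∑ i, ∫ x, inner ℝ (g x) (e i) * θ i x) =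
      ∫ x, inner ℝ (g x) (x - ζ) * ψ x := by
    rw [← integral_finsetSum _ fun i _ => int2 hu.locInt (hθs i).continuous (hθc i) (e i)]
    refine integral_congr_ae (Eventually.of_forall fun x => ?_)
    simp only
    conv_rhs => rw [hexp (x - ζ), inner_sum, Finset.sum_mul]
    refine Finset.sum_congr rfl fun i _ => ?_
    rw [real_inner_smul_right, hθ]
    simp only [PiLp.sub_apply]
    ring
  have hs' : (∑ i, ∫ x, u x * fderiv ℝ (θ i) x (e i)) =
      ∫ x, u x * (fderiv ℝ ψ x (x - ζ) + n * ψ x) := by
    rw [← integral_finsetSum _ fun i _ => int1 hu.cont (one_of_smooth (hθs i)) (hθc i) (e i)]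
    refine integral_congr_ae (Eventually.of_forall fun x => ?_)
    simp only [hd]
    rw [← Finset.mul_sum, Finset.sum_add_distrib]
    congr 2
    · conv_rhs => rw [hexp (x - ζ), map_sum]
      refine Finset.sum_congr rfl fun i _ => ?_
      rw [map_smul, smul_eq_mul, PiLp.sub_apply]
    · simp
  rw [← hs, ← hs', ← Finset.sum_neg_distrib]
  refine Finset.sum_congr rfl fun i _ => ?_
  rw [key i, neg_neg]

theorem IsD.congr_ae {p : ℝ} {u : E n → ℝ} {g g' : E n → E n} (h : IsD p u g)
    (h' : g' =ᵐ[volume] g) : IsD p u g' where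
  cont := h.cont
  memLp := h.memLp.ae_eq h'.symm
  weak := by
    intro φ hφ hc w
    have : ∫ x, inner ℝ (g' x) w * φ x = ∫ x, inner ℝ (g x) w * φ x :=
      integral_congr_ae (h'.mono fun x hx => by simp only [hx])
    rw [this]
    exact h.weak φ hφ hc w

theorem IsD.add {p : ℝ} (hp : 1 ≤ p) {u v : E n → ℝ} {g h : E n → E n} (hu : IsD p u g)
    (hv : IsD p v h) : IsD p (fun x => u x + v x) (fun x => g x + h x) where
  cont := hu.cont.add hv.cont
  memLp := hu.memLp.add hv.memLp
  weak := ((hu.wg hp).add (hv.wg hp)).weak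

theorem IsD.sub {p : ℝ} (hp : 1 ≤ p) {u v : E n → ℝ} {g h : E n → E n} (hu : IsD p u g)
    (hv : IsD p v h) : IsD p (fun x => u x - v x) (fun x => g x - h x) where
  cont := hu.cont.sub hv.cont
  memLp := hu.memLp.sub hv.memLp
  weak := ((hu.wg hp).sub (hv.wg hp)).weak

theorem IsD.const_mul {p : ℝ} (hp : 1 ≤ p) {u : E n → ℝ} {g : E n → E n} (hu : IsD p u g) (c : ℝ) :
    IsD p (fun x => c * u x) (fun x => c • g x) where
  cont := continuous_const.mul hu.cont
  memLp := hu.memLp.const_smul c
  weak := ((hu.wg hp).const_mul c).weak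

/-- finite energy -/
theorem IsD.integrable_rpow {p : ℝ} (hp : 0 < p) {u : E n → ℝ} {g : E n → E n} (hu : IsD p u g) :
    Integrable (fun x => ‖g x‖ ^ p) volume := by
  have h := hu.memLp.integrable_norm_rpow (by simpa using hp) ENNReal.ofReal_ne_top
  rwa [ENNReal.toReal_ofReal hp.le] at h

/-- smooth compactly supported functions -/
theorem IsD.of_contDiff {p : ℝ} {u : E n → ℝ} (hu : ContDiff ℝ 1 u)
    (hc : HasCompactSupport u) : IsD p u (gradient u) where
  cont := hu.continuous
  memLp := (cont_gradient hu).memLp_of_hasCompactSupport (supp_gradient hc)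
  weak := weak_of_contDiff hu

theorem IsD0.mono {p : ℝ} {Ω Ω' : Set (E n)} (h : Ω ⊆ Ω') {u : E n → ℝ} {g : E n → E n}
    (hu : IsD0 p Ω u g) : IsD0 p Ω' u g where
  isD := hu.isD
  zero := fun x hx => hu.zero x fun hx' => hx (h hx')

end HMor
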