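import Pool.Agent.W_MP_55e37b_an.Defs
import Pool.Agent.W_MP_55e37b_an.Basics

open MeasureTheory Metric Set Filter Topology
open scoped ENNReal Convolution

namespace HMor

variable {n : ℕ}

namespace Mollify

/-- the bump function -/
noncomputable def bump (n k : ℕ) : ContDiffBump (0 : E n) where
  rIn := 1 / ((k : ℝ) + 2)
  rOut := 2 / ((k : ℝ) + 2)
  rIn_pos := by positivity
  rIn_lt_rOut := by
    have : (0 : ℝ) < (k : ℝ) + 2 := by positivity
    exact (div_lt_div_iff_of_pos_right this).2 one_lt_two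

theorem bump_rOut (n k : ℕ) : (bump n k).rOut = 2 / ((k : ℝ) + 2) := rfl

theorem bump_rOut_le (n k : ℕ) : (bump n k).rOut ≤ 1 := by
  rw [bump_rOut, div_le_one (by positivity)]
  have : (0 : ℝ) ≤ k := Nat.cast_nonneg k
  linarith

theorem tendsto_rOut (n : ℕ) : Tendsto (fun k => (bump n k).rOut) atTop (𝓝 0) := by
  have h : Tendsto (fun k : ℕ => ((k : ℝ) + 2)) atTop atTop :=
    tendsto_atTop_add_const_right _ _ tendsto_natCast_atTop_atTop
  simpa [bump_rOut] using h.const_div_atTop 2

/-- the kernel -/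
noncomputable def ker (n k : ℕ) : E n → ℝ := (bump n k).normed volume

theorem ker_nonneg (k : ℕ) (x : E n) : 0 ≤ ker n k x := (bump n k).nonneg_normed x

theorem ker_contDiff (k : ℕ) : ContDiff ℝ ((⊤ : ℕ∞) : WithTop ℕ∞) (ker n k) :=
  (bump n k).contDiff_normed

theorem ker_hcs (k : ℕ) : HasCompactSupport (ker n k) := (bump n k).hasCompactSupport_normed

theorem ker_continuous (k : ℕ) : Continuous (ker n k) := (bump n k).continuous_normed

theorem ker_integral (k : ℕ) : ∫ x, ker n k x = 1 := (bump n k).integral_normed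

theorem ker_integrable (k : ℕ) : Integrable (ker n k) := (bump n k).integrable_normed

theorem ker_eq_zero {k : ℕ} {x : E n} (hx : (bump n k).rOut ≤ ‖x‖) : ker n k x = 0 := by
  by_contra h
  have : x ∈ Function.support (ker n k) := h
  rw [ker, ContDiffBump.support_normed_eq, mem_ball_zero_iff] at this
  linarith

theorem ker_lintegral (k : ℕ) : ∫⁻ x, ENNReal.ofReal (ker n k x) = 1 := by
  rw [← ofReal_integral_eq_lintegral_ofReal (ker_integrable k) (ae_of_all _ (ker_nonneg k)),
    ker_integral, ENNReal.ofReal_one]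

/-- the probability measure with density `ker` -/
noncomputable def kerm (n k : ℕ) : Measure (E n) :=
  volume.withDensity (fun x => ENNReal.ofReal (ker n k x))

instance (k : ℕ) : IsProbabilityMeasure (kerm n k) := by
  constructor
  rw [kerm, withDensity_apply _ MeasurableSet.univ, Measure.restrict_univ, ker_lintegral]

variable {F : Type*} [NormedAddCommGroup F] [NormedSpace ℝ F]

/-- mollification -/
noncomputable def moll (k : ℕ) (f : E n → F) : E n → F := fun x => ∫ t, ker n k t • f (x - t)

theorem moll_eq (k : ℕ) (f : E n → F) :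
    moll k f = (ker n k ⋆[ContinuousLinearMap.lsmul ℝ ℝ, volume] f : E n → F) := rfl

theorem moll_congr (k : ℕ) {f f' : E n → F} (h : f =ᵐ[volume] f') : moll k f = moll k f' := by
  rw [moll_eq, moll_eq]
  exact convolution_congr _ (EventuallyEq.refl _ _) h

theorem enorm_moll_le (k : ℕ) (f : E n → F) (x : E n) :
    ‖moll k f x‖ₑ ≤ ∫⁻ t, ‖f (x - t)‖ₑ ∂(kerm n k) := by
  rw [kerm, lintegral_withDensity_eq_lintegral_mul_non_measurable₀ _
    ((ker_continuous k).measurable.ennreal_ofReal.aemeasurable)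
    (ae_of_all _ (fun x => ENNReal.ofReal_lt_top))]
  refine (enorm_integral_le_lintegral_enorm _).trans (le_of_eq ?_)
  refine lintegral_congr fun t => ?_
  rw [enorm_smul, Pi.mul_apply, Real.enorm_eq_ofReal (ker_nonneg k t)]

theorem jensen_aux {α : Type*} [MeasurableSpace α] {μ : Measure α} [IsProbabilityMeasure μ]
    {f : α → ℝ≥0∞} (hf : AEMeasurable f μ) {q : ℝ} (hq : 1 ≤ q) :
    (∫⁻ x, f x ∂μ) ^ q ≤ ∫⁻ x, f x ^ q ∂μ := by
  rcases hq.eq_or_lt with h | h
  · simp [← h]
  · have hpq : q.HolderConjugate (q / (q - 1)) := Real.HolderConjugate.conjExponent h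
    have := ENNReal.lintegral_mul_le_Lp_mul_Lq μ hpq hf (aemeasurable_const (b := (1 : ℝ≥0∞)))
    simp only [Pi.mul_apply, mul_one, ENNReal.one_rpow, lintegral_const, measure_univ] at this
    calc (∫⁻ x, f x ∂μ) ^ q ≤ ((∫⁻ x, f x ^ q ∂μ) ^ (1 / q)) ^ q :=
          ENNReal.rpow_le_rpow this (by linarith)
      _ = ∫⁻ x, f x ^ q ∂μ := by
          rw [← ENNReal.rpow_mul, one_div, inv_mul_cancel₀ (by linarith), ENNReal.rpow_one]

/-- Young's inequality for the probability kernel. -/
theorem lintegral_moll_le (k : ℕ) {f : E n → F} (hf : AEStronglyMeasurable f volume) {q : ℝ}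
    (hq : 1 ≤ q) : ∫⁻ x, ‖moll k f x‖ₑ ^ q ≤ ∫⁻ x, ‖f x‖ₑ ^ q := by
  obtain ⟨f', hf', hff⟩ := hf
  rw [moll_congr k hff]
  have hR : ∫⁻ x, ‖f x‖ₑ ^ q = ∫⁻ x, ‖f' x‖ₑ ^ q :=
    lintegral_congr_ae (hff.mono fun x hx => by simp only [hx])
  rw [hR]
  have hm : Measurable (fun x => ‖f' x‖ₑ) := hf'.enorm
  calc ∫⁻ x, ‖moll k f' x‖ₑ ^ q
      ≤ ∫⁻ x, (∫⁻ t, ‖f' (x - t)‖ₑ ∂(kerm n k)) ^ q :=
        lintegral_mono fun x => ENNReal.rpow_le_rpow (enorm_moll_le k f' x) (by linarith)
    _ ≤ ∫⁻ x, ∫⁻ t, ‖f' (x - t)‖ₑ ^ q ∂(kerm n k) :=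
        lintegral_mono fun x => jensen_aux
          (hm.comp (measurable_const.sub measurable_id)).aemeasurable hq
    _ = ∫⁻ t, ∫⁻ x, ‖f' (x - t)‖ₑ ^ q ∂(volume : Measure (E n)) ∂(kerm n k) := by
        apply lintegral_lintegral_swap
        exact ((hm.comp (measurable_fst.sub measurable_snd)).pow_const q).aemeasurable
    _ = ∫⁻ _t, ∫⁻ x, ‖f' x‖ₑ ^ q ∂(volume : Measure (E n)) ∂(kerm n k) := by
        refine lintegral_congr fun t => ?_
        exact lintegral_sub_right_eq_self (fun x => ‖f' x‖ₑ ^ q) t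
    _ = ∫⁻ x, ‖f' x‖ₑ ^ q := by simp

theorem moll_continuous (k : ℕ) {f : E n → F} (hf : LocallyIntegrable f volume) :
    Continuous (moll k f) := by
  rw [moll_eq]
  exact (ker_hcs k).continuous_convolution_left _ (ker_continuous k) hf

theorem eLpNorm_moll_le (k : ℕ) {f : E n → F} (hf : AEStronglyMeasurable f volume) {q : ℝ}
    (hq : 1 ≤ q) : eLpNorm (moll k f) (ENNReal.ofReal q) volume ≤
      eLpNorm f (ENNReal.ofReal q) volume := by
  have hq0 : ENNReal.ofReal q ≠ 0 := by
    rw [Ne, ENNReal.ofReal_eq_zero]; linarith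
  rw [eLpNorm_eq_lintegral_rpow_enorm_toReal hq0 ENNReal.ofReal_ne_top,
    eLpNorm_eq_lintegral_rpow_enorm_toReal hq0 ENNReal.ofReal_ne_top,
    ENNReal.toReal_ofReal (by linarith)]
  exact ENNReal.rpow_le_rpow (lintegral_moll_le k hf hq) (by positivity)

theorem moll_dist_le [CompleteSpace F] (k : ℕ) {f : E n → F}
    (hf : AEStronglyMeasurable f volume) {x : E n} {ε : ℝ}
    (h : ∀ y ∈ ball x (bump n k).rOut, dist (f y) (f x) ≤ ε) : dist (moll k f x) (f x) ≤ ε :=
  (bump n k).dist_normed_convolution_le hf h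

theorem tendstoUniformlyOn_moll [CompleteSpace F] {f : E n → F} (hf : Continuous f)
    {K : Set (E n)} (hK : IsCompact K) :
    TendstoUniformlyOn (fun k => moll k f) f atTop K := by
  rw [Metric.tendstoUniformlyOn_iff]
  intro ε hε
  have hu : UniformContinuousOn f (cthickening 1 K) :=
    hK.cthickening.uniformContinuousOn_of_continuous hf.continuousOn
  rcases Metric.uniformContinuousOn_iff.mp hu (ε / 2) (half_pos hε) with ⟨δ, hδ, hfδ⟩
  have h1 : ∀ᶠ k in atTop, (bump n k).rOut < δ := (tendsto_rOut n).eventually (gt_mem_nhds hδ)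
  filter_upwards [h1] with k hk x hx
  rw [dist_comm]
  refine (moll_dist_le k hf.aestronglyMeasurable fun y hy => ?_).trans_lt (half_lt_self hε)
  have hy' : dist y x < (bump n k).rOut := hy
  exact (hfδ y (mem_cthickening_of_dist_le _ x _ _ hx (hy'.le.trans (bump_rOut_le n k)))
    x (self_subset_cthickening _ hx) (hy'.trans hk)).le

theorem tendsto_moll_cc [CompleteSpace F] {f : E n → F} (hf : Continuous f)
    (hc : HasCompactSupport f) {p : ℝ} (hp : 1 ≤ p) :
    Tendsto (fun k => eLpNorm (moll k f - f) (ENNReal.ofReal p) volume) atTop (𝓝 0) := by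
  have hp0 : ENNReal.ofReal p ≠ 0 := by
    rw [Ne, ENNReal.ofReal_eq_zero]; linarith
  set K : Set (E n) := cthickening 1 (tsupport f) with hKdef
  have hK : IsCompact K := hc.isCompact.cthickening
  have hKm : MeasurableSet K := hK.measurableSet
  have hKfin : volume K ^ (1 / (ENNReal.ofReal p).toReal) ≠ ∞ :=
    ENNReal.rpow_ne_top_of_nonneg (by positivity) hK.measure_lt_top.ne
  rw [ENNReal.tendsto_nhds_zero]
  intro ε hε
  obtain ⟨a, ha, haε⟩ := ENNReal.exists_nnreal_pos_mul_lt hKfin hε.ne'
  have h1 := Metric.tendstoUniformlyOn_iff.1 (tendstoUniformlyOn_moll hf hK) a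
    (by exact_mod_cast ha)
  filter_upwards [h1] with k hk
  have h2 : ∀ x, ‖(moll k f - f) x‖ ≤ ‖K.indicator (fun _ => (a : ℝ)) x‖ := by
    intro x
    by_cases hx : x ∈ K
    · rw [indicator_of_mem hx, Pi.sub_apply, ← dist_eq_norm, dist_comm]
      exact (hk x hx).le.trans (Real.le_norm_self _)
    · rw [indicator_of_notMem hx, norm_zero, Pi.sub_apply, ← dist_eq_norm]
      refine moll_dist_le k hf.aestronglyMeasurable fun y hy => ?_
      have hz : ∀ z, dist z x < 1 → f z = 0 := by
        intro z hz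
        by_contra hne
        apply hx
        refine mem_cthickening_of_dist_le x z _ _ (subset_tsupport f hne) ?_
        rw [dist_comm]; exact hz.le
      have hy' : dist y x < (bump n k).rOut := hy
      rw [hz y (hy'.trans_le (bump_rOut_le n k)), hz x (by simp), dist_self]
  refine (eLpNorm_mono h2).trans ?_
  rw [eLpNorm_indicator_const hKm hp0 ENNReal.ofReal_ne_top]
  have h3 : ‖(a : ℝ)‖ₑ = (a : ℝ≥0∞) := by
    rw [Real.enorm_eq_ofReal (NNReal.coe_nonneg a), ENNReal.ofReal_coe_nnreal]
  rw [h3]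
  exact haε.le

theorem moll_sub (k : ℕ) {f h : E n → F} (hf : LocallyIntegrable f volume)
    (hh : LocallyIntegrable h volume) : moll k (f - h) = moll k f - moll k h := by
  ext x
  have h1 := (ker_hcs (n := n) k).convolutionExists_left (ContinuousLinearMap.lsmul ℝ ℝ)
    (ker_continuous k) hf x
  have h2 := (ker_hcs (n := n) k).convolutionExists_left (ContinuousLinearMap.lsmul ℝ ℝ)
    (ker_continuous k) hh x
  have h1' : Integrable (fun t => ker n k t • f (x - t)) volume := h1
  have h2' : Integrable (fun t => ker n k t • h (x - t)) volume := h2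
  simp only [moll, Pi.sub_apply]
  rw [← integral_sub h1' h2']
  refine integral_congr_ae (ae_of_all _ fun t => ?_)
  simp [smul_sub]

theorem tendsto_moll_Lp [CompleteSpace F] {f : E n → F} {p : ℝ} (hp : 1 ≤ p)
    (hf : MemLp f (ENNReal.ofReal p) volume) :
    Tendsto (fun k => eLpNorm (moll k f - f) (ENNReal.ofReal p) volume) atTop (𝓝 0) := by
  have hp1 : 1 ≤ ENNReal.ofReal p := ENNReal.one_le_ofReal.2 hp
  rw [ENNReal.tendsto_nhds_zero]
  intro ε hε
  have hε3 : ε / 3 ≠ 0 := by
    simp [ENNReal.div_eq_zero_iff, hε.ne']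
  obtain ⟨h, hcs, hle, hcont, hmem⟩ :=
    hf.exists_hasCompactSupport_eLpNorm_sub_le ENNReal.ofReal_ne_top hε3
  have h1 := (ENNReal.tendsto_nhds_zero.1 (tendsto_moll_cc hcont hcs hp)) (ε / 3)
    (pos_iff_ne_zero.2 hε3)
  filter_upwards [h1] with k hk
  have hfl : LocallyIntegrable f volume := hf.locallyIntegrable hp1
  have hhl : LocallyIntegrable h volume := hmem.locallyIntegrable hp1
  have e1 : moll k f - f = moll k (f - h) + ((moll k h - h) + (h - f)) := by
    rw [moll_sub k hfl hhl]; abel
  have m1 : AEStronglyMeasurable (moll k (f - h)) volume :=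
    (moll_continuous k (hfl.sub hhl)).aestronglyMeasurable
  have m2 : AEStronglyMeasurable (moll k h - h) volume :=
    ((moll_continuous k hhl).sub hcont).aestronglyMeasurable
  have m3 : AEStronglyMeasurable (h - f) volume := (hmem.sub hf).aestronglyMeasurable
  rw [e1]
  calc eLpNorm (moll k (f - h) + ((moll k h - h) + (h - f))) (ENNReal.ofReal p) volume
      ≤ eLpNorm (moll k (f - h)) (ENNReal.ofReal p) volume +
        eLpNorm ((moll k h - h) + (h - f)) (ENNReal.ofReal p) volume :=
        eLpNorm_add_le m1 (m2.add m3) hp1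
    _ ≤ eLpNorm (moll k (f - h)) (ENNReal.ofReal p) volume +
        (eLpNorm (moll k h - h) (ENNReal.ofReal p) volume +
          eLpNorm (h - f) (ENNReal.ofReal p) volume) := by
        gcongr
        exact eLpNorm_add_le m2 m3 hp1
    _ ≤ ε / 3 + (ε / 3 + ε / 3) := by
        gcongr
        · exact (eLpNorm_moll_le k (hf.sub hmem).aestronglyMeasurable hp).trans hle
        · rw [eLpNorm_sub_comm]; exact hle
    _ = ε := by
        rw [← add_assoc, ENNReal.add_thirds]

theorem moll_congr_of_ball (k : ℕ) {f f' : E n → F} {x : E n}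
    (h : ∀ y, ‖y - x‖ ≤ 1 → f y = f' y) : moll k f x = moll k f' x := by
  simp only [moll]
  refine integral_congr_ae (ae_of_all _ fun t => ?_)
  by_cases ht : (bump n k).rOut ≤ ‖t‖
  · simp [ker_eq_zero ht]
  · have : f (x - t) = f' (x - t) := h _ (by
      have h1 : x - t - x = -t := by abel
      rw [h1, norm_neg]
      exact (not_le.1 ht).le.trans (bump_rOut_le n k))
    simp only [this]

theorem tendsto_moll_loc [CompleteSpace F] {f : E n → F} (hf : LocallyIntegrable f volume)
    {K : Set (E n)} (hK : IsCompact K) :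
    Tendsto (fun k => ∫ x in K, ‖moll k f x - f x‖) atTop (𝓝 0) := by
  set K' : Set (E n) := cthickening 1 K with hK'def
  have hK' : IsCompact K' := hK.cthickening
  set f' : E n → F := K'.indicator f with hf'
  have hf'i : Integrable f' volume := by
    rw [hf', integrable_indicator_iff hK'.measurableSet]
    exact hf.integrableOn_isCompact hK'
  have hmem : MemLp f' (ENNReal.ofReal 1) volume := by
    rw [ENNReal.ofReal_one, memLp_one_iff_integrable]; exact hf'i
  have h1 := tendsto_moll_Lp le_rfl hmem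
  have h2 : ∀ k, AEStronglyMeasurable (moll k f' - f') volume := fun k =>
    (moll_continuous k hf'i.locallyIntegrable).aestronglyMeasurable.sub
      hf'i.aestronglyMeasurable
  have h3 : Tendsto (fun k => ∫ x, ‖(moll k f' - f') x‖) atTop (𝓝 0) := by
    have h4 : Tendsto (fun k => (eLpNorm (moll k f' - f') (ENNReal.ofReal 1) volume).toReal)
        atTop (𝓝 0) := by
      have h5 := (ENNReal.tendsto_toReal (a := 0) ENNReal.zero_ne_top).comp h1
      rw [ENNReal.toReal_zero] at h5
      exact h5
    refine h4.congr fun k => ?_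
    rw [ENNReal.ofReal_one, eLpNorm_one_eq_lintegral_enorm,
      integral_norm_eq_lintegral_enorm (h2 k)]
  have hev : ∀ᶠ k in atTop, Integrable (moll k f' - f') volume := by
    have := (ENNReal.tendsto_nhds_zero.1 h1) 1 one_pos
    filter_upwards [this] with k hk
    rw [← memLp_one_iff_integrable, ← ENNReal.ofReal_one]
    exact ⟨h2 k, hk.trans_lt ENNReal.one_lt_top⟩
  refine squeeze_zero' (Eventually.of_forall fun k => integral_nonneg fun x => norm_nonneg _)
    ?_ h3
  filter_upwards [hev] with k hk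
  have e1 : ∫ x in K, ‖moll k f x - f x‖ = ∫ x in K, ‖(moll k f' - f') x‖ := by
    refine setIntegral_congr_fun hK.measurableSet fun x hx => ?_
    have hx' : ∀ y, ‖y - x‖ ≤ 1 → f y = f' y := by
      intro y hy
      rw [hf', indicator_of_mem]
      exact mem_cthickening_of_dist_le y x _ _ hx (by rwa [dist_eq_norm])
    simp only [Pi.sub_apply]
    rw [moll_congr_of_ball k hx', hx' x (by simp)]
  rw [e1]
  exact setIntegral_le_integral hk.norm (ae_of_all _ fun x => norm_nonneg _)

theorem gradient_moll {u : E n → ℝ} {g : E n → E n} (hu : LocallyIntegrable u volume)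
    (hg : LocallyIntegrable g volume) (hw : WeakGrad u g) (k : ℕ) (x : E n) :
    gradient (moll k u) x = moll k g x := by
  have hκ1 : ContDiff ℝ 1 (ker n k) := (ker_contDiff k).of_le (by simp)
  have hd : HasFDerivAt (moll k u)
      ((fderiv ℝ (ker n k) ⋆[(ContinuousLinearMap.lsmul ℝ ℝ).precompL (E n), volume] u) x) x := by
    rw [moll_eq]
    exact (ker_hcs k).hasFDerivAt_convolution_left _ hκ1 hu x
  have hex := ((ker_hcs (n := n) k).fderiv ℝ).convolutionExists_left
    ((ContinuousLinearMap.lsmul ℝ ℝ).precompL (E n)) (hκ1.continuous_fderiv one_ne_zero) hu x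
  have hgex : Integrable (fun t => ker n k t • g (x - t)) volume :=
    (ker_hcs (n := n) k).convolutionExists_left (ContinuousLinearMap.lsmul ℝ ℝ)
      (ker_continuous k) hg x
  -- the test function
  set ψ : E n → ℝ := fun s => ker n k (x - s) with hψ
  have hψc : ContDiff ℝ ((⊤ : ℕ∞) : WithTop ℕ∞) ψ :=
    (ker_contDiff k).comp (contDiff_const.sub contDiff_id)
  have hψs : HasCompactSupport ψ := by
    have := (ker_hcs (n := n) k).comp_homeomorph (Homeomorph.subLeft x)
    exact this
  have hψd : ∀ s v, fderiv ℝ ψ s v = - fderiv ℝ (ker n k) (x - s) v := by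
    intro s v
    have h1 : HasFDerivAt (ker n k) (fderiv ℝ (ker n k) (x - s)) (x - s) :=
      ((hκ1.differentiable one_ne_zero) _).hasFDerivAt
    have h2 : HasFDerivAt (fun s : E n => x - s) (-(ContinuousLinearMap.id ℝ (E n))) s := by
      have h5 := (hasFDerivAt_const x s).sub (hasFDerivAt_id (𝕜 := ℝ) s)
      rw [zero_sub] at h5
      exact h5
    have h3 := h1.comp s h2
    have h4 : fderiv ℝ ψ s = (fderiv ℝ (ker n k) (x - s)).comp
        (-(ContinuousLinearMap.id ℝ (E n))) := h3.fderiv
    rw [h4]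
    simp
  have key : ∀ v, fderiv ℝ (moll k u) x v = inner ℝ (moll k g x) v := by
    intro v
    rw [hd.fderiv]
    have e1 : ((fderiv ℝ (ker n k) ⋆[(ContinuousLinearMap.lsmul ℝ ℝ).precompL (E n), volume] u) x)
        v = ∫ t, fderiv ℝ (ker n k) t v * u (x - t) := by
      rw [convolution_def, ContinuousLinearMap.integral_apply hex]
      rfl
    have e2 : ∫ t, fderiv ℝ (ker n k) t v * u (x - t) =
        ∫ s, fderiv ℝ (ker n k) (x - s) v * u s := by
      rw [← integral_sub_left_eq_self (fun t => fderiv ℝ (ker n k) t v * u (x - t)) volume x]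
      simp
    have e3 : ∫ s, fderiv ℝ (ker n k) (x - s) v * u s = - ∫ s, u s * fderiv ℝ ψ s v := by
      rw [← integral_neg]
      refine integral_congr_ae (ae_of_all _ fun s => ?_)
      simp only [hψd s v]
      ring
    have e4 : ∫ s, inner ℝ (g s) v * ψ s = ∫ t, inner ℝ (ker n k t • g (x - t)) v := by
      rw [← integral_sub_left_eq_self (fun s => inner ℝ (g s) v * ψ s) volume x]
      refine integral_congr_ae (ae_of_all _ fun s => ?_)
      simp only [hψ, sub_sub_cancel, inner_smul_left, conj_trivial]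
      ring
    have e5 : ∫ t, inner ℝ (ker n k t • g (x - t)) v = inner ℝ (moll k g x) v := by
      have h6 := integral_inner (𝕜 := ℝ) hgex v
      rw [moll, real_inner_comm, ← h6]
      exact integral_congr_ae (ae_of_all _ fun t => real_inner_comm _ _)
    rw [e1, e2, e3, hw ψ hψc hψs v, neg_neg, e4, e5]
  rw [gradient]
  apply ext_inner_right ℝ
  intro v
  rw [InnerProductSpace.toDual_symm_apply, key v]

end Mollify

open Mollify

/-- Mollification: smooth approximations of a function with a weak gradient. -/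
theorem WG.exists_approx {u : E n → ℝ} {g : E n → E n} (h : WG u g) :
    ∃ w : ℕ → E n → ℝ, (∀ k, ContDiff ℝ ((⊤ : ℕ∞) : WithTop ℕ∞) (w k)) ∧
      (∀ K : Set (E n), IsCompact K → TendstoUniformlyOn w u atTop K) ∧
      (∀ K : Set (E n), IsCompact K →
        Tendsto (fun k => ∫ x in K, ‖gradient (w k) x - g x‖) atTop (𝓝 0)) := by
  refine ⟨fun k => moll k u, fun k => ?_, fun K hK => tendstoUniformlyOn_moll h.cont hK,
    fun K hK => ?_⟩
  · simp only [moll_eq]
    exact (ker_hcs k).contDiff_convolution_left _ (ker_contDiff k) h.cont.locallyIntegrable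
  · simp only [gradient_moll h.cont.locallyIntegrable h.locInt h.weak]
    exact tendsto_moll_loc h.locInt hK

/-- Mollification, `L^p` version. -/
theorem IsD.exists_approx {p : ℝ} (hp : 1 ≤ p) {u : E n → ℝ} {g : E n → E n} (h : IsD p u g) :
    ∃ w : ℕ → E n → ℝ, (∀ k, ContDiff ℝ ((⊤ : ℕ∞) : WithTop ℕ∞) (w k)) ∧
      (∀ K : Set (E n), IsCompact K → TendstoUniformlyOn w u atTop K) ∧
      Tendsto (fun k => eLpNorm (fun x => gradient (w k) x - g x) (ENNReal.ofReal p) volume)
        atTop (𝓝 0) := by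
  refine ⟨fun k => moll k u, fun k => ?_, fun K hK => tendstoUniformlyOn_moll h.cont hK, ?_⟩
  · simp only [moll_eq]
    exact (ker_hcs k).contDiff_convolution_left _ (ker_contDiff k) h.cont.locallyIntegrable
  · have hl : LocallyIntegrable g volume :=
      h.memLp.locallyIntegrable (ENNReal.one_le_ofReal.2 hp)
    simp only [gradient_moll h.cont.locallyIntegrable hl h.weak]
    exact tendsto_moll_Lp hp h.memLp

end HMor
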