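import Pool.Agent.W_MP_55e37b_an.Defs
import Pool.Agent.W_MP_55e37b_an.Basics
import Pool.Agent.W_MP_55e37b_an.Moll

open MeasureTheory Metric Set Filter Topology
open scoped ENNReal

namespace HMor

variable {n : ℕ}

private lemma inner_gradient' (f : E n → ℝ) (x v : E n) :
    inner ℝ (gradient f x) v = fderiv ℝ f x v := by
  unfold gradient
  exact InnerProductSpace.toDual_symm_apply

private lemma fderiv_comp' {F : ℝ → ℝ} (hF : ContDiff ℝ 1 F) {w : E n → ℝ}
    (hw : ContDiff ℝ 1 w) (x v : E n) :
    fderiv ℝ (fun x => F (w x)) x v = deriv F (w x) * fderiv ℝ w x v := by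
  have h1 : HasDerivAt F (deriv F (w x)) (w x) :=
    ((hF.differentiable one_ne_zero) (w x)).hasDerivAt
  have h2 : HasFDerivAt w (fderiv ℝ w x) x :=
    ((hw.differentiable one_ne_zero) x).hasFDerivAt
  have h3 := (h1.comp_hasFDerivAt x h2).fderiv
  have h4 : (fun x => F (w x)) = F ∘ w := rfl
  rw [h4, h3]
  simp

private lemma lip_of_deriv {F : ℝ → ℝ} (hF : ContDiff ℝ 1 F) (hb : ∀ t, |deriv F t| ≤ 1)
    (s t : ℝ) : |F s - F t| ≤ |s - t| := by
  have h := Convex.norm_image_sub_le_of_norm_deriv_le (f := F) (C := 1) (s := univ)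
    (x := t) (y := s) (fun x _ => (hF.differentiable one_ne_zero) x)
    (fun x _ => by simpa using hb x) convex_univ (mem_univ _) (mem_univ _)
  simpa using h

theorem WG.comp_C1 {u : E n → ℝ} {g : E n → E n} (hu : WG u g) {F : ℝ → ℝ}
    (hF : ContDiff ℝ 1 F) (hb : ∀ t, |deriv F t| ≤ 1) :
    WG (fun x => F (u x)) (fun x => deriv F (u x) • g x) := by
  have hdc : Continuous (deriv F) := hF.continuous_deriv le_rfl
  refine ⟨hF.continuous.comp hu.cont, ?_, ?_⟩
  · refine hu.locInt.mono ?_ ?_
    · exact (hdc.comp hu.cont).aestronglyMeasurable.smul hu.locInt.aestronglyMeasurable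
    · filter_upwards with x
      rw [norm_smul]
      calc ‖deriv F (u x)‖ * ‖g x‖ ≤ 1 * ‖g x‖ := by
            gcongr
            simpa using hb (u x)
        _ = ‖g x‖ := one_mul _
  · intro φ hφ hφc v
    obtain ⟨w, hw1, hw2, hw3⟩ := hu.exists_approx
    set K := tsupport φ with hK
    have hKc : IsCompact K := hφc
    have hφ1 : ContDiff ℝ 1 φ := hφ.of_le (by exact_mod_cast le_top)
    have hdφ : Continuous (fun x => fderiv ℝ φ x v) :=
      (hφ1.continuous_fderiv one_ne_zero).clm_apply continuous_const
    have hdφc : HasCompactSupport (fun x => fderiv ℝ φ x v) := hφc.fderiv_apply ℝ v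
    have hw1' : ∀ k, ContDiff ℝ 1 (w k) := fun k => (hw1 k).of_le (by exact_mod_cast le_top)
    have hgc : ∀ k, Continuous (gradient (w k)) := by
      intro k
      have h1 : Continuous (fderiv ℝ (w k)) := (hw1' k).continuous_fderiv one_ne_zero
      exact (InnerProductSpace.toDual ℝ (E n)).symm.continuous.comp h1
    -- identity for the approximations
    have hid : ∀ k, ∫ x, F (w k x) * fderiv ℝ φ x v =
        - ∫ x, deriv F (w k x) * inner ℝ (gradient (w k) x) v * φ x := by
      intro k
      have h1 := (WG.of_contDiff (hF.comp (hw1' k))).weak φ hφ hφc v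
      have h2 : ∀ x, (F ∘ w k) x * fderiv ℝ φ x v = F (w k x) * fderiv ℝ φ x v := fun x => rfl
      have h3 : ∀ x, inner ℝ (gradient (F ∘ w k) x) v * φ x =
          deriv F (w k x) * inner ℝ (gradient (w k) x) v * φ x := by
        intro x
        rw [inner_gradient', inner_gradient']
        have := fderiv_comp' hF (hw1' k) x v
        have h4 : (fun x => F (w k x)) = F ∘ w k := rfl
        rw [h4] at this
        rw [this]
      simp only [h2, h3] at h1
      exact h1
    -- left side converges
    have hL : Tendsto (fun k => ∫ x, F (w k x) * fderiv ℝ φ x v) atTop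
        (𝓝 (∫ x, F (u x) * fderiv ℝ φ x v)) := by
      refine tendsto_integral_filter_of_dominated_convergence
        (fun x => (|F (u x)| + 1) * |fderiv ℝ φ x v|) ?_ ?_ ?_ ?_
      · exact Eventually.of_forall fun k =>
          ((hF.continuous.comp (hw1 k).continuous).mul hdφ).aestronglyMeasurable
      · have hev := (Metric.tendstoUniformlyOn_iff.1 (hw2 K hKc)) 1 one_pos
        filter_upwards [hev] with k hk
        filter_upwards with x
        by_cases hx : x ∈ K
        · have h1 := hk x hx
          rw [Real.dist_eq] at h1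
          have h2 : |F (w k x)| ≤ |F (u x)| + 1 := by
            have h3 := lip_of_deriv hF hb (w k x) (u x)
            have h4 : |F (w k x)| ≤ |F (u x)| + |F (w k x) - F (u x)| := by
              have := abs_add_le (F (u x)) (F (w k x) - F (u x))
              simpa using this
            have h5 : |w k x - u x| < 1 := by rwa [abs_sub_comm]
            linarith
          rw [Real.norm_eq_abs, abs_mul]
          gcongr
        · have h0 : fderiv ℝ φ x v = 0 := by
            have : x ∉ tsupport (fderiv ℝ φ) := fun h => hx (tsupport_fderiv_subset ℝ h)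
            rw [image_eq_zero_of_notMem_tsupport this]
            rfl
          simp [h0]
      · exact ((continuous_abs.comp (hF.continuous.comp hu.cont)).add continuous_const
          |>.mul hdφ.abs).integrable_of_hasCompactSupport (hdφc.abs.mul_left)
      · filter_upwards with x
        have h1 : Tendsto (fun k => w k x) atTop (𝓝 (u x)) :=
          (hw2 {x} isCompact_singleton).tendsto_at (mem_singleton x)
        exact ((hF.continuous.tendsto _).comp h1).mul_const _
    -- right side converges
    have hφb : ∃ M, 0 ≤ M ∧ ∀ x, |φ x| ≤ M := by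
      obtain ⟨M, hM⟩ := hφc.exists_bound_of_continuous hφ.continuous
      exact ⟨max M 0, le_max_right _ _, fun x => (by simpa using hM x : |φ x| ≤ M).trans
        (le_max_left _ _)⟩
    obtain ⟨M, hM0, hM⟩ := hφb
    have hgK : IntegrableOn g K volume := hu.locInt.integrableOn_isCompact hKc
    have hR1 : Tendsto (fun k => ∫ x, deriv F (w k x) *
        inner ℝ (gradient (w k) x - g x) v * φ x) atTop (𝓝 0) := by
      have hlim : Tendsto (fun k => (‖v‖ * M) * ∫ x in K, ‖gradient (w k) x - g x‖) atTop
          (𝓝 0) := by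
        simpa using (hw3 K hKc).const_mul (‖v‖ * M)
      refine squeeze_zero_norm (fun k => ?_) hlim
      have hsupp : ∫ x, deriv F (w k x) * inner ℝ (gradient (w k) x - g x) v * φ x =
          ∫ x in K, deriv F (w k x) * inner ℝ (gradient (w k) x - g x) v * φ x := by
        symm
        apply setIntegral_eq_integral_of_forall_compl_eq_zero
        intro x hx
        rw [image_eq_zero_of_notMem_tsupport hx, mul_zero]
      rw [hsupp, ← integral_const_mul]
      refine norm_integral_le_of_norm_le ?_ ?_
      · have : IntegrableOn (fun x => gradient (w k) x - g x) K volume :=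
          ((hgc k).locallyIntegrable.integrableOn_isCompact hKc).sub hgK
        exact this.norm.const_mul _
      · filter_upwards with x
        rw [norm_mul, norm_mul]
        have e1 : ‖deriv F (w k x)‖ ≤ 1 := by simpa using hb (w k x)
        have e2 : ‖(inner ℝ (gradient (w k) x - g x) v : ℝ)‖ ≤ ‖gradient (w k) x - g x‖ * ‖v‖ :=
          norm_inner_le_norm _ _
        have e3 : ‖φ x‖ ≤ M := by simpa using hM x
        calc ‖deriv F (w k x)‖ * ‖(inner ℝ (gradient (w k) x - g x) v : ℝ)‖ * ‖φ x‖
            ≤ 1 * (‖gradient (w k) x - g x‖ * ‖v‖) * M := by gcongr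
          _ = ‖v‖ * M * ‖gradient (w k) x - g x‖ := by ring
    have hR2 : Tendsto (fun k => ∫ x, deriv F (w k x) * inner ℝ (g x) v * φ x) atTop
        (𝓝 (∫ x, deriv F (u x) * inner ℝ (g x) v * φ x)) := by
      refine tendsto_integral_of_dominated_convergence
        (fun x => K.indicator (fun x => ‖v‖ * M * ‖g x‖) x) ?_ ?_ ?_ ?_
      · intro k
        refine AEStronglyMeasurable.mul (AEStronglyMeasurable.mul ?_ ?_) ?_
        · exact (hdc.comp (hw1 k).continuous).aestronglyMeasurable
        · exact hu.locInt.aestronglyMeasurable.inner aestronglyMeasurable_const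
        · exact hφ.continuous.aestronglyMeasurable
      · rw [integrable_indicator_iff hKc.measurableSet]
        exact hgK.norm.const_mul _
      · intro k
        filter_upwards with x
        by_cases hx : x ∈ K
        · rw [indicator_of_mem hx, norm_mul, norm_mul]
          have e1 : ‖deriv F (w k x)‖ ≤ 1 := by simpa using hb (w k x)
          have e2 : ‖(inner ℝ (g x) v : ℝ)‖ ≤ ‖g x‖ * ‖v‖ := norm_inner_le_norm _ _
          have e3 : ‖φ x‖ ≤ M := by simpa using hM x
          calc ‖deriv F (w k x)‖ * ‖(inner ℝ (g x) v : ℝ)‖ * ‖φ x‖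
              ≤ 1 * (‖g x‖ * ‖v‖) * M := by gcongr
            _ = ‖v‖ * M * ‖g x‖ := by ring
        · rw [indicator_of_notMem hx, image_eq_zero_of_notMem_tsupport hx]
          simp
      · filter_upwards with x
        have h1 : Tendsto (fun k => w k x) atTop (𝓝 (u x)) :=
          (hw2 {x} isCompact_singleton).tendsto_at (mem_singleton x)
        exact (((hdc.tendsto _).comp h1).mul_const _).mul_const _
    have hR : Tendsto (fun k => ∫ x, deriv F (w k x) * inner ℝ (gradient (w k) x) v * φ x) atTop
        (𝓝 (∫ x, deriv F (u x) * inner ℝ (g x) v * φ x)) := by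
      have h1 := hR1.add hR2
      rw [zero_add] at h1
      refine h1.congr fun k => ?_
      rw [← integral_add]
      · refine integral_congr_ae (Eventually.of_forall fun x => ?_)
        simp only [inner_sub_left]
        ring
      · -- integrability
        have hi : IntegrableOn (fun x => ‖v‖ * M * ‖gradient (w k) x - g x‖) K volume := by
          have : IntegrableOn (fun x => gradient (w k) x - g x) K volume :=
            ((hgc k).locallyIntegrable.integrableOn_isCompact hKc).sub hgK
          exact this.norm.const_mul _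
        have hi' := (integrable_indicator_iff hKc.measurableSet).2 hi
        refine hi'.mono' ?_ ?_
        · refine AEStronglyMeasurable.mul (AEStronglyMeasurable.mul ?_ ?_) ?_
          · exact (hdc.comp (hw1 k).continuous).aestronglyMeasurable
          · exact ((hgc k).aestronglyMeasurable.sub hu.locInt.aestronglyMeasurable).inner
              aestronglyMeasurable_const
          · exact hφ.continuous.aestronglyMeasurable
        · filter_upwards with x
          by_cases hx : x ∈ K
          · rw [indicator_of_mem hx, norm_mul, norm_mul]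
            have e1 : ‖deriv F (w k x)‖ ≤ 1 := by simpa using hb (w k x)
            have e2 : ‖(inner ℝ (gradient (w k) x - g x) v : ℝ)‖ ≤
                ‖gradient (w k) x - g x‖ * ‖v‖ := norm_inner_le_norm _ _
            have e3 : ‖φ x‖ ≤ M := by simpa using hM x
            calc ‖deriv F (w k x)‖ * ‖(inner ℝ (gradient (w k) x - g x) v : ℝ)‖ * ‖φ x‖
                ≤ 1 * (‖gradient (w k) x - g x‖ * ‖v‖) * M := by gcongr
              _ = ‖v‖ * M * ‖gradient (w k) x - g x‖ := by ring
          · rw [indicator_of_notMem hx, image_eq_zero_of_notMem_tsupport hx]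
            simp
      · have hi' := (integrable_indicator_iff hKc.measurableSet).2
          (hgK.norm.const_mul (‖v‖ * M))
        refine hi'.mono' ?_ ?_
        · refine AEStronglyMeasurable.mul (AEStronglyMeasurable.mul ?_ ?_) ?_
          · exact (hdc.comp (hw1 k).continuous).aestronglyMeasurable
          · exact hu.locInt.aestronglyMeasurable.inner aestronglyMeasurable_const
          · exact hφ.continuous.aestronglyMeasurable
        · filter_upwards with x
          by_cases hx : x ∈ K
          · rw [indicator_of_mem hx, norm_mul, norm_mul]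
            have e1 : ‖deriv F (w k x)‖ ≤ 1 := by simpa using hb (w k x)
            have e2 : ‖(inner ℝ (g x) v : ℝ)‖ ≤ ‖g x‖ * ‖v‖ := norm_inner_le_norm _ _
            have e3 : ‖φ x‖ ≤ M := by simpa using hM x
            calc ‖deriv F (w k x)‖ * ‖(inner ℝ (g x) v : ℝ)‖ * ‖φ x‖
                ≤ 1 * (‖g x‖ * ‖v‖) * M := by gcongr
              _ = ‖v‖ * M * ‖g x‖ := by ring
          · rw [indicator_of_notMem hx, image_eq_zero_of_notMem_tsupport hx]
            simp
    have hfin := tendsto_nhds_unique (hL.congr hid) hR.neg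
    rw [hfin]
    congr 1
    refine integral_congr_ae (Eventually.of_forall fun x => ?_)
    simp only [inner_smul_left, conj_trivial]

theorem WG.comp_limit {u : E n → ℝ} {g : E n → E n} (hu : WG u g) {F : ℕ → ℝ → ℝ}
    (hF : ∀ j, ContDiff ℝ 1 (F j)) (hb : ∀ j t, |deriv (F j) t| ≤ 1)
    (hB : ∀ j t, |F j t| ≤ |t| + 1) {H G : ℝ → ℝ} (hH : Continuous H) (hG : Measurable G)
    (h1 : ∀ t, Tendsto (fun j => F j t) atTop (𝓝 (H t)))
    (h2 : ∀ t, Tendsto (fun j => deriv (F j) t) atTop (𝓝 (G t))) :
    WG (fun x => H (u x)) (fun x => G (u x) • g x) := by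
  have hG1 : ∀ t, |G t| ≤ 1 := fun t =>
    le_of_tendsto (h2 t).abs (Eventually.of_forall fun j => hb j t)
  have hGm : AEStronglyMeasurable (fun x => G (u x)) (volume : Measure (E n)) :=
    (hG.comp hu.cont.measurable).aestronglyMeasurable
  refine ⟨hH.comp hu.cont, ?_, ?_⟩
  · refine hu.locInt.mono (hGm.smul hu.locInt.aestronglyMeasurable) ?_
    filter_upwards with x
    rw [norm_smul]
    calc ‖G (u x)‖ * ‖g x‖ ≤ 1 * ‖g x‖ := by
          gcongr
          simpa using hG1 (u x)
      _ = ‖g x‖ := one_mul _
  · intro φ hφ hφc v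
    have hφ1 : ContDiff ℝ 1 φ := hφ.of_le (by exact_mod_cast le_top)
    have hdφ : Continuous (fun x => fderiv ℝ φ x v) :=
      (hφ1.continuous_fderiv one_ne_zero).clm_apply continuous_const
    have hdφc : HasCompactSupport (fun x => fderiv ℝ φ x v) := hφc.fderiv_apply ℝ v
    have hKc : IsCompact (tsupport φ) := hφc
    have hgK : IntegrableOn g (tsupport φ) volume := hu.locInt.integrableOn_isCompact hKc
    obtain ⟨M, hM⟩ := hφc.exists_bound_of_continuous hφ.continuous
    have hL : Tendsto (fun j => ∫ x, F j (u x) * fderiv ℝ φ x v) atTop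
        (𝓝 (∫ x, H (u x) * fderiv ℝ φ x v)) := by
      refine tendsto_integral_of_dominated_convergence
        (fun x => (|u x| + 1) * |fderiv ℝ φ x v|) ?_ ?_ ?_ ?_
      · exact fun j => (((hF j).continuous.comp hu.cont).mul hdφ).aestronglyMeasurable
      · exact ((hu.cont.abs.add continuous_const).mul hdφ.abs).integrable_of_hasCompactSupport
          (hdφc.abs.mul_left)
      · intro j
        filter_upwards with x
        rw [Real.norm_eq_abs, abs_mul]
        have := hB j (u x)
        gcongr
      · filter_upwards with x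
        exact (h1 (u x)).mul_const _
    have hR : Tendsto (fun j => ∫ x, inner ℝ (deriv (F j) (u x) • g x) v * φ x) atTop
        (𝓝 (∫ x, inner ℝ (G (u x) • g x) v * φ x)) := by
      refine tendsto_integral_of_dominated_convergence
        (fun x => (tsupport φ).indicator (fun x => ‖v‖ * M * ‖g x‖) x) ?_ ?_ ?_ ?_
      · intro j
        refine AEStronglyMeasurable.mul (AEStronglyMeasurable.inner ?_
          aestronglyMeasurable_const) hφ.continuous.aestronglyMeasurable
        exact ((((hF j).continuous_deriv le_rfl).comp hu.cont).aestronglyMeasurable).smul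
          hu.locInt.aestronglyMeasurable
      · rw [integrable_indicator_iff hKc.measurableSet]
        exact hgK.norm.const_mul _
      · intro j
        filter_upwards with x
        by_cases hx : x ∈ tsupport φ
        · rw [indicator_of_mem hx, norm_mul]
          have e2 : ‖(inner ℝ (deriv (F j) (u x) • g x) v : ℝ)‖ ≤ ‖g x‖ * ‖v‖ := by
            refine (norm_inner_le_norm _ _).trans ?_
            rw [norm_smul]
            have e1 : ‖deriv (F j) (u x)‖ ≤ 1 := by simpa using hb j (u x)
            calc ‖deriv (F j) (u x)‖ * ‖g x‖ * ‖v‖ ≤ 1 * ‖g x‖ * ‖v‖ := by gcongr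
              _ = ‖g x‖ * ‖v‖ := by ring
          calc ‖(inner ℝ (deriv (F j) (u x) • g x) v : ℝ)‖ * ‖φ x‖
              ≤ (‖g x‖ * ‖v‖) * M := mul_le_mul e2 (hM x) (norm_nonneg _) (by positivity)
            _ = ‖v‖ * M * ‖g x‖ := by ring
        · rw [indicator_of_notMem hx, image_eq_zero_of_notMem_tsupport hx]
          simp
      · filter_upwards with x
        refine Tendsto.mul_const _ ?_
        exact ((h2 (u x)).smul_const (g x)).inner tendsto_const_nhds
    refine tendsto_nhds_unique (hL.congr fun j => ?_) hR.neg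
    exact (hu.comp_C1 (hF j) (hb j)).weak φ hφ hφc v

/-! ### the two families of smooth functions -/

private lemma hasDerivAt_arctan_scaled (j : ℕ) (t : ℝ) :
    HasDerivAt (fun t : ℝ => Real.arctan (((j : ℝ) + 1) * t) / ((j : ℝ) + 1))
      (1 / (1 + (((j : ℝ) + 1) * t) ^ 2)) t := by
  have hj : ((j : ℝ) + 1) ≠ 0 := by positivity
  have h1 : HasDerivAt (fun t : ℝ => ((j : ℝ) + 1) * t) ((j : ℝ) + 1) t := by
    simpa using (hasDerivAt_id t).const_mul ((j : ℝ) + 1)
  have h2 := (h1.arctan).div_const ((j : ℝ) + 1)
  rwa [mul_div_assoc, div_self hj, mul_one] at h2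

theorem WG.ae_zero {u : E n → ℝ} {g : E n → E n} (hu : WG u g) :
    ∀ᵐ x, u x = 0 → g x = 0 := by
  have key : WG (fun x => (fun _ => (0 : ℝ)) (u x))
      (fun x => (fun t : ℝ => if t = 0 then (1 : ℝ) else 0) (u x) • g x) := by
    refine hu.comp_limit
      (F := fun j t => Real.arctan (((j : ℝ) + 1) * t) / ((j : ℝ) + 1))
      (H := fun _ => (0 : ℝ)) (G := fun t : ℝ => if t = 0 then (1 : ℝ) else 0) ?_ ?_ ?_
      continuous_const ?_ ?_ ?_
    · intro j
      have h1 : ContDiff ℝ 1 (fun t : ℝ => ((j : ℝ) + 1) * t) := contDiff_const.mul contDiff_id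
      exact (h1.arctan).div_const _
    · intro j t
      rw [(hasDerivAt_arctan_scaled j t).deriv, abs_of_nonneg (by positivity)]
      rw [div_le_one (by positivity)]
      nlinarith [sq_nonneg (((j : ℝ) + 1) * t)]
    · intro j t
      have hd : ∀ t, |deriv (fun t : ℝ => Real.arctan (((j : ℝ) + 1) * t) / ((j : ℝ) + 1)) t|
          ≤ 1 := by
        intro t
        rw [(hasDerivAt_arctan_scaled j t).deriv, abs_of_nonneg (by positivity)]
        rw [div_le_one (by positivity)]
        nlinarith [sq_nonneg (((j : ℝ) + 1) * t)]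
      have hC : ContDiff ℝ 1 (fun t : ℝ => Real.arctan (((j : ℝ) + 1) * t) / ((j : ℝ) + 1)) := by
        have h1 : ContDiff ℝ 1 (fun t : ℝ => ((j : ℝ) + 1) * t) := contDiff_const.mul contDiff_id
        exact (h1.arctan).div_const _
      have := lip_of_deriv hC hd t 0
      simp only [mul_zero, Real.arctan_zero, zero_div, sub_zero] at this
      linarith
    · exact Measurable.ite (measurableSet_singleton 0) measurable_const measurable_const
    · intro t
      have h1 : Tendsto (fun j : ℕ => ((j : ℝ) + 1)) atTop atTop :=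
        tendsto_atTop_add_const_right _ _ tendsto_natCast_atTop_atTop
      refine squeeze_zero_norm (a := fun j : ℕ => (Real.pi / 2) / ((j : ℝ) + 1)) (fun j => ?_)
        (tendsto_const_nhds.div_atTop h1)
      rw [norm_div, Real.norm_eq_abs, Real.norm_eq_abs,
        abs_of_pos (by positivity : (0 : ℝ) < (j : ℝ) + 1)]
      gcongr
      rw [abs_le]
      exact ⟨(Real.neg_pi_div_two_lt_arctan _).le, (Real.arctan_lt_pi_div_two _).le⟩
    · intro t
      have hd : ∀ j : ℕ, deriv (fun t : ℝ => Real.arctan (((j : ℝ) + 1) * t) / ((j : ℝ) + 1)) t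
          = 1 / (1 + (((j : ℝ) + 1) * t) ^ 2) := fun j => (hasDerivAt_arctan_scaled j t).deriv
      simp only [hd]
      by_cases ht : t = 0
      · simp [ht]
      · simp only [ht, if_false]
        have h1 : Tendsto (fun j : ℕ => ((j : ℝ) + 1)) atTop atTop :=
          tendsto_atTop_add_const_right _ _ tendsto_natCast_atTop_atTop
        have h2 : Tendsto (fun j : ℕ => (((j : ℝ) + 1) * t) ^ 2) atTop atTop := by
          have h3 : Tendsto (fun j : ℕ => ((j : ℝ) + 1) ^ 2 * t ^ 2) atTop atTop :=
            ((tendsto_pow_atTop two_ne_zero).comp h1).atTop_mul_const (by positivity)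
          refine h3.congr fun j => by ring
        have h4 : Tendsto (fun j : ℕ => 1 + (((j : ℝ) + 1) * t) ^ 2) atTop atTop :=
          tendsto_atTop_add_const_left _ _ h2
        exact tendsto_const_nhds.div_atTop h4
  have h := key.ae_eq (WG.const 0)
  filter_upwards [h] with x hx hx0
  simpa [hx0] using hx

private lemma hasDerivAt_sqrt' (j : ℕ) (t : ℝ) :
    HasDerivAt (fun t : ℝ => √(t ^ 2 + (1 / ((j : ℝ) + 1)) ^ 2))
      (t / √(t ^ 2 + (1 / ((j : ℝ) + 1)) ^ 2)) t := by
  have hpos : 0 < t ^ 2 + (1 / ((j : ℝ) + 1)) ^ 2 := by positivity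
  have h1 : HasDerivAt (fun t : ℝ => t ^ 2 + (1 / ((j : ℝ) + 1)) ^ 2) (2 * t) t := by
    simpa using (hasDerivAt_pow 2 t).add_const ((1 / ((j : ℝ) + 1)) ^ 2)
  have h2 := h1.sqrt hpos.ne'
  rwa [mul_div_mul_left _ _ two_ne_zero] at h2

private lemma sqrt_deriv_le (j : ℕ) (t : ℝ) :
    |t / √(t ^ 2 + (1 / ((j : ℝ) + 1)) ^ 2)| ≤ 1 := by
  have hpos : 0 < t ^ 2 + (1 / ((j : ℝ) + 1)) ^ 2 := by positivity
  rw [abs_div, abs_of_pos (Real.sqrt_pos.2 hpos), div_le_one (Real.sqrt_pos.2 hpos)]
  apply Real.le_sqrt_of_sq_le
  rw [sq_abs]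
  nlinarith [sq_nonneg (1 / ((j : ℝ) + 1))]

/-- the absolute value -/
theorem WG.abs' {u : E n → ℝ} {g : E n → E n} (hu : WG u g) :
    WG (fun x => |u x|) (fun x => (SignType.sign (u x) : ℝ) • g x) := by
  refine hu.comp_limit (F := fun j t => √(t ^ 2 + (1 / ((j : ℝ) + 1)) ^ 2))
    (H := fun t => |t|) (G := fun t => (SignType.sign t : ℝ)) ?_ ?_ ?_
    continuous_abs ?_ ?_ ?_
  · intro j
    have h1 : ContDiff ℝ 1 (fun t : ℝ => t ^ 2 + (1 / ((j : ℝ) + 1)) ^ 2) :=
      (contDiff_id.pow 2).add contDiff_const
    exact h1.sqrt (fun t => by positivity)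
  · intro j t
    rw [(hasDerivAt_sqrt' j t).deriv]
    exact sqrt_deriv_le j t
  · intro j t
    have hj : (1 : ℝ) / ((j : ℝ) + 1) ≤ 1 := by
      rw [div_le_one (by positivity)]
      have : (0 : ℝ) ≤ j := Nat.cast_nonneg j
      linarith
    have hj0 : (0 : ℝ) ≤ 1 / ((j : ℝ) + 1) := by positivity
    rw [abs_of_nonneg (Real.sqrt_nonneg _)]
    rw [Real.sqrt_le_left (by positivity)]
    nlinarith [abs_nonneg t, sq_abs t]
  · have h : (fun t : ℝ => (SignType.sign t : ℝ)) =
        fun t : ℝ => if 0 < t then (1 : ℝ) else if t < 0 then -1 else 0 := by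
      funext t
      rcases lt_trichotomy t 0 with h | h | h
      · simp [sign_neg h, h, not_lt.2 h.le]
      · simp [h]
      · simp [sign_pos h, h]
    rw [h]
    exact Measurable.ite measurableSet_Ioi measurable_const
      (Measurable.ite measurableSet_Iio measurable_const measurable_const)
  · intro t
    have h1 : Tendsto (fun j : ℕ => (1 : ℝ) / ((j : ℝ) + 1)) atTop (𝓝 0) :=
      tendsto_one_div_add_atTop_nhds_zero_nat
    have h2 : Tendsto (fun j : ℕ => √(t ^ 2 + (1 / ((j : ℝ) + 1)) ^ 2)) atTop
        (𝓝 (√(t ^ 2 + 0 ^ 2))) :=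
      (Real.continuous_sqrt.tendsto _).comp (tendsto_const_nhds.add (h1.pow 2))
    simpa [Real.sqrt_sq_eq_abs] using h2
  · intro t
    have hd : ∀ j : ℕ, deriv (fun t : ℝ => √(t ^ 2 + (1 / ((j : ℝ) + 1)) ^ 2)) t =
        t / √(t ^ 2 + (1 / ((j : ℝ) + 1)) ^ 2) := fun j => (hasDerivAt_sqrt' j t).deriv
    simp only [hd]
    by_cases ht : t = 0
    · simp [ht]
    · have h1 : Tendsto (fun j : ℕ => (1 : ℝ) / ((j : ℝ) + 1)) atTop (𝓝 0) :=
        tendsto_one_div_add_atTop_nhds_zero_nat
      have h2 : Tendsto (fun j : ℕ => √(t ^ 2 + (1 / ((j : ℝ) + 1)) ^ 2)) atTop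
          (𝓝 (√(t ^ 2 + 0 ^ 2))) :=
        (Real.continuous_sqrt.tendsto _).comp (tendsto_const_nhds.add (h1.pow 2))
      have h3 : √(t ^ 2 + 0 ^ 2) = |t| := by
        simp [Real.sqrt_sq_eq_abs]
      rw [h3] at h2
      have h4 : Tendsto (fun j : ℕ => t / √(t ^ 2 + (1 / ((j : ℝ) + 1)) ^ 2)) atTop
          (𝓝 (t / |t|)) := tendsto_const_nhds.div h2 (abs_ne_zero.2 ht)
      have h5 : t / |t| = (SignType.sign t : ℝ) := by
        rcases lt_or_gt_of_ne ht with h | h
        · rw [abs_of_neg h, sign_neg h]
          simp [div_neg, div_self ht]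
        · rw [abs_of_pos h, sign_pos h]
          simp [div_self ht]
      rwa [h5] at h4

theorem WG.posPart {u : E n → ℝ} {g : E n → E n} (hu : WG u g) :
    WG (fun x => max (u x) 0) (indicator {x | 0 < u x} g) := by
  have h1 := (hu.add hu.abs').const_mul (1 / 2)
  have h2 : (fun x => 1 / 2 * (u x + |u x|)) = fun x => max (u x) 0 := by
    funext x
    rcases le_total 0 (u x) with h | h
    · rw [abs_of_nonneg h, max_eq_left h]; ring
    · rw [abs_of_nonpos h, max_eq_right h]; ring
  rw [h2] at h1
  refine h1.congr_ae ?_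
  filter_upwards [hu.ae_zero] with x hx
  rcases lt_trichotomy (u x) 0 with h | h | h
  · rw [indicator_of_notMem (by simp [h.le]), sign_neg h]
    simp
  · rw [indicator_of_notMem (by simp [h]), hx h]
    simp
  · rw [indicator_of_mem (by simpa using h), sign_pos h]
    simp only [SignType.coe_one, one_smul]
    rw [← two_smul ℝ (g x), smul_smul]
    norm_num

theorem WG.pmax {u v : E n → ℝ} {g h : E n → E n} (hu : WG u g) (hv : WG v h) :
    WG (fun x => max (u x) (v x)) (fun x => if v x < u x then g x else h x) := by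
  have h1 := hv.add (hu.sub hv).posPart
  have h2 : (fun x => v x + max (u x - v x) 0) = fun x => max (u x) (v x) := by
    funext x
    rcases le_total (v x) (u x) with h | h
    · rw [max_eq_left h, max_eq_left (sub_nonneg.2 h)]; ring
    · rw [max_eq_right h, max_eq_right (sub_nonpos.2 h)]; ring
  have h3 : (fun x => h x + indicator {x | 0 < u x - v x} (fun x => g x - h x) x) =
      fun x => if v x < u x then g x else h x := by
    funext x
    by_cases hx : v x < u x
    · rw [indicator_of_mem (by simpa using hx), if_pos hx]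
      abel
    · rw [indicator_of_notMem (by simpa using hx), if_neg hx, add_zero]
  rw [h2, h3] at h1
  exact h1

theorem WG.pmin {u v : E n → ℝ} {g h : E n → E n} (hu : WG u g) (hv : WG v h) :
    WG (fun x => min (u x) (v x)) (fun x => if v x < u x then h x else g x) := by
  have h1 := hu.sub (hu.sub hv).posPart
  have h2 : (fun x => u x - max (u x - v x) 0) = fun x => min (u x) (v x) := by
    funext x
    rcases le_total (v x) (u x) with h | h
    · rw [min_eq_right h, max_eq_left (sub_nonneg.2 h)]; ring
    · rw [min_eq_left h, max_eq_right (sub_nonpos.2 h)]; ring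
  have h3 : (fun x => g x - indicator {x | 0 < u x - v x} (fun x => g x - h x) x) =
      fun x => if v x < u x then h x else g x := by
    funext x
    by_cases hx : v x < u x
    · rw [indicator_of_mem (by simpa using hx), if_pos hx]
      abel
    · rw [indicator_of_notMem (by simpa using hx), if_neg hx, sub_zero]
  rw [h2, h3] at h1
  exact h1

theorem IsD.abs {p : ℝ} (hp : 1 ≤ p) {u : E n → ℝ} {g : E n → E n} (hu : IsD p u g) :
    ∃ g' : E n → E n, IsD p (fun x => |u x|) g' ∧ ∀ x, ‖g' x‖ = ‖g x‖ := by
  have hw := hu.wg hp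
  have hm : MeasurableSet {x | u x < 0} := (isOpen_lt hu.cont continuous_const).measurableSet
  classical
  have hn : ∀ x, ‖(if u x < 0 then - g x else g x)‖ = ‖g x‖ := by
    intro x
    split_ifs <;> simp
  refine ⟨fun x => if u x < 0 then - g x else g x, ⟨hu.cont.abs, ?_, ?_⟩, hn⟩
  · have hmeas : AEStronglyMeasurable (fun x => if u x < 0 then - g x else g x) volume := by
      have := (hu.memLp.aestronglyMeasurable.neg.restrict (s := {x | u x < 0})).piecewise hm
        (hu.memLp.aestronglyMeasurable.restrict (s := {x | u x < 0}ᶜ))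
      exact this
    exact hu.memLp.congr_norm hmeas (Eventually.of_forall fun x => (hn x).symm)
  · refine (hw.abs'.congr_ae ?_).weak
    filter_upwards [hw.ae_zero] with x hx
    rcases lt_trichotomy (u x) 0 with h | h | h
    · simp [h, sign_neg h]
    · simp [h, hx h]
    · simp [not_lt.2 h.le, sign_pos h]

theorem IsD.trunc {p : ℝ} (hp : 1 ≤ p) {u : E n → ℝ} {g : E n → E n} (hu : IsD p u g) :
    ∃ g' : E n → E n, IsD p (fun x => min (max (u x) 0) 1) g' ∧ ∀ x, ‖g' x‖ ≤ ‖g x‖ := by
  have hw := hu.wg hp
  have h1 := hw.posPart.pmin (WG.const 1)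
  classical
  have hle : ∀ x, ‖(if (1 : ℝ) < max (u x) 0 then (0 : E n) else
      indicator {x | 0 < u x} g x)‖ ≤ ‖g x‖ := by
    intro x
    split_ifs
    · simp
    · exact norm_indicator_le_norm_self g x
  refine ⟨_, ⟨h1.cont, ?_, h1.weak⟩, hle⟩
  refine hu.memLp.of_le ?_ (Eventually.of_forall hle)
  have hm : MeasurableSet {x : E n | (1 : ℝ) < max (u x) 0} :=
    (isOpen_lt continuous_const (hu.cont.max continuous_const)).measurableSet
  have hm2 : MeasurableSet {x : E n | (0 : ℝ) < u x} :=
    (isOpen_lt continuous_const hu.cont).measurableSet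
  have h3 : AEStronglyMeasurable (fun x => (indicator {x | 0 < u x} g) x) volume :=
    hu.memLp.aestronglyMeasurable.indicator hm2
  exact AEStronglyMeasurable.piecewise hm aestronglyMeasurable_const.restrict h3.restrict

end HMor
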