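import Mathlib

/-!
# The Hardy-Morrey constant of an open set (problem MP_55e37b_an): definitions

`E n` is `ℝⁿ`.  A function of `D^{1,p}(ℝⁿ)` (`p > n`) is a continuous function `u` together with
its weak gradient `g ∈ L^p` (`IsD p u g`); `IsD0 p Ω u g` says moreover that `u = 0` off `Ω`.
-/

open MeasureTheory Metric Set Filter Topology
open scoped ENNReal

namespace HMor

/-- Euclidean space `ℝⁿ`. -/
abbrev E (n : ℕ) := EuclideanSpace ℝ (Fin n)

variable {n : ℕ}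

/-- `g` is a weak gradient of `u`: `∫ u ∂_v φ = - ∫ ⟪g, v⟫ φ` for every `φ ∈ C_c^∞(ℝⁿ)` and every
direction `v`. -/
def WeakGrad (u : E n → ℝ) (g : E n → E n) : Prop :=
  ∀ φ : E n → ℝ, ContDiff ℝ ((⊤ : ℕ∞) : WithTop ℕ∞) φ → HasCompactSupport φ → ∀ v : E n,
    ∫ x, u x * fderiv ℝ φ x v = - ∫ x, inner ℝ (g x) v * φ x

/-- `u` is (the continuous representative of) a function of `D^{1,p}(ℝⁿ)`, with weak gradient
`g ∈ L^p`. -/
structure IsD (p : ℝ) (u : E n → ℝ) (g : E n → E n) : Prop where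
  cont : Continuous u
  memLp : MemLp g (ENNReal.ofReal p) volume
  weak : WeakGrad u g

/-- `u ∈ D^{1,p}_0(Ω)`, with weak gradient `g`. -/
structure IsD0 (p : ℝ) (Ω : Set (E n)) (u : E n → ℝ) (g : E n → E n) : Prop where
  isD : IsD p u g
  zero : ∀ x, x ∉ Ω → u x = 0

/-- The quotient `R_p(Ω,u) = ‖u / d_Ω^{1-n/p}‖_{L^∞(Ω)}^{-p} ∫_Ω |Du|^p`,
`d_Ω(x) = infDist x Ωᶜ`. -/
noncomputable def ratio (p : ℝ) (Ω : Set (E n)) (u : E n → ℝ) (g : E n → E n) : ℝ≥0∞ :=
  (eLpNorm (fun x => u x / (infDist x Ωᶜ) ^ (1 - (n : ℝ) / p)) ∞ (volume.restrict Ω)) ^ (-p) *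
    ∫⁻ x in Ω, ‖g x‖ₑ ^ p

/-- The sharp Hardy-Morrey constant `λ_p(Ω) = inf R_p(Ω,u)` over `u ∈ D^{1,p}_0(Ω) \ {0}`. -/
noncomputable def lam (p : ℝ) (Ω : Set (E n)) : ℝ≥0∞ :=
  ⨅ (u : E n → ℝ) (g : E n → E n) (_ : IsD0 p Ω u g) (_ : u ≠ 0), ratio p Ω u g

/-- `Ω` has an extremal. -/
def HasExtremal (p : ℝ) (Ω : Set (E n)) : Prop :=
  ∃ (u : E n → ℝ) (g : E n → E n), IsD0 p Ω u g ∧ u ≠ 0 ∧ ratio p Ω u g = lam p Ω

/-- The set `{x : x·e > c}`, a halfspace when `‖e‖ = 1`. -/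
def halfspace (e : E n) (c : ℝ) : Set (E n) := {x | c < inner ℝ x e}

/-! ### Working definitions -/

/-- The energy `∫ |g|^p`. -/
noncomputable def energy (p : ℝ) (g : E n → E n) : ℝ := ∫ x, ‖g x‖ ^ p

/-- `u` (with weak gradient `g`) minimises the energy among the functions of `D^{1,p}_0(Ω)` with
value `1` at the point `a`. -/
structure IsMin (p : ℝ) (Ω : Set (E n)) (a : E n) (u : E n → ℝ) (g : E n → E n) : Prop where
  mem : IsD0 p Ω u g
  one : u a = 1
  le : ∀ (u' : E n → ℝ) (g' : E n → E n), IsD0 p Ω u' g' → u' a = 1 → energy p g ≤ energy p g'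

/-- The capacity of the point `e` relative to the halfspace `{x : x·e > 0}`. -/
noncomputable def cH (p : ℝ) (e : E n) : ℝ :=
  sInf {c : ℝ | ∃ (u : E n → ℝ) (g : E n → E n), IsD0 p (halfspace e 0) u g ∧ u e = 1 ∧
    c = energy p g}

/-- A continuous function with a locally integrable weak gradient. -/
structure WG (u : E n → ℝ) (g : E n → E n) : Prop where
  cont : Continuous u
  locInt : LocallyIntegrable g volume
  weak : WeakGrad u g

end HMor
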