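import Pool.Agent.W_MP_55e37b_an.Defs

open MeasureTheory Metric Set Filter Topology
open scoped ENNReal

namespace HMor

variable {n : ℕ}

/-- change of variables `z ↦ x + t (z - x)` on a ball centred anywhere. -/
private theorem morrey_cov (H : E n → ℝ) (hH : Continuous H) (h0 : ∀ z, 0 ≤ H z) (a : E n)
    (r : ℝ) (x : E n) (hx : x ∈ closedBall a r) (t : ℝ) (ht : t ∈ Ioc (0 : ℝ) 1) :
    ∫ z in closedBall a r, H (x + t • (z - x)) ≤ (t ^ n)⁻¹ * ∫ z in closedBall a r, H z := by
  have ht0 : 0 < t := ht.1
  set B := closedBall a r with hB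
  have hBm : MeasurableSet B := measurableSet_closedBall
  set K : E n → ℝ := B.indicator H with hK
  have hKi : Integrable K volume := by
    rw [hK, integrable_indicator_iff hBm]
    exact hH.continuousOn.integrableOn_compact (isCompact_closedBall a r)
  have h1 : ∀ z, x + t • (z - x) = t • z + (x - t • x) := by
    intro z; rw [smul_sub]; abel
  have hK2 : Integrable (fun z => K (z + (x - t • x))) volume := hKi.comp_add_right _
  have hK3 : Integrable (fun z => K (t • z + (x - t • x))) volume :=
    hK2.comp_smul ht0.ne'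
  calc ∫ z in B, H (x + t • (z - x))
      = ∫ z, B.indicator (fun z => H (x + t • (z - x))) z := (integral_indicator hBm).symm
    _ ≤ ∫ z, K (t • z + (x - t • x)) := by
        refine integral_mono ?_ hK3 ?_
        · rw [integrable_indicator_iff hBm]
          refine ContinuousOn.integrableOn_compact (isCompact_closedBall a r) ?_
          exact (hH.comp (by fun_prop)).continuousOn
        · intro z
          by_cases hz : z ∈ B
          · have hz' : x + t • (z - x) ∈ B := by
              have := (convex_closedBall a r).add_smul_sub_mem hx hz ⟨ht0.le, ht.2⟩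
              exact this
            simp only [indicator_of_mem hz]
            rw [← h1, hK, indicator_of_mem hz']
          · simp only [indicator_of_notMem hz]
            exact indicator_nonneg (fun z _ => h0 z) _
    _ = |(t ^ Module.finrank ℝ (E n))⁻¹| • ∫ z, K (z + (x - t • x)) :=
        Measure.integral_comp_smul volume (fun z => K (z + (x - t • x))) t
    _ = (t ^ n)⁻¹ * ∫ z, K z := by
        rw [integral_add_right_eq_self K (x - t • x), finrank_euclideanSpace, Fintype.card_fin,
          abs_of_nonneg (by positivity), smul_eq_mul]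
    _ = (t ^ n)⁻¹ * ∫ z in B, H z := by rw [hK, integral_indicator hBm]

private theorem morrey_inner {p : ℝ} (hn : 1 ≤ n) (hp : (n : ℝ) < p) (G : E n → ℝ)
    (hG : Continuous G) (h0 : ∀ z, 0 ≤ G z) (a : E n)
    (r : ℝ) (x : E n) (hx : x ∈ closedBall a r) (t : ℝ) (ht : t ∈ Ioc (0 : ℝ) 1) :
    ∫ z in closedBall a r, G (x + t • (z - x)) ≤
      t ^ (-((n : ℝ) / p)) * ((∫ z in closedBall a r, G z ^ p) ^ (1 / p) *
        (volume.real (closedBall a r)) ^ (1 - 1 / p)) := by
  have hn' : (1 : ℝ) ≤ n := by exact_mod_cast hn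
  have hp1 : 1 < p := lt_of_le_of_lt hn' hp
  have hp0 : 0 < p := by linarith
  have ht0 : 0 < t := ht.1
  have hpq : p.HolderConjugate (Real.conjExponent p) := Real.HolderConjugate.conjExponent hp1
  set q := Real.conjExponent p with hq
  have hq1 : 1 / q = 1 - 1 / p := by
    have := hpq.inv_add_inv_eq_one
    rw [one_div, one_div]; linarith
  set B := closedBall a r with hB
  have : IsFiniteMeasure (volume.restrict B) :=
    ⟨by rw [Measure.restrict_apply_univ]; exact measure_closedBall_lt_top⟩
  have hc : Continuous fun z => G (x + t • (z - x)) := hG.comp (by fun_prop)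
  have hGp : Continuous fun z => G z ^ p := hG.rpow_const (fun _ => Or.inr hp0.le)
  -- Hölder
  have hmem : MemLp (fun z => G (x + t • (z - x))) (ENNReal.ofReal p) (volume.restrict B) := by
    obtain ⟨M, hM⟩ := (isCompact_closedBall a r).exists_bound_of_continuousOn hc.continuousOn
    refine MemLp.of_bound hc.aestronglyMeasurable M ?_
    exact (ae_restrict_iff' measurableSet_closedBall).2 (Eventually.of_forall hM)
  have hH := integral_mul_le_Lp_mul_Lq_of_nonneg (μ := volume.restrict B) hpq
    (f := fun z => G (x + t • (z - x))) (g := fun _ => (1 : ℝ))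
    (Eventually.of_forall fun z => h0 _) (Eventually.of_forall fun z => zero_le_one)
    hmem (memLp_const 1)
  simp only [mul_one, Real.one_rpow, integral_const, smul_eq_mul, measureReal_restrict_apply_univ,
    hq1] at hH
  refine hH.trans ?_
  have hcov := morrey_cov (fun z => G z ^ p) hGp (fun z => Real.rpow_nonneg (h0 z) p) a r x hx t ht
  have hI0 : 0 ≤ ∫ z in B, G z ^ p := integral_nonneg fun z => Real.rpow_nonneg (h0 z) p
  have hI1 : 0 ≤ ∫ z in B, G (x + t • (z - x)) ^ p :=
    integral_nonneg fun z => Real.rpow_nonneg (h0 _) p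
  rw [← mul_assoc]
  refine mul_le_mul_of_nonneg_right ?_ (Real.rpow_nonneg measureReal_nonneg _)
  calc (∫ z in B, G (x + t • (z - x)) ^ p) ^ (1 / p)
      ≤ ((t ^ n)⁻¹ * ∫ z in B, G z ^ p) ^ (1 / p) :=
        Real.rpow_le_rpow hI1 hcov (by positivity)
    _ = ((t ^ n)⁻¹) ^ (1 / p) * (∫ z in B, G z ^ p) ^ (1 / p) :=
        Real.mul_rpow (by positivity) hI0
    _ = t ^ (-((n : ℝ) / p)) * (∫ z in B, G z ^ p) ^ (1 / p) := by
        congr 1
        rw [← Real.rpow_natCast, ← Real.rpow_neg ht0.le, ← Real.rpow_mul ht0.le]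
        congr 1
        field_simp

private theorem morrey_ptwise (w : E n → ℝ) (hw : ContDiff ℝ 1 w) (a : E n)
    (r : ℝ) (x : E n) (hx : x ∈ closedBall a r) (z : E n) (hz : z ∈ closedBall a r) :
    |w z - w x| ≤ ∫ t in Ioc (0 : ℝ) 1, ‖gradient w (x + t • (z - x))‖ * (2 * r) := by
  have hgc : Continuous (gradient w) := by
    have h1 : Continuous (fderiv ℝ w) := hw.continuous_fderiv one_ne_zero
    exact (InnerProductSpace.toDual ℝ (E n)).symm.continuous.comp h1
  have hd : ∀ t : ℝ, HasDerivAt (fun t : ℝ => w (x + t • (z - x)))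
      (inner ℝ (gradient w (x + t • (z - x))) (z - x)) t := by
    intro t
    have h1 : HasFDerivAt w (fderiv ℝ w (x + t • (z - x))) (x + t • (z - x)) :=
      (hw.differentiable one_ne_zero _).hasFDerivAt
    have h2 : HasDerivAt (fun t : ℝ => x + t • (z - x)) (z - x) t := by
      simpa using ((hasDerivAt_id t).smul_const (z - x)).const_add x
    have h3 := h1.comp_hasDerivAt t h2
    rw [inner_gradient_left]
    exact h3
  have hcont : Continuous fun t : ℝ => inner ℝ (gradient w (x + t • (z - x))) (z - x) := by
    have : Continuous fun t : ℝ => gradient w (x + t • (z - x)) := hgc.comp (by fun_prop)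
    exact this.inner continuous_const
  have hFTC := intervalIntegral.integral_eq_sub_of_hasDerivAt (a := 0) (b := 1)
    (f := fun t : ℝ => w (x + t • (z - x))) (fun t _ => hd t) (hcont.intervalIntegrable 0 1)
  simp only [one_smul, zero_smul, add_zero, add_sub_cancel] at hFTC
  rw [← hFTC, intervalIntegral.integral_of_le zero_le_one, ← Real.norm_eq_abs]
  refine (norm_integral_le_integral_norm _).trans ?_
  have hdist : ‖z - x‖ ≤ 2 * r := by
    have h1 : dist z x ≤ dist z a + dist x a := dist_triangle_right z x a
    rw [mem_closedBall] at hx hz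
    rw [← dist_eq_norm]; linarith
  refine integral_mono_ae ?_ ?_ (Eventually.of_forall fun t => ?_)
  · exact (hcont.norm.integrableOn_Icc (a := 0) (b := 1)).mono_set Ioc_subset_Icc_self
  · have : Continuous fun t : ℝ => ‖gradient w (x + t • (z - x))‖ * (2 * r) :=
      (hgc.comp (by fun_prop)).norm.mul continuous_const
    exact (this.integrableOn_Icc (a := 0) (b := 1)).mono_set Ioc_subset_Icc_self
  · exact (norm_inner_le_norm _ _).trans (mul_le_mul_of_nonneg_left hdist (norm_nonneg _))

private theorem morrey_avg {p : ℝ} (hn : 1 ≤ n) (hp : (n : ℝ) < p) (w : E n → ℝ)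
    (hw : ContDiff ℝ 1 w) (a : E n)
    (r : ℝ) (hr : 0 < r) (x : E n) (hx : x ∈ closedBall a r) :
    ∫ z in closedBall a r, |w z - w x| ≤
      2 * r * ((1 - (n : ℝ) / p)⁻¹ * ((∫ z in closedBall a r, ‖gradient w z‖ ^ p) ^ (1 / p) *
        (volume.real (closedBall a r)) ^ (1 - 1 / p))) := by
  have hn' : (1 : ℝ) ≤ n := by exact_mod_cast hn
  have hp0 : 0 < p := by linarith
  have hgc : Continuous (gradient w) := by
    have h1 : Continuous (fderiv ℝ w) := hw.continuous_fderiv one_ne_zero
    exact (InnerProductSpace.toDual ℝ (E n)).symm.continuous.comp h1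
  set B := closedBall a r with hB
  have : IsFiniteMeasure (volume.restrict B) :=
    ⟨by rw [Measure.restrict_apply_univ]; exact measure_closedBall_lt_top⟩
  set N := (∫ z in B, ‖gradient w z‖ ^ p) ^ (1 / p) * (volume.real B) ^ (1 - 1 / p) with hN
  set F : E n → ℝ → ℝ := fun z t => ‖gradient w (x + t • (z - x))‖ * (2 * r) with hF
  have hFc : Continuous (Function.uncurry F) := by
    have : Continuous fun q : E n × ℝ => gradient w (x + q.2 • (q.1 - x)) :=
      hgc.comp (by fun_prop)
    exact this.norm.mul continuous_const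
  have hFi : Integrable (Function.uncurry F)
      ((volume.restrict B).prod (volume.restrict (Ioc (0 : ℝ) 1))) := by
    rw [Measure.prod_restrict]
    have h1 : IntegrableOn (Function.uncurry F) (B ×ˢ Icc (0 : ℝ) 1) (volume.prod volume) := by
      refine hFc.continuousOn.integrableOn_compact ?_
      exact (isCompact_closedBall a r).prod isCompact_Icc
    exact h1.mono_set (prod_mono_right Ioc_subset_Icc_self)
  have hneg : (-1 : ℝ) < -((n : ℝ) / p) := by
    rw [neg_lt_neg_iff, div_lt_one hp0]; exact hp
  calc ∫ z in B, |w z - w x|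
      ≤ ∫ z in B, ∫ t in Ioc (0 : ℝ) 1, F z t := by
        refine integral_mono_ae ?_ hFi.integral_prod_left ?_
        · have : Continuous fun z => |w z - w x| := (hw.continuous.sub continuous_const).abs
          exact this.continuousOn.integrableOn_compact (isCompact_closedBall a r)
        · exact (ae_restrict_iff' measurableSet_closedBall).2
            (Eventually.of_forall fun z hz => morrey_ptwise w hw a r x hx z hz)
    _ = ∫ t in Ioc (0 : ℝ) 1, ∫ z in B, F z t := integral_integral_swap hFi
    _ ≤ ∫ t in Ioc (0 : ℝ) 1, t ^ (-((n : ℝ) / p)) * (N * (2 * r)) := by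
        refine integral_mono_ae hFi.integral_prod_right ?_ ?_
        · have h1 := (intervalIntegral.intervalIntegrable_rpow' (a := 0) (b := 1) hneg)
          rw [intervalIntegrable_iff_integrableOn_Ioc_of_le zero_le_one] at h1
          exact h1.mul_const _
        · refine (ae_restrict_iff' measurableSet_Ioc).2 (Eventually.of_forall fun t ht => ?_)
          have h1 := morrey_inner hn hp (fun z => ‖gradient w z‖) hgc.norm
            (fun z => norm_nonneg _) a r x hx t ht
          simp only [hF]
          rw [integral_mul_const]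
          have h2 := mul_le_mul_of_nonneg_right h1 (show (0 : ℝ) ≤ 2 * r by positivity)
          refine h2.trans (le_of_eq ?_)
          rw [hN]; ring
    _ = 2 * r * ((1 - (n : ℝ) / p)⁻¹ * N) := by
        rw [integral_mul_const, ← intervalIntegral.integral_of_le zero_le_one,
          integral_rpow (Or.inl hneg)]
        have h2 : -((n : ℝ) / p) + 1 ≠ 0 := by linarith
        rw [Real.one_rpow, Real.zero_rpow h2]
        have h3 : -((n : ℝ) / p) + 1 = 1 - (n : ℝ) / p := by ring
        rw [h3]
        ring

/-- Morrey's inequality on balls for `C¹` functions. -/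
theorem morrey_C1 (hn : 1 ≤ n) {p : ℝ} (hp : (n : ℝ) < p) :
    ∃ C : ℝ, 0 < C ∧ ∀ w : E n → ℝ, ContDiff ℝ 1 w → ∀ (a : E n) (r : ℝ), 0 < r →
      ∀ x ∈ closedBall a r, ∀ y ∈ closedBall a r,
        |w x - w y| ≤ C * r ^ (1 - (n : ℝ) / p) *
          (∫ z in closedBall a r, ‖gradient w z‖ ^ p) ^ (1 / p) := by
  have hn' : (1 : ℝ) ≤ n := by exact_mod_cast hn
  have hp0 : 0 < p := by linarith
  set ω : ℝ := volume.real (ball (0 : E n) 1) with hω
  have hω0 : 0 < ω := by
    rw [hω, Measure.real]
    exact ENNReal.toReal_pos (measure_ball_pos volume 0 one_pos).ne' measure_ball_lt_top.ne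
  have hδ : 0 < 1 - (n : ℝ) / p := by
    have : (n : ℝ) / p < 1 := by rw [div_lt_one hp0]; exact hp
    linarith
  refine ⟨4 * (1 - (n : ℝ) / p)⁻¹ * ω ^ (-(1 / p)), by positivity, ?_⟩
  intro w hw a r hr x hx y hy
  set B := closedBall a r with hB
  have : IsFiniteMeasure (volume.restrict B) :=
    ⟨by rw [Measure.restrict_apply_univ]; exact measure_closedBall_lt_top⟩
  have hvol : volume.real B = r ^ n * ω := by
    rw [hB, Measure.real, Measure.addHaar_closedBall volume a hr.le, ENNReal.toReal_mul,
      finrank_euclideanSpace, Fintype.card_fin, ENNReal.toReal_ofReal (by positivity)]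
    rfl
  have hV0 : 0 < volume.real B := by rw [hvol]; positivity
  set V := volume.real B with hV
  set N := (∫ z in B, ‖gradient w z‖ ^ p) ^ (1 / p) with hN
  have hx' := morrey_avg hn hp w hw a r hr x hx
  have hy' := morrey_avg hn hp w hw a r hr y hy
  rw [← hB, ← hN, ← hV] at hx' hy'
  have hint : ∀ c : ℝ, Integrable (fun z => |w z - c|) (volume.restrict B) := by
    intro c
    have : Continuous fun z => |w z - c| := (hw.continuous.sub continuous_const).abs
    exact this.continuousOn.integrableOn_compact (isCompact_closedBall a r)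
  have key : V * |w x - w y| ≤ ∫ z in B, (|w z - w x| + |w z - w y|) := by
    have h1 : V * |w x - w y| = ∫ z in B, |w x - w y| := by
      rw [integral_const, smul_eq_mul, measureReal_restrict_apply_univ]
    rw [h1]
    refine integral_mono (integrable_const _) ((hint _).add (hint _)) fun z => ?_
    have : |w x - w y| ≤ |w x - w z| + |w z - w y| := abs_sub_le _ _ _
    rw [abs_sub_comm (w x) (w z)] at this
    exact this
  rw [integral_add (hint _) (hint _)] at key
  have key2 : V * |w x - w y| ≤
      V * (4 * (1 - (n : ℝ) / p)⁻¹ * ω ^ (-(1 / p)) * r ^ (1 - (n : ℝ) / p) * N) := by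
    refine key.trans ((add_le_add hx' hy').trans (le_of_eq ?_))
    have e1 : V ^ (1 - 1 / p) = V * V ^ (-(1 / p)) := by
      rw [sub_eq_add_neg, Real.rpow_add hV0, Real.rpow_one]
    have e2 : V ^ (-(1 / p)) = ω ^ (-(1 / p)) * r ^ (-((n : ℝ) / p)) := by
      rw [hvol, Real.mul_rpow (by positivity) hω0.le, mul_comm, ← Real.rpow_natCast,
        ← Real.rpow_mul hr.le]
      congr 2
      ring
    have e3 : r ^ (1 - (n : ℝ) / p) = r * r ^ (-((n : ℝ) / p)) := by
      rw [sub_eq_add_neg, Real.rpow_add hr, Real.rpow_one]
    rw [e1, e2, e3]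
    ring
  exact le_of_mul_le_mul_left key2 hV0

end HMor
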