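import Pool.Agent.W_MP_55e37b_an.Defs
import Pool.Agent.W_MP_55e37b_an.Basics
import Pool.Agent.W_MP_55e37b_an.Moll
import Pool.Agent.W_MP_55e37b_an.MorreyC1

open MeasureTheory Metric Set Filter Topology
open scoped ENNReal

namespace HMor

variable {n : ℕ}

namespace MorreyAux

theorem rpow_int_eq {p : ℝ} (hp : 0 < p) {μ : Measure (E n)} {f : E n → E n}
    (hf : MemLp f (ENNReal.ofReal p) μ) :
    (∫ z, ‖f z‖ ^ p ∂μ) ^ (1 / p) = (eLpNorm f (ENNReal.ofReal p) μ).toReal := by
  rw [hf.eLpNorm_eq_integral_rpow_norm (by simpa using hp) ENNReal.ofReal_ne_top,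
    ENNReal.toReal_ofReal hp.le, ENNReal.toReal_ofReal, one_div]
  exact Real.rpow_nonneg (integral_nonneg fun z => Real.rpow_nonneg (norm_nonneg _) _) _

theorem memLp_cont {p : ℝ} {a : E n} {r : ℝ} {f : E n → E n} (hf : Continuous f) :
    MemLp f (ENNReal.ofReal p) (volume.restrict (closedBall a r)) := by
  obtain ⟨C, hC⟩ := (isCompact_closedBall a r).exists_bound_of_continuousOn hf.continuousOn
  have : IsFiniteMeasure (volume.restrict (closedBall a r)) :=
    ⟨by simpa using (isCompact_closedBall a r).measure_lt_top⟩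
  refine MemLp.of_bound hf.aestronglyMeasurable C ?_
  exact (ae_restrict_iff' isClosed_closedBall.measurableSet).2 (Eventually.of_forall hC)

end MorreyAux

open MorreyAux

/-- Morrey's inequality on balls. -/
theorem morrey_local (hn : 1 ≤ n) {p : ℝ} (hp : (n : ℝ) < p) :
    ∃ C : ℝ, 0 < C ∧ ∀ (u : E n → ℝ) (g : E n → E n), IsD p u g → ∀ (a : E n) (r : ℝ), 0 < r →
      ∀ x ∈ closedBall a r, ∀ y ∈ closedBall a r,
        |u x - u y| ≤ C * r ^ (1 - (n : ℝ) / p) *
          (∫ z in closedBall a r, ‖g z‖ ^ p) ^ (1 / p) := by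
  obtain ⟨C, hC, H⟩ := morrey_C1 hn hp
  have hn1 : (1 : ℝ) ≤ n := by exact_mod_cast hn
  have hp1 : 1 ≤ p := by linarith
  have hp0 : 0 < p := by linarith
  refine ⟨C, hC, fun u g hu a r hr x hx y hy => ?_⟩
  obtain ⟨w, hw, hunif, hlim⟩ := hu.exists_approx hp1
  set μ := volume.restrict (closedBall a r) with hμ
  have hgB : MemLp g (ENNReal.ofReal p) μ := hu.memLp.restrict _
  set ek : ℕ → ℝ≥0∞ := fun k =>
    eLpNorm (fun x => gradient (w k) x - g x) (ENNReal.ofReal p) volume with hek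
  have hfin : ∀ᶠ k in atTop, ek k < ∞ := hlim.eventually (gt_mem_nhds ENNReal.zero_lt_top)
  have hek0 : Tendsto (fun k => (ek k).toReal) atTop (𝓝 0) := by
    have h1 := (ENNReal.tendsto_toReal (a := 0) (by simp)).comp hlim
    rw [ENNReal.toReal_zero] at h1
    exact h1
  have hgrad : ∀ k, MemLp (gradient (w k)) (ENNReal.ofReal p) μ := fun k =>
    memLp_cont (BasicsAux.cont_gradient (BasicsAux.one_of_smooth (hw k)))
  have hle : ∀ᶠ k in atTop, |w k x - w k y| ≤ C * r ^ (1 - (n : ℝ) / p) *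
      ((∫ z in closedBall a r, ‖g z‖ ^ p) ^ (1 / p) + (ek k).toReal) := by
    filter_upwards [hfin] with k hk
    refine (H (w k) (BasicsAux.one_of_smooth (hw k)) a r hr x hx y hy).trans ?_
    refine mul_le_mul_of_nonneg_left ?_ (by positivity)
    rw [rpow_int_eq hp0 (hgrad k), rpow_int_eq hp0 hgB,
      ← ENNReal.toReal_add hgB.eLpNorm_ne_top hk.ne]
    refine ENNReal.toReal_mono (ENNReal.add_ne_top.2 ⟨hgB.eLpNorm_ne_top, hk.ne⟩) ?_
    have e1 : gradient (w k) = g + fun x => gradient (w k) x - g x := by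
      funext z; simp
    have e2 : eLpNorm (fun x => gradient (w k) x - g x) (ENNReal.ofReal p) μ ≤ ek k :=
      eLpNorm_mono_measure _ Measure.restrict_le_self
    have e3 : eLpNorm (g + fun x => gradient (w k) x - g x) (ENNReal.ofReal p) μ ≤
        eLpNorm g (ENNReal.ofReal p) μ +
          eLpNorm (fun x => gradient (w k) x - g x) (ENNReal.ofReal p) μ :=
      eLpNorm_add_le hgB.aestronglyMeasurable
        ((hgrad k).aestronglyMeasurable.sub hgB.aestronglyMeasurable)
        (by rw [← ENNReal.ofReal_one]; exact ENNReal.ofReal_le_ofReal hp1)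
    calc eLpNorm (gradient (w k)) (ENNReal.ofReal p) μ
        = eLpNorm (g + fun x => gradient (w k) x - g x) (ENNReal.ofReal p) μ := by rw [← e1]
      _ ≤ _ := e3
      _ ≤ _ := by gcongr
  have hpt : ∀ z ∈ closedBall a r, Tendsto (fun k => w k z) atTop (𝓝 (u z)) := fun z hz =>
    (hunif _ (isCompact_closedBall a r)).tendsto_at hz
  have hl : Tendsto (fun k => |w k x - w k y|) atTop (𝓝 |u x - u y|) :=
    ((hpt x hx).sub (hpt y hy)).abs
  have hr' : Tendsto (fun k => C * r ^ (1 - (n : ℝ) / p) *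
      ((∫ z in closedBall a r, ‖g z‖ ^ p) ^ (1 / p) + (ek k).toReal)) atTop
      (𝓝 (C * r ^ (1 - (n : ℝ) / p) *
      ((∫ z in closedBall a r, ‖g z‖ ^ p) ^ (1 / p) + 0))) :=
    (tendsto_const_nhds.add hek0).const_mul _
  rw [add_zero] at hr'
  exact le_of_tendsto_of_tendsto hl hr' hle

/-- Morrey's inequality. -/
theorem morrey (hn : 1 ≤ n) {p : ℝ} (hp : (n : ℝ) < p) :
    ∃ C : ℝ, 0 < C ∧ ∀ (u : E n → ℝ) (g : E n → E n), IsD p u g → ∀ x y : E n,
        |u x - u y| ≤ C * ‖x - y‖ ^ (1 - (n : ℝ) / p) * (energy p g) ^ (1 / p) := by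
  obtain ⟨C, hC, H⟩ := morrey_local hn hp
  have hn1 : (1 : ℝ) ≤ n := by exact_mod_cast hn
  have hp0 : 0 < p := by linarith
  refine ⟨C, hC, fun u g hu x y => ?_⟩
  have hE : 0 ≤ energy p g := integral_nonneg fun z => Real.rpow_nonneg (norm_nonneg _) _
  rcases eq_or_ne x y with rfl | hxy
  · rw [sub_self, abs_zero]
    positivity
  have hr : 0 < ‖x - y‖ := norm_pos_iff.2 (sub_ne_zero.2 hxy)
  refine (H u g hu x ‖x - y‖ hr x (mem_closedBall_self hr.le) y ?_).trans ?_
  · rw [mem_closedBall, dist_comm, dist_eq_norm]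
  · refine mul_le_mul_of_nonneg_left ?_ (by positivity)
    refine Real.rpow_le_rpow (integral_nonneg fun z => Real.rpow_nonneg (norm_nonneg _) _) ?_
      (by positivity)
    exact setIntegral_le_integral (hu.integrable_rpow hp0)
      (Eventually.of_forall fun z => Real.rpow_nonneg (norm_nonneg _) _)

end HMor
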