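import Pool.Agent.W_MP_55e37b_an.Defs
import Pool.Agent.W_MP_55e37b_an.Basics
import Pool.Agent.W_MP_55e37b_an.PosPart
import Pool.Agent.W_MP_55e37b_an.Morrey

open MeasureTheory Metric Set Filter Topology
open scoped ENNReal

namespace HMor

variable {n : ℕ}

namespace AttainAux

/-- Absolute continuity of the integral of a nonnegative function over small balls. -/
theorem small_balls (hn : 1 ≤ n) {G : E n → ℝ} (hG : Integrable G volume) (hG0 : ∀ x, 0 ≤ G x)
    {ε : ℝ} (hε : 0 < ε) :
    ∃ r0 : ℝ, 0 < r0 ∧ ∀ (x : E n) (r : ℝ), r < r0 → ∫ z in closedBall x r, G z < ε := by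
  have : NeZero n := ⟨by omega⟩
  have : Nontrivial (E n) := inferInstance
  have hfin : ∫⁻ x, ENNReal.ofReal (G x) ≠ ∞ := by
    rw [← ofReal_integral_eq_lintegral_ofReal hG (Eventually.of_forall hG0)]
    exact ENNReal.ofReal_ne_top
  obtain ⟨δ, hδ, hδ'⟩ := exists_pos_setLIntegral_lt_of_measure_lt hfin
    (ε := ENNReal.ofReal ε) (by simpa using hε)
  have hcont : Tendsto (fun r : ℝ => volume (closedBall (0 : E n) r)) (𝓝[>] 0) (𝓝 0) := by
    have h1 : ∀ r : ℝ, 0 < r → volume (closedBall (0 : E n) r) =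
        ENNReal.ofReal (r ^ n) * volume (closedBall (0 : E n) 1) := by
      intro r hr
      rw [Measure.addHaar_closedBall _ _ hr.le, Measure.addHaar_closedBall _ _ zero_le_one]
      simp
    have h2 : Tendsto (fun r : ℝ => ENNReal.ofReal (r ^ n) * volume (closedBall (0 : E n) 1))
        (𝓝[>] 0) (𝓝 (ENNReal.ofReal ((0 : ℝ) ^ n) * volume (closedBall (0 : E n) 1))) := by
      refine ENNReal.Tendsto.mul_const ?_ (Or.inr measure_closedBall_lt_top.ne)
      refine ENNReal.tendsto_ofReal ?_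
      exact ((continuous_pow n).tendsto 0).mono_left nhdsWithin_le_nhds
    rw [zero_pow (by omega), ENNReal.ofReal_zero, zero_mul] at h2
    refine h2.congr' ?_
    filter_upwards [self_mem_nhdsWithin] with r hr
    exact (h1 r hr).symm
  have h3 : ∀ᶠ r : ℝ in 𝓝[>] 0, volume (closedBall (0 : E n) r) < δ :=
    hcont.eventually (gt_mem_nhds hδ)
  obtain ⟨r0, hr0, hr0'⟩ := (h3.and self_mem_nhdsWithin).exists
  refine ⟨r0, hr0', fun x r hr => ?_⟩
  have h4 : volume (closedBall x r) < δ := by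
    refine lt_of_le_of_lt ?_ hr0
    rw [Measure.addHaar_closedBall_center volume x r]
    exact measure_mono (closedBall_subset_closedBall hr.le)
  have h5 := hδ' _ h4
  rw [← ofReal_integral_eq_lintegral_ofReal hG.integrableOn
    (Eventually.of_forall fun x => hG0 x)] at h5
  exact (ENNReal.ofReal_lt_ofReal_iff hε).1 h5

/-- The mass of an integrable function outside a big ball is small. -/
theorem small_tail {G : E n → ℝ} (hG : Integrable G volume) {ε : ℝ} (hε : 0 < ε) :
    ∃ ρ : ℝ, 0 < ρ ∧ ∫ z in {z : E n | ρ ≤ ‖z‖}, G z < ε := by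
  have h := tendsto_setIntegral_of_antitone (μ := volume) (f := G)
    (s := fun k : ℕ => {z : E n | (k : ℝ) ≤ ‖z‖})
    (fun k => measurableSet_le measurable_const measurable_norm)
    (fun k l hkl z hz => by
      have h1 : (l : ℝ) ≤ ‖z‖ := hz
      have h2 : (k : ℝ) ≤ l := by exact_mod_cast hkl
      exact le_trans h2 h1) ⟨0, hG.integrableOn⟩
  have hempty : (⋂ k : ℕ, {z : E n | (k : ℝ) ≤ ‖z‖}) = ∅ := by
    ext z
    simp only [mem_iInter, mem_ofPred_eq, mem_empty_iff_false, iff_false, not_forall, not_le]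
    exact exists_nat_gt ‖z‖
  rw [hempty, setIntegral_empty] at h
  have h2 := (h.eventually (gt_mem_nhds hε)).and (eventually_gt_atTop 0)
  obtain ⟨k, hk, hk'⟩ := h2.exists
  exact ⟨k, by exact_mod_cast hk', hk⟩

/-- `∫⁻ ‖g‖ₑ ^ p` over `Ω` is the energy. -/
theorem lintegral_eq_energy {p : ℝ} (hp : 1 ≤ p) {Ω : Set (E n)} (hΩ : IsOpen Ω)
    {u : E n → ℝ} {g : E n → E n} (hu : IsD0 p Ω u g) :
    ∫⁻ x in Ω, ‖g x‖ₑ ^ p = ENNReal.ofReal (energy p g) := by
  have hp0 : 0 < p := by linarith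
  have h1 : ∫⁻ x in Ω, ‖g x‖ₑ ^ p = ∫⁻ x, ‖g x‖ₑ ^ p := by
    rw [← lintegral_indicator hΩ.measurableSet]
    refine lintegral_congr_ae ?_
    filter_upwards [(hu.isD.wg hp).ae_zero] with x hx
    by_cases hxΩ : x ∈ Ω
    · rw [indicator_of_mem hxΩ]
    · rw [indicator_of_notMem hxΩ, hx (hu.zero x hxΩ)]
      simp [hp0]
  rw [h1, energy, ofReal_integral_eq_lintegral_ofReal (hu.isD.integrable_rpow hp0)
    (Eventually.of_forall fun x => by positivity)]
  refine lintegral_congr fun x => ?_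
  rw [← ENNReal.ofReal_rpow_of_nonneg (norm_nonneg _) hp0.le, ofReal_norm]

end AttainAux

open AttainAux

/-- the `L^∞` norm in `ratio` is attained -/
theorem ratio_attained (hn : 1 ≤ n) {p : ℝ} (hp : (n : ℝ) < p) {Ω : Set (E n)} (hΩ : IsOpen Ω)
    (hΩ' : Ω ≠ univ) {u : E n → ℝ} {g : E n → E n} (hu : IsD0 p Ω u g) (hu0 : u ≠ 0) :
    ∃ x ∈ Ω, u x ≠ 0 ∧
      ratio p Ω u g = ENNReal.ofReal ((infDist x Ωᶜ) ^ (p - n) * energy p g / |u x| ^ p) := by
  have hn1 : (1 : ℝ) ≤ n := by exact_mod_cast hn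
  have hp1 : 1 < p := lt_of_le_of_lt hn1 hp
  have hp0 : 0 < p := by linarith
  set α : ℝ := 1 - (n : ℝ) / p with hα
  have hα0 : 0 < α := by
    rw [hα, sub_pos, div_lt_one hp0]; exact hp
  -- the complement
  have hcl : IsClosed (Ωᶜ : Set (E n)) := hΩ.isClosed_compl
  have hne : (Ωᶜ : Set (E n)).Nonempty := by
    rw [nonempty_compl]; exact hΩ'
  have hdpos : ∀ x ∈ Ω, 0 < infDist x Ωᶜ := by
    intro x hx
    rw [← hcl.notMem_iff_infDist_pos hne]
    simpa using hx
  have hdc : Continuous fun x : E n => infDist x Ωᶜ := continuous_infDist_pt _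
  -- the energy density
  set G : E n → ℝ := fun z => ‖g z‖ ^ p with hGdef
  have hG : Integrable G volume := hu.isD.integrable_rpow hp0
  have hG0 : ∀ z, 0 ≤ G z := fun z => by positivity
  obtain ⟨C, hC, hM⟩ := morrey_local hn hp
  -- the basic estimate
  have hbase : ∀ x ∈ Ω, |u x| ≤ C * (infDist x Ωᶜ) ^ α *
      (∫ z in closedBall x (infDist x Ωᶜ), G z) ^ (1 / p) := by
    intro x hx
    obtain ⟨y, hy, hxy⟩ := hcl.exists_infDist_eq_dist hne x
    have h := hM u g hu.isD x (infDist x Ωᶜ) (hdpos x hx) x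
      (mem_closedBall_self (hdpos x hx).le) y (by rw [mem_closedBall, dist_comm]; exact hxy.ge)
    rw [hu.zero y hy, sub_zero] at h
    exact h
  -- a point where `u` does not vanish
  obtain ⟨x0, hx0⟩ : ∃ x0, u x0 ≠ 0 := by
    by_contra h
    push Not at h
    exact hu0 (funext h)
  have hx0Ω : x0 ∈ Ω := by
    by_contra h
    exact hx0 (hu.zero x0 h)
  set m : ℝ := |u x0| / (infDist x0 Ωᶜ) ^ α with hm
  have hm0 : 0 < m := div_pos (abs_pos.2 hx0) (Real.rpow_pos_of_pos (hdpos x0 hx0Ω) _)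
  -- near the boundary
  obtain ⟨r0, hr0, hr0'⟩ := small_balls hn hG hG0 (ε := (m / (2 * C)) ^ p)
    (Real.rpow_pos_of_pos (by positivity) _)
  have hroot : ∀ t : ℝ, 0 ≤ t → t < (m / (2 * C)) ^ p → C * t ^ (1 / p) < m / 2 := by
    intro t ht0 ht
    have h1 : t ^ (1 / p) < ((m / (2 * C)) ^ p) ^ (1 / p) :=
      Real.rpow_lt_rpow ht0 ht (by positivity)
    rw [← Real.rpow_mul (by positivity), mul_one_div_cancel hp0.ne', Real.rpow_one] at h1
    calc C * t ^ (1 / p) < C * (m / (2 * C)) := mul_lt_mul_of_pos_left h1 hC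
      _ = m / 2 := by field_simp
  have hbd : ∀ x ∈ Ω, infDist x Ωᶜ < r0 → |u x| < m * (infDist x Ωᶜ) ^ α := by
    intro x hx hxr
    have h1 := hbase x hx
    have h2 := hroot _ (setIntegral_nonneg measurableSet_closedBall fun z _ => hG0 z)
      (hr0' x _ hxr)
    have h3 : 0 < (infDist x Ωᶜ) ^ α := Real.rpow_pos_of_pos (hdpos x hx) _
    calc |u x| ≤ (infDist x Ωᶜ) ^ α *
          (C * (∫ z in closedBall x (infDist x Ωᶜ), G z) ^ (1 / p)) := by
          rw [← mul_assoc, mul_comm _ C]; exact h1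
      _ < (infDist x Ωᶜ) ^ α * (m / 2) := mul_lt_mul_of_pos_left h2 h3
      _ ≤ m * (infDist x Ωᶜ) ^ α := by nlinarith
  -- near infinity
  obtain ⟨ρ, hρ, hρ'⟩ := small_tail hG (ε := (m / (2 * C)) ^ p)
    (Real.rpow_pos_of_pos (by positivity) _)
  have htail : ∀ (c : E n) (r : ℝ), closedBall c r ⊆ {z : E n | ρ ≤ ‖z‖} →
      C * (∫ z in closedBall c r, G z) ^ (1 / p) < m / 2 := by
    intro c r hcr
    refine hroot _ (setIntegral_nonneg measurableSet_closedBall fun z _ => hG0 z) ?_
    refine lt_of_le_of_lt ?_ hρ'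
    exact setIntegral_mono_set hG.integrableOn (Eventually.of_forall hG0)
      (LE.le.eventuallyLE hcr)
  obtain ⟨S, hS⟩ := (isCompact_closedBall (0 : E n) ρ).exists_bound_of_continuousOn
    hu.isD.cont.continuousOn
  have hS0 : 0 ≤ S := le_trans (norm_nonneg _) (hS 0 (mem_closedBall_self hρ.le))
  obtain ⟨R1, hR1⟩ : ∃ R1 : ℝ, ∀ t : ℝ, R1 ≤ t → S < m / 2 * (t / 2) ^ α := by
    have h1 : Tendsto (fun t : ℝ => m / 2 * (t / 2) ^ α) atTop atTop :=
      ((tendsto_rpow_atTop hα0).comp (tendsto_id.atTop_div_const two_pos)).const_mul_atTop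
        (by positivity)
    exact eventually_atTop.1 (h1.eventually (eventually_gt_atTop S))
  have hinf : ∀ x ∈ Ω, max R1 (2 * ρ) < ‖x‖ → |u x| < m * (infDist x Ωᶜ) ^ α := by
    intro x hx hxR
    have hxR1 : R1 < ‖x‖ := lt_of_le_of_lt (le_max_left _ _) hxR
    have hxR2 : 2 * ρ < ‖x‖ := lt_of_le_of_lt (le_max_right _ _) hxR
    have hd0 := hdpos x hx
    have h3 : 0 < (infDist x Ωᶜ) ^ α := Real.rpow_pos_of_pos hd0 _
    have hx0 : 0 < ‖x‖ := by linarith
    rcases le_or_gt (infDist x Ωᶜ) (‖x‖ / 2) with hcase | hcase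
    · have h1 := hbase x hx
      have h2 := htail x (infDist x Ωᶜ) (by
        intro z hz
        rw [mem_closedBall, dist_eq_norm] at hz
        have : ‖x‖ ≤ ‖z‖ + ‖z - x‖ := by
          have := norm_sub_norm_le x z
          rw [norm_sub_rev] at this
          linarith
        simp only [mem_ofPred_eq]
        linarith)
      calc |u x| ≤ (infDist x Ωᶜ) ^ α *
            (C * (∫ z in closedBall x (infDist x Ωᶜ), G z) ^ (1 / p)) := by
            rw [← mul_assoc, mul_comm _ C]; exact h1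
        _ < (infDist x Ωᶜ) ^ α * (m / 2) := mul_lt_mul_of_pos_left h2 h3
        _ ≤ m * (infDist x Ωᶜ) ^ α := by nlinarith
    · -- the single ball with diameter `[x', x]`
      set x' : E n := (ρ / ‖x‖) • x with hx'
      have hx'n : ‖x'‖ = ρ := by
        rw [hx', norm_smul, Real.norm_of_nonneg (by positivity)]
        field_simp
      set c : E n := ((1 + ρ / ‖x‖) / 2) • x with hc
      set r : ℝ := (‖x‖ - ρ) / 2 with hr
      have hr0 : 0 < r := by rw [hr]; linarith
      have hcn : ‖c‖ = (‖x‖ + ρ) / 2 := by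
        rw [hc, norm_smul, Real.norm_of_nonneg (by positivity)]
        field_simp
      have hsub : closedBall c r ⊆ {z : E n | ρ ≤ ‖z‖} := by
        intro z hz
        rw [mem_closedBall, dist_eq_norm] at hz
        have : ‖c‖ ≤ ‖z‖ + ‖z - c‖ := by
          have := norm_sub_norm_le c z
          rw [norm_sub_rev] at this
          linarith
        simp only [mem_ofPred_eq]
        rw [hcn] at this
        rw [hr] at hz
        linarith
      have hxc : x ∈ closedBall c r := by
        rw [mem_closedBall, dist_eq_norm]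
        have : x - c = ((1 - ρ / ‖x‖) / 2) • x := by
          rw [hc]
          nth_rewrite 1 [← one_smul ℝ x]
          rw [← sub_smul]
          congr 1
          ring
        have h1 : 0 ≤ (1 - ρ / ‖x‖) / 2 := by
          have : ρ / ‖x‖ ≤ 1 := by rw [div_le_one hx0]; linarith
          linarith
        rw [this, norm_smul, Real.norm_of_nonneg h1, hr]
        apply le_of_eq
        field_simp
      have hx'c : x' ∈ closedBall c r := by
        rw [mem_closedBall, dist_eq_norm]
        have : x' - c = (-((1 - ρ / ‖x‖) / 2)) • x := by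
          rw [hc, hx', ← sub_smul]
          congr 1
          ring
        have h1 : 0 ≤ (1 - ρ / ‖x‖) / 2 := by
          have : ρ / ‖x‖ ≤ 1 := by rw [div_le_one hx0]; linarith
          linarith
        rw [this, norm_smul, norm_neg, Real.norm_of_nonneg h1, hr]
        apply le_of_eq
        field_simp
      have h1 := hM u g hu.isD c r hr0 x hxc x' hx'c
      have h2 := htail c r hsub
      have hrd : r ^ α ≤ (infDist x Ωᶜ) ^ α :=
        Real.rpow_le_rpow hr0.le (by rw [hr]; linarith) hα0.le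
      have hSx : |u x'| ≤ S := by
        have := hS x' (by rw [mem_closedBall_zero_iff, hx'n])
        simpa using this
      have h4 : |u x| ≤ |u x - u x'| + |u x'| := by
        have := abs_sub_abs_le_abs_sub (u x) (u x')
        linarith
      have h5 : S < m / 2 * (‖x‖ / 2) ^ α := hR1 _ hxR1.le
      have h6 : (‖x‖ / 2) ^ α ≤ (infDist x Ωᶜ) ^ α :=
        Real.rpow_le_rpow (by positivity) hcase.le hα0.le
      have h7 : |u x - u x'| ≤ r ^ α * (C * (∫ z in closedBall c r, G z) ^ (1 / p)) := by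
        rw [← mul_assoc, mul_comm _ C]; exact h1
      have h8 : r ^ α * (C * (∫ z in closedBall c r, G z) ^ (1 / p)) ≤
          (infDist x Ωᶜ) ^ α * (m / 2) := by
        refine mul_le_mul hrd h2.le ?_ h3.le
        exact mul_nonneg hC.le (Real.rpow_nonneg
          (setIntegral_nonneg measurableSet_closedBall fun z _ => hG0 z) _)
      have h9 : m / 2 * (‖x‖ / 2) ^ α ≤ m / 2 * (infDist x Ωᶜ) ^ α :=
        mul_le_mul_of_nonneg_left h6 (by positivity)
      calc |u x| ≤ |u x - u x'| + |u x'| := h4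
        _ ≤ (infDist x Ωᶜ) ^ α * (m / 2) + S := by linarith
        _ < (infDist x Ωᶜ) ^ α * (m / 2) + m / 2 * (infDist x Ωᶜ) ^ α := by linarith
        _ = m * (infDist x Ωᶜ) ^ α := by ring
  -- the compact set
  set K : Set (E n) := {x | r0 ≤ infDist x Ωᶜ ∧ m * (infDist x Ωᶜ) ^ α ≤ |u x|} with hK
  have hpc : Continuous fun x : E n => (infDist x Ωᶜ) ^ α :=
    hdc.rpow_const fun x => Or.inr hα0.le
  have hKΩ : ∀ x ∈ K, x ∈ Ω := by
    intro x hx
    by_contra h
    have h1 : infDist x Ωᶜ = 0 := infDist_zero_of_mem h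
    have h2 := hx.1
    rw [h1] at h2
    linarith
  have hKcl : IsClosed K :=
    (isClosed_le continuous_const hdc).inter
      (isClosed_le (continuous_const.mul hpc) hu.isD.cont.abs)
  have hKb : K ⊆ closedBall 0 (max R1 (2 * ρ)) := by
    intro x hx
    rw [mem_closedBall_zero_iff]
    by_contra h
    push Not at h
    exact absurd (hinf x (hKΩ x hx) h) (not_lt.2 hx.2)
  have hKc : IsCompact K := (isCompact_closedBall (0 : E n) _).of_isClosed_subset hKcl hKb
  have hKmem : ∀ x ∈ Ω, m * (infDist x Ωᶜ) ^ α ≤ |u x| → x ∈ K := by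
    intro x hx h
    refine ⟨?_, h⟩
    by_contra h'
    push Not at h'
    exact absurd (hbd x hx h') (not_lt.2 h)
  have hx0K : x0 ∈ K := by
    refine hKmem x0 hx0Ω ?_
    rw [hm, div_mul_cancel₀ _ (Real.rpow_pos_of_pos (hdpos x0 hx0Ω) _).ne']
  set f : E n → ℝ := fun x => |u x| / (infDist x Ωᶜ) ^ α with hf
  have hfK : ContinuousOn f K := by
    refine hu.isD.cont.abs.continuousOn.div hpc.continuousOn fun x hx => ?_
    exact (Real.rpow_pos_of_pos (hdpos x (hKΩ x hx)) _).ne'
  obtain ⟨xs, hxs, hmax⟩ := hKc.exists_isMaxOn ⟨x0, hx0K⟩ hfK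
  have hxsΩ : xs ∈ Ω := hKΩ xs hxs
  have hmax' : ∀ x ∈ Ω, f x ≤ f xs := by
    intro x hx
    by_cases hxK : x ∈ K
    · exact hmax hxK
    · have h1 : |u x| < m * (infDist x Ωᶜ) ^ α := by
        by_contra h
        push Not at h
        exact hxK (hKmem x hx h)
      have h2 : f x < m := (div_lt_iff₀ (Real.rpow_pos_of_pos (hdpos x hx) _)).2 h1
      exact h2.le.trans (hmax hx0K)
  have hfxs : 0 < f xs := lt_of_lt_of_le hm0 (hmax hx0K)
  have hdxs := hdpos xs hxsΩ
  have huxs : u xs ≠ 0 := by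
    intro h
    simp only [hf, h, abs_zero, zero_div, lt_self_iff_false] at hfxs
  refine ⟨xs, hxsΩ, huxs, ?_⟩
  -- the essential supremum
  have hnorm : ∀ x ∈ Ω, ‖u x / (infDist x Ωᶜ) ^ α‖ = f x := by
    intro x hx
    rw [norm_div, Real.norm_eq_abs, Real.norm_of_nonneg (Real.rpow_nonneg (hdpos x hx).le _)]
  have hess : eLpNorm (fun x => u x / (infDist x Ωᶜ) ^ α) ∞ (volume.restrict Ω) =
      ENNReal.ofReal (f xs) := by
    rw [eLpNorm_exponent_top]
    refine le_antisymm ?_ ?_
    · refine eLpNormEssSup_le_of_ae_bound ?_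
      filter_upwards [ae_restrict_mem hΩ.measurableSet] with x hx
      rw [hnorm x hx]
      exact hmax' x hx
    · by_contra hlt
      push Not at hlt
      have hae := ae_le_eLpNormEssSup (μ := volume.restrict Ω)
        (f := fun x => u x / (infDist x Ωᶜ) ^ α)
      rw [ae_restrict_iff' hΩ.measurableSet] at hae
      set t := eLpNormEssSup (fun x => u x / (infDist x Ωᶜ) ^ α) (volume.restrict Ω) with ht
      have hcont : ContinuousAt (fun x => ENNReal.ofReal (f x)) xs := by
        refine ENNReal.continuous_ofReal.continuousAt.comp ?_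
        exact hu.isD.cont.abs.continuousAt.div hpc.continuousAt
          (Real.rpow_pos_of_pos hdxs _).ne'
      have hU : {x | x ∈ Ω ∧ t < ENNReal.ofReal (f x)} ∈ 𝓝 xs :=
        (hΩ.mem_nhds hxsΩ |> fun h => (eventually_mem_set.2 h).and
          (hcont.eventually (lt_mem_nhds hlt)))
      have hpos := Measure.measure_pos_of_mem_nhds volume hU
      refine hpos.ne' (measure_mono_null ?_ (ae_iff.1 hae))
      rintro x ⟨hx, hxt⟩
      simp only [mem_ofPred_eq, not_forall]
      refine ⟨hx, not_le.2 ?_⟩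
      rw [← ofReal_norm, hnorm x hx]
      exact hxt
  rw [ratio, hess, lintegral_eq_energy hp1.le hΩ hu, ENNReal.ofReal_rpow_of_pos hfxs,
    ← ENNReal.ofReal_mul (Real.rpow_nonneg hfxs.le _)]
  congr 1
  have hau : 0 < |u xs| := abs_pos.2 huxs
  have e1 : (infDist xs Ωᶜ) ^ (p - n) = ((infDist xs Ωᶜ) ^ α) ^ p := by
    rw [← Real.rpow_mul hdxs.le]
    congr 1
    rw [hα]
    field_simp
  rw [e1]
  simp only [hf]
  rw [Real.rpow_neg (by positivity), Real.div_rpow hau.le (by positivity)]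
  have e2 : 0 < |u xs| ^ p := Real.rpow_pos_of_pos hau _
  have e3 : 0 < ((infDist xs Ωᶜ) ^ α) ^ p :=
    Real.rpow_pos_of_pos (Real.rpow_pos_of_pos hdxs _) _
  field_simp

end HMor
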