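import Pool.Agent.W_MP_55e37b_an.Defs
import Pool.Agent.W_MP_55e37b_an.Basics

open MeasureTheory Metric Set Filter Topology
open scoped ENNReal

namespace HMor

variable {n : ℕ}

/-- The similarity `x ↦ b + t • A x` as a homeomorphism. -/
noncomputable def simH (A : E n ≃ₗᵢ[ℝ] E n) (b : E n) {t : ℝ} (ht : 0 < t) : E n ≃ₜ E n :=
  (A.toHomeomorph.trans (Homeomorph.smulOfNeZero t ht.ne')).trans (Homeomorph.addLeft b)

theorem simH_apply (A : E n ≃ₗᵢ[ℝ] E n) (b : E n) {t : ℝ} (ht : 0 < t) (x : E n) :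
    simH A b ht x = b + t • A x := rfl

theorem simH_map (A : E n ≃ₗᵢ[ℝ] E n) (b : E n) {t : ℝ} (ht : 0 < t) :
    Measure.map (simH A b ht) (volume : Measure (E n)) =
      ENNReal.ofReal ((t ^ n)⁻¹) • (volume : Measure (E n)) := by
  have h1 : (simH A b ht : E n → E n) = (fun y => b + y) ∘ (fun y => t • y) ∘ A := by
    funext x; rfl
  rw [h1, ← Measure.map_map (by fun_prop) (by fun_prop),
    ← Measure.map_map (by fun_prop) (by fun_prop), A.measurePreserving.map_eq,
    Measure.map_addHaar_smul _ ht.ne', Measure.map_smul, map_add_left_eq_self]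
  congr 2
  rw [finrank_euclideanSpace_fin, abs_of_nonneg (by positivity)]

theorem integral_comp_simH {F : Type*} [NormedAddCommGroup F] [NormedSpace ℝ F]
    (A : E n ≃ₗᵢ[ℝ] E n) (b : E n) {t : ℝ} (ht : 0 < t) (f : E n → F) :
    ∫ x, f (b + t • A x) = (t ^ n)⁻¹ • ∫ x, f x := by
  have h1 : ∫ x, f (b + t • A x) = ∫ y, f y ∂(Measure.map (simH A b ht) volume) :=
    ((simH A b ht).measurableEmbedding.integral_map f).symm
  rw [h1, simH_map, integral_smul_measure, ENNReal.toReal_ofReal (by positivity)]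

theorem memLp_comp_simH {F : Type*} [NormedAddCommGroup F] {q : ℝ≥0∞}
    (A : E n ≃ₗᵢ[ℝ] E n) (b : E n) {t : ℝ} (ht : 0 < t) {f : E n → F} (hf : MemLp f q volume) :
    MemLp (fun x => f (b + t • A x)) q volume := by
  have h1 : MemLp f q (Measure.map (simH A b ht) volume) := by
    rw [simH_map]
    exact hf.smul_measure ENNReal.ofReal_ne_top
  exact ((simH A b ht).measurableEmbedding.memLp_map_measure_iff).1 h1

theorem IsD.comp_sim {p : ℝ} (_hp : 1 ≤ p) {u : E n → ℝ} {g : E n → E n} (h : IsD p u g)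
    (A : E n ≃ₗᵢ[ℝ] E n) (b : E n) {t : ℝ} (ht : 0 < t) :
    IsD p (fun x => u (b + t • A x)) (fun x => t • A.symm (g (b + t • A x))) := by
  refine ⟨?_, ?_, ?_⟩
  · have := h.cont
    fun_prop
  · have h1 := memLp_comp_simH A b ht h.memLp
    have h2 := (A.symm.toContinuousLinearEquiv : E n →L[ℝ] E n).comp_memLp' h1
    exact h2.const_smul t
  · intro φ hφ hc v
    set ψ : E n → ℝ := fun y => φ ((simH A b ht).symm y) with hψ
    have hsymm : ∀ y, (simH A b ht).symm y = A.symm (t⁻¹ • (y - b)) := by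
      intro y
      rw [Homeomorph.symm_apply_eq, simH_apply, LinearIsometryEquiv.apply_symm_apply, smul_smul,
        mul_inv_cancel₀ ht.ne', one_smul]
      abel
    have hψc : ContDiff ℝ ((⊤ : ℕ∞) : WithTop ℕ∞) ψ := by
      have : ψ = fun y => φ (A.symm (t⁻¹ • (y - b))) := by
        funext y
        rw [hψ]
        simp only [hsymm]
      rw [this]
      have h2 : ContDiff ℝ ((⊤ : ℕ∞) : WithTop ℕ∞) (fun y : E n => t⁻¹ • (y - b)) :=
        (contDiff_id.sub contDiff_const).const_smul t⁻¹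
      exact hφ.comp (A.symm.contDiff.comp h2)
    have hψs : HasCompactSupport ψ := hc.comp_homeomorph (simH A b ht).symm
    have hφψ : ∀ x, φ x = ψ (b + t • A x) := by
      intro x
      rw [hψ]
      show φ x = φ ((simH A b ht).symm (simH A b ht x))
      rw [Homeomorph.symm_apply_apply]
    have hder : ∀ x, fderiv ℝ φ x v = fderiv ℝ ψ (b + t • A x) (t • A v) := by
      intro x
      have e1 : φ = fun x => ψ (b + t • A x) := funext hφψ
      have d1 : HasFDerivAt (fun x : E n => b + t • A x)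
          (t • (A.toContinuousLinearEquiv : E n →L[ℝ] E n)) x :=
        ((A.toContinuousLinearEquiv.hasFDerivAt (x := x)).const_smul t).const_add b
      have d2 : HasFDerivAt ψ (fderiv ℝ ψ (b + t • A x)) (b + t • A x) :=
        (hψc.differentiable (by simp)).differentiableAt.hasFDerivAt
      have d3 := d2.comp x d1
      have d4 : fderiv ℝ φ x = (fderiv ℝ ψ (b + t • A x)).comp
          (t • (A.toContinuousLinearEquiv : E n →L[ℝ] E n)) := by
        conv_lhs => rw [e1]
        exact d3.fderiv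
      rw [d4]
      rfl
    have key := h.weak ψ hψc hψs (t • A v)
    have l1 : ∫ x, u (b + t • A x) * fderiv ℝ φ x v =
        (t ^ n)⁻¹ • ∫ y, u y * fderiv ℝ ψ y (t • A v) := by
      rw [← integral_comp_simH A b ht (fun y => u y * fderiv ℝ ψ y (t • A v))]
      refine integral_congr_ae (Eventually.of_forall fun x => ?_)
      show u (b + t • A x) * fderiv ℝ φ x v = _
      rw [hder]
    have l2 : ∫ x, inner ℝ (t • A.symm (g (b + t • A x))) v * φ x =
        (t ^ n)⁻¹ • ∫ y, inner ℝ (g y) (t • A v) * ψ y := by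
      rw [← integral_comp_simH A b ht (fun y => inner ℝ (g y) (t • A v) * ψ y)]
      refine integral_congr_ae (Eventually.of_forall fun x => ?_)
      show inner ℝ (t • A.symm (g (b + t • A x))) v * φ x =
        inner ℝ (g (b + t • A x)) (t • A v) * ψ (b + t • A x)
      rw [hφψ, real_inner_smul_left, real_inner_smul_right]
      congr 2
      rw [← A.inner_map_map, A.apply_symm_apply]
    show ∫ x, u (b + t • A x) * fderiv ℝ φ x v =
      - ∫ x, inner ℝ (t • A.symm (g (b + t • A x))) v * φ x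
    rw [l1, l2, key, smul_neg]

theorem energy_comp_sim (p : ℝ) (g : E n → E n) (A : E n ≃ₗᵢ[ℝ] E n) (b : E n) {t : ℝ}
    (ht : 0 < t) :
    energy p (fun x => t • A.symm (g (b + t • A x))) = t ^ (p - n) * energy p g := by
  unfold energy
  have h1 : (fun x => ‖t • A.symm (g (b + t • A x))‖ ^ p) =
      fun x => t ^ p * ‖g (b + t • A x)‖ ^ p := by
    funext x
    rw [norm_smul, Real.norm_eq_abs, abs_of_pos ht, LinearIsometryEquiv.norm_map,
      Real.mul_rpow ht.le (norm_nonneg _)]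
  rw [h1, integral_const_mul, integral_comp_simH A b ht (fun y => ‖g y‖ ^ p), smul_eq_mul,
    ← mul_assoc, Real.rpow_sub ht, Real.rpow_natCast, div_eq_mul_inv]

theorem sim_energy_const_smul (p : ℝ) (g : E n → E n) (c : ℝ) :
    energy p (fun x => c • g x) = |c| ^ p * energy p g := by
  unfold energy
  have h1 : (fun x => ‖c • g x‖ ^ p) = fun x => |c| ^ p * ‖g x‖ ^ p := by
    funext x
    rw [norm_smul, Real.norm_eq_abs, Real.mul_rpow (abs_nonneg _) (norm_nonneg _)]
  rw [h1, integral_const_mul]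

theorem sim_energy_nonneg (p : ℝ) (g : E n → E n) : 0 ≤ energy p g :=
  integral_nonneg fun _ => Real.rpow_nonneg (norm_nonneg _) _

theorem sim_exists_isometry {e ν : E n} (he : ‖e‖ = 1) (hν : ‖ν‖ = 1) :
    ∃ A : E n ≃ₗᵢ[ℝ] E n, A e = ν :=
  ⟨_, Submodule.reflection_sub (he.trans hν.symm)⟩

theorem sim_cH_le {p : ℝ} {e : E n} {u : E n → ℝ} {g : E n → E n}
    (h : IsD0 p (halfspace e 0) u g) (h1 : u e = 1) : cH p e ≤ energy p g := by
  refine csInf_le ⟨0, ?_⟩ ⟨u, g, h, h1, rfl⟩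
  rintro c ⟨u', g', _, _, rfl⟩
  exact sim_energy_nonneg p g'

/-- the energy of a function vanishing off a halfspace, in terms of one of its values -/
theorem halfspace_energy_ge (hn : 1 ≤ n) {p : ℝ} (hp : (n : ℝ) < p) {e ν : E n} (he : ‖e‖ = 1)
    (hν : ‖ν‖ = 1) {y : E n} {u : E n → ℝ} {g : E n → E n}
    (hu : IsD0 p (halfspace ν (inner ℝ y ν)) u g) {x : E n} (hx : 0 < inner ℝ (x - y) ν) :
    |u x| ^ p * (inner ℝ (x - y) ν) ^ ((n : ℝ) - p) * cH p e ≤ energy p g := by
  have hn' : (1 : ℝ) ≤ n := by exact_mod_cast hn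
  have hp1 : 1 ≤ p := by linarith
  by_cases hux : u x = 0
  · rw [hux, abs_zero, Real.zero_rpow (by linarith), zero_mul, zero_mul]
    exact sim_energy_nonneg p g
  obtain ⟨A, hA⟩ := sim_exists_isometry he hν
  set s : ℝ := inner ℝ (x - y) ν with hs
  have h1 := (hu.isD.comp_sim hp1 A (x - s • ν) hx).const_mul hp1 (u x)⁻¹
  have h2 : IsD0 p (halfspace e 0) (fun z => (u x)⁻¹ * u (x - s • ν + s • A z))
      (fun z => (u x)⁻¹ • (s • A.symm (g (x - s • ν + s • A z)))) := by
    refine ⟨h1, ?_⟩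
    intro z hz
    have hz' : inner ℝ z e ≤ 0 := not_lt.1 hz
    have : u (x - s • ν + s • A z) = 0 := by
      apply hu.zero
      show ¬ (inner ℝ y ν < inner ℝ (x - s • ν + s • A z) ν)
      rw [not_lt, inner_add_left, inner_sub_left, real_inner_smul_left, real_inner_smul_left,
        real_inner_self_eq_norm_sq, hν]
      have e1 : inner ℝ (A z) ν = inner ℝ z e := by rw [← hA, A.inner_map_map]
      have e2 : s = inner ℝ x ν - inner ℝ y ν := by rw [hs, inner_sub_left]
      rw [e1]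
      have e3 : s * inner ℝ z e ≤ 0 := mul_nonpos_of_nonneg_of_nonpos hx.le hz'
      linarith
    show (u x)⁻¹ * u (x - s • ν + s • A z) = 0
    rw [this, mul_zero]
  have h3 : (fun z => (u x)⁻¹ * u (x - s • ν + s • A z)) e = 1 := by
    show (u x)⁻¹ * u (x - s • ν + s • A e) = 1
    rw [hA, sub_add_cancel, inv_mul_cancel₀ hux]
  have h4 := sim_cH_le h2 h3
  rw [sim_energy_const_smul, energy_comp_sim p g A (x - s • ν) hx] at h4
  have hux' : 0 < |u x| := abs_pos.2 hux
  rw [abs_inv, Real.inv_rpow (abs_nonneg _)] at h4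
  have h5 : 0 < |u x| ^ p := Real.rpow_pos_of_pos hux' _
  have h6 : 0 < s ^ ((n : ℝ) - p) := Real.rpow_pos_of_pos hx _
  have h7 : s ^ ((n : ℝ) - p) * s ^ (p - (n : ℝ)) = 1 := by
    rw [← Real.rpow_add hx, show (n : ℝ) - p + (p - n) = 0 by ring, Real.rpow_zero]
  calc |u x| ^ p * s ^ ((n : ℝ) - p) * cH p e
      ≤ |u x| ^ p * s ^ ((n : ℝ) - p) * ((|u x| ^ p)⁻¹ * (s ^ (p - (n : ℝ)) * energy p g)) :=
        mul_le_mul_of_nonneg_left h4 (by positivity)
    _ = (|u x| ^ p * (|u x| ^ p)⁻¹) * (s ^ ((n : ℝ) - p) * s ^ (p - (n : ℝ))) * energy p g := by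
        ring
    _ = energy p g := by rw [mul_inv_cancel₀ h5.ne', h7, one_mul, one_mul]

theorem sim_cH_set_sub (hn : 1 ≤ n) {p : ℝ} (hp : (n : ℝ) < p) {e ν : E n} (he : ‖e‖ = 1)
    (hν : ‖ν‖ = 1) :
    {c : ℝ | ∃ (u : E n → ℝ) (g : E n → E n), IsD0 p (halfspace e 0) u g ∧ u e = 1 ∧
      c = energy p g} ⊆
    {c : ℝ | ∃ (u : E n → ℝ) (g : E n → E n), IsD0 p (halfspace ν 0) u g ∧ u ν = 1 ∧
      c = energy p g} := by
  have hn' : (1 : ℝ) ≤ n := by exact_mod_cast hn
  have hp1 : 1 ≤ p := by linarith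
  rintro c ⟨u, g, hu, h1, rfl⟩
  obtain ⟨A, hA⟩ := sim_exists_isometry hν he
  refine ⟨_, _, ⟨hu.isD.comp_sim hp1 A 0 one_pos, ?_⟩, ?_, ?_⟩
  · intro z hz
    have hz' : inner ℝ z ν ≤ 0 := not_lt.1 hz
    apply hu.zero
    show ¬ (0 < inner ℝ (0 + (1 : ℝ) • A z) e)
    rw [not_lt, zero_add, one_smul, ← hA, A.inner_map_map]
    exact hz'
  · show u (0 + (1 : ℝ) • A ν) = 1
    rw [zero_add, one_smul, hA, h1]
  · rw [energy_comp_sim p g A 0 one_pos, Real.one_rpow, one_mul]

theorem cH_eq (hn : 1 ≤ n) {p : ℝ} (hp : (n : ℝ) < p) {e ν : E n} (he : ‖e‖ = 1)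
    (hν : ‖ν‖ = 1) : cH p e = cH p ν := by
  unfold cH
  rw [Subset.antisymm (sim_cH_set_sub hn hp he hν) (sim_cH_set_sub hn hp hν he)]

end HMor
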