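import Pool.Agent.W_MP_55e37b_an.Defs
import Pool.Agent.W_MP_55e37b_an.Basics
import Pool.Agent.W_MP_55e37b_an.PosPart
import Pool.Agent.W_MP_55e37b_an.Morrey
import Pool.Agent.W_MP_55e37b_an.Sim

open MeasureTheory Metric Set Filter Topology
open scoped ENNReal

namespace HMor

variable {n : ℕ}

namespace BridgeAux

theorem inner_le_norm' {e : E n} (he : ‖e‖ = 1) (y : E n) : inner ℝ y e ≤ ‖y‖ := by
  have := real_inner_le_norm y e
  rwa [he, mul_one] at this

theorem mem_compl_halfspace {e : E n} {c : ℝ} {z : E n} :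
    z ∈ (halfspace e c)ᶜ ↔ inner ℝ z e ≤ c := by
  simp [halfspace]

theorem energy_nonneg (p : ℝ) (g : E n → E n) : 0 ≤ energy p g :=
  integral_nonneg fun _ => Real.rpow_nonneg (norm_nonneg _) _

theorem lintegral_eq {p : ℝ} (hp : 0 < p) {u : E n → ℝ} {g : E n → E n} (hu : IsD p u g) :
    ∫⁻ x, ‖g x‖ₑ ^ p = ENNReal.ofReal (energy p g) := by
  rw [energy, ofReal_integral_eq_lintegral_ofReal (hu.integrable_rpow hp)
    (Eventually.of_forall fun x => Real.rpow_nonneg (norm_nonneg _) _)]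
  refine lintegral_congr fun x => ?_
  rw [← ofReal_norm, ENNReal.ofReal_rpow_of_nonneg (norm_nonneg _) hp.le]

theorem lintegral_restrict_eq {p : ℝ} (hp : 1 ≤ p) {Ω : Set (E n)} (hΩ : MeasurableSet Ω)
    {u : E n → ℝ} {g : E n → E n} (hu : IsD0 p Ω u g) :
    ∫⁻ x in Ω, ‖g x‖ₑ ^ p = ENNReal.ofReal (energy p g) := by
  have hp0 : 0 < p := one_pos.trans_le hp
  rw [← lintegral_eq hp0 hu.isD, ← lintegral_indicator hΩ]
  refine lintegral_congr_ae ?_
  filter_upwards [(hu.isD.wg hp).ae_zero] with x hx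
  by_cases h : x ∈ Ω
  · rw [indicator_of_mem h]
  · rw [indicator_of_notMem h, hx (hu.zero x h), enorm_zero, ENNReal.zero_rpow_of_pos hp0]

theorem enorm_le_of_continuousOn {Ω : Set (E n)} (hΩ : IsOpen Ω) {f : E n → ℝ}
    (hf : ContinuousOn f Ω) {x : E n} (hx : x ∈ Ω) :
    ‖f x‖ₑ ≤ eLpNorm f ∞ (volume.restrict Ω) := by
  by_contra hlt
  rw [not_le, eLpNorm_exponent_top] at hlt
  have hae : ∀ᵐ y ∂(volume.restrict Ω), ‖f y‖ₑ ≤ eLpNormEssSup f (volume.restrict Ω) :=
    ae_le_eLpNormEssSup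
  rw [ae_restrict_iff' hΩ.measurableSet] at hae
  have hc : ContinuousAt (fun y => ‖f y‖ₑ) x :=
    (hf.continuousAt (hΩ.mem_nhds hx)).enorm
  have h1 : ∀ᶠ y in 𝓝 x, eLpNormEssSup f (volume.restrict Ω) < ‖f y‖ₑ :=
    hc.eventually_const_lt hlt
  have h2 : ∀ᶠ y in 𝓝 x, y ∈ Ω := hΩ.mem_nhds hx
  have h3 : {y | ¬ (y ∈ Ω → ‖f y‖ₑ ≤ eLpNormEssSup f (volume.restrict Ω))} ∈ 𝓝 x := by
    filter_upwards [h1, h2] with y hy1 hy2
    exact fun h => absurd (h hy2) (not_le.2 hy1)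
  exact (Measure.measure_pos_of_mem_nhds volume h3).ne' hae

theorem continuousOn_quot {p : ℝ} {Ω : Set (E n)}
    (hΩ : IsOpen Ω) (hΩ' : Ω ≠ univ) {u : E n → ℝ} (hu : Continuous u) :
    ContinuousOn (fun x => u x / (infDist x Ωᶜ) ^ (1 - (n : ℝ) / p)) Ω := by
  intro x hx
  have hne : (Ωᶜ).Nonempty := nonempty_compl.2 hΩ'
  have hd : 0 < infDist x Ωᶜ :=
    (hΩ.isClosed_compl.notMem_iff_infDist_pos hne).1 (by simpa using hx)
  refine ContinuousAt.continuousWithinAt ?_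
  refine hu.continuousAt.div ?_ (Real.rpow_pos_of_pos hd _).ne'
  exact ((continuous_infDist_pt _).continuousAt).rpow_const (Or.inl hd.ne')

end BridgeAux

open BridgeAux

theorem infDist_halfspace {e : E n} (he : ‖e‖ = 1) (c : ℝ) {x : E n} (hx : x ∈ halfspace e c) :
    infDist x (halfspace e c)ᶜ = inner ℝ x e - c := by
  have hx' : c < inner ℝ x e := hx
  have hee : inner ℝ e e = (1 : ℝ) := by rw [real_inner_self_eq_norm_sq, he, one_pow]
  set z : E n := x - (inner ℝ x e - c) • e with hz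
  have hzm : z ∈ (halfspace e c)ᶜ := by
    rw [mem_compl_halfspace, hz, inner_sub_left, real_inner_smul_left, hee]
    linarith
  have hdz : dist x z = inner ℝ x e - c := by
    rw [dist_eq_norm, hz, sub_sub_cancel, norm_smul, he, mul_one, Real.norm_eq_abs,
      abs_of_pos (by linarith)]
  refine le_antisymm (hdz ▸ infDist_le_dist_of_mem hzm) ?_
  refine (le_infDist ⟨z, hzm⟩).2 fun y hy => ?_
  rw [mem_compl_halfspace] at hy
  have h1 := inner_le_norm' he (x - y)
  rw [inner_sub_left] at h1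
  rw [dist_eq_norm]
  linarith

theorem ratio_le {p : ℝ} (hn : 1 ≤ n) (hp : (n : ℝ) < p) {Ω : Set (E n)} (hΩ : IsOpen Ω)
    (hΩ' : Ω ≠ univ) {u : E n → ℝ} {g : E n → E n} (hu : IsD0 p Ω u g) {x : E n} (hx : x ∈ Ω)
    (hux : u x ≠ 0) :
    ratio p Ω u g ≤ ENNReal.ofReal ((infDist x Ωᶜ) ^ (p - n) * energy p g / |u x| ^ p) := by
  have hn' : (1 : ℝ) ≤ n := by exact_mod_cast hn
  have hp1 : 1 < p := hn'.trans_lt hp
  have hp0 : 0 < p := one_pos.trans hp1
  have hne : (Ωᶜ).Nonempty := nonempty_compl.2 hΩ'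
  have hd : 0 < infDist x Ωᶜ :=
    (hΩ.isClosed_compl.notMem_iff_infDist_pos hne).1 (by simpa using hx)
  set d := infDist x Ωᶜ with hdd
  have hu0 : 0 < |u x| := abs_pos.2 hux
  have hdα : 0 < d ^ (1 - (n : ℝ) / p) := Real.rpow_pos_of_pos hd _
  have h1 := enorm_le_of_continuousOn hΩ (continuousOn_quot (p := p) hΩ hΩ' hu.isD.cont) hx
  have h2 : ‖u x / d ^ (1 - (n : ℝ) / p)‖ₑ = ENNReal.ofReal (|u x| / d ^ (1 - (n : ℝ) / p)) := by
    rw [← ofReal_norm, norm_div, Real.norm_eq_abs, Real.norm_eq_abs, abs_of_pos hdα]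
  rw [ratio, lintegral_restrict_eq hp1.le hΩ.measurableSet hu, ENNReal.rpow_neg]
  have h3 : ENNReal.ofReal ((|u x| / d ^ (1 - (n : ℝ) / p)) ^ p) ≤
      (eLpNorm (fun x => u x / (infDist x Ωᶜ) ^ (1 - (n : ℝ) / p)) ∞ (volume.restrict Ω)) ^ p := by
    rw [← ENNReal.ofReal_rpow_of_pos (div_pos hu0 hdα), ← h2]
    exact ENNReal.rpow_le_rpow h1 hp0.le
  have hpos : 0 < (|u x| / d ^ (1 - (n : ℝ) / p)) ^ p :=
    Real.rpow_pos_of_pos (div_pos hu0 hdα) _
  calc ((eLpNorm (fun x => u x / (infDist x Ωᶜ) ^ (1 - (n : ℝ) / p)) ∞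
          (volume.restrict Ω)) ^ p)⁻¹ * ENNReal.ofReal (energy p g)
      ≤ (ENNReal.ofReal ((|u x| / d ^ (1 - (n : ℝ) / p)) ^ p))⁻¹ *
          ENNReal.ofReal (energy p g) := mul_le_mul_left (ENNReal.inv_le_inv.2 h3) _
    _ = ENNReal.ofReal (((|u x| / d ^ (1 - (n : ℝ) / p)) ^ p)⁻¹ * energy p g) := by
        rw [← ENNReal.ofReal_inv_of_pos hpos, ← ENNReal.ofReal_mul (inv_nonneg.2 hpos.le)]
    _ = ENNReal.ofReal (d ^ (p - n) * energy p g / |u x| ^ p) := by
        congr 1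
        rw [Real.div_rpow hu0.le hdα.le, ← Real.rpow_mul hd.le]
        have : (1 - (n : ℝ) / p) * p = p - n := by field_simp
        rw [this, inv_div]
        ring

theorem cH_nonempty {p : ℝ} {e : E n} (he : ‖e‖ = 1) :
    {c : ℝ | ∃ (u : E n → ℝ) (g : E n → E n), IsD0 p (halfspace e 0) u g ∧ u e = 1 ∧
      c = energy p g}.Nonempty := by
  let f : ContDiffBump e := ⟨1 / 4, 1 / 2, by norm_num, by norm_num⟩
  refine ⟨energy p (gradient f), f, gradient f, ⟨IsD.of_contDiff f.contDiff f.hasCompactSupport,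
    fun x hx => ?_⟩, f.one_of_mem_closedBall (mem_closedBall_self (by norm_num)), rfl⟩
  have hx' : inner ℝ x e ≤ (0 : ℝ) := mem_compl_halfspace.1 hx
  refine f.zero_of_le_dist ?_
  have hee : inner ℝ e e = (1 : ℝ) := by rw [real_inner_self_eq_norm_sq, he, one_pow]
  have h1 := inner_le_norm' he (e - x)
  rw [inner_sub_left, hee] at h1
  rw [dist_comm, dist_eq_norm]
  change (1 / 2 : ℝ) ≤ _
  linarith

theorem cH_pos (hn : 1 ≤ n) {p : ℝ} (hp : (n : ℝ) < p) {e : E n} (he : ‖e‖ = 1) :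
    0 < cH p e := by
  have hn' : (1 : ℝ) ≤ n := by exact_mod_cast hn
  have hp1 : 1 < p := hn'.trans_lt hp
  have hp0 : 0 < p := one_pos.trans hp1
  obtain ⟨C, hC, hM⟩ := morrey hn hp
  have hpos : 0 < C⁻¹ ^ p := Real.rpow_pos_of_pos (inv_pos.2 hC) _
  refine hpos.trans_le (le_csInf (cH_nonempty he) ?_)
  rintro c ⟨u, g, hu, hue, rfl⟩
  have h0 : u 0 = 0 := hu.zero 0 (by simp [halfspace])
  have h1 := hM u g hu.isD e 0
  rw [hue, h0, sub_zero, sub_zero, he, Real.one_rpow, mul_one, abs_one] at h1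
  have hE := energy_nonneg p g
  have h2 : C⁻¹ ≤ energy p g ^ (1 / p) := by
    rw [inv_eq_one_div, div_le_iff₀ hC]
    linarith
  calc C⁻¹ ^ p ≤ (energy p g ^ (1 / p)) ^ p :=
        Real.rpow_le_rpow (inv_pos.2 hC).le h2 hp0.le
    _ = energy p g := by
        rw [← Real.rpow_mul hE, one_div_mul_cancel hp0.ne', Real.rpow_one]

theorem lam_halfspace (hn : 1 ≤ n) {p : ℝ} (hp : (n : ℝ) < p) {e : E n} (he : ‖e‖ = 1) :
    lam p (halfspace e 0) = ENNReal.ofReal (cH p e) := by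
  have hn' : (1 : ℝ) ≤ n := by exact_mod_cast hn
  have hp1 : 1 < p := hn'.trans_lt hp
  have hp0 : 0 < p := one_pos.trans hp1
  have hee : inner ℝ e e = (1 : ℝ) := by rw [real_inner_self_eq_norm_sq, he, one_pow]
  have hopen : IsOpen (halfspace e (0 : ℝ)) :=
    isOpen_lt continuous_const (continuous_id.inner continuous_const)
  have h0not : (0 : E n) ∉ halfspace e (0 : ℝ) := by simp [halfspace]
  have hneu : halfspace e (0 : ℝ) ≠ univ := fun h => h0not (h ▸ mem_univ _)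
  have hem : e ∈ halfspace e (0 : ℝ) := by
    change (0 : ℝ) < inner ℝ e e
    rw [hee]; exact one_pos
  have hcpos := cH_pos hn hp he
  refine le_antisymm ?_ ?_
  · have key : ∀ c ∈ {c : ℝ | ∃ (u : E n → ℝ) (g : E n → E n),
        IsD0 p (halfspace e 0) u g ∧ u e = 1 ∧ c = energy p g},
        lam p (halfspace e 0) ≤ ENNReal.ofReal c := by
      rintro c ⟨u, g, hu, hue, rfl⟩
      have hu0 : u ≠ 0 := fun h => by rw [h] at hue; simp at hue
      have h1 : lam p (halfspace e 0) ≤ ratio p (halfspace e 0) u g :=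
        iInf_le_of_le u (iInf_le_of_le g (iInf_le_of_le hu (iInf_le _ hu0)))
      refine h1.trans ((ratio_le hn hp hopen hneu hu hem (by rw [hue]; exact one_ne_zero)).trans ?_)
      rw [infDist_halfspace he 0 hem, hee, hue, sub_zero, Real.one_rpow, abs_one, Real.one_rpow,
        one_mul, div_one]
    obtain ⟨c₀, hc₀⟩ := cH_nonempty (p := p) he
    have hfin : lam p (halfspace e 0) ≠ ⊤ := ((key c₀ hc₀).trans_lt ENNReal.ofReal_lt_top).ne
    rw [← ENNReal.ofReal_toReal hfin]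
    refine ENNReal.ofReal_le_ofReal (le_csInf ⟨c₀, hc₀⟩ fun c hc => ?_)
    have hc0 : 0 ≤ c := by
      obtain ⟨u, g, _, _, rfl⟩ := hc
      exact energy_nonneg p g
    exact ENNReal.toReal_le_of_le_ofReal hc0 (key c hc)
  · refine le_iInf fun u => le_iInf fun g => le_iInf fun hu => le_iInf fun hu0 => ?_
    obtain ⟨x₀, hx₀⟩ : ∃ x, u x ≠ 0 := by
      by_contra h
      push Not at h
      exact hu0 (funext h)
    have hmain : ∀ x ∈ halfspace e (0 : ℝ),
        |u x| ^ p * (inner ℝ x e) ^ ((n : ℝ) - p) * cH p e ≤ energy p g := by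
      intro x hx
      have hx' : (0 : ℝ) < inner ℝ (x - 0) e := by rw [sub_zero]; exact hx
      have hu' : IsD0 p (halfspace e (inner ℝ (0 : E n) e)) u g := by
        rw [inner_zero_left]; exact hu
      have := halfspace_energy_ge hn hp he he (y := 0) hu' hx'
      rwa [sub_zero] at this
    have hx₀m : x₀ ∈ halfspace e (0 : ℝ) := by
      by_contra h
      exact hx₀ (hu.zero _ h)
    have hx₀p : (0 : ℝ) < inner ℝ x₀ e := hx₀m
    have hEpos : 0 < energy p g :=
      (mul_pos (mul_pos (Real.rpow_pos_of_pos (abs_pos.2 hx₀) _)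
        (Real.rpow_pos_of_pos hx₀p _)) hcpos).trans_le (hmain x₀ hx₀m)
    set K : ℝ := (energy p g / cH p e) ^ (1 / p) with hK
    have hq : 0 < energy p g / cH p e := div_pos hEpos hcpos
    have hKpos : 0 < K := Real.rpow_pos_of_pos hq _
    have hbound : eLpNorm (fun x => u x / (infDist x (halfspace e 0)ᶜ) ^ (1 - (n : ℝ) / p)) ∞
        (volume.restrict (halfspace e 0)) ≤ ENNReal.ofReal K := by
      rw [eLpNorm_exponent_top]
      refine eLpNormEssSup_le_of_ae_bound ?_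
      refine (ae_restrict_iff' hopen.measurableSet).2 (Eventually.of_forall fun x hx => ?_)
      have hxp : (0 : ℝ) < inner ℝ x e := hx
      rw [infDist_halfspace he 0 hx, sub_zero, norm_div, Real.norm_eq_abs, Real.norm_eq_abs,
        abs_of_pos (Real.rpow_pos_of_pos hxp _)]
      have hdα : 0 < (inner ℝ x e : ℝ) ^ (1 - (n : ℝ) / p) := Real.rpow_pos_of_pos hxp _
      have hnn : 0 ≤ |u x| / (inner ℝ x e : ℝ) ^ (1 - (n : ℝ) / p) :=
        div_nonneg (abs_nonneg _) hdα.le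
      have h1 : (|u x| / (inner ℝ x e : ℝ) ^ (1 - (n : ℝ) / p)) ^ p ≤ energy p g / cH p e := by
        rw [Real.div_rpow (abs_nonneg _) hdα.le, ← Real.rpow_mul hxp.le]
        have e1 : (1 - (n : ℝ) / p) * p = p - n := by field_simp
        rw [e1, le_div_iff₀ hcpos]
        have e2 : (inner ℝ x e : ℝ) ^ ((n : ℝ) - p) = ((inner ℝ x e : ℝ) ^ (p - n))⁻¹ := by
          rw [← Real.rpow_neg hxp.le, neg_sub]
        have := hmain x hx
        rw [e2] at this
        rwa [div_eq_mul_inv]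
      calc |u x| / (inner ℝ x e : ℝ) ^ (1 - (n : ℝ) / p)
          = ((|u x| / (inner ℝ x e : ℝ) ^ (1 - (n : ℝ) / p)) ^ p) ^ (1 / p) := by
            rw [← Real.rpow_mul hnn, mul_one_div_cancel hp0.ne', Real.rpow_one]
        _ ≤ K := Real.rpow_le_rpow (Real.rpow_nonneg hnn _) h1 (by positivity)
    rw [ratio, lintegral_restrict_eq hp1.le hopen.measurableSet hu, ENNReal.rpow_neg]
    have h3 : (eLpNorm (fun x => u x / (infDist x (halfspace e 0)ᶜ) ^ (1 - (n : ℝ) / p)) ∞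
        (volume.restrict (halfspace e 0))) ^ p ≤ ENNReal.ofReal (energy p g / cH p e) := by
      calc _ ≤ (ENNReal.ofReal K) ^ p := ENNReal.rpow_le_rpow hbound hp0.le
        _ = ENNReal.ofReal (energy p g / cH p e) := by
          rw [ENNReal.ofReal_rpow_of_pos hKpos, hK, ← Real.rpow_mul hq.le,
            one_div_mul_cancel hp0.ne', Real.rpow_one]
    calc ENNReal.ofReal (cH p e)
        = ENNReal.ofReal ((energy p g / cH p e)⁻¹ * energy p g) := by
          congr 1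
          field_simp
      _ = (ENNReal.ofReal (energy p g / cH p e))⁻¹ * ENNReal.ofReal (energy p g) := by
          rw [ENNReal.ofReal_mul (inv_nonneg.2 hq.le), ENNReal.ofReal_inv_of_pos hq]
      _ ≤ _ := mul_le_mul_left (ENNReal.inv_le_inv.2 h3) _

end HMor
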