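import Pool.Agent.W_MP_55e37b_an.Defs

open MeasureTheory Metric Set Filter Topology
open scoped ENNReal

namespace HMor

variable {n : ℕ}

/-- tangent inequality -/
theorem rpow_tangent {V : Type*} [NormedAddCommGroup V] [InnerProductSpace ℝ V] {p : ℝ}
    (hp : 1 < p) (a b : V) :
    ‖b‖ ^ p + p * (‖b‖ ^ (p - 2) * inner ℝ b (a - b)) ≤ ‖a‖ ^ p := by
  rcases eq_or_ne b 0 with rfl | hb
  · have h0 : (0 : ℝ) ^ p = 0 := Real.zero_rpow (by linarith)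
    simp only [norm_zero, inner_zero_left, mul_zero, add_zero, h0]
    exact Real.rpow_nonneg (norm_nonneg a) p
  · have hβ : 0 < ‖b‖ := norm_pos_iff.2 hb
    have hin : inner ℝ b (a - b) ≤ ‖b‖ * (‖a‖ - ‖b‖) := by
      rw [inner_sub_right, real_inner_self_eq_norm_sq]
      have := real_inner_le_norm b a
      nlinarith
    have hp2 : 0 < ‖b‖ ^ (p - 2) := Real.rpow_pos_of_pos hβ _
    have hbp : ‖b‖ ^ (p - 2) * (‖b‖ * ‖b‖) = ‖b‖ ^ p := by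
      rw [← pow_two, ← Real.rpow_natCast, ← Real.rpow_add hβ]
      congr 1
      push_cast
      ring
    have hbern : 1 + p * (‖a‖ / ‖b‖ - 1) ≤ (‖a‖ / ‖b‖) ^ p := by
      have := one_add_mul_self_le_rpow_one_add (s := ‖a‖ / ‖b‖ - 1) (p := p)
        (by have := div_nonneg (norm_nonneg a) hβ.le; linarith) hp.le
      simpa using this
    have hdiv : (‖a‖ / ‖b‖) ^ p = ‖a‖ ^ p / ‖b‖ ^ p := Real.div_rpow (norm_nonneg a) hβ.le p
    have hbpp : 0 < ‖b‖ ^ p := Real.rpow_pos_of_pos hβ _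
    have h1 : ‖b‖ ^ p * (1 + p * (‖a‖ / ‖b‖ - 1)) ≤ ‖a‖ ^ p := by
      calc ‖b‖ ^ p * (1 + p * (‖a‖ / ‖b‖ - 1)) ≤ ‖b‖ ^ p * (‖a‖ / ‖b‖) ^ p :=
            mul_le_mul_of_nonneg_left hbern hbpp.le
        _ = ‖a‖ ^ p := by rw [hdiv]; field_simp
    have h2 : ‖b‖ ^ p * (1 + p * (‖a‖ / ‖b‖ - 1)) =
        ‖b‖ ^ p + p * (‖b‖ ^ (p - 2) * (‖b‖ * (‖a‖ - ‖b‖))) := by
      rw [← hbp]
      field_simp
    calc ‖b‖ ^ p + p * (‖b‖ ^ (p - 2) * inner ℝ b (a - b))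
        ≤ ‖b‖ ^ p + p * (‖b‖ ^ (p - 2) * (‖b‖ * (‖a‖ - ‖b‖))) := by
          have := mul_le_mul_of_nonneg_left hin hp2.le
          have := mul_le_mul_of_nonneg_left this (by linarith : (0 : ℝ) ≤ p)
          linarith
      _ ≤ ‖a‖ ^ p := by rw [← h2]; exact h1

private theorem sq_rpow_half {x : ℝ} (hx : 0 ≤ x) (p : ℝ) : (x ^ 2) ^ (p / 2) = x ^ p := by
  rw [← Real.rpow_natCast, ← Real.rpow_mul hx]
  congr 1
  push_cast
  ring

/-- Clarkson -/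
theorem clarkson {V : Type*} [NormedAddCommGroup V] [InnerProductSpace ℝ V] {p : ℝ}
    (hp : 2 ≤ p) (a b : V) :
    ‖(1 / 2 : ℝ) • (a + b)‖ ^ p + ‖(1 / 2 : ℝ) • (a - b)‖ ^ p ≤ (‖a‖ ^ p + ‖b‖ ^ p) / 2 := by
  have hpar : ‖(1 / 2 : ℝ) • (a + b)‖ ^ 2 + ‖(1 / 2 : ℝ) • (a - b)‖ ^ 2 =
      1 / 2 * ‖a‖ ^ 2 + 1 / 2 * ‖b‖ ^ 2 := by
    have := parallelogram_law_with_norm ℝ a b
    rw [norm_smul, norm_smul]
    have hn : ‖(1 / 2 : ℝ)‖ = 1 / 2 := by norm_num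
    rw [hn]
    nlinarith
  have h1 := Real.add_rpow_le_rpow_add (sq_nonneg ‖(1 / 2 : ℝ) • (a + b)‖)
    (sq_nonneg ‖(1 / 2 : ℝ) • (a - b)‖) (p := p / 2) (by linarith)
  rw [hpar, sq_rpow_half (norm_nonneg _), sq_rpow_half (norm_nonneg _)] at h1
  have h2 := (convexOn_rpow (p := p / 2) (by linarith)).2 (Set.mem_Ici.2 (sq_nonneg ‖a‖))
    (Set.mem_Ici.2 (sq_nonneg ‖b‖)) (by norm_num : (0 : ℝ) ≤ 1 / 2) (by norm_num : (0 : ℝ) ≤ 1 / 2)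
    (by norm_num)
  simp only [smul_eq_mul] at h2
  rw [sq_rpow_half (norm_nonneg a), sq_rpow_half (norm_nonneg b)] at h2
  linarith

/-- Clarkson-type tangent inequality -/
theorem rpow_tangent_strong {V : Type*} [NormedAddCommGroup V] [InnerProductSpace ℝ V] {p : ℝ}
    (hp : 2 ≤ p) (a b : V) :
    ‖b‖ ^ p + p * (‖b‖ ^ (p - 2) * inner ℝ b (a - b)) + 2 ^ (1 - p) * ‖a - b‖ ^ p
      ≤ ‖a‖ ^ p := by
  have h1 := clarkson hp a b
  have h2 := rpow_tangent (by linarith : 1 < p) ((1 / 2 : ℝ) • (a + b)) b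
  have h3 : (1 / 2 : ℝ) • (a + b) - b = (1 / 2 : ℝ) • (a - b) := by module
  rw [h3, inner_smul_right] at h2
  have h4 : ‖(1 / 2 : ℝ) • (a - b)‖ ^ p = 2 ^ (-p) * ‖a - b‖ ^ p := by
    rw [norm_smul, Real.mul_rpow (norm_nonneg _) (norm_nonneg _), Real.rpow_neg (by norm_num)]
    congr 1
    have hn : ‖(1 / 2 : ℝ)‖ = 2⁻¹ := by norm_num
    rw [hn, Real.inv_rpow (by norm_num)]
  rw [h4] at h1
  have h5 : (2 : ℝ) ^ (1 - p) = 2 * 2 ^ (-p) := by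
    rw [sub_eq_add_neg, Real.rpow_add (by norm_num), Real.rpow_one]
  rw [h5]
  linarith

/-- strict monotonicity of `a ↦ |a|^{p-2} a` -/
theorem rpow_mono {V : Type*} [NormedAddCommGroup V] [InnerProductSpace ℝ V] {p : ℝ}
    (hp : 1 < p) {a b : V} (h : a ≠ b) :
    0 < ‖a‖ ^ (p - 2) * inner ℝ a (a - b) - ‖b‖ ^ (p - 2) * inner ℝ b (a - b) := by
  rcases eq_or_ne a 0 with rfl | ha
  · have hb : b ≠ 0 := fun hb => h hb.symm
    have hβ : 0 < ‖b‖ := norm_pos_iff.2 hb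
    have : 0 < ‖b‖ ^ (p - 2) := Real.rpow_pos_of_pos hβ _
    have he : ‖(0 : V)‖ ^ (p - 2) * inner ℝ (0 : V) (0 - b) - ‖b‖ ^ (p - 2) * inner ℝ b (0 - b) =
        ‖b‖ ^ (p - 2) * ‖b‖ ^ 2 := by
      rw [inner_zero_left, zero_sub, inner_neg_right, real_inner_self_eq_norm_sq]
      ring
    rw [he]
    positivity
  rcases eq_or_ne b 0 with rfl | hb
  · have hα : 0 < ‖a‖ := norm_pos_iff.2 ha
    have : 0 < ‖a‖ ^ (p - 2) := Real.rpow_pos_of_pos hα _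
    simp only [inner_zero_left, mul_zero, sub_zero, real_inner_self_eq_norm_sq]
    positivity
  have hα : 0 < ‖a‖ := norm_pos_iff.2 ha
  have hβ : 0 < ‖b‖ := norm_pos_iff.2 hb
  have hα2 : 0 < ‖a‖ ^ (p - 2) := Real.rpow_pos_of_pos hα _
  have hβ2 : 0 < ‖b‖ ^ (p - 2) := Real.rpow_pos_of_pos hβ _
  have hc := real_inner_le_norm a b
  have hα1 : ‖a‖ ^ (p - 1) = ‖a‖ ^ (p - 2) * ‖a‖ := by
    conv_rhs => rw [← Real.rpow_one ‖a‖]
    rw [Real.rpow_one, ← Real.rpow_add_one hα.ne']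
    congr 1
    ring
  have hβ1 : ‖b‖ ^ (p - 1) = ‖b‖ ^ (p - 2) * ‖b‖ := by
    conv_rhs => rw [← Real.rpow_one ‖b‖]
    rw [Real.rpow_one, ← Real.rpow_add_one hβ.ne']
    congr 1
    ring
  rw [inner_sub_right, inner_sub_right, real_inner_self_eq_norm_sq, real_inner_self_eq_norm_sq,
    real_inner_comm a b]
  have key : ‖a‖ ^ (p - 2) * (‖a‖ ^ 2 - inner ℝ a b) - ‖b‖ ^ (p - 2) * (inner ℝ a b - ‖b‖ ^ 2)
      = (‖a‖ ^ (p - 1) - ‖b‖ ^ (p - 1)) * (‖a‖ - ‖b‖) +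
        (‖a‖ ^ (p - 2) + ‖b‖ ^ (p - 2)) * (‖a‖ * ‖b‖ - inner ℝ a b) := by
    rw [hα1, hβ1]
    ring
  rw [key]
  have hmono : ‖a‖ ≠ ‖b‖ → 0 < (‖a‖ ^ (p - 1) - ‖b‖ ^ (p - 1)) * (‖a‖ - ‖b‖) := by
    intro hne
    rcases lt_or_gt_of_ne hne with hlt | hgt
    · have := Real.rpow_lt_rpow hα.le hlt (by linarith : 0 < p - 1)
      exact mul_pos_of_neg_of_neg (by linarith) (by linarith)
    · have := Real.rpow_lt_rpow hβ.le hgt (by linarith : 0 < p - 1)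
      exact mul_pos (by linarith) (by linarith)
  rcases eq_or_ne ‖a‖ ‖b‖ with he | hne
  · have hlt : inner ℝ a b < ‖a‖ * ‖b‖ := by
      refine lt_of_le_of_ne hc fun heq => h ?_
      have hz : ‖a - b‖ ^ 2 = 0 := by
        rw [norm_sub_sq_real, heq, he]
        ring
      have := pow_eq_zero_iff (two_ne_zero) |>.1 hz
      exact sub_eq_zero.1 (norm_eq_zero.1 this)
    have : 0 < (‖a‖ ^ (p - 2) + ‖b‖ ^ (p - 2)) * (‖a‖ * ‖b‖ - inner ℝ a b) :=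
      mul_pos (by linarith) (by linarith)
    rw [he] at this ⊢
    simpa using this
  · have h1 := hmono hne
    have h2 : 0 ≤ (‖a‖ ^ (p - 2) + ‖b‖ ^ (p - 2)) * (‖a‖ * ‖b‖ - inner ℝ a b) :=
      mul_nonneg (by linarith) (by linarith)
    linarith

end HMor
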