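import Pool.Agent.W_MP_55e37b_an.Defs
import Pool.Agent.W_MP_55e37b_an.Basics
import Pool.Agent.W_MP_55e37b_an.Ineq

open MeasureTheory Metric Set Filter Topology
open scoped ENNReal

namespace HMor

variable {n : ℕ}

private lemma el_young {p : ℝ} (hp : 1 < p) {a b : ℝ} (ha : 0 ≤ a) (hb : 0 ≤ b) :
    a ^ (p - 1) * b ≤ a ^ p + b ^ p := by
  have key : ∀ c : ℝ, 0 ≤ c → c ^ (p - 1) * c = c ^ p := by
    intro c hc
    rcases hc.eq_or_lt with h | h
    · rw [← h, mul_zero, Real.zero_rpow (by linarith)]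
    · have := Real.rpow_add_one (ne_of_gt h) (p - 1)
      rw [← this]
      congr 1
      ring
  rcases le_total a b with h | h
  · have h1 : a ^ (p - 1) * b ≤ b ^ (p - 1) * b :=
      mul_le_mul_of_nonneg_right (Real.rpow_le_rpow ha h (by linarith)) hb
    rw [key b hb] at h1
    have := Real.rpow_nonneg ha p
    linarith
  · have h1 : a ^ (p - 1) * b ≤ a ^ (p - 1) * a :=
      mul_le_mul_of_nonneg_left h (Real.rpow_nonneg ha _)
    rw [key a ha] at h1
    have := Real.rpow_nonneg hb p
    linarith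

private lemma el_abs_le {V : Type*} [NormedAddCommGroup V] [InnerProductSpace ℝ V] {p : ℝ}
    (b w : V) :
    |‖b‖ ^ (p - 2) * inner ℝ b w| ≤ ‖b‖ ^ (p - 1) * ‖w‖ := by
  rcases eq_or_ne b 0 with h | h
  · subst h
    simp only [inner_zero_left, mul_zero, abs_zero]
    positivity
  · have hb : 0 < ‖b‖ := norm_pos_iff.mpr h
    have h1 : |inner ℝ b w| ≤ ‖b‖ * ‖w‖ := abs_real_inner_le_norm b w
    have h2 : ‖b‖ ^ (p - 1) = ‖b‖ ^ (p - 2) * ‖b‖ := by
      rw [← Real.rpow_add_one (ne_of_gt hb)]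
      congr 1
      ring
    rw [abs_mul, abs_of_nonneg (Real.rpow_nonneg hb.le _), h2, mul_assoc]
    exact mul_le_mul_of_nonneg_left h1 (Real.rpow_nonneg hb.le _)

private lemma el_abs_le' {V : Type*} [NormedAddCommGroup V] [InnerProductSpace ℝ V] {p : ℝ}
    (hp : 1 < p) (b w : V) :
    |‖b‖ ^ (p - 2) * inner ℝ b w| ≤ ‖b‖ ^ p + ‖w‖ ^ p :=
  (el_abs_le b w).trans (el_young hp (norm_nonneg _) (norm_nonneg _))

private lemma el_continuous {V : Type*} [NormedAddCommGroup V] [InnerProductSpace ℝ V] {p : ℝ}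
    (hp : 1 < p) (w : V) :
    Continuous (fun b : V => ‖b‖ ^ (p - 2) * inner ℝ b w) := by
  rw [continuous_iff_continuousAt]
  intro b
  rcases eq_or_ne b 0 with h | h
  · subst h
    unfold ContinuousAt
    simp only [inner_zero_left, mul_zero]
    have h1 : Tendsto (fun b : V => ‖b‖ ^ (p - 1) * ‖w‖) (𝓝 0) (𝓝 0) := by
      have h2 : Continuous (fun b : V => ‖b‖ ^ (p - 1) * ‖w‖) :=
        (continuous_norm.rpow_const (fun _ => Or.inr (by linarith))).mul continuous_const
      have h3 := h2.tendsto 0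
      simpa [Real.zero_rpow (by linarith : p - 1 ≠ 0)] using h3
    exact squeeze_zero_norm (fun b => by
      rw [Real.norm_eq_abs]
      exact el_abs_le b w) h1
  · have hb : ‖b‖ ≠ 0 := norm_ne_zero_iff.mpr h
    exact (continuous_norm.continuousAt.rpow_const (Or.inl hb)).mul
      (continuousAt_id.inner continuousAt_const)

private lemma el_integrable_rpow {p : ℝ} (hp : 1 < p) {g : E n → E n}
    (hg : MemLp g (ENNReal.ofReal p) volume) :
    Integrable (fun x => ‖g x‖ ^ p) volume := by
  have h := hg.integrable_norm_rpow (by simp; linarith) ENNReal.ofReal_ne_top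
  simpa [ENNReal.toReal_ofReal (by linarith : (0 : ℝ) ≤ p)] using h

private lemma el_meas {p : ℝ} {g h : E n → E n}
    (hg : AEStronglyMeasurable g volume) (hh : AEStronglyMeasurable h volume) :
    AEStronglyMeasurable (fun x => ‖g x‖ ^ (p - 2) * inner ℝ (g x) (h x)) volume :=
  ((hg.norm.aemeasurable.pow_const (p - 2)).aestronglyMeasurable).mul (hg.inner hh)

/-- integrability of the Euler-Lagrange integrand -/
theorem integrable_el {p : ℝ} (hp : 1 < p) {g h : E n → E n}
    (hg : MemLp g (ENNReal.ofReal p) volume) (hh : MemLp h (ENNReal.ofReal p) volume) :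
    Integrable (fun x => ‖g x‖ ^ (p - 2) * inner ℝ (g x) (h x)) volume := by
  refine ((el_integrable_rpow hp hg).add (el_integrable_rpow hp hh)).mono'
    (el_meas hg.1 hh.1) (Eventually.of_forall fun x => ?_)
  rw [Real.norm_eq_abs]
  exact el_abs_le' hp _ _

theorem IsMin.euler {p : ℝ} (hp : 1 < p) {Ω : Set (E n)} {a : E n} {u : E n → ℝ}
    {g : E n → E n} (h : IsMin p Ω a u g) {φ : E n → ℝ} {gφ : E n → E n}
    (hφ : IsD0 p Ω φ gφ) (hφa : φ a = 0) :
    ∫ x, ‖g x‖ ^ (p - 2) * inner ℝ (g x) (gφ x) = 0 := by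
  have hg : MemLp g (ENNReal.ofReal p) volume := h.mem.isD.memLp
  have hw : MemLp gφ (ENNReal.ofReal p) volume := hφ.isD.memLp
  set F : ℝ → ℝ := fun t => ∫ x, ‖g x + t • gφ x‖ ^ (p - 2) *
    inner ℝ (g x + t • gφ x) (gφ x) with hF
  have hb : ∀ t : ℝ, MemLp (fun x => g x + t • gφ x) (ENNReal.ofReal p) volume :=
    fun t => hg.add (hw.const_smul t)
  -- minimality
  have hmin : ∀ t : ℝ, 0 ≤ t * F t := by
    intro t
    have hcomp : IsD0 p Ω (fun x => u x + t * φ x) (fun x => g x + t • gφ x) := by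
      refine ⟨h.mem.isD.add hp.le (hφ.isD.const_mul hp.le t), fun x hx => ?_⟩
      simp [h.mem.zero x hx, hφ.zero x hx]
    have hle := h.le _ _ hcomp (by simp [h.one, hφa])
    have hib := integrable_el hp (hb t) hw
    have hbp := el_integrable_rpow hp (hb t)
    have hint : ∫ x, (‖g x + t • gφ x‖ ^ p - t * p * (‖g x + t • gφ x‖ ^ (p - 2) *
        inner ℝ (g x + t • gφ x) (gφ x))) ≤ ∫ x, ‖g x‖ ^ p := by
      refine integral_mono (hbp.sub (hib.const_mul (t * p))) (el_integrable_rpow hp hg)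
        (fun x => ?_)
      have h1 := rpow_tangent hp (g x) (g x + t • gφ x)
      have h2 : g x - (g x + t • gφ x) = (-t) • gφ x := by
        rw [neg_smul]; abel
      rw [h2, inner_smul_right] at h1
      have h3 : ‖g x + t • gφ x‖ ^ p - t * p * (‖g x + t • gφ x‖ ^ (p - 2) *
          inner ℝ (g x + t • gφ x) (gφ x)) = ‖g x + t • gφ x‖ ^ p + p *
          (‖g x + t • gφ x‖ ^ (p - 2) * (-t * inner ℝ (g x + t • gφ x) (gφ x))) := by ring
      rw [← h3] at h1
      exact h1
    rw [integral_sub hbp (hib.const_mul _), integral_const_mul] at hint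
    unfold energy at hle
    have h4 : 0 ≤ t * p * F t := by
      simp only [hF]
      linarith
    have h5 : t * p * F t = p * (t * F t) := by ring
    rw [h5] at h4
    exact nonneg_of_mul_nonneg_right h4 (by linarith)
  -- continuity at zero
  have hcont : Tendsto F (𝓝 0) (𝓝 (F 0)) := by
    simp only [hF]
    refine tendsto_integral_filter_of_dominated_convergence
      (fun x => (‖g x‖ + ‖gφ x‖) ^ p + ‖gφ x‖ ^ p) ?_ ?_ ?_ ?_
    · exact Eventually.of_forall fun t => el_meas (hb t).1 hw.1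
    · have h1 : ∀ᶠ t : ℝ in 𝓝 0, |t| < 1 := by
        filter_upwards [Metric.ball_mem_nhds (0 : ℝ) one_pos] with t ht
        simpa [Real.dist_eq] using ht
      filter_upwards [h1] with t ht
      refine Eventually.of_forall fun x => ?_
      rw [Real.norm_eq_abs]
      refine (el_abs_le' hp _ _).trans ?_
      have h2 : ‖g x + t • gφ x‖ ≤ ‖g x‖ + ‖gφ x‖ := by
        refine (norm_add_le _ _).trans ?_
        rw [norm_smul, Real.norm_eq_abs]
        have := mul_le_mul_of_nonneg_right ht.le (norm_nonneg (gφ x))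
        linarith
      have h3 := Real.rpow_le_rpow (norm_nonneg _) h2 (by linarith : (0 : ℝ) ≤ p)
      linarith
    · have h1 : MemLp (fun x => ‖g x‖ + ‖gφ x‖) (ENNReal.ofReal p) volume :=
        hg.norm.add hw.norm
      have h2 := h1.integrable_norm_rpow (by simp; linarith) ENNReal.ofReal_ne_top
      have h3 : Integrable (fun x => (‖g x‖ + ‖gφ x‖) ^ p) volume := by
        refine h2.congr (Eventually.of_forall fun x => ?_)
        simp only [ENNReal.toReal_ofReal (by linarith : (0 : ℝ) ≤ p), Real.norm_eq_abs]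
        rw [abs_of_nonneg (by positivity)]
      exact h3.add (el_integrable_rpow hp hw)
    · refine Eventually.of_forall fun x => ?_
      have h1 : Continuous (fun t : ℝ => g x + t • gφ x) := by fun_prop
      exact ((el_continuous hp (gφ x)).comp h1).tendsto 0
  have hpos : 0 ≤ F 0 := by
    have h1 : ∀ᶠ t in 𝓝[>] (0 : ℝ), 0 ≤ F t := by
      filter_upwards [self_mem_nhdsWithin] with t ht
      exact nonneg_of_mul_nonneg_right (hmin t) ht
    exact ge_of_tendsto (hcont.mono_left nhdsWithin_le_nhds) h1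
  have hneg : F 0 ≤ 0 := by
    have h1 : ∀ᶠ t in 𝓝[<] (0 : ℝ), F t ≤ 0 := by
      filter_upwards [self_mem_nhdsWithin] with t ht
      have ht' : t < 0 := ht
      have := hmin t
      by_contra hc
      push Not at hc
      nlinarith
    exact le_of_tendsto (hcont.mono_left nhdsWithin_le_nhds) h1
  have h0 : F 0 = 0 := le_antisymm hneg hpos
  simpa [hF] using h0

theorem IsMin.gap {p : ℝ} (hp : 2 ≤ p) {Ω : Set (E n)} {a : E n} {u : E n → ℝ}
    {g : E n → E n} (h : IsMin p Ω a u g) {v : E n → ℝ} {gv : E n → E n}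
    (hv : IsD0 p Ω v gv) (hva : v a = 1) :
    energy p g + 2 ^ (1 - p) * energy p (fun x => gv x - g x) ≤ energy p gv := by
  have hp1 : 1 < p := by linarith
  have hg : MemLp g (ENNReal.ofReal p) volume := h.mem.isD.memLp
  have hgv : MemLp gv (ENNReal.ofReal p) volume := hv.isD.memLp
  have hw : MemLp (fun x => gv x - g x) (ENNReal.ofReal p) volume := hgv.sub hg
  have hφ : IsD0 p Ω (fun x => v x - u x) (fun x => gv x - g x) :=
    ⟨hv.isD.sub hp1.le h.mem.isD, fun x hx => by simp [hv.zero x hx, h.mem.zero x hx]⟩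
  have heul := h.euler hp1 hφ (by simp [hva, h.one])
  have hi1 := el_integrable_rpow hp1 hg
  have hi2 := integrable_el hp1 hg hw
  have hi3 := el_integrable_rpow hp1 hw
  have hint : ∫ x, ((‖g x‖ ^ p + p * (‖g x‖ ^ (p - 2) * inner ℝ (g x) (gv x - g x)))
      + 2 ^ (1 - p) * ‖gv x - g x‖ ^ p) ≤ ∫ x, ‖gv x‖ ^ p :=
    integral_mono ((hi1.add (hi2.const_mul p)).add (hi3.const_mul _))
      (el_integrable_rpow hp1 hgv) (fun x => rpow_tangent_strong hp (gv x) (g x))
  have h1 : Integrable (fun x => ‖g x‖ ^ p + p * (‖g x‖ ^ (p - 2) *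
      inner ℝ (g x) (gv x - g x))) volume := hi1.add (hi2.const_mul p)
  rw [integral_add h1 (hi3.const_mul _), integral_add hi1 (hi2.const_mul p),
    integral_const_mul, integral_const_mul, heul] at hint
  unfold energy
  linarith

end HMor
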