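import Pool.Agent.W_MP_55e37b_an.Defs
import Pool.Agent.W_MP_55e37b_an.Basics
import Pool.Agent.W_MP_55e37b_an.PosPart
import Pool.Agent.W_MP_55e37b_an.Morrey
import Pool.Agent.W_MP_55e37b_an.Ineq

open MeasureTheory Metric Set Filter Topology
open scoped ENNReal

namespace HMor

variable {n : ℕ}

theorem Exist.energy_nonneg (p : ℝ) (g : E n → E n) : 0 ≤ energy p g :=
  integral_nonneg fun _ => Real.rpow_nonneg (norm_nonneg _) _

theorem Exist.competitor {p : ℝ} {Ω : Set (E n)} (hΩ : IsOpen Ω) {a : E n} (ha : a ∈ Ω) :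
    ∃ (u : E n → ℝ) (g : E n → E n), IsD0 p Ω u g ∧ u a = 1 := by
  obtain ⟨r, hr, hball⟩ := Metric.isOpen_iff.1 hΩ a ha
  let f : ContDiffBump a := ⟨r / 4, r / 2, by positivity, by linarith⟩
  refine ⟨f, gradient f, ⟨IsD.of_contDiff f.contDiff f.hasCompactSupport, ?_⟩, ?_⟩
  · intro x hx
    apply f.zero_of_le_dist
    by_contra h
    push Not at h
    apply hx
    apply hball
    rw [mem_ball]
    have : dist x a < r / 2 := h
    linarith
  · apply f.one_of_mem_closedBall
    exact mem_closedBall_self (by positivity)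

theorem Exist.norm_toLp {p : ℝ} (hp : 1 ≤ p) {g : E n → E n}
    (hg : MemLp g (ENNReal.ofReal p) volume) :
    ‖hg.toLp g‖ = (energy p g) ^ (1 / p) := by
  have hp0 : 0 < p := by linarith
  rw [Lp.norm_toLp, hg.eLpNorm_eq_integral_rpow_norm (by simpa using hp0) ENNReal.ofReal_ne_top,
    ENNReal.toReal_ofReal, ENNReal.toReal_ofReal hp0.le, one_div]
  · rfl
  · exact Real.rpow_nonneg (integral_nonneg fun _ => Real.rpow_nonneg (norm_nonneg _) _) _

theorem Exist.energy_smul {p : ℝ} (c : ℝ) (g : E n → E n) :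
    energy p (fun x => c • g x) = |c| ^ p * energy p g := by
  unfold energy
  rw [← integral_const_mul]
  congr 1
  funext x
  rw [norm_smul, Real.mul_rpow (norm_nonneg _) (norm_nonneg _), Real.norm_eq_abs]

/-- The integrated Clarkson inequality. -/
theorem Exist.clarkson_int {p : ℝ} (hp2 : 2 ≤ p) {u v : E n → ℝ} {g h : E n → E n}
    (hu : IsD p u g) (hv : IsD p v h) :
    energy p (fun x => (1 / 2 : ℝ) • (g x + h x)) + energy p (fun x => (1 / 2 : ℝ) • (g x - h x))
      ≤ (energy p g + energy p h) / 2 := by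
  have hp0 : 0 < p := by linarith
  have hp1 : 1 ≤ p := by linarith
  have i1 := ((hu.add hp1 hv).const_mul hp1 (1 / 2 : ℝ)).integrable_rpow hp0
  have i2 := ((hu.sub hp1 hv).const_mul hp1 (1 / 2 : ℝ)).integrable_rpow hp0
  have i3 := hu.integrable_rpow hp0
  have i4 := hv.integrable_rpow hp0
  unfold energy
  rw [← integral_add i1 i2, ← integral_add i3 i4, ← integral_div]
  exact integral_mono (i1.add i2) ((i3.add i4).div_const 2) fun x => clarkson hp2 (g x) (h x)

/-- Passing to the limit in the definition of weak gradients. -/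
theorem Exist.weakGrad_lim {p : ℝ} (hp : 1 < p) {us : ℕ → E n → ℝ} {gs : ℕ → E n → E n}
    {u : E n → ℝ} {g : E n → E n} (h : ∀ k, IsD p (us k) (gs k)) (hu : Continuous u)
    (hg : MemLp g (ENNReal.ofReal p) volume)
    (hconv : ∀ K : Set (E n), IsCompact K → TendstoUniformlyOn us u atTop K)
    (hconv' : Tendsto (fun k => energy p (fun x => gs k x - g x)) atTop (𝓝 0)) :
    WeakGrad u g := by
  intro φ hφ hφc v
  have hp0 : 0 < p := by linarith
  -- the left-hand side
  have hψc : Continuous (fun x => fderiv ℝ φ x v) :=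
    (hφ.continuous_fderiv (by simp)).clm_apply continuous_const
  have hψs : HasCompactSupport (fun x => fderiv ℝ φ x v) :=
    (hφc.fderiv (𝕜 := ℝ)).comp_left (g := fun L : E n →L[ℝ] ℝ => L v) (by simp)
  have hL : Tendsto (fun k => ∫ x, us k x * fderiv ℝ φ x v) atTop
      (𝓝 (∫ x, u x * fderiv ℝ φ x v)) := by
    have hK := hconv _ hψs.isCompact
    refine tendsto_integral_filter_of_dominated_convergence
      (fun x => (|u x| + 1) * |fderiv ℝ φ x v|) ?_ ?_ ?_ ?_
    · exact Eventually.of_forall fun k =>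
        ((h k).cont.mul hψc).aestronglyMeasurable
    · rw [Metric.tendstoUniformlyOn_iff] at hK
      filter_upwards [hK 1 one_pos] with k hk
      refine Eventually.of_forall fun x => ?_
      rw [Real.norm_eq_abs, abs_mul]
      by_cases hx : x ∈ tsupport (fun x => fderiv ℝ φ x v)
      · refine mul_le_mul_of_nonneg_right ?_ (abs_nonneg _)
        have h1 := hk x hx
        rw [Real.dist_eq] at h1
        have h2 : |us k x| ≤ |u x| + |u x - us k x| := by
          have := abs_sub_abs_le_abs_sub (us k x) (u x)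
          rw [abs_sub_comm (us k x)] at this
          linarith
        linarith
      · have this' : fderiv ℝ φ x v = 0 :=
          image_eq_zero_of_notMem_tsupport (f := fun x => fderiv ℝ φ x v) hx
        rw [this']; simp
    · refine ((Continuous.mul (by fun_prop) (hψc.abs)).integrable_of_hasCompactSupport ?_)
      exact HasCompactSupport.mul_left hψs.abs
    · refine Eventually.of_forall fun x => ?_
      by_cases hx : x ∈ tsupport (fun x => fderiv ℝ φ x v)
      · exact (hK.tendsto_at hx).mul_const _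
      · have this' : fderiv ℝ φ x v = 0 :=
          image_eq_zero_of_notMem_tsupport (f := fun x => fderiv ℝ φ x v) hx
        rw [this']; simp
  -- the right-hand side
  have hint : ∀ g' : E n → E n, MemLp g' (ENNReal.ofReal p) volume →
      Integrable (fun x => inner ℝ (g' x) v * φ x) volume := by
    intro g' hg'
    have h1 : LocallyIntegrable g' volume := hg'.locallyIntegrable (by
      rw [← ENNReal.ofReal_one]; exact ENNReal.ofReal_le_ofReal hp.le)
    have h2 : LocallyIntegrable (fun x => inner ℝ (g' x) v) volume := by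
      intro x
      obtain ⟨U, hU, hint⟩ := h1 x
      refine ⟨U, hU, ?_⟩
      exact hint.inner_const v
    have h3 := h2.integrable_smul_right_of_hasCompactSupport hφ.continuous hφc
    exact h3
  have hR : Tendsto (fun k => ∫ x, inner ℝ (gs k x) v * φ x) atTop
      (𝓝 (∫ x, inner ℝ (g x) v * φ x)) := by
    rw [tendsto_iff_dist_tendsto_zero]
    obtain ⟨q, hpq⟩ : ∃ q, p.HolderConjugate q := ⟨_, Real.HolderConjugate.conjExponent hp⟩
    set B : ℝ := (∫ x, (‖v‖ * |φ x|) ^ q) ^ (1 / q) with hB
    have hbound : ∀ k, dist (∫ x, inner ℝ (gs k x) v * φ x) (∫ x, inner ℝ (g x) v * φ x) ≤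
        (energy p (fun x => gs k x - g x)) ^ (1 / p) * B := by
      intro k
      rw [Real.dist_eq, ← integral_sub (hint _ (h k).memLp) (hint _ hg)]
      have hd : MemLp (fun x => gs k x - g x) (ENNReal.ofReal p) volume := (h k).memLp.sub hg
      have hφm : MemLp (fun x => ‖v‖ * |φ x|) (ENNReal.ofReal q) volume := by
        refine Continuous.memLp_of_hasCompactSupport (by fun_prop) ?_
        exact HasCompactSupport.mul_left hφc.abs
      calc |∫ x, (inner ℝ (gs k x) v * φ x - inner ℝ (g x) v * φ x)|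
          ≤ ∫ x, |inner ℝ (gs k x) v * φ x - inner ℝ (g x) v * φ x| :=
            abs_integral_le_integral_abs
        _ ≤ ∫ x, ‖gs k x - g x‖ * (‖v‖ * |φ x|) := by
            refine integral_mono_of_nonneg (Eventually.of_forall fun x => abs_nonneg _) ?_ ?_
            · have : (ENNReal.ofReal p).HolderConjugate (ENNReal.ofReal q) := hpq.ennrealOfReal
              exact hd.norm.integrable_mul hφm
            · refine Eventually.of_forall fun x => ?_
              show |inner ℝ (gs k x) v * φ x - inner ℝ (g x) v * φ x| ≤ _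
              rw [← sub_mul, ← inner_sub_left, abs_mul]
              show _ ≤ ‖gs k x - g x‖ * (‖v‖ * |φ x|)
              rw [← mul_assoc]
              exact mul_le_mul_of_nonneg_right (abs_real_inner_le_norm _ _) (abs_nonneg _)
        _ ≤ (energy p (fun x => gs k x - g x)) ^ (1 / p) * B := by
            exact integral_mul_le_Lp_mul_Lq_of_nonneg hpq
              (Eventually.of_forall fun x => norm_nonneg _)
              (Eventually.of_forall fun x => by positivity) hd.norm hφm
    refine squeeze_zero (fun _ => dist_nonneg) hbound ?_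
    have h1 : Tendsto (fun k => (energy p (fun x => gs k x - g x)) ^ (1 / p)) atTop (𝓝 0) := by
      have := hconv'.rpow_const (p := 1 / p) (Or.inr (by positivity))
      rwa [Real.zero_rpow (by positivity)] at this
    simpa using h1.mul_const B
  have heq : ∀ k, ∫ x, us k x * fderiv ℝ φ x v = - ∫ x, inner ℝ (gs k x) v * φ x := fun k =>
    (h k).weak φ hφ hφc v
  refine tendsto_nhds_unique hL ?_
  simp_rw [heq]
  exact hR.neg

theorem exists_min (hn : 1 ≤ n) {p : ℝ} (hp : (n : ℝ) < p) (hp2 : 2 ≤ p) {Ω : Set (E n)}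
    (hΩ : IsOpen Ω) (hΩ' : Ω ≠ univ) {a : E n} (ha : a ∈ Ω) :
    ∃ (u : E n → ℝ) (g : E n → E n), IsMin p Ω a u g ∧ ∀ x, 0 ≤ u x ∧ u x ≤ 1 := by
  have hp0 : 0 < p := by linarith
  have hp1 : 1 ≤ p := by linarith
  have hp1' : 1 < p := by linarith
  have : Fact (1 ≤ ENNReal.ofReal p) := ⟨by
    rw [← ENNReal.ofReal_one]; exact ENNReal.ofReal_le_ofReal hp1⟩
  obtain ⟨y0, hy0⟩ := (ne_univ_iff_exists_notMem Ω).1 hΩ'
  obtain ⟨C, hC, hmor⟩ := morrey hn hp
  set α : ℝ := 1 - (n : ℝ) / p with hα
  have hα0 : 0 < α := by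
    rw [hα, sub_pos, div_lt_one hp0]; exact hp
  -- infimum of energies
  set K : Set ℝ := {c | ∃ (u : E n → ℝ) (g : E n → E n), IsD0 p Ω u g ∧ u a = 1 ∧
    c = energy p g} with hK
  have hKne : K.Nonempty := by
    obtain ⟨u, g, h1, h2⟩ := Exist.competitor (p := p) hΩ ha
    exact ⟨_, u, g, h1, h2, rfl⟩
  have hKbdd : BddBelow K := ⟨0, by
    rintro c ⟨u, g, -, -, rfl⟩
    exact Exist.energy_nonneg p g⟩
  set c : ℝ := sInf K with hc
  have hcle : ∀ (u : E n → ℝ) (g : E n → E n), IsD0 p Ω u g → u a = 1 → c ≤ energy p g :=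
    fun u g h1 h2 => csInf_le hKbdd ⟨u, g, h1, h2, rfl⟩
  have hseq : ∀ k : ℕ, ∃ (u : E n → ℝ) (g : E n → E n), IsD0 p Ω u g ∧ u a = 1 ∧
      energy p g < c + 1 / ((k : ℝ) + 1) := by
    intro k
    have h1 : c < c + 1 / ((k : ℝ) + 1) := by
      have : (0 : ℝ) < 1 / ((k : ℝ) + 1) := by positivity
      linarith
    obtain ⟨e, ⟨u, g, h2, h3, h4⟩, h5⟩ := exists_lt_of_csInf_lt hKne h1
    exact ⟨u, g, h2, h3, h4 ▸ h5⟩
  choose us gs hus husa hen using hseq
  -- energies of differences
  have hdiff : ∀ N k l : ℕ, N ≤ k → N ≤ l →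
      energy p (fun x => gs k x - gs l x) ≤ 2 ^ p / ((N : ℝ) + 1) := by
    intro N k l hk hl
    have h1 := Exist.clarkson_int hp2 (hus k).isD (hus l).isD
    have h2 : c ≤ energy p (fun x => (1 / 2 : ℝ) • (gs k x + gs l x)) := by
      refine hcle (fun x => (1 / 2 : ℝ) * (us k x + us l x)) _
        ⟨((hus k).isD.add hp1 (hus l).isD).const_mul hp1 _, ?_⟩ ?_
      · intro x hx
        rw [(hus k).zero x hx, (hus l).zero x hx]; simp
      · show (1 / 2 : ℝ) * (us k a + us l a) = 1
        rw [husa, husa]; norm_num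
    have h3 := Exist.energy_smul (p := p) (1 / 2 : ℝ) (fun x => gs k x - gs l x)
    have h4 : |(1 / 2 : ℝ)| ^ p = (2 ^ p)⁻¹ := by
      rw [abs_of_pos (by norm_num), one_div, Real.inv_rpow (by norm_num)]
    rw [h4] at h3
    have h5 : (0 : ℝ) < 2 ^ p := by positivity
    have hk' : 1 / ((k : ℝ) + 1) ≤ 1 / ((N : ℝ) + 1) :=
      one_div_le_one_div_of_le (by positivity) (by exact_mod_cast Nat.add_le_add_right hk 1)
    have hl' : 1 / ((l : ℝ) + 1) ≤ 1 / ((N : ℝ) + 1) :=
      one_div_le_one_div_of_le (by positivity) (by exact_mod_cast Nat.add_le_add_right hl 1)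
    have h6 : (2 ^ p)⁻¹ * energy p (fun x => gs k x - gs l x) ≤ 1 / ((N : ℝ) + 1) := by
      have := hen k
      have := hen l
      rw [← h3]
      linarith
    rw [div_eq_mul_one_div]
    calc energy p (fun x => gs k x - gs l x)
        = 2 ^ p * ((2 ^ p)⁻¹ * energy p (fun x => gs k x - gs l x)) := by
          rw [← mul_assoc, mul_inv_cancel₀ h5.ne', one_mul]
      _ ≤ 2 ^ p * (1 / ((N : ℝ) + 1)) := mul_le_mul_of_nonneg_left h6 h5.le
  set b : ℕ → ℝ := fun N => (2 ^ p / ((N : ℝ) + 1)) ^ (1 / p) with hb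
  have hb0 : Tendsto b atTop (𝓝 0) := by
    have h1 : Tendsto (fun N : ℕ => 2 ^ p / ((N : ℝ) + 1)) atTop (𝓝 0) := by
      have := (tendsto_one_div_add_atTop_nhds_zero_nat (𝕜 := ℝ)).const_mul ((2 : ℝ) ^ p)
      simpa [div_eq_mul_inv] using this
    have := h1.rpow_const (p := 1 / p) (Or.inr (by positivity))
    rwa [Real.zero_rpow (by positivity)] at this
  have hbd : ∀ N k l : ℕ, N ≤ k → N ≤ l →
      (energy p (fun x => gs k x - gs l x)) ^ (1 / p) ≤ b N := fun N k l hk hl =>
    Real.rpow_le_rpow (Exist.energy_nonneg _ _) (hdiff N k l hk hl) (by positivity)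
  -- the limit of the gradients
  have hcauchy : CauchySeq fun k => (hus k).isD.memLp.toLp (gs k) := by
    refine cauchySeq_of_le_tendsto_0 b ?_ hb0
    intro k l N hk hl
    have h1 : (hus k).isD.memLp.toLp (gs k) - (hus l).isD.memLp.toLp (gs l) =
        ((hus k).isD.memLp.sub (hus l).isD.memLp).toLp (gs k - gs l) := rfl
    rw [dist_eq_norm, h1, Exist.norm_toLp hp1]
    exact hbd N k l hk hl
  obtain ⟨G, hG⟩ := cauchySeq_tendsto_of_complete hcauchy
  have hGm : MemLp (G : E n → E n) (ENNReal.ofReal p) volume := Lp.memLp G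
  have hGG : hGm.toLp (G : E n → E n) = G := Lp.toLp_coeFn G hGm
  have hnorm : ∀ k, energy p (fun x => gs k x - G x) =
      ‖(hus k).isD.memLp.toLp (gs k) - G‖ ^ p := by
    intro k
    have h1 : (hus k).isD.memLp.toLp (gs k) - G =
        ((hus k).isD.memLp.sub hGm).toLp (gs k - (G : E n → E n)) := by
      conv_lhs => rw [← hGG]
      rfl
    rw [h1, Exist.norm_toLp hp1, ← Real.rpow_mul (Exist.energy_nonneg _ _),
      one_div_mul_cancel hp0.ne', Real.rpow_one]
    rfl
  have hconvG : Tendsto (fun k => energy p (fun x => gs k x - G x)) atTop (𝓝 0) := by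
    simp_rw [hnorm]
    have h1 : Tendsto (fun k => ‖(hus k).isD.memLp.toLp (gs k) - G‖) atTop (𝓝 0) := by
      rw [tendsto_iff_norm_sub_tendsto_zero] at hG
      exact hG
    have := h1.rpow_const (p := p) (Or.inr hp0.le)
    rwa [Real.zero_rpow hp0.ne'] at this
  have henG : energy p (G : E n → E n) ≤ c := by
    have h1 : ∀ k, energy p (gs k) = ‖(hus k).isD.memLp.toLp (gs k)‖ ^ p := by
      intro k
      rw [Exist.norm_toLp hp1, ← Real.rpow_mul (Exist.energy_nonneg _ _),
        one_div_mul_cancel hp0.ne', Real.rpow_one]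
    have h2 : energy p (G : E n → E n) = ‖G‖ ^ p := by
      conv_rhs => rw [← hGG]
      rw [Exist.norm_toLp hp1, ← Real.rpow_mul (Exist.energy_nonneg _ _),
        one_div_mul_cancel hp0.ne', Real.rpow_one]
    have h3 : Tendsto (fun k => energy p (gs k)) atTop (𝓝 (energy p (G : E n → E n))) := by
      simp_rw [h1, h2]
      exact (hG.norm).rpow_const (Or.inr hp0.le)
    have h4 : Tendsto (fun k : ℕ => c + 1 / ((k : ℝ) + 1)) atTop (𝓝 (c + 0)) :=
      tendsto_const_nhds.add tendsto_one_div_add_atTop_nhds_zero_nat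
    rw [add_zero] at h4
    exact le_of_tendsto_of_tendsto' h3 h4 fun k => (hen k).le
  -- the limit of the functions
  have hpt : ∀ N k l : ℕ, N ≤ k → N ≤ l → ∀ x, |us k x - us l x| ≤ C * ‖x - y0‖ ^ α * b N := by
    intro N k l hk hl x
    have h1 := hmor _ _ ((hus k).isD.sub hp1 (hus l).isD) x y0
    have h2 : (us k x - us l x) - (us k y0 - us l y0) = us k x - us l x := by
      rw [(hus k).zero y0 hy0, (hus l).zero y0 hy0]; simp
    rw [h2] at h1
    exact h1.trans (mul_le_mul_of_nonneg_left (hbd N k l hk hl) (by positivity))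
  have hcau : ∀ x, CauchySeq fun k => us k x := by
    intro x
    refine cauchySeq_of_le_tendsto_0 (fun N => C * ‖x - y0‖ ^ α * b N) ?_ ?_
    · intro k l N hk hl
      rw [Real.dist_eq]
      exact hpt N k l hk hl x
    · simpa using hb0.const_mul (C * ‖x - y0‖ ^ α)
  choose u hu using fun x => cauchySeq_tendsto_of_complete (hcau x)
  have hlim : ∀ k x, |us k x - u x| ≤ C * ‖x - y0‖ ^ α * b k := by
    intro k x
    refine le_of_tendsto ((tendsto_const_nhds.sub (hu x)).abs) ?_
    filter_upwards [eventually_ge_atTop k] with l hl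
    exact hpt k k l le_rfl hl x
  have hbnn : ∀ k, 0 ≤ b k := fun k => Real.rpow_nonneg (by positivity) _
  have hunif : ∀ K : Set (E n), IsCompact K → TendstoUniformlyOn us u atTop K := by
    intro K hKc
    obtain ⟨R, hR⟩ := hKc.isBounded.subset_closedBall y0
    rw [Metric.tendstoUniformlyOn_iff]
    intro ε hε
    have h1 : Tendsto (fun N => C * (max R 0) ^ α * b N) atTop (𝓝 0) := by
      simpa using hb0.const_mul (C * (max R 0) ^ α)
    filter_upwards [h1.eventually (gt_mem_nhds hε)] with k hk x hx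
    rw [dist_comm, Real.dist_eq]
    have h2 : ‖x - y0‖ ≤ max R 0 := by
      have := hR hx
      rw [mem_closedBall, dist_eq_norm] at this
      exact this.trans (le_max_left _ _)
    have h3 : ‖x - y0‖ ^ α ≤ (max R 0) ^ α := Real.rpow_le_rpow (norm_nonneg _) h2 hα0.le
    calc |us k x - u x| ≤ C * ‖x - y0‖ ^ α * b k := hlim k x
      _ ≤ C * (max R 0) ^ α * b k :=
          mul_le_mul_of_nonneg_right (mul_le_mul_of_nonneg_left h3 hC.le) (hbnn k)
      _ < ε := hk
  have hcont : Continuous u := by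
    rw [continuous_iff_continuousAt]
    intro x
    have h1 := hunif (closedBall x 1) (isCompact_closedBall x 1)
    have h2 : ContinuousOn u (closedBall x 1) :=
      h1.continuousOn (Eventually.of_forall fun k => (hus k).isD.cont.continuousOn).frequently
    exact h2.continuousAt (closedBall_mem_nhds x one_pos)
  have hweak : WeakGrad u (G : E n → E n) :=
    Exist.weakGrad_lim hp1' (fun k => (hus k).isD) hcont hGm hunif hconvG
  have huD : IsD p u (G : E n → E n) := ⟨hcont, hGm, hweak⟩
  have hua : u a = 1 := by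
    refine tendsto_nhds_unique (hu a) ?_
    simp_rw [husa]
    exact tendsto_const_nhds
  have huz : ∀ x, x ∉ Ω → u x = 0 := by
    intro x hx
    refine tendsto_nhds_unique (hu x) ?_
    have : ∀ k, us k x = 0 := fun k => (hus k).zero x hx
    simp_rw [this]
    exact tendsto_const_nhds
  -- truncation
  obtain ⟨g', hg', hle⟩ := huD.trunc hp1
  refine ⟨_, g', ⟨⟨hg', ?_⟩, ?_, ?_⟩, ?_⟩
  · intro x hx
    show min (max (u x) 0) 1 = 0
    rw [huz x hx]; simp
  · show min (max (u a) 0) 1 = 1
    rw [hua]; simp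
  · intro u' g'' h1 h2
    have h3 : energy p g' ≤ energy p (G : E n → E n) := by
      refine integral_mono (hg'.integrable_rpow hp0) (huD.integrable_rpow hp0) fun x => ?_
      exact Real.rpow_le_rpow (norm_nonneg _) (hle x) hp0.le
    exact (h3.trans henG).trans (hcle u' g'' h1 h2)
  · intro x
    exact ⟨le_min (le_max_right _ _) zero_le_one, min_le_right _ _⟩

end HMor
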