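import Pool.Agent.W_MP_55e37b_an.Defs
import Pool.Agent.W_MP_55e37b_an.Basics
import Pool.Agent.W_MP_55e37b_an.PosPart
import Pool.Agent.W_MP_55e37b_an.Morrey
import Pool.Agent.W_MP_55e37b_an.Ineq

open MeasureTheory Metric Set Filter Topology
open scoped ENNReal

namespace HMor

variable {n : ℕ}

/-- abstract comparison step: if `φ` has weak gradient `1_A (h - g)`-like, the monotonicity
integral over `{0 < φ}` is `≤ 0`, and `φ` vanishes at some point, then `φ = 0`. -/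
theorem comparison (hn : 1 ≤ n) {p : ℝ} (hp : (n : ℝ) < p) {φ : E n → ℝ} {gφ g h : E n → E n}
    (hφ : IsD p φ gφ) (hA : ∀ᵐ x, gφ x ≠ 0 → gφ x = h x - g x)
    (hint : Integrable (fun x => ‖h x‖ ^ (p - 2) * inner ℝ (h x) (gφ x)
      - ‖g x‖ ^ (p - 2) * inner ℝ (g x) (gφ x)) volume)
    (hle : ∫ x, (‖h x‖ ^ (p - 2) * inner ℝ (h x) (gφ x)
      - ‖g x‖ ^ (p - 2) * inner ℝ (g x) (gφ x)) ≤ 0)
    {a : E n} (ha : φ a = 0) : ∀ x, φ x = 0 := by
  have hn1 : (1 : ℝ) ≤ n := by exact_mod_cast hn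
  have hp1 : 1 < p := hn1.trans_lt hp
  have hpos : ∀ᵐ x, gφ x ≠ 0 → 0 < ‖h x‖ ^ (p - 2) * inner ℝ (h x) (gφ x)
      - ‖g x‖ ^ (p - 2) * inner ℝ (g x) (gφ x) := by
    filter_upwards [hA] with x hx hx0
    have h1 := hx hx0
    have h2 : h x ≠ g x := by
      intro h3
      rw [h3, sub_self] at h1
      exact hx0 h1
    rw [h1]
    exact rpow_mono hp1 h2
  have hnn : 0 ≤ᵐ[volume] fun x => ‖h x‖ ^ (p - 2) * inner ℝ (h x) (gφ x)
      - ‖g x‖ ^ (p - 2) * inner ℝ (g x) (gφ x) := by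
    filter_upwards [hpos] with x hx
    by_cases hx0 : gφ x = 0
    · simp [hx0]
    · exact (hx hx0).le
  have hzero : gφ =ᵐ[volume] fun _ => (0 : E n) := by
    have h1 := (integral_eq_zero_iff_of_nonneg_ae hnn hint).1
      (le_antisymm hle (integral_nonneg_of_ae hnn))
    filter_upwards [h1, hpos] with x hx1 hx2
    by_contra hx0
    exact (hx2 hx0).ne' hx1
  have hφ0 : IsD p φ (fun _ => (0 : E n)) := hφ.congr_ae hzero.symm
  obtain ⟨C, -, hC⟩ := morrey hn hp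
  intro x
  have h1 := hC φ _ hφ0 x a
  have h2 : energy p (fun _ : E n => (0 : E n)) = 0 := by
    simp [energy, Real.zero_rpow (by linarith : p ≠ 0)]
  rw [h2, Real.zero_rpow (by positivity : 1 / p ≠ 0), mul_zero, ha, sub_zero] at h1
  exact abs_nonpos_iff.1 h1

end HMor
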