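import Pool.Agent.W_MP_55e37b_an.Defs
import Pool.Agent.W_MP_55e37b_an.Basics
import Pool.Agent.W_MP_55e37b_an.PosPart

open MeasureTheory Metric Set Filter Topology
open scoped ENNReal

namespace HMor

variable {n : ℕ}

/-- `w(x) = ⟪X,e⟫ ‖X‖^{-m}`, `X = x + e`, `m = 1 + (n-1)/(p-1)`. -/
noncomputable def wB (p : ℝ) (e x : E n) : ℝ :=
  inner ℝ (x + e) e * ‖x + e‖ ^ (-(1 + ((n : ℝ) - 1) / (p - 1)))

/-- the gradient of `wB` (for `x ≠ -e`) -/
noncomputable def gB (p : ℝ) (e x : E n) : E n :=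
  ‖x + e‖ ^ (-(1 + ((n : ℝ) - 1) / (p - 1))) •
    (e - ((1 + ((n : ℝ) - 1) / (p - 1)) * inner ℝ (x + e) e / ‖x + e‖ ^ 2) • (x + e))

section helpers

theorem uf_hasFDerivAt_sqnorm_add (e x : E n) :
    HasFDerivAt (fun y : E n => ‖y + e‖ ^ 2) ((2 : ℝ) • innerSL ℝ (x + e)) x := by
  have h := ((hasFDerivAt_id (𝕜 := ℝ) x).add_const e).norm_sq
  refine h.congr_fderiv ?_
  ext v
  simp [two_mul]

theorem uf_hasFDerivAt_inner_add (e x : E n) :
    HasFDerivAt (fun y : E n => inner ℝ (y + e) e) (innerSL ℝ e) x := by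
  have h := (innerSL ℝ e).hasFDerivAt.comp x ((hasFDerivAt_id (𝕜 := ℝ) x).add_const e)
  refine (h.congr_of_eventuallyEq ?_).congr_fderiv ?_
  · filter_upwards with y
    simp [real_inner_comm]
  · ext v
    simp

end helpers

theorem hasGradientAt_wB {p : ℝ} {e x : E n} (hx : x + e ≠ 0) :
    HasGradientAt (wB p e) (gB p e x) x := by
  set m : ℝ := 1 + ((n : ℝ) - 1) / (p - 1) with hm
  have hr : 0 < ‖x + e‖ := norm_pos_iff.2 hx
  have h1 : HasFDerivAt (fun y : E n => (‖y + e‖ ^ 2) ^ (-m / 2))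
      (((-m / 2) * (‖x + e‖ ^ 2) ^ (-m / 2 - 1)) • ((2 : ℝ) • innerSL ℝ (x + e))) x :=
    (uf_hasFDerivAt_sqnorm_add e x).rpow_const (Or.inl (by positivity))
  have h2 := (uf_hasFDerivAt_inner_add e x).mul h1
  have h3 : ∀ y : E n, (‖y + e‖ ^ 2) ^ (-m / 2) = ‖y + e‖ ^ (-m) := by
    intro y
    rw [← Real.rpow_natCast, ← Real.rpow_mul (norm_nonneg _)]
    congr 1
    push_cast
    ring
  have h4 : (‖x + e‖ ^ 2) ^ (-m / 2 - 1) = ‖x + e‖ ^ (-m) / ‖x + e‖ ^ 2 := by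
    rw [Real.rpow_sub (by positivity), h3, Real.rpow_one]
  rw [hasGradientAt_iff_hasFDerivAt]
  refine (h2.congr_of_eventuallyEq ?_).congr_fderiv ?_
  · filter_upwards with y
    simp only [wB, h3, ← hm]
    rfl
  · ext v
    simp only [gB, ← hm, h4, h3]
    simp
    field_simp
    ring

/-- bounds for the exponent `m = 1 + (n-1)/(p-1)` -/
theorem uf_mexp_bounds (hn : 2 ≤ n) {p : ℝ} (hp : (n : ℝ) < p) :
    1 < 1 + ((n : ℝ) - 1) / (p - 1) ∧ 1 + ((n : ℝ) - 1) / (p - 1) < 2 := by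
  have hn' : (2 : ℝ) ≤ n := by exact_mod_cast hn
  have h1 : 0 < p - 1 := by linarith
  constructor
  · have : 0 < ((n : ℝ) - 1) / (p - 1) := div_pos (by linarith) h1
    linarith
  · have : ((n : ℝ) - 1) / (p - 1) < 1 := by
      rw [div_lt_one h1]; linarith
    linarith

theorem norm_sq_gB {p : ℝ} {e : E n} (he : ‖e‖ = 1) {x : E n} (hx : x + e ≠ 0) :
    ‖gB p e x‖ ^ 2 = (‖x + e‖ ^ (-(1 + ((n : ℝ) - 1) / (p - 1)))) ^ 2 *
      ((‖x + e‖ ^ 2 - (1 + ((n : ℝ) - 1) / (p - 1)) * (2 - (1 + ((n : ℝ) - 1) / (p - 1))) *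
        inner ℝ (x + e) e ^ 2) / ‖x + e‖ ^ 2) := by
  set m : ℝ := 1 + ((n : ℝ) - 1) / (p - 1) with hm
  have hr : 0 < ‖x + e‖ := norm_pos_iff.2 hx
  unfold gB
  rw [← hm, norm_smul, mul_pow, Real.norm_eq_abs, sq_abs]
  congr 1
  rw [@norm_sub_sq_real, norm_smul, he, inner_smul_right, real_inner_comm (x + e) e, mul_pow,
    Real.norm_eq_abs, sq_abs]
  field_simp
  ring

theorem uf_inner_sq_le {e : E n} (he : ‖e‖ = 1) (X : E n) : inner ℝ X e ^ 2 ≤ ‖X‖ ^ 2 := by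
  have h := abs_real_inner_le_norm X e
  rw [he, mul_one] at h
  exact sq_le_sq' (by linarith [neg_abs_le (inner ℝ X e)]) (le_trans (le_abs_self _) h)

theorem uf_B_pos (hn : 2 ≤ n) {p : ℝ} (hp : (n : ℝ) < p) {e : E n} (he : ‖e‖ = 1) {x : E n}
    (hx : x + e ≠ 0) : 0 < ‖x + e‖ ^ 2 - (1 + ((n : ℝ) - 1) / (p - 1)) *
      (2 - (1 + ((n : ℝ) - 1) / (p - 1))) * inner ℝ (x + e) e ^ 2 := by
  obtain ⟨h1, h2⟩ := uf_mexp_bounds hn hp
  set m : ℝ := 1 + ((n : ℝ) - 1) / (p - 1) with hm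
  have hr : 0 < ‖x + e‖ ^ 2 := by
    have := norm_pos_iff.2 hx
    positivity
  have h3 := uf_inner_sq_le he (x + e)
  have h4 : m * (2 - m) < 1 := by nlinarith [sq_nonneg (m - 1)]
  have h5 : 0 < m * (2 - m) := by apply mul_pos <;> linarith
  nlinarith

theorem gB_ne_zero (hn : 2 ≤ n) {p : ℝ} (hp : (n : ℝ) < p) {e : E n} (he : ‖e‖ = 1) {x : E n}
    (hx : x + e ≠ 0) : gB p e x ≠ 0 := by
  have h := norm_sq_gB (p := p) he hx
  have hB := uf_B_pos hn hp he hx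
  have hr : 0 < ‖x + e‖ := norm_pos_iff.2 hx
  intro h0
  rw [h0, norm_zero] at h
  have : 0 < (‖x + e‖ ^ (-(1 + ((n : ℝ) - 1) / (p - 1)))) ^ 2 *
      ((‖x + e‖ ^ 2 - (1 + ((n : ℝ) - 1) / (p - 1)) * (2 - (1 + ((n : ℝ) - 1) / (p - 1))) *
        inner ℝ (x + e) e ^ 2) / ‖x + e‖ ^ 2) := by positivity
  rw [← h] at this
  norm_num at this

theorem norm_gB_le (hn : 2 ≤ n) {p : ℝ} (hp : (n : ℝ) < p) {e : E n} (he : ‖e‖ = 1) {x : E n}
    (hx : x + e ≠ 0) : ‖gB p e x‖ ≤ ‖x + e‖ ^ (-(1 + ((n : ℝ) - 1) / (p - 1))) := by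
  have hr : 0 < ‖x + e‖ := norm_pos_iff.2 hx
  have h := norm_sq_gB (p := p) he hx
  refine le_of_sq_le_sq ?_ (by positivity)
  rw [h]
  obtain ⟨h1, h2⟩ := uf_mexp_bounds hn hp
  set m : ℝ := 1 + ((n : ℝ) - 1) / (p - 1) with hm
  have h5 : 0 < m * (2 - m) := by apply mul_pos <;> linarith
  have h6 : (‖x + e‖ ^ 2 - m * (2 - m) * inner ℝ (x + e) e ^ 2) / ‖x + e‖ ^ 2 ≤ 1 := by
    rw [div_le_one (by positivity)]
    nlinarith [sq_nonneg (inner ℝ (x + e) e : ℝ)]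
  calc (‖x + e‖ ^ (-m)) ^ 2 * ((‖x + e‖ ^ 2 - m * (2 - m) * inner ℝ (x + e) e ^ 2) / ‖x + e‖ ^ 2)
      ≤ (‖x + e‖ ^ (-m)) ^ 2 * 1 := by gcongr
    _ = _ := by ring

/-- `B = ρ - m(2-m)σ²` -/
noncomputable def ufBB (p : ℝ) (e x : E n) : ℝ :=
  ‖x + e‖ ^ 2 - (1 + ((n : ℝ) - 1) / (p - 1)) *
      (2 - (1 + ((n : ℝ) - 1) / (p - 1))) * inner ℝ (x + e) e ^ 2

/-- coefficient of `e` in the field -/
noncomputable def uffB (p : ℝ) (e x : E n) : ℝ :=
  (‖x + e‖ ^ 2) ^ (-(((n : ℝ) + 2 * p - 4) / 2)) * ufBB p e x ^ ((p - 2) / 2)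

/-- coefficient of `x+e` in the field -/
noncomputable def ufGB (p : ℝ) (e x : E n) : ℝ :=
  (-(1 + ((n : ℝ) - 1) / (p - 1)) * inner ℝ (x + e) e) *
    ((‖x + e‖ ^ 2) ^ (-(((n : ℝ) + 2 * p - 4) / 2) - 1) * ufBB p e x ^ ((p - 2) / 2))

theorem uf_field_eq (hn : 2 ≤ n) {p : ℝ} (hp : (n : ℝ) < p) {e : E n} (he : ‖e‖ = 1) {x : E n}
    (hx : x + e ≠ 0) :
    ‖gB p e x‖ ^ (p - 2) • gB p e x = uffB p e x • e + ufGB p e x • (x + e) := by
  have hr : 0 < ‖x + e‖ := norm_pos_iff.2 hx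
  have h := norm_sq_gB (p := p) he hx
  have hB := uf_B_pos hn hp he hx
  have hn' : (2 : ℝ) ≤ n := by exact_mod_cast hn
  have hp1 : p - 1 ≠ 0 := by linarith
  have hmN : (1 + ((n : ℝ) - 1) / (p - 1)) * (p - 1) = n + p - 2 := by field_simp; ring
  have hBdef : ufBB p e x = ‖x + e‖ ^ 2 - (1 + ((n : ℝ) - 1) / (p - 1)) *
      (2 - (1 + ((n : ℝ) - 1) / (p - 1))) * inner ℝ (x + e) e ^ 2 := rfl
  rw [← hBdef] at h hB
  have hρ : 0 < ‖x + e‖ ^ 2 := by positivity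
  have h1 : ‖gB p e x‖ ^ (p - 2) = (‖gB p e x‖ ^ 2) ^ ((p - 2) / 2) := by
    rw [← Real.rpow_natCast, ← Real.rpow_mul (norm_nonneg _)]
    congr 1
    push_cast
    ring
  have h2 : ‖x + e‖ ^ (-(1 + ((n : ℝ) - 1) / (p - 1))) =
      (‖x + e‖ ^ 2) ^ (-(1 + ((n : ℝ) - 1) / (p - 1)) / 2) := by
    rw [← Real.rpow_natCast, ← Real.rpow_mul (norm_nonneg _)]
    congr 1
    push_cast
    ring
  have h3 : ‖gB p e x‖ ^ (p - 2) * ‖x + e‖ ^ (-(1 + ((n : ℝ) - 1) / (p - 1))) = uffB p e x := by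
    rw [h1, h, h2]
    set ρ : ℝ := ‖x + e‖ ^ 2 with hρdef
    set m : ℝ := 1 + ((n : ℝ) - 1) / (p - 1) with hm
    rw [Real.mul_rpow (by positivity) (by positivity), Real.div_rpow hB.le hρ.le,
      ← Real.rpow_natCast, ← Real.rpow_mul hρ.le, ← Real.rpow_mul hρ.le]
    unfold uffB
    rw [← hρdef]
    have h5 : -(((n : ℝ) + 2 * p - 4) / 2) =
        -m / 2 * ((2 : ℕ) : ℝ) * ((p - 2) / 2) + -((p - 2) / 2) + -m / 2 := by
      push_cast
      have : m * p = n + p - 2 + m := by linarith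
      linarith
    rw [h5, Real.rpow_add hρ, Real.rpow_add hρ, Real.rpow_neg hρ.le]
    ring
  have h4 : ufGB p e x = -(((1 + ((n : ℝ) - 1) / (p - 1)) * inner ℝ (x + e) e) / ‖x + e‖ ^ 2) *
      uffB p e x := by
    unfold ufGB uffB
    rw [Real.rpow_sub hρ, Real.rpow_one]
    field_simp
  rw [h4, ← h3]
  generalize ‖gB p e x‖ ^ (p - 2) = K
  rw [gB, smul_smul, smul_sub, smul_smul, neg_mul, neg_smul, ← sub_eq_add_neg]
  congr 2
  ring

/-- along `σ ≥ 0` the divergence of the field is nonpositive -/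
theorem uf_div_field (hn : 2 ≤ n) {p : ℝ} (hp : (n : ℝ) < p) {e : E n} (he : ‖e‖ = 1) {x : E n}
    (hx : 0 < inner ℝ (x + e) e) :
    DifferentiableAt ℝ (uffB p e) x ∧ DifferentiableAt ℝ (ufGB p e) x ∧
    fderiv ℝ (uffB p e) x e + fderiv ℝ (ufGB p e) x (x + e) + n * ufGB p e x ≤ 0 := by
  have hx0 : x + e ≠ 0 := by
    rintro h
    rw [h, inner_zero_left] at hx
    exact lt_irrefl _ hx
  have hr : 0 < ‖x + e‖ := norm_pos_iff.2 hx0
  have hB : 0 < ufBB p e x := uf_B_pos hn hp he hx0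
  have hn' : (2 : ℝ) ≤ n := by exact_mod_cast hn
  have hp1 : p - 1 ≠ 0 := by linarith
  have hmN : (1 + ((n : ℝ) - 1) / (p - 1)) * (p - 1) = n + p - 2 := by field_simp; ring
  obtain ⟨hm1, hm2⟩ := uf_mexp_bounds hn hp
  have hρ : 0 < ‖x + e‖ ^ 2 := by positivity
  have hBdef : ufBB p e x = ‖x + e‖ ^ 2 - (1 + ((n : ℝ) - 1) / (p - 1)) *
      (2 - (1 + ((n : ℝ) - 1) / (p - 1))) * inner ℝ (x + e) e ^ 2 := rfl
  set m : ℝ := 1 + ((n : ℝ) - 1) / (p - 1) with hm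
  have hcs := uf_inner_sq_le he (x + e)
  set a : ℝ := ((n : ℝ) + 2 * p - 4) / 2 with ha
  set γ : ℝ := (p - 2) / 2 with hγ
  have hγ0 : 0 ≤ γ := by rw [hγ]; linarith
  have h1 := uf_hasFDerivAt_sqnorm_add e x
  have h2 := uf_hasFDerivAt_inner_add e x
  have hBd : HasFDerivAt (ufBB p e) ((2 : ℝ) • innerSL ℝ (x + e) -
      (m * (2 - m)) • ((2 * inner ℝ (x + e) e) • innerSL ℝ e)) x := by
    have h3 := h1.sub ((h2.pow 2).const_mul (m * (2 - m)))
    refine (h3.congr_of_eventuallyEq ?_).congr_fderiv ?_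
    · filter_upwards with y
      simp only [ufBB, ← hm]
      rfl
    · ext v
      simp
  have hA : ∀ s : ℝ, HasFDerivAt (fun y : E n => (‖y + e‖ ^ 2) ^ s)
      ((s * (‖x + e‖ ^ 2) ^ (s - 1)) • ((2 : ℝ) • innerSL ℝ (x + e))) x := fun s =>
    h1.rpow_const (Or.inl hρ.ne')
  have hBg := hBd.rpow_const (p := γ) (Or.inl hB.ne')
  have hf : HasFDerivAt (uffB p e) _ x := (hA (-a)).mul hBg
  have hG : HasFDerivAt (ufGB p e) _ x :=
    (h2.const_mul (-m)).mul ((hA (-a - 1)).mul hBg)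
  refine ⟨hf.differentiableAt, hG.differentiableAt, ?_⟩
  rw [hf.fderiv, hG.fderiv]
  have hee : inner ℝ e e = (1 : ℝ) := by rw [real_inner_self_eq_norm_sq, he]; norm_num
  have hXX : inner ℝ (x + e) (x + e) = ‖x + e‖ ^ 2 := real_inner_self_eq_norm_sq _
  have hsym : inner ℝ e (x + e) = inner ℝ (x + e) e := real_inner_comm _ _
  have key : ∀ (σ ρ b : ℝ), 0 < σ → 0 < ρ → 0 < b → b = ρ - m * (2 - m) * σ ^ 2 → σ ^ 2 ≤ ρ →
    (ρ ^ (-a) * ((γ * b ^ (γ - 1)) * (2 * σ - m * (2 - m) * (2 * σ * 1))) +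
      b ^ γ * ((-a * ρ ^ (-a - 1)) * (2 * σ))) +
    ((-m * σ) * (ρ ^ (-a - 1) * ((γ * b ^ (γ - 1)) * (2 * ρ - m * (2 - m) * (2 * σ * σ))) +
        b ^ γ * (((-a - 1) * ρ ^ (-a - 1 - 1)) * (2 * ρ))) +
      (ρ ^ (-a - 1) * b ^ γ) * (-m * σ)) + n * ((-m * σ) * (ρ ^ (-a - 1) * b ^ γ)) ≤ 0 := by
    intro σ ρ b hσ hρ hb hb' hcs
    have e1 : ρ ^ (-a) = ρ ^ (-a - 1) * ρ := by
      rw [Real.rpow_sub_one hρ.ne']; field_simp
    have e2 : b ^ γ = b ^ (γ - 1) * b := by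
      rw [Real.rpow_sub_one hb.ne']; field_simp
    have e3 : ρ ^ (-a - 1 - 1) = ρ ^ (-a - 1) / ρ := by
      rw [Real.rpow_sub_one hρ.ne']
    have e4 : (ρ ^ (-a) * ((γ * b ^ (γ - 1)) * (2 * σ - m * (2 - m) * (2 * σ * 1))) +
      b ^ γ * ((-a * ρ ^ (-a - 1)) * (2 * σ))) +
    ((-m * σ) * (ρ ^ (-a - 1) * ((γ * b ^ (γ - 1)) * (2 * ρ - m * (2 - m) * (2 * σ * σ))) +
        b ^ γ * (((-a - 1) * ρ ^ (-a - 1 - 1)) * (2 * ρ))) +
      (ρ ^ (-a - 1) * b ^ γ) * (-m * σ)) + n * ((-m * σ) * (ρ ^ (-a - 1) * b ^ γ)) =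
      -(ρ ^ (-a - 1) * b ^ (γ - 1) * σ * (2 * γ * (m * (2 - m)) * (ρ - σ ^ 2))) := by
      rw [e1, e2, e3]
      have hp' : p = 2 * γ + 2 := by rw [hγ]; ring
      have ha' : a = ((n : ℝ) + 4 * γ) / 2 := by rw [ha, hp']; ring
      have hmN' : m * (2 * γ + 1) = n + 2 * γ := by rw [hp'] at hmN; linarith
      have hn2 : (n : ℝ) = m * (2 * γ + 1) - 2 * γ := by linarith
      rw [ha']
      generalize ρ ^ (-(((n : ℝ) + 4 * γ) / 2) - 1) = R
      generalize b ^ (γ - 1) = T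
      rw [hn2]
      field_simp
      rw [hb']
      ring
    rw [e4]
    have : 0 ≤ ρ ^ (-a - 1) * b ^ (γ - 1) * σ * (2 * γ * (m * (2 - m)) * (ρ - σ ^ 2)) := by
      have : 0 ≤ ρ - σ ^ 2 := by linarith
      have : 0 ≤ 2 - m := by linarith
      have : 0 ≤ m := by linarith
      positivity
    linarith
  have := key (inner ℝ (x + e) e) (‖x + e‖ ^ 2) (ufBB p e x) hx hρ hB hBdef hcs
  simp only [_root_.add_apply, _root_.smul_apply, _root_.sub_apply, innerSL_apply_apply, hee, hXX,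
    hsym, smul_eq_mul]
  simp only [ufGB, ← hm, ← ha, ← hγ]
  exact this

theorem uf_contDiffAt_field (hn : 2 ≤ n) {p : ℝ} (hp : (n : ℝ) < p) {e : E n} (he : ‖e‖ = 1) {x : E n}
    (hx : 0 < inner ℝ (x + e) e) :
    ContDiffAt ℝ ((⊤ : ℕ∞) : WithTop ℕ∞) (uffB p e) x ∧
      ContDiffAt ℝ ((⊤ : ℕ∞) : WithTop ℕ∞) (ufGB p e) x := by
  have hx0 : x + e ≠ 0 := by
    rintro h
    rw [h, inner_zero_left] at hx
    exact lt_irrefl _ hx
  have hr : 0 < ‖x + e‖ := norm_pos_iff.2 hx0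
  have hB : 0 < ufBB p e x := uf_B_pos hn hp he hx0
  have hρ : 0 < ‖x + e‖ ^ 2 := by positivity
  have h1 : ContDiff ℝ ((⊤ : ℕ∞) : WithTop ℕ∞) (fun y : E n => ‖y + e‖ ^ 2) :=
    (contDiff_id.add contDiff_const).norm_sq ℝ
  have h2 : ContDiff ℝ ((⊤ : ℕ∞) : WithTop ℕ∞) (fun y : E n => (inner ℝ (y + e) e : ℝ)) :=
    (contDiff_id.add contDiff_const).inner ℝ contDiff_const
  have h3 : ContDiff ℝ ((⊤ : ℕ∞) : WithTop ℕ∞) (ufBB p e) := by
    unfold ufBB
    exact h1.sub (contDiff_const.mul (h2.pow 2))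
  have hBg : ContDiffAt ℝ ((⊤ : ℕ∞) : WithTop ℕ∞) (fun y => ufBB p e y ^ ((p - 2) / 2)) x :=
    h3.contDiffAt.rpow_const_of_ne hB.ne'
  have hA : ∀ s : ℝ, ContDiffAt ℝ ((⊤ : ℕ∞) : WithTop ℕ∞) (fun y : E n => (‖y + e‖ ^ 2) ^ s) x :=
    fun s => h1.contDiffAt.rpow_const_of_ne hρ.ne'
  constructor
  · exact (hA _).mul hBg
  · exact (contDiffAt_const.mul h2.contDiffAt).mul ((hA _).mul hBg)

/-- cut-off, `1` for `σ ≥ 3/4`, `0` for `σ ≤ 1/2` -/
noncomputable def ufcut (e x : E n) : ℝ := Real.smoothTransition (4 * inner ℝ (x + e) e - 2)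

theorem uf_contDiff_cut (e : E n) : ContDiff ℝ ((⊤ : ℕ∞) : WithTop ℕ∞) (ufcut e) := by
  unfold ufcut
  exact Real.smoothTransition.contDiff.comp
    ((contDiff_const.mul ((contDiff_id.add contDiff_const).inner ℝ contDiff_const)).sub
      contDiff_const)

theorem uf_cut_zero {e x : E n} (hx : inner ℝ (x + e) e ≤ 1 / 2) : ufcut e x = 0 :=
  Real.smoothTransition.zero_of_nonpos (by linarith)

theorem uf_cut_one {e x : E n} (hx : 3 / 4 ≤ inner ℝ (x + e) e) : ufcut e x = 1 :=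
  Real.smoothTransition.one_of_one_le (by linarith)

theorem uf_continuous_sig (e : E n) : Continuous (fun y : E n => (inner ℝ (y + e) e : ℝ)) :=
  (continuous_id.add continuous_const).inner continuous_const

theorem uf_contDiff_cut_mul {e : E n} {F : E n → ℝ}
    (hF : ∀ x, 0 < inner ℝ (x + e) e → ContDiffAt ℝ ((⊤ : ℕ∞) : WithTop ℕ∞) F x) :
    ContDiff ℝ ((⊤ : ℕ∞) : WithTop ℕ∞) (fun x => ufcut e x * F x) := by
  rw [contDiff_iff_contDiffAt]
  intro x
  by_cases hx : 0 < inner ℝ (x + e) e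
  · exact (uf_contDiff_cut e).contDiffAt.mul (hF x hx)
  · have h : ∀ᶠ y in 𝓝 x, (inner ℝ (y + e) e : ℝ) < 1 / 2 :=
      (uf_continuous_sig e).continuousAt.eventually_lt continuousAt_const (by linarith)
    refine (contDiffAt_const (c := (0 : ℝ))).congr_of_eventuallyEq ?_
    filter_upwards [h] with y hy
    rw [uf_cut_zero hy.le, zero_mul]

theorem uf_fderiv_cut_mul {e : E n} {F : E n → ℝ} {x : E n} (hx : 1 ≤ inner ℝ (x + e) e) :
    fderiv ℝ (fun x => ufcut e x * F x) x = fderiv ℝ F x := by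
  refine Filter.EventuallyEq.fderiv_eq ?_
  have h : ∀ᶠ y in 𝓝 x, (3 / 4 : ℝ) < inner ℝ (y + e) e :=
      continuousAt_const.eventually_lt (uf_continuous_sig e).continuousAt (by linarith)
  filter_upwards [h] with y hy
  rw [uf_cut_one hy.le, one_mul]

theorem uf_sig_of_mem {e : E n} (he : ‖e‖ = 1) {x : E n} (hx : x ∈ halfspace e 0) :
    1 ≤ inner ℝ (x + e) e := by
  have : (0 : ℝ) < inner ℝ x e := hx
  rw [inner_add_left, real_inner_self_eq_norm_sq, he]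
  linarith

/-- `wB` is `p`-superharmonic in the halfspace `⟪x+e,e⟫ > 0`, weak form: for every nonnegative
`φ` vanishing off the halfspace `⟪x,e⟫ > 0` (with weak gradient `gφ`) and every test function
`θ`. -/
theorem wB_weak (hn : 2 ≤ n) {p : ℝ} (hp : (n : ℝ) < p) {e : E n} (he : ‖e‖ = 1)
    {φ : E n → ℝ} {gφ : E n → E n} (hφ : WG φ gφ) (h0 : ∀ x, 0 ≤ φ x)
    (hH : ∀ x, x ∉ halfspace e 0 → φ x = 0) {θ : E n → ℝ}
    (hθ : ContDiff ℝ ((⊤ : ℕ∞) : WithTop ℕ∞) θ) (hc : HasCompactSupport θ) (hθ0 : ∀ x, 0 ≤ θ x) :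
    - ∫ x, φ x * (‖gB p e x‖ ^ (p - 2) * fderiv ℝ θ x (gB p e x)) ≤
      ∫ x, θ x * (‖gB p e x‖ ^ (p - 2) * inner ℝ (gB p e x) (gφ x)) := by
  set F : E n → ℝ := fun x => ufcut e x * uffB p e x with hF
  set H : E n → ℝ := fun x => ufcut e x * ufGB p e x with hHdef
  have hFs : ContDiff ℝ ((⊤ : ℕ∞) : WithTop ℕ∞) F :=
    uf_contDiff_cut_mul fun x hx => (uf_contDiffAt_field hn hp he hx).1
  have hHs : ContDiff ℝ ((⊤ : ℕ∞) : WithTop ℕ∞) H :=
    uf_contDiff_cut_mul fun x hx => (uf_contDiffAt_field hn hp he hx).2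
  have htop : (((⊤ : ℕ∞) : WithTop ℕ∞)) ≠ 0 := by simp
  have hFd : Differentiable ℝ F := hFs.differentiable htop
  have hHd : Differentiable ℝ H := hHs.differentiable htop
  have hθd : Differentiable ℝ θ := hθ.differentiable htop
  -- the field on the halfspace
  have hfield : ∀ x ∈ halfspace e 0,
      ‖gB p e x‖ ^ (p - 2) • gB p e x = F x • e + H x • (x + e) := by
    intro x hx
    have h1 := uf_sig_of_mem he hx
    have hx0 : x + e ≠ 0 := by
      rintro h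
      rw [h, inner_zero_left] at h1
      linarith
    rw [uf_field_eq hn hp he hx0]
    simp only [hF, hHdef, uf_cut_one (show (3 : ℝ) / 4 ≤ inner ℝ (x + e) e by linarith), one_mul]
  -- the two tests
  have hc1 : HasCompactSupport (fun x => θ x * F x) := hc.mul_right
  have hc2 : HasCompactSupport (fun x => θ x * H x) := hc.mul_right
  have hs1 : ContDiff ℝ ((⊤ : ℕ∞) : WithTop ℕ∞) (fun x => θ x * F x) := hθ.mul hFs
  have hs2 : ContDiff ℝ ((⊤ : ℕ∞) : WithTop ℕ∞) (fun x => θ x * H x) := hθ.mul hHs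
  have t1 := hφ.weak _ hs1 hc1 e
  have t2 := hφ.test_radial hs2 hc2 (-e)
  simp only [sub_neg_eq_add] at t2
  -- integrability
  have i1 : Integrable (fun x => inner ℝ (gφ x) e * (θ x * F x)) volume := by
    have h := hφ.locInt.integrable_smul_left_of_hasCompactSupport hs1.continuous hc1
    refine (h.inner_const (𝕜 := ℝ) e).congr ?_
    filter_upwards with x
    rw [inner_smul_left]
    simp [mul_comm]
  have i2 : Integrable (fun x => inner ℝ (gφ x) (x + e) * (θ x * H x)) volume := by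
    have hw : Continuous (fun x : E n => (‖x + e‖ ^ 2 + 1) * (θ x * H x)) :=
      ((((continuous_id.add continuous_const).norm).pow 2).add continuous_const).mul hs2.continuous
    have hw2 : HasCompactSupport (fun x : E n => (‖x + e‖ ^ 2 + 1) * (θ x * H x)) := hc2.mul_left
    have h := hφ.locInt.integrable_smul_left_of_hasCompactSupport hw hw2
    refine h.mono ?_ ?_
    · exact (hφ.locInt.aestronglyMeasurable.inner
        (continuous_id.add continuous_const).aestronglyMeasurable).mul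
        hs2.continuous.aestronglyMeasurable
    · filter_upwards with x
      rw [norm_mul, norm_smul, norm_mul (‖x + e‖ ^ 2 + 1) (θ x * H x)]
      have h1 : ‖(inner ℝ (gφ x) (x + e) : ℝ)‖ ≤ ‖gφ x‖ * ‖x + e‖ := norm_inner_le_norm _ _
      have h2 : ‖x + e‖ ≤ ‖‖x + e‖ ^ 2 + 1‖ := by
        rw [Real.norm_of_nonneg (by positivity)]
        nlinarith [sq_nonneg (‖x + e‖ - 1), sq_nonneg (‖x + e‖)]
      calc ‖(inner ℝ (gφ x) (x + e) : ℝ)‖ * ‖θ x * H x‖
          ≤ (‖gφ x‖ * ‖x + e‖) * ‖θ x * H x‖ := by gcongr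
        _ ≤ (‖gφ x‖ * ‖‖x + e‖ ^ 2 + 1‖) * ‖θ x * H x‖ := by gcongr
        _ = (‖‖x + e‖ ^ 2 + 1‖ * ‖θ x * H x‖) * ‖gφ x‖ := by
            generalize ‖‖x + e‖ ^ 2 + 1‖ = W
            ring
  have i3 : Integrable (fun x => φ x * fderiv ℝ (fun x => θ x * F x) x e) volume := by
    refine Continuous.integrable_of_hasCompactSupport ?_ ?_
    · exact hφ.cont.mul ((hs1.continuous_fderiv htop).clm_apply continuous_const)
    · exact ((hc1.fderiv_apply (𝕜 := ℝ) e)).mul_left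
  have i4 : Integrable (fun x => φ x * (fderiv ℝ (fun x => θ x * H x) x (x + e) +
      n * (θ x * H x))) volume := by
    refine Continuous.integrable_of_hasCompactSupport ?_ ?_
    · exact hφ.cont.mul (((hs2.continuous_fderiv htop).clm_apply
        (continuous_id.add continuous_const)).add (continuous_const.mul hs2.continuous))
    · refine hc2.mono' fun x hx => ?_
      by_contra hxt
      apply hx
      have h1 : fderiv ℝ (fun x => θ x * H x) x = 0 := by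
        by_contra h2
        exact hxt (support_fderiv_subset ℝ h2)
      have h2 : θ x * H x = 0 := image_eq_zero_of_notMem_tsupport (f := fun x => θ x * H x) hxt
      simp only [h1, h2]
      simp
  have i5 : Integrable (fun x => φ x * (‖gB p e x‖ ^ (p - 2) * fderiv ℝ θ x (gB p e x)))
      volume := by
    have h : (fun x => φ x * (‖gB p e x‖ ^ (p - 2) * fderiv ℝ θ x (gB p e x))) =
        fun x => φ x * fderiv ℝ θ x (F x • e + H x • (x + e)) := by
      funext x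
      by_cases hx : x ∈ halfspace e 0
      · rw [← hfield x hx, map_smul, smul_eq_mul]
      · rw [hH x hx, zero_mul, zero_mul]
    rw [h]
    refine Continuous.integrable_of_hasCompactSupport ?_ ?_
    · exact hφ.cont.mul ((hθ.continuous_fderiv htop).clm_apply
        ((hFs.continuous.smul continuous_const).add (hHs.continuous.smul
          (continuous_id.add continuous_const))))
    · refine hc.mono' fun x hx => ?_
      by_contra hxt
      apply hx
      have h1 : fderiv ℝ θ x = 0 := by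
        by_contra h2
        exact hxt (support_fderiv_subset ℝ h2)
      simp only [h1]
      simp
  have e1 : ∫ x, θ x * (‖gB p e x‖ ^ (p - 2) * inner ℝ (gB p e x) (gφ x)) =
      ∫ x, (inner ℝ (gφ x) e * (θ x * F x) + inner ℝ (gφ x) (x + e) * (θ x * H x)) := by
    refine integral_congr_ae ?_
    filter_upwards [hφ.ae_zero] with x hx
    by_cases hm : x ∈ halfspace e 0
    · have h := hfield x hm
      have h2 : ‖gB p e x‖ ^ (p - 2) * inner ℝ (gB p e x) (gφ x) =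
          inner ℝ (F x • e + H x • (x + e)) (gφ x) := by
        rw [← h, inner_smul_left]; simp
      rw [h2, inner_add_left, inner_smul_left, inner_smul_left, real_inner_comm e,
        real_inner_comm (x + e)]
      simp
      ring
    · rw [hx (hH x hm)]
      simp
  have t1' : ∫ x, inner ℝ (gφ x) e * (θ x * F x) =
      - ∫ x, φ x * fderiv ℝ (fun x => θ x * F x) x e := by linarith [t1]
  rw [e1, integral_add i1 i2, t1', t2, ← neg_add, neg_le_neg_iff, ← integral_add i3 i4]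
  refine integral_mono (i3.add i4) i5 ?_
  intro x
  simp only
  by_cases hx : x ∈ halfspace e 0
  · have h1 := uf_sig_of_mem he hx
    have hd := uf_div_field hn hp he (x := x) (by linarith)
    have hv : ‖gB p e x‖ ^ (p - 2) * fderiv ℝ θ x (gB p e x) =
        F x * fderiv ℝ θ x e + H x * fderiv ℝ θ x (x + e) := by
      have := hfield x hx
      rw [← smul_eq_mul, ← map_smul, this, map_add, map_smul, map_smul, smul_eq_mul, smul_eq_mul]
    have d1 : fderiv ℝ (fun x => θ x * F x) x e = θ x * fderiv ℝ (uffB p e) x e +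
        F x * fderiv ℝ θ x e := by
      rw [fderiv_fun_mul (hθd x) (hFd x), hF, uf_fderiv_cut_mul h1]
      simp
    have d2 : fderiv ℝ (fun x => θ x * H x) x (x + e) = θ x * fderiv ℝ (ufGB p e) x (x + e) +
        H x * fderiv ℝ θ x (x + e) := by
      rw [fderiv_fun_mul (hθd x) (hHd x), hHdef, uf_fderiv_cut_mul h1]
      simp
    have hHx : H x = ufGB p e x := by
      simp only [hHdef, uf_cut_one (show (3 : ℝ) / 4 ≤ inner ℝ (x + e) e by linarith), one_mul]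
    rw [hv, d1, d2, ← mul_add]
    refine mul_le_mul_of_nonneg_left ?_ (h0 x)
    have h3 : θ x * (fderiv ℝ (uffB p e) x e + fderiv ℝ (ufGB p e) x (x + e) + n * ufGB p e x) ≤ 0 :=
      mul_nonpos_of_nonneg_of_nonpos (hθ0 x) hd.2.2
    rw [← hHx] at h3
    linarith
  · rw [hH x hx]
    simp

end HMor
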