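import Pool.Agent.W_MP_55e37b_an.Defs
import Pool.Agent.W_MP_55e37b_an.Basics
import Pool.Agent.W_MP_55e37b_an.PosPart
import Pool.Agent.W_MP_55e37b_an.Morrey
import Pool.Agent.W_MP_55e37b_an.Ineq
import Pool.Agent.W_MP_55e37b_an.EL
import Pool.Agent.W_MP_55e37b_an.Comp
import Pool.Agent.W_MP_55e37b_an.UpperField

open MeasureTheory Metric Set Filter Topology
open scoped ENNReal

namespace HMor

variable {n : ℕ}

namespace UpperAux

/-- the exponent `m = 1 + (n-1)/(p-1)` -/
noncomputable def mm (n : ℕ) (p : ℝ) : ℝ := 1 + ((n : ℝ) - 1) / (p - 1)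

theorem wB_eq (p : ℝ) (e x : E n) : wB p e x = inner ℝ (x + e) e * ‖x + e‖ ^ (-mm n p) := rfl

/-- smooth cut-off equal to `1` near the halfspace and `0` near `-e` -/
noncomputable def psi (e x : E n) : ℝ := Real.smoothTransition (4 * inner ℝ (x + e) e - 2)

noncomputable def wt (p : ℝ) (e x : E n) : ℝ := psi e x * wB p e x

theorem psi_contDiff (e : E n) : ContDiff ℝ 1 (psi e) := by
  unfold psi
  refine (Real.smoothTransition.contDiff (n := 1)).comp ?_
  exact (contDiff_const.mul ((contDiff_id.add contDiff_const).inner ℝ contDiff_const)).sub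
    contDiff_const

theorem psi_nonneg (e x : E n) : 0 ≤ psi e x := Real.smoothTransition.nonneg _

theorem psi_eq_one {e x : E n} (h : 3 / 4 ≤ inner ℝ (x + e) e) : psi e x = 1 :=
  Real.smoothTransition.one_of_one_le (by linarith)

theorem psi_eq_zero {e x : E n} (h : inner ℝ (x + e) e ≤ 1 / 2) : psi e x = 0 :=
  Real.smoothTransition.zero_of_nonpos (by linarith)

theorem wt_nonneg (p : ℝ) (e x : E n) : 0 ≤ wt p e x := by
  rcases le_total (inner ℝ (x + e) e : ℝ) (1 / 2) with h | h
  · rw [wt, psi_eq_zero h, zero_mul]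
  · refine mul_nonneg (psi_nonneg e x) (mul_nonneg (by linarith) (by positivity))

theorem wt_contDiff (p : ℝ) (e : E n) : ContDiff ℝ 1 (wt p e) := by
  rw [contDiff_iff_contDiffAt]
  intro x
  by_cases hx : x + e = 0
  · have h1 : ∀ᶠ y in 𝓝 x, wt p e y = 0 := by
      have h2 : ContinuousAt (fun y : E n => (inner ℝ (y + e) e : ℝ)) x := by fun_prop
      have h3 : (inner ℝ (x + e) e : ℝ) < 1 / 2 := by rw [hx, inner_zero_left]; norm_num
      filter_upwards [h2.eventually_lt_const h3] with y hy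
      rw [wt, psi_eq_zero hy.le, zero_mul]
    exact (contDiffAt_const (c := (0 : ℝ))).congr_of_eventuallyEq h1
  · refine (psi_contDiff e).contDiffAt.mul ?_
    refine ContDiffAt.mul
      (((contDiff_id.add contDiff_const).inner ℝ contDiff_const).contDiffAt) ?_
    refine ContDiffAt.rpow_const_of_ne ?_ (norm_ne_zero_iff.2 hx)
    exact ContDiffAt.norm ℝ (by fun_prop) hx

theorem gradient_wt {p : ℝ} {e x : E n} (h : 3 / 4 < (inner ℝ (x + e) e : ℝ)) :
    gradient (wt p e) x = gB p e x := by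
  have hx : x + e ≠ 0 := by
    intro h0
    rw [h0, inner_zero_left] at h
    norm_num at h
  have h1 : wt p e =ᶠ[𝓝 x] wB p e := by
    have h2 : ContinuousAt (fun y : E n => (inner ℝ (y + e) e : ℝ)) x := by fun_prop
    filter_upwards [h2.eventually_const_lt h] with y hy
    rw [wt, psi_eq_one hy.le, one_mul]
  exact ((hasGradientAt_wB hx).congr_of_eventuallyEq h1).gradient

section

variable {p : ℝ} {e x : E n}

theorem inner_add_self (he : ‖e‖ = 1) (x : E n) :
    (inner ℝ (x + e) e : ℝ) = inner ℝ x e + 1 := by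
  rw [inner_add_left, real_inner_self_eq_norm_sq, he]
  norm_num

theorem mm_pos (hn : 2 ≤ n) (hp : (n : ℝ) < p) : 1 < mm n p := by
  have h2 : (2 : ℝ) ≤ n := by exact_mod_cast hn
  have : 0 < ((n : ℝ) - 1) / (p - 1) := div_pos (by linarith) (by linarith)
  unfold mm
  linarith

theorem norm_le_add (hx : x ∈ halfspace e 0) : ‖x‖ ≤ ‖x + e‖ := by
  have h1 : ‖x + e‖ ^ 2 = ‖x‖ ^ 2 + 2 * inner ℝ x e + ‖e‖ ^ 2 := norm_add_sq_real x e
  have h2 : 0 < (inner ℝ x e : ℝ) := hx
  refine le_of_sq_le_sq ?_ (norm_nonneg _)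
  rw [h1]
  have := sq_nonneg ‖e‖
  linarith

theorem inner_le (he : ‖e‖ = 1) (x : E n) : (inner ℝ (x + e) e : ℝ) ≤ ‖x + e‖ := by
  have := real_inner_le_norm (x + e) e
  rwa [he, mul_one] at this

/-- lower bound near the origin -/
theorem wB_lower (hn : 2 ≤ n) (hp : (n : ℝ) < p) (he : ‖e‖ = 1) (hx : x ∈ halfspace e 0)
    (hx2 : ‖x‖ ≤ 2) : 1 ≤ 3 ^ mm n p * wt p e x := by
  have hσ : 1 ≤ (inner ℝ (x + e) e : ℝ) := by
    rw [inner_add_self he]
    have : 0 < (inner ℝ x e : ℝ) := hx
    linarith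
  have hr : ‖x + e‖ ≤ 3 := (norm_add_le _ _).trans (by linarith)
  have hr1 : 1 ≤ ‖x + e‖ := hσ.trans (inner_le he x)
  have hm := mm_pos hn hp
  rw [wt, psi_eq_one (by linarith), one_mul, wB_eq]
  have h1 : (3 : ℝ) ^ (-mm n p) ≤ ‖x + e‖ ^ (-mm n p) :=
    Real.rpow_le_rpow_of_nonpos (by linarith) hr (by linarith)
  have h2 : (3 : ℝ) ^ mm n p * 3 ^ (-mm n p) = 1 := by
    rw [← Real.rpow_add (by norm_num), add_neg_cancel, Real.rpow_zero]
  calc (1 : ℝ) = 3 ^ mm n p * (1 * 3 ^ (-mm n p)) := by rw [one_mul, h2]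
    _ ≤ 3 ^ mm n p * (inner ℝ (x + e) e * ‖x + e‖ ^ (-mm n p)) := by
        refine mul_le_mul_of_nonneg_left ?_ (by positivity)
        exact mul_le_mul hσ h1 (by positivity) (by linarith)

/-- upper bound -/
theorem wt_upper (hn : 2 ≤ n) (hp : (n : ℝ) < p) (he : ‖e‖ = 1) (hx : x ∈ halfspace e 0)
    (hx0 : x ≠ 0) : wt p e x ≤ ‖x‖ ^ (-(((n : ℝ) - 1) / (p - 1))) := by
  have hσ : 1 ≤ (inner ℝ (x + e) e : ℝ) := by
    rw [inner_add_self he]
    have : 0 < (inner ℝ x e : ℝ) := hx
    linarith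
  have hr1 : 1 ≤ ‖x + e‖ := hσ.trans (inner_le he x)
  have hm := mm_pos hn hp
  have hk : 0 < ((n : ℝ) - 1) / (p - 1) := by unfold mm at hm; linarith
  rw [wt, psi_eq_one (by linarith), one_mul, wB_eq]
  calc inner ℝ (x + e) e * ‖x + e‖ ^ (-mm n p) ≤ ‖x + e‖ * ‖x + e‖ ^ (-mm n p) :=
        mul_le_mul_of_nonneg_right (inner_le he x) (by positivity)
    _ = ‖x + e‖ ^ (-(((n : ℝ) - 1) / (p - 1))) := by
        rw [← Real.rpow_one_add' (by positivity)]
        · congr 1
          unfold mm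
          ring
        · unfold mm
          intro h0
          linarith
    _ ≤ ‖x‖ ^ (-(((n : ℝ) - 1) / (p - 1))) :=
        Real.rpow_le_rpow_of_nonpos (norm_pos_iff.2 hx0) (norm_le_add hx) (by linarith)

end

/-- smooth cut-off functions with slowly varying gradient -/
theorem exists_cutoff (n : ℕ) : ∃ (θ : ℕ → E n → ℝ) (M : ℝ), 0 ≤ M ∧
    (∀ k, ContDiff ℝ ((⊤ : ℕ∞) : WithTop ℕ∞) (θ k)) ∧ (∀ k, HasCompactSupport (θ k)) ∧
    (∀ k x, 0 ≤ θ k x ∧ θ k x ≤ 1) ∧
    (∀ x, ∀ᶠ k in atTop, θ k x = 1 ∧ fderiv ℝ (θ k) x = 0) ∧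
    (∀ k x, ‖fderiv ℝ (θ k) x‖ ≤ M * (1 + ‖x‖)⁻¹) := by
  let f : ContDiffBump (0 : E n) := ⟨1, 2, one_pos, one_lt_two⟩
  have hf : ContDiff ℝ ((⊤ : ℕ∞) : WithTop ℕ∞) f := f.contDiff
  have hfc : HasCompactSupport f := f.hasCompactSupport
  obtain ⟨M, hM⟩ := (hf.continuous_fderiv (by simp)).bounded_above_of_compact_support
    (hfc.fderiv (𝕜 := ℝ))
  have hM0 : 0 ≤ M := (norm_nonneg _).trans (hM 0)
  have hpos : ∀ k : ℕ, (0 : ℝ) < ((k : ℝ) + 1)⁻¹ := fun k => by positivity
  have hfd : ∀ (k : ℕ) (x : E n), fderiv ℝ (fun x : E n => f (((k : ℝ) + 1)⁻¹ • x)) x =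
      ((k : ℝ) + 1)⁻¹ • fderiv ℝ f (((k : ℝ) + 1)⁻¹ • x) := by
    intro k x
    exact fderiv_comp_smul _
  refine ⟨fun k x => f (((k : ℝ) + 1)⁻¹ • x), 3 * M, by positivity, ?_, ?_, ?_, ?_, ?_⟩
  · intro k
    exact hf.comp (contDiff_const_smul _)
  · intro k
    exact hfc.comp_homeomorph (Homeomorph.smulOfNeZero _ (hpos k).ne')
  · intro k x
    exact ⟨f.nonneg, f.le_one⟩
  · intro x
    obtain ⟨N, hN⟩ := exists_nat_gt ‖x‖
    filter_upwards [eventually_ge_atTop N] with k hk
    have hmem : ((k : ℝ) + 1)⁻¹ • x ∈ ball (0 : E n) f.rIn := by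
      rw [mem_ball_zero_iff, norm_smul, Real.norm_of_nonneg (hpos k).le]
      change ((k : ℝ) + 1)⁻¹ * ‖x‖ < 1
      rw [inv_mul_lt_one₀ (by positivity)]
      have : (N : ℝ) ≤ k := by exact_mod_cast hk
      linarith
    refine ⟨f.one_of_mem_closedBall (ball_subset_closedBall hmem), ?_⟩
    rw [hfd]
    have h1 : f =ᶠ[𝓝 (((k : ℝ) + 1)⁻¹ • x)] 1 := f.eventuallyEq_one_of_mem_ball hmem
    rw [h1.fderiv_eq]
    have : (1 : E n → ℝ) = fun _ => (1 : ℝ) := rfl
    rw [this, fderiv_fun_const]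
    simp
  · intro k x
    change ‖fderiv ℝ (fun x : E n => f (((k : ℝ) + 1)⁻¹ • x)) x‖ ≤ _
    rw [hfd, norm_smul, Real.norm_of_nonneg (hpos k).le]
    by_cases hx : ‖x‖ ≤ 2 * (k + 1)
    · have h1 : ((k : ℝ) + 1)⁻¹ ≤ 3 * (1 + ‖x‖)⁻¹ := by
        rw [inv_le_iff_one_le_mul₀ (by positivity)]
        rw [show 3 * (1 + ‖x‖)⁻¹ * ((k : ℝ) + 1) = (3 * ((k : ℝ) + 1)) / (1 + ‖x‖) by
          field_simp]
        rw [one_le_div (by positivity)]
        have : (0 : ℝ) ≤ k := by positivity
        linarith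
      calc ((k : ℝ) + 1)⁻¹ * ‖fderiv ℝ f (((k : ℝ) + 1)⁻¹ • x)‖ ≤ (3 * (1 + ‖x‖)⁻¹) * M :=
            mul_le_mul h1 (hM _) (norm_nonneg _) (by positivity)
        _ = 3 * M * (1 + ‖x‖)⁻¹ := by ring
    · have h1 : fderiv ℝ f (((k : ℝ) + 1)⁻¹ • x) = 0 := by
        by_contra h2
        have h3 : ((k : ℝ) + 1)⁻¹ • x ∈ tsupport f :=
          support_fderiv_subset ℝ (Function.mem_support.2 h2)
        rw [f.tsupport_eq, mem_closedBall_zero_iff, norm_smul,
          Real.norm_of_nonneg (hpos k).le] at h3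
        change ((k : ℝ) + 1)⁻¹ * ‖x‖ ≤ 2 at h3
        rw [inv_mul_le_iff₀ (by positivity)] at h3
        exact hx (by linarith)
      rw [h1, norm_zero, mul_zero]
      positivity

theorem measurable_gB (p : ℝ) (e : E n) : Measurable (gB p e) := by
  unfold gB
  fun_prop

theorem memLp_J {p m : ℝ} (hp : 1 ≤ p) (hm : (n : ℝ) < m * p) :
    MemLp (fun x : E n => (1 + ‖x‖) ^ (-m)) (ENNReal.ofReal p) volume := by
  have h1 : AEStronglyMeasurable (fun x : E n => (1 + ‖x‖) ^ (-m)) volume := by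
    refine Measurable.aestronglyMeasurable ?_
    fun_prop
  rw [← integrable_norm_rpow_iff h1 (by simpa using (by linarith : 0 < p)) ENNReal.ofReal_ne_top]
  have h2 : Integrable (fun x : E n => (1 + ‖x‖) ^ (-(m * p))) volume :=
    integrable_one_add_norm (by simpa using hm)
  refine h2.congr (Eventually.of_forall fun x => ?_)
  simp only
  rw [ENNReal.toReal_ofReal (by linarith), Real.norm_of_nonneg (by positivity),
    ← Real.rpow_mul (by positivity)]
  congr 1
  ring

end UpperAux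

/-- decay of the minimiser of the halfspace -/
theorem IsMin.decay (hn : 2 ≤ n) {p : ℝ} (hp : (n : ℝ) < p) {e : E n} (he : ‖e‖ = 1)
    {u : E n → ℝ} {g : E n → E n} (h : IsMin p (halfspace e 0) e u g)
    (hu : ∀ x, 0 ≤ u x ∧ u x ≤ 1) :
    ∃ C : ℝ, 0 < C ∧ ∀ x : E n, x ≠ 0 →
      u x ≤ C * ‖x‖ ^ (-(((n : ℝ) - 1) / (p - 1))) := by
  have hn2 : (2 : ℝ) ≤ n := by exact_mod_cast hn
  have hp2 : 2 < p := by linarith
  have hp1 : (1 : ℝ) ≤ p := by linarith
  have hm := UpperAux.mm_pos hn hp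
  obtain ⟨m, hmdef⟩ : ∃ m, m = UpperAux.mm n p := ⟨_, rfl⟩
  rw [← hmdef] at hm
  have hmval : m * (p - 1) = (n : ℝ) + p - 2 := by
    rw [hmdef, UpperAux.mm]
    have : p - 1 ≠ 0 := by linarith
    field_simp
    ring
  obtain ⟨C0, hC0def⟩ : ∃ C0 : ℝ, C0 = 3 ^ m := ⟨_, rfl⟩
  have hC0 : 0 < C0 := by rw [hC0def]; positivity
  -- the function `φ`
  let A : Set (E n) := {x | 0 < u x - C0 * UpperAux.wt p e x}
  let φ : E n → ℝ := fun x => max (u x - C0 * UpperAux.wt p e x) 0
  let gφ : E n → E n := indicator A (fun x => g x - C0 • gradient (UpperAux.wt p e) x)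
  have hWG : WG φ gφ := (((h.mem.isD.wg hp1).sub
    ((WG.of_contDiff (UpperAux.wt_contDiff p e)).const_mul C0)).posPart)
  have hcont : Continuous (fun x => u x - C0 * UpperAux.wt p e x) :=
    h.mem.isD.cont.sub (continuous_const.mul (UpperAux.wt_contDiff p e).continuous)
  have hAo : IsOpen A := isOpen_lt continuous_const hcont
  have hAH : ∀ x ∈ A, x ∈ halfspace e 0 := by
    intro x hx
    by_contra hxH
    have h1 : 0 < u x - C0 * UpperAux.wt p e x := hx
    rw [h.mem.zero x hxH] at h1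
    have := mul_nonneg hC0.le (UpperAux.wt_nonneg p e x)
    linarith
  have hA2 : ∀ x ∈ A, 2 < ‖x‖ := by
    intro x hx
    by_contra hx2
    have h1 : 0 < u x - C0 * UpperAux.wt p e x := hx
    have h2 := UpperAux.wB_lower hn hp he (hAH x hx) (not_lt.1 hx2)
    rw [← hmdef, ← hC0def] at h2
    have := (hu x).2
    linarith
  have hAgrad : ∀ x ∈ A, gradient (UpperAux.wt p e) x = gB p e x := by
    intro x hx
    refine UpperAux.gradient_wt ?_
    rw [UpperAux.inner_add_self he]
    have : 0 < (inner ℝ x e : ℝ) := hAH x hx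
    linarith
  have hxe : ∀ x ∈ A, x + e ≠ 0 := by
    intro x hx h0
    have h1 := UpperAux.norm_le_add (hAH x hx)
    rw [h0, norm_zero] at h1
    have := hA2 x hx
    linarith
  -- bound for `gB` on `A`
  have hgBA : ∀ x ∈ A, ‖gB p e x‖ ≤ 3 ^ m * (1 + ‖x‖) ^ (-m) := by
    intro x hx
    have h1 := norm_gB_le hn hp he (hxe x hx)
    have h2 := UpperAux.norm_le_add (hAH x hx)
    have h3 := hA2 x hx
    have h4 : (1 + ‖x‖) / 3 ≤ ‖x + e‖ := by linarith
    have h5 : ‖x + e‖ ^ (-m) ≤ ((1 + ‖x‖) / 3) ^ (-m) :=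
      Real.rpow_le_rpow_of_nonpos (by positivity) h4 (by linarith)
    have h6 : ((1 + ‖x‖) / 3) ^ (-m) = 3 ^ m * (1 + ‖x‖) ^ (-m) := by
      rw [Real.div_rpow (by positivity) (by norm_num), Real.rpow_neg (x := 3) (by norm_num),
        div_inv_eq_mul, mul_comm]
    rw [← h6]
    refine h1.trans ?_
    rw [hmdef] at h5 ⊢
    exact h5
  let gA : E n → E n := indicator A (gB p e)
  have hgAle : ∀ x, ‖gA x‖ ≤ 3 ^ m * ‖(1 + ‖x‖) ^ (-m)‖ := by
    intro x
    rw [Real.norm_of_nonneg (by positivity)]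
    by_cases hx : x ∈ A
    · simp only [gA, indicator_of_mem hx]
      exact hgBA x hx
    · simp only [gA, indicator_of_notMem hx, norm_zero]
      positivity
  have hJ := UpperAux.memLp_J (n := n) (p := p) (m := m) hp1 (by nlinarith)
  have hgAm : MemLp gA (ENNReal.ofReal p) volume :=
    MemLp.of_le_mul hJ ((UpperAux.measurable_gB p e).indicator
      hAo.measurableSet).aestronglyMeasurable (Eventually.of_forall hgAle)
  have hgφ : ∀ x, gφ x = indicator A g x - C0 • gA x := by
    intro x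
    by_cases hx : x ∈ A
    · simp only [gφ, gA, indicator_of_mem hx, hAgrad x hx]
    · simp only [gφ, gA, indicator_of_notMem hx, smul_zero, sub_zero]
  have hgφm : MemLp gφ (ENNReal.ofReal p) volume := by
    have : gφ = fun x => indicator A g x - C0 • gA x := funext hgφ
    rw [this]
    exact (h.mem.isD.memLp.indicator hAo.measurableSet).sub (hgAm.const_smul C0)
  have hφD : IsD p φ gφ := ⟨hWG.cont, hgφm, hWG.weak⟩
  have hφ0 : ∀ x, 0 ≤ φ x := fun x => le_max_right _ _
  have hφA : ∀ x, x ∉ A → φ x = 0 := by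
    intro x hx
    exact max_eq_right (not_lt.1 hx)
  have hφ1 : ∀ x, φ x ≤ 1 := by
    intro x
    refine max_le ?_ zero_le_one
    have := mul_nonneg hC0.le (UpperAux.wt_nonneg p e x)
    have := (hu x).2
    linarith
  have hφH : ∀ x, x ∉ halfspace e 0 → φ x = 0 := fun x hx => hφA x fun hx' => hx (hAH x hx')
  have hφe : φ e = 0 := by
    refine hφA e fun hx => ?_
    have := hA2 e hx
    rw [he] at this
    norm_num at this
  have heuler := h.euler (by linarith) ⟨hφD, hφH⟩ hφe
  -- the field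
  have hint0 : Integrable (fun x => ‖gB p e x‖ ^ (p - 2) * inner ℝ (gB p e x) (gφ x)) volume := by
    refine (integrable_el (by linarith) hgAm hgφm).congr (Eventually.of_forall fun x => ?_)
    by_cases hx : x ∈ A
    · simp only [gA, indicator_of_mem hx]
    · simp only [gφ, gA, indicator_of_notMem hx, inner_zero_right, mul_zero]
  have hIB : 0 ≤ ∫ x, ‖gB p e x‖ ^ (p - 2) * inner ℝ (gB p e x) (gφ x) := by
    obtain ⟨θ, M, hM, hθs, hθc, hθ01, hθ1, hθM⟩ := UpperAux.exists_cutoff n
    have hweak := fun k => wB_weak hn hp he hWG hφ0 hφH (hθs k) (hθc k) (fun x => (hθ01 k x).1)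
    have hR : Tendsto (fun k => ∫ x, θ k x * (‖gB p e x‖ ^ (p - 2) * inner ℝ (gB p e x) (gφ x)))
        atTop (𝓝 (∫ x, ‖gB p e x‖ ^ (p - 2) * inner ℝ (gB p e x) (gφ x))) := by
      refine tendsto_integral_of_dominated_convergence
        (fun x => ‖‖gB p e x‖ ^ (p - 2) * inner ℝ (gB p e x) (gφ x)‖) ?_ hint0.norm ?_ ?_
      · intro k
        exact (hθs k).continuous.aestronglyMeasurable.mul hint0.aestronglyMeasurable
      · intro k
        refine Eventually.of_forall fun x => ?_
        rw [norm_mul, Real.norm_of_nonneg (hθ01 k x).1]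
        exact mul_le_of_le_one_left (norm_nonneg _) (hθ01 k x).2
      · refine Eventually.of_forall fun x => ?_
        refine tendsto_const_nhds.congr' ?_
        filter_upwards [hθ1 x] with k hk
        rw [hk.1, one_mul]
    have hL : Tendsto (fun k => ∫ x, φ x * (‖gB p e x‖ ^ (p - 2) *
        fderiv ℝ (θ k) x (gB p e x))) atTop (𝓝 (∫ _x : E n, (0 : ℝ))) := by
      refine tendsto_integral_of_dominated_convergence
        (fun x => (3 ^ m) ^ (p - 1) * M * (1 + ‖x‖) ^ (-(m * (p - 1) + 1))) ?_ ?_ ?_ ?_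
      · intro k
        have hg1 : Measurable (fun x => fderiv ℝ (θ k) x (gB p e x)) := by
          have : (fun x => fderiv ℝ (θ k) x (gB p e x)) =
              fun x => inner ℝ (gradient (θ k) x) (gB p e x) := by
            funext x
            rw [BasicsAux.inner_gradient']
          rw [this]
          exact (BasicsAux.cont_gradient (BasicsAux.one_of_smooth (hθs k))).measurable.inner
            (UpperAux.measurable_gB p e)
        exact (hWG.cont.measurable.mul
          (((UpperAux.measurable_gB p e).norm.pow_const _).mul hg1)).aestronglyMeasurable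
      · refine Integrable.const_mul (integrable_one_add_norm ?_) _
        rw [finrank_euclideanSpace_fin, hmval]
        linarith
      · intro k
        refine Eventually.of_forall fun x => ?_
        by_cases hx : x ∈ A
        · have hgne : gB p e x ≠ 0 := gB_ne_zero hn hp he (hxe x hx)
          have hgpos : 0 < ‖gB p e x‖ := norm_pos_iff.2 hgne
          rw [norm_mul, norm_mul, Real.norm_of_nonneg (hφ0 x),
            Real.norm_of_nonneg (by positivity : (0 : ℝ) ≤ ‖gB p e x‖ ^ (p - 2))]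
          calc φ x * (‖gB p e x‖ ^ (p - 2) * ‖fderiv ℝ (θ k) x (gB p e x)‖)
              ≤ 1 * (‖gB p e x‖ ^ (p - 2) * ((M * (1 + ‖x‖)⁻¹) * ‖gB p e x‖)) := by
                refine mul_le_mul (hφ1 x) ?_ (by positivity) zero_le_one
                refine mul_le_mul_of_nonneg_left ?_ (by positivity)
                exact (ContinuousLinearMap.le_opNorm _ _).trans
                  (mul_le_mul_of_nonneg_right (hθM k x) (norm_nonneg _))
            _ = M * (1 + ‖x‖)⁻¹ * ‖gB p e x‖ ^ (p - 1) := by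
                have : p - 1 = (p - 2) + 1 := by ring
                rw [this, Real.rpow_add_one hgpos.ne']
                ring
            _ ≤ M * (1 + ‖x‖)⁻¹ * (3 ^ m * (1 + ‖x‖) ^ (-m)) ^ (p - 1) := by
                refine mul_le_mul_of_nonneg_left ?_ (by positivity)
                exact Real.rpow_le_rpow hgpos.le (hgBA x hx) (by linarith)
            _ = (3 ^ m) ^ (p - 1) * M * (1 + ‖x‖) ^ (-(m * (p - 1) + 1)) := by
                have k1 : ((1 + ‖x‖) ^ (-m)) ^ (p - 1) = (1 + ‖x‖) ^ (-(m * (p - 1))) := by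
                  rw [← Real.rpow_mul (by positivity), neg_mul]
                rw [Real.mul_rpow (by positivity) (by positivity), k1, neg_add,
                  Real.rpow_add (by positivity), Real.rpow_neg_one]
                ring
        · rw [hφA x hx, zero_mul, norm_zero]
          positivity
      · refine Eventually.of_forall fun x => ?_
        refine tendsto_const_nhds.congr' ?_
        filter_upwards [hθ1 x] with k hk
        rw [hk.2]
        simp
    rw [integral_zero] at hL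
    have := le_of_tendsto_of_tendsto' hL.neg hR hweak
    simpa using this
  -- comparison
  have hscale : ∀ x, ‖C0 • gB p e x‖ ^ (p - 2) * inner ℝ (C0 • gB p e x) (gφ x) =
      C0 ^ (p - 2) * C0 * (‖gB p e x‖ ^ (p - 2) * inner ℝ (gB p e x) (gφ x)) := by
    intro x
    rw [norm_smul, Real.norm_of_nonneg hC0.le, Real.mul_rpow hC0.le (norm_nonneg _),
      real_inner_smul_left]
    ring
  have hintg : Integrable (fun x => ‖g x‖ ^ (p - 2) * inner ℝ (g x) (gφ x)) volume :=
    integrable_el (by linarith) h.mem.isD.memLp hgφm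
  have hintB : Integrable (fun x => ‖C0 • gB p e x‖ ^ (p - 2) *
      inner ℝ (C0 • gB p e x) (gφ x)) volume := by
    refine (hint0.const_mul (C0 ^ (p - 2) * C0)).congr (Eventually.of_forall fun x => ?_)
    exact (hscale x).symm
  have hcomp := comparison (by omega) hp hφD (g := fun x => C0 • gB p e x) (h := g)
    (Eventually.of_forall fun x hx => by
      have hxA : x ∈ A := by
        by_contra hxA
        exact hx (indicator_of_notMem hxA _)
      simp only [gφ, indicator_of_mem hxA, hAgrad x hxA])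
    (hintg.sub hintB) (by
      rw [integral_sub hintg hintB, heuler]
      simp only [hscale]
      rw [integral_const_mul]
      have : 0 ≤ C0 ^ (p - 2) * C0 * ∫ x, ‖gB p e x‖ ^ (p - 2) * inner ℝ (gB p e x) (gφ x) :=
        mul_nonneg (by positivity) hIB
      linarith) hφe
  refine ⟨C0, hC0, fun x hx => ?_⟩
  by_cases hxH : x ∈ halfspace e 0
  · have h1 := hcomp x
    have h2 : u x - C0 * UpperAux.wt p e x ≤ 0 := by
      have h3 : u x - C0 * UpperAux.wt p e x ≤ φ x := le_max_left _ _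
      rwa [h1] at h3
    have h3 := UpperAux.wt_upper hn hp he hxH hx
    have h4 := mul_le_mul_of_nonneg_left h3 hC0.le
    linarith
  · rw [h.mem.zero x hxH]
    positivity

end HMor
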