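import Pool.Agent.W_MP_55e37b_an.Defs
import Pool.Agent.W_MP_55e37b_an.Basics
import Pool.Agent.W_MP_55e37b_an.EL
import Pool.Agent.W_MP_55e37b_an.Upper

open MeasureTheory Metric Set Filter Topology
open scoped ENNReal

namespace HMor

variable {n : ℕ}

/-! ### elementary inequalities -/

lemma loss_pow {a L p κ : ℝ} {n : ℕ} (ha : 0 ≤ a) (hL : 0 < L) :
    (a * L ^ (-κ) / L) ^ p * L ^ n = a ^ p * L ^ (-(p - n + p * κ)) := by
  have h1 : a * L ^ (-κ) / L = a * L ^ (-κ - 1) := by
    rw [Real.rpow_sub_one hL.ne']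
    ring
  rw [h1, Real.mul_rpow ha (Real.rpow_nonneg hL.le _), ← Real.rpow_mul hL.le, mul_assoc,
    ← Real.rpow_natCast L n, ← Real.rpow_add hL]
  congr 2
  ring

lemma loss_young {a b p : ℝ} (ha : 0 ≤ a) (hb : 0 ≤ b) (hp : 1 < p) :
    a ^ (p - 1) * b ≤ 1 / 2 * a ^ p + 2 ^ (p - 1) * b ^ p := by
  have hpow : ∀ t : ℝ, 0 ≤ t → t ^ (p - 1) * t = t ^ p := by
    intro t ht
    rw [← Real.rpow_add_one' ht (by linarith)]
    congr 1
    ring
  rcases le_or_gt (2 * b) a with h | h
  · have h1 : a ^ (p - 1) * b ≤ a ^ (p - 1) * (a / 2) :=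
      mul_le_mul_of_nonneg_left (by linarith) (Real.rpow_nonneg ha _)
    have h2 : a ^ (p - 1) * (a / 2) = 1 / 2 * a ^ p := by
      rw [← hpow a ha]; ring
    have h3 : 0 ≤ (2 : ℝ) ^ (p - 1) * b ^ p := by positivity
    linarith
  · have h1 : a ^ (p - 1) ≤ (2 * b) ^ (p - 1) :=
      Real.rpow_le_rpow ha h.le (by linarith)
    have h2 : a ^ (p - 1) * b ≤ (2 * b) ^ (p - 1) * b := mul_le_mul_of_nonneg_right h1 hb
    have h3 : (2 * b) ^ (p - 1) * b = 2 ^ (p - 1) * b ^ p := by
      rw [Real.mul_rpow (by norm_num) hb, mul_assoc, hpow b hb]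
    have h4 : 0 ≤ 1 / 2 * a ^ p := by positivity
    linarith

lemma loss_add_rpow {a b p : ℝ} (ha : 0 ≤ a) (hb : 0 ≤ b) (hp : 0 ≤ p) :
    (a + b) ^ p ≤ 2 ^ p * (a ^ p + b ^ p) := by
  have h1 : (a + b) ≤ 2 * max a b := by
    rcases le_total a b with h | h
    · rw [max_eq_right h]; linarith
    · rw [max_eq_left h]; linarith
  have h2 : (a + b) ^ p ≤ (2 * max a b) ^ p := Real.rpow_le_rpow (by positivity) h1 hp
  rw [Real.mul_rpow (by norm_num) (le_max_of_le_left ha)] at h2
  refine h2.trans (mul_le_mul_of_nonneg_left ?_ (by positivity))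
  rcases le_total a b with h | h
  · rw [max_eq_right h]
    have := Real.rpow_nonneg ha p
    linarith
  · rw [max_eq_left h]
    have := Real.rpow_nonneg hb p
    linarith

/-! ### cut-off functions -/

lemma loss_norm_gradient (f : E n → ℝ) (x : E n) : ‖gradient f x‖ = ‖fderiv ℝ f x‖ := by
  rw [gradient, LinearIsometryEquiv.norm_map]

lemma loss_continuous_gradient {f : E n → ℝ} (hf : ContDiff ℝ ((⊤ : ℕ∞) : WithTop ℕ∞) f) :
    Continuous (gradient f) := by
  have h1 : Continuous (fderiv ℝ f) := hf.continuous_fderiv (by simp)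
  exact (InnerProductSpace.toDual ℝ (E n)).symm.continuous.comp h1

/-- products with cut-off functions -/
lemma loss_mul {p : ℝ} (hp : 1 ≤ p) {u : E n → ℝ} {g : E n → E n} (hu : IsD p u g)
    {η : E n → ℝ} (hη : ContDiff ℝ ((⊤ : ℕ∞) : WithTop ℕ∞) η) (h0 : ∀ x, |η x| ≤ 1)
    (hc : HasCompactSupport (gradient η)) :
    IsD p (fun x => η x * u x) (fun x => η x • g x + u x • gradient η x) := by
  have h1 := (hu.wg hp).mul_smooth hη
  refine ⟨h1.cont, ?_, h1.weak⟩
  refine MemLp.add ?_ ?_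
  · refine hu.memLp.of_le
      (hη.continuous.aestronglyMeasurable.smul hu.memLp.aestronglyMeasurable) ?_
    filter_upwards with x
    rw [norm_smul, Real.norm_eq_abs]
    exact mul_le_of_le_one_left (norm_nonneg _) (h0 x)
  · refine Continuous.memLp_of_hasCompactSupport (hu.cont.smul (loss_continuous_gradient hη)) ?_
    have h2 : HasCompactSupport (u • gradient η) := HasCompactSupport.smul_left hc
    exact h2

/-- the fixed bump -/
noncomputable def lossBump (n : ℕ) : ContDiffBump (0 : E n) :=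
  ⟨1 / 2, 1, by norm_num, by norm_num⟩

/-- the cut-off at scale `L` -/
noncomputable def lossChi (L : ℝ) (x : E n) : ℝ := lossBump n (L⁻¹ • x)

lemma lossChi_contDiff (L : ℝ) : ContDiff ℝ ((⊤ : ℕ∞) : WithTop ℕ∞) (lossChi (n := n) L) :=
  (lossBump n).contDiff.comp (contDiff_const_smul _)

lemma lossChi_nonneg (L : ℝ) (x : E n) : 0 ≤ lossChi L x := (lossBump n).nonneg

lemma lossChi_le_one (L : ℝ) (x : E n) : lossChi L x ≤ 1 := (lossBump n).le_one

lemma lossChi_one {L : ℝ} (hL : 0 < L) {x : E n} (hx : ‖x‖ ≤ L / 2) : lossChi L x = 1 := by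
  apply (lossBump n).one_of_mem_closedBall
  rw [mem_closedBall_zero_iff, norm_smul, Real.norm_eq_abs, abs_of_pos (inv_pos.2 hL)]
  change L⁻¹ * ‖x‖ ≤ 1 / 2
  rw [inv_mul_le_iff₀ hL]
  linarith

lemma lossChi_zero {L : ℝ} (hL : 0 < L) {x : E n} (hx : L ≤ ‖x‖) : lossChi L x = 0 := by
  apply (lossBump n).zero_of_le_dist
  rw [dist_zero_right, norm_smul, Real.norm_eq_abs, abs_of_pos (inv_pos.2 hL)]
  change 1 ≤ L⁻¹ * ‖x‖
  rw [le_inv_mul_iff₀ hL]
  linarith

lemma lossChi_fderiv_inner {L : ℝ} (hL : 0 < L) {x : E n} (hx : ‖x‖ < L / 2) :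
    fderiv ℝ (lossChi (n := n) L) x = 0 := by
  have h1 : lossChi (n := n) L =ᶠ[𝓝 x] fun _ => (1 : ℝ) := by
    have h2 : ∀ᶠ y in 𝓝 x, ‖y‖ < L / 2 :=
      (continuous_norm.tendsto x).eventually (gt_mem_nhds hx)
    filter_upwards [h2] with y hy
    exact lossChi_one hL hy.le
  rw [h1.fderiv_eq]
  simp

lemma lossChi_fderiv_outer {L : ℝ} (hL : 0 < L) {x : E n} (hx : L < ‖x‖) :
    fderiv ℝ (lossChi (n := n) L) x = 0 := by
  have h1 : lossChi (n := n) L =ᶠ[𝓝 x] fun _ => (0 : ℝ) := by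
    have h2 : ∀ᶠ y in 𝓝 x, L < ‖y‖ :=
      (continuous_norm.tendsto x).eventually (lt_mem_nhds hx)
    filter_upwards [h2] with y hy
    exact lossChi_zero hL hy.le
  rw [h1.fderiv_eq]
  simp

lemma lossChi_fderiv_bound (n : ℕ) : ∃ M : ℝ, 0 < M ∧ ∀ L : ℝ, 0 < L → ∀ x : E n,
    ‖fderiv ℝ (lossChi (n := n) L) x‖ ≤ M / L := by
  have h1 : Continuous (fderiv ℝ (lossBump n)) :=
    ((lossBump n).contDiff (n := (1 : ℕ∞))).continuous_fderiv (by simp)
  have h2 : HasCompactSupport (fderiv ℝ (lossBump n)) :=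
    HasCompactSupport.fderiv (𝕜 := ℝ) (lossBump n).hasCompactSupport
  obtain ⟨M, hM⟩ := h1.bounded_above_of_compact_support h2
  refine ⟨|M| + 1, by positivity, fun L hL x => ?_⟩
  have h3 : HasFDerivAt (lossBump n) (fderiv ℝ (lossBump n) (L⁻¹ • x)) (L⁻¹ • x) :=
    (((lossBump n).contDiff (n := (1 : ℕ∞))).differentiable (by simp) _).hasFDerivAt
  have h4 : HasFDerivAt (fun y : E n => L⁻¹ • y) (L⁻¹ • ContinuousLinearMap.id ℝ (E n)) x :=
    (ContinuousLinearMap.id ℝ (E n)).hasFDerivAt.const_smul L⁻¹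
  have h5 := (HasFDerivAt.comp x h3 h4).fderiv
  have h6 : fderiv ℝ (lossChi (n := n) L) x =
      (fderiv ℝ (lossBump n) (L⁻¹ • x)).comp (L⁻¹ • ContinuousLinearMap.id ℝ (E n)) := h5
  rw [h6]
  refine (ContinuousLinearMap.opNorm_comp_le _ _).trans ?_
  have h7 : ‖L⁻¹ • ContinuousLinearMap.id ℝ (E n)‖ ≤ L⁻¹ := by
    rw [norm_smul, Real.norm_eq_abs, abs_of_pos (inv_pos.2 hL)]
    exact mul_le_of_le_one_right (inv_pos.2 hL).le ContinuousLinearMap.norm_id_le
  rw [div_eq_mul_inv]
  refine mul_le_mul ?_ h7 (norm_nonneg _) (by positivity)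
  exact (hM _).trans ((le_abs_self M).trans (by linarith))

lemma lossChi_gradient_compact {L : ℝ} (hL : 0 < L) :
    HasCompactSupport (gradient (lossChi (n := n) L)) := by
  refine HasCompactSupport.intro (isCompact_closedBall (0 : E n) L) fun x hx => ?_
  rw [mem_closedBall_zero_iff, not_le] at hx
  rw [gradient, lossChi_fderiv_outer hL hx, map_zero]

/-- the complementary cut-off -/
noncomputable def lossEta (L : ℝ) (k : ℕ) (x : E n) : ℝ := (1 - lossChi L x) ^ k

lemma lossEta_contDiff (L : ℝ) (k : ℕ) :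
    ContDiff ℝ ((⊤ : ℕ∞) : WithTop ℕ∞) (lossEta (n := n) L k) :=
  (contDiff_const.sub (lossChi_contDiff L)).pow k

lemma lossEta_fderiv (L : ℝ) (k : ℕ) (x : E n) :
    fderiv ℝ (lossEta (n := n) L k) x =
      -((k * (1 - lossChi L x) ^ (k - 1)) • fderiv ℝ (lossChi (n := n) L) x) := by
  have h1 : HasFDerivAt (lossChi (n := n) L) (fderiv ℝ (lossChi (n := n) L) x) x :=
    ((lossChi_contDiff L).differentiable (by simp) x).hasFDerivAt
  have h2 : HasFDerivAt (fun y => 1 - lossChi (n := n) L y)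
      (-fderiv ℝ (lossChi (n := n) L) x) x := h1.const_sub 1
  have h3 := (h2.pow k).fderiv
  have h4 : fderiv ℝ (lossEta (n := n) L k) x = _ := h3
  rw [h4]
  ext v
  simp [mul_assoc]

lemma lossEta_nonneg (L : ℝ) (k : ℕ) (x : E n) : 0 ≤ lossEta L k x :=
  pow_nonneg (sub_nonneg.2 (lossChi_le_one L x)) k

lemma lossEta_le_one (L : ℝ) (k : ℕ) (x : E n) : lossEta L k x ≤ 1 :=
  pow_le_one₀ (sub_nonneg.2 (lossChi_le_one L x)) (by linarith [lossChi_nonneg L x])

lemma lossEta_outer {L : ℝ} (hL : 0 < L) (k : ℕ) {x : E n} (hx : L ≤ ‖x‖) :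
    lossEta L k x = 1 := by
  rw [lossEta, lossChi_zero hL hx]
  simp

lemma lossEta_inner {L : ℝ} (hL : 0 < L) {k : ℕ} (hk : k ≠ 0) {x : E n} (hx : ‖x‖ ≤ L / 2) :
    lossEta L k x = 0 := by
  rw [lossEta, lossChi_one hL hx]
  simp [hk]

lemma lossEta_gradient_compact {L : ℝ} (hL : 0 < L) (k : ℕ) :
    HasCompactSupport (gradient (lossEta (n := n) L k)) := by
  refine HasCompactSupport.intro (isCompact_closedBall (0 : E n) L) fun x hx => ?_
  rw [mem_closedBall_zero_iff, not_le] at hx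
  rw [gradient, lossEta_fderiv, lossChi_fderiv_outer hL hx]
  simp

/-- the Euler-Lagrange integrand -/
lemma loss_inner {p : ℝ} (hp : 1 < p) (g z : E n) (ζ : ℝ) {u : ℝ} (hu : 0 ≤ u) :
    ζ * ‖g‖ ^ p - ‖g‖ ^ (p - 1) * (u * ‖z‖) ≤ ‖g‖ ^ (p - 2) * inner ℝ g (ζ • g + u • z) := by
  have h1 : ‖g‖ ^ (p - 2) * ‖g‖ = ‖g‖ ^ (p - 1) := by
    rw [← Real.rpow_add_one' (norm_nonneg _) (by linarith)]
    congr 1
    ring
  have h2 : ‖g‖ ^ (p - 1) * ‖g‖ = ‖g‖ ^ p := by
    rw [← Real.rpow_add_one' (norm_nonneg _) (by linarith)]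
    congr 1
    ring
  have h3 : inner ℝ g (ζ • g + u • z) = ζ * ‖g‖ ^ 2 + u * inner ℝ g z := by
    rw [inner_add_right, real_inner_smul_right, real_inner_smul_right,
      real_inner_self_eq_norm_sq]
  have h4 : -(‖g‖ * ‖z‖) ≤ inner ℝ g z := (abs_le.1 (abs_real_inner_le_norm g z)).1
  have h5 : u * (-(‖g‖ * ‖z‖)) ≤ u * inner ℝ g z := mul_le_mul_of_nonneg_left h4 hu
  have h6 : 0 ≤ ‖g‖ ^ (p - 2) := Real.rpow_nonneg (norm_nonneg _) _
  rw [h3]
  calc ζ * ‖g‖ ^ p - ‖g‖ ^ (p - 1) * (u * ‖z‖)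
      = ‖g‖ ^ (p - 2) * (ζ * ‖g‖ ^ 2 + u * (-(‖g‖ * ‖z‖))) := by
        rw [← h2, ← h1]; ring
    _ ≤ ‖g‖ ^ (p - 2) * (ζ * ‖g‖ ^ 2 + u * inner ℝ g z) :=
        mul_le_mul_of_nonneg_left (by linarith) h6

/-- Caccioppoli's inequality -/
lemma loss_cacc (hn : 2 ≤ n) {p : ℝ} (hp : (n : ℝ) < p) {e : E n} (he : ‖e‖ = 1)
    {u : E n → ℝ} {g : E n → E n} (h : IsMin p (halfspace e 0) e u g)
    (hu : ∀ x, 0 ≤ u x ∧ u x ≤ 1) {k : ℕ} (hk : p ≤ k) {M : ℝ} (hM : 0 < M)
    (hM' : ∀ L : ℝ, 0 < L → ∀ x : E n, ‖fderiv ℝ (lossChi (n := n) L) x‖ ≤ M / L)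
    {R D : ℝ} (hR : 4 ≤ R) (hD : 0 ≤ D) (hDu : ∀ x : E n, R / 2 ≤ ‖x‖ → u x ≤ D) :
    ∫ x, lossEta R k x * ‖g x‖ ^ p ≤
      2 ^ p * (k * (M / R) * D) ^ p * (volume (closedBall (0 : E n) R)).toReal := by
  have hR0 : 0 < R := by linarith
  have hn2 : (2 : ℝ) ≤ n := by exact_mod_cast hn
  have hp1 : 1 < p := by linarith
  have hp0 : 0 < p := by linarith
  have hk0 : (0 : ℝ) < k := by linarith
  have hk0' : k ≠ 0 := by
    rintro rfl
    simp at hk0
  have hk1 : 1 ≤ k := Nat.one_le_iff_ne_zero.2 hk0'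
  have hφ : IsD0 p (halfspace e 0) (fun x => lossEta R k x * u x)
      (fun x => lossEta R k x • g x + u x • gradient (lossEta (n := n) R k) x) := by
    refine ⟨loss_mul hp1.le h.mem.isD (lossEta_contDiff R k) (fun x => ?_)
      (lossEta_gradient_compact hR0 k), fun x hx => ?_⟩
    · rw [abs_of_nonneg (lossEta_nonneg R k x)]
      exact lossEta_le_one R k x
    · rw [h.mem.zero x hx, mul_zero]
  have hφe : lossEta R k e * u e = 0 := by
    rw [lossEta_inner hR0 hk0' (by rw [he]; linarith), zero_mul]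
  have hE := h.euler hp1 hφ hφe
  have hint := integrable_el hp1 h.mem.isD.memLp hφ.isD.memLp
  set c : ℝ := 2 ^ (p - 1) * (k * (M / R) * D) ^ p with hc
  have hc0 : 0 ≤ c := by positivity
  have hpt : ∀ x, 1 / 2 * (lossEta R k x * ‖g x‖ ^ p) -
      indicator (closedBall (0 : E n) R) (fun _ => c) x ≤
      ‖g x‖ ^ (p - 2) * inner ℝ (g x)
        (lossEta R k x • g x + u x • gradient (lossEta (n := n) R k) x) := by
    intro x
    refine le_trans ?_ (loss_inner hp1 (g x) (gradient (lossEta (n := n) R k) x)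
      (lossEta R k x) (hu x).1)
    set t := 1 - lossChi R x with ht
    have ht0 : 0 ≤ t := sub_nonneg.2 (lossChi_le_one R x)
    have ht1 : t ≤ 1 := by rw [ht]; linarith [lossChi_nonneg R x]
    have hζ : lossEta R k x = t ^ k := rfl
    have hi0 : 0 ≤ indicator (closedBall (0 : E n) R) (fun _ => c) x :=
      indicator_nonneg (fun _ _ => hc0) x
    have hgp : 0 ≤ ‖g x‖ ^ p := Real.rpow_nonneg (norm_nonneg _) _
    have hgr : ‖gradient (lossEta (n := n) R k) x‖ =
        k * t ^ (k - 1) * ‖fderiv ℝ (lossChi (n := n) R) x‖ := by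
      rw [loss_norm_gradient, lossEta_fderiv, norm_neg, norm_smul, Real.norm_eq_abs,
        abs_of_nonneg (by positivity)]
    have hζ0 : 0 ≤ t ^ k * ‖g x‖ ^ p := by positivity
    by_cases hx : fderiv ℝ (lossChi (n := n) R) x = 0
    · rw [hgr, hx, norm_zero, hζ]
      simp only [mul_zero, sub_zero]
      linarith
    · have hx1 : R / 2 ≤ ‖x‖ := by
        by_contra hcon
        exact hx (lossChi_fderiv_inner hR0 (not_le.1 hcon))
      have hx2 : ‖x‖ ≤ R := by
        by_contra hcon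
        exact hx (lossChi_fderiv_outer hR0 (not_le.1 hcon))
      rw [indicator_of_mem (mem_closedBall_zero_iff.2 hx2), hgr, hζ]
      have h1 : u x * (k * t ^ (k - 1) * ‖fderiv ℝ (lossChi (n := n) R) x‖) ≤
          t ^ (k - 1) * (k * (M / R) * D) := by
        have h2 : u x * ‖fderiv ℝ (lossChi (n := n) R) x‖ ≤ D * (M / R) :=
          mul_le_mul (hDu x hx1) (hM' R hR0 x) (norm_nonneg _) hD
        have h3 : (0 : ℝ) ≤ k * t ^ (k - 1) := by positivity
        calc u x * (k * t ^ (k - 1) * ‖fderiv ℝ (lossChi (n := n) R) x‖)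
            = k * t ^ (k - 1) * (u x * ‖fderiv ℝ (lossChi (n := n) R) x‖) := by ring
          _ ≤ k * t ^ (k - 1) * (D * (M / R)) := mul_le_mul_of_nonneg_left h2 h3
          _ = t ^ (k - 1) * (k * (M / R) * D) := by ring
      have h4 : ‖g x‖ ^ (p - 1) * (t ^ (k - 1) * (k * (M / R) * D)) ≤
          (t ^ ((k : ℝ) / p) * ‖g x‖) ^ (p - 1) * (k * (M / R) * D) := by
        rw [Real.mul_rpow (Real.rpow_nonneg ht0 _) (norm_nonneg _), ← Real.rpow_mul ht0]
        have h5 : t ^ (k - 1) ≤ t ^ ((k : ℝ) / p * (p - 1)) := by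
          rw [← Real.rpow_natCast t (k - 1)]
          refine Real.rpow_le_rpow_of_exponent_ge' ht0 ht1 ?_ ?_
          · have : 0 ≤ p - 1 := by linarith
            positivity
          · rw [Nat.cast_sub hk1]
            have h6 : 1 ≤ (k : ℝ) / p := (one_le_div hp0).2 hk
            have h7 : (k : ℝ) / p * (p - 1) = k - k / p := by field_simp
            rw [h7]
            push_cast
            linarith
        have h8 : 0 ≤ ‖g x‖ ^ (p - 1) := Real.rpow_nonneg (norm_nonneg _) _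
        have h9 : 0 ≤ (k * (M / R) * D) := by positivity
        calc ‖g x‖ ^ (p - 1) * (t ^ (k - 1) * (k * (M / R) * D))
            = t ^ (k - 1) * (‖g x‖ ^ (p - 1) * (k * (M / R) * D)) := by ring
          _ ≤ t ^ ((k : ℝ) / p * (p - 1)) * (‖g x‖ ^ (p - 1) * (k * (M / R) * D)) :=
            mul_le_mul_of_nonneg_right h5 (by positivity)
          _ = _ := by ring
      have h10 := loss_young (a := t ^ ((k : ℝ) / p) * ‖g x‖) (b := k * (M / R) * D) (p := p)
        (by positivity) (by positivity) hp1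
      have h11 : (t ^ ((k : ℝ) / p) * ‖g x‖) ^ p = t ^ k * ‖g x‖ ^ p := by
        rw [Real.mul_rpow (Real.rpow_nonneg ht0 _) (norm_nonneg _), ← Real.rpow_mul ht0,
          div_mul_cancel₀ _ hp0.ne', Real.rpow_natCast]
      rw [h11, ← hc] at h10
      have h12 : ‖g x‖ ^ (p - 1) * (u x * (k * t ^ (k - 1) *
          ‖fderiv ℝ (lossChi (n := n) R) x‖)) ≤
          ‖g x‖ ^ (p - 1) * (t ^ (k - 1) * (k * (M / R) * D)) :=
        mul_le_mul_of_nonneg_left h1 (Real.rpow_nonneg (norm_nonneg _) _)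
      linarith
  -- integrability
  have hI1 : Integrable (fun x => lossEta R k x * ‖g x‖ ^ p) volume := by
    refine (h.mem.isD.integrable_rpow hp0).mono'
      (((lossEta_contDiff R k).continuous.aestronglyMeasurable).mul
        (h.mem.isD.integrable_rpow hp0).aestronglyMeasurable) ?_
    filter_upwards with x
    rw [Real.norm_eq_abs, abs_of_nonneg (mul_nonneg (lossEta_nonneg R k x)
      (Real.rpow_nonneg (norm_nonneg _) _))]
    exact mul_le_of_le_one_left (Real.rpow_nonneg (norm_nonneg _) _) (lossEta_le_one R k x)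
  have hI2 : Integrable (indicator (closedBall (0 : E n) R) (fun _ => c)) volume := by
    rw [integrable_indicator_iff measurableSet_closedBall]
    exact integrableOn_const (isCompact_closedBall _ _).measure_lt_top.ne
  have hle := integral_mono ((hI1.const_mul (1 / 2)).sub hI2) hint hpt
  rw [hE] at hle
  simp only [Pi.sub_apply] at hle
  rw [integral_sub (hI1.const_mul (1 / 2)) hI2, integral_const_mul,
    integral_indicator measurableSet_closedBall, setIntegral_const, smul_eq_mul] at hle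
  have h2p : (2 : ℝ) ^ p = 2 * 2 ^ (p - 1) := by
    rw [Real.rpow_sub_one (by norm_num)]
    ring
  rw [h2p]
  have h3 : volume.real (closedBall (0 : E n) R) = (volume (closedBall (0 : E n) R)).toReal := rfl
  rw [h3] at hle
  rw [hc] at hle
  linarith

/-- cutting off the minimiser of the halfspace -/
theorem IsMin.cutoff (hn : 2 ≤ n) {p : ℝ} (hp : (n : ℝ) < p) {e : E n} (he : ‖e‖ = 1)
    {u : E n → ℝ} {g : E n → E n} (h : IsMin p (halfspace e 0) e u g)
    (hu : ∀ x, 0 ≤ u x ∧ u x ≤ 1) :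
    ∃ C : ℝ, 0 < C ∧ ∀ L : ℝ, 8 ≤ L → ∃ (v : E n → ℝ) (gv : E n → E n),
      IsD0 p (halfspace e 0 ∩ ball 0 L) v gv ∧ v e = 1 ∧
      energy p gv ≤ energy p g + C * L ^ (-(p - n + p * (((n : ℝ) - 1) / (p - 1)))) := by
  obtain ⟨C1, hC1, hdec⟩ := h.decay hn hp he hu
  obtain ⟨M, hM, hM'⟩ := lossChi_fderiv_bound n
  obtain ⟨k, hk⟩ := exists_nat_ge p
  have hn2 : (2 : ℝ) ≤ n := by exact_mod_cast hn
  have hp1 : 1 < p := by linarith
  have hp0 : 0 < p := by linarith
  set κ : ℝ := ((n : ℝ) - 1) / (p - 1) with hκ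
  have hκ0 : 0 < κ := div_pos (by linarith) (by linarith)
  set a0 : ℝ := C1 * 4 ^ κ with ha0
  have ha0' : 0 < a0 := by positivity
  set ω : ℝ := (volume (ball (0 : E n) 1)).toReal with hω
  have hω0 : 0 ≤ ω := ENNReal.toReal_nonneg
  refine ⟨2 ^ p * (2 ^ p * (2 * k * M * a0) ^ p * ω + (M * a0) ^ p * ω) + 1, by positivity,
    fun L hL => ?_⟩
  have hL0 : 0 < L := by linarith
  set D : ℝ := a0 * L ^ (-κ) with hD
  have hD0 : 0 ≤ D := by positivity
  have hDu : ∀ x : E n, L / 4 ≤ ‖x‖ → u x ≤ D := by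
    intro x hx
    have hx0 : x ≠ 0 := by
      rintro rfl
      rw [norm_zero] at hx
      linarith
    refine (hdec x hx0).trans ?_
    have h1 : ‖x‖ ^ (-κ) ≤ (L / 4) ^ (-κ) :=
      Real.rpow_le_rpow_of_nonpos (by linarith) hx (by linarith)
    have h2 : (L / 4) ^ (-κ) = 4 ^ κ * L ^ (-κ) := by
      rw [Real.div_rpow hL0.le (by norm_num), Real.rpow_neg (by norm_num : (0 : ℝ) ≤ 4), div_inv_eq_mul]
      ring
    rw [hD, ha0, mul_assoc, ← h2]
    exact mul_le_mul_of_nonneg_left h1 hC1.le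
  have hv : IsD p (fun x => lossChi L x * u x)
      (fun x => lossChi L x • g x + u x • gradient (lossChi (n := n) L) x) :=
    loss_mul hp1.le h.mem.isD (lossChi_contDiff L) (fun x => by
      rw [abs_of_nonneg (lossChi_nonneg L x)]; exact lossChi_le_one L x)
      (lossChi_gradient_compact hL0)
  refine ⟨fun x => lossChi L x * u x,
    fun x => lossChi L x • g x + u x • gradient (lossChi (n := n) L) x, ⟨hv, ?_⟩, ?_, ?_⟩
  · intro x hx
    by_cases hxL : L ≤ ‖x‖
    · rw [lossChi_zero hL0 hxL, zero_mul]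
    · have : x ∉ halfspace e 0 := fun hx' => hx ⟨hx', by
        rw [mem_ball_zero_iff]; exact not_le.1 hxL⟩
      rw [h.mem.zero x this, mul_zero]
  · change lossChi L e * u e = 1
    rw [lossChi_one hL0 (by rw [he]; linarith), h.one, one_mul]
  · have hcacc := loss_cacc hn hp he h hu hk hM hM' (R := L / 2) (D := D) (by linarith) hD0
      (fun x hx => hDu x (by linarith))
    set c2 : ℝ := (D * (M / L)) ^ p with hc2
    have hc20 : 0 ≤ c2 := by positivity
    have hpt : ∀ x, ‖lossChi L x • g x + u x • gradient (lossChi (n := n) L) x‖ ^ p ≤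
        ‖g x‖ ^ p + 2 ^ p * (lossEta (L / 2) k x * ‖g x‖ ^ p +
          indicator (closedBall (0 : E n) L) (fun _ => c2) x) := by
      intro x
      have hi0 : 0 ≤ indicator (closedBall (0 : E n) L) (fun _ => c2) x :=
        indicator_nonneg (fun _ _ => hc20) x
      have hgp : 0 ≤ ‖g x‖ ^ p := Real.rpow_nonneg (norm_nonneg _) _
      have hη0 : 0 ≤ lossEta (L / 2) k x * ‖g x‖ ^ p := mul_nonneg (lossEta_nonneg _ _ _) hgp
      have h2p : (0 : ℝ) < 2 ^ p := by positivity
      rcases lt_or_ge ‖x‖ (L / 2) with hx | hx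
      · rw [lossChi_one hL0 hx.le, gradient, lossChi_fderiv_inner hL0 hx, map_zero, smul_zero,
          add_zero, one_smul]
        have : 0 ≤ 2 ^ p * (lossEta (L / 2) k x * ‖g x‖ ^ p +
          indicator (closedBall (0 : E n) L) (fun _ => c2) x) := by positivity
        linarith
      · rw [lossEta_outer (by linarith) k hx, one_mul]
        rcases le_or_gt ‖x‖ L with hx2 | hx2
        · rw [indicator_of_mem (mem_closedBall_zero_iff.2 hx2)]
          have h1 : ‖lossChi L x • g x + u x • gradient (lossChi (n := n) L) x‖ ≤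
              ‖g x‖ + D * (M / L) := by
            refine (norm_add_le _ _).trans (add_le_add ?_ ?_)
            · rw [norm_smul, Real.norm_eq_abs, abs_of_nonneg (lossChi_nonneg L x)]
              exact mul_le_of_le_one_left (norm_nonneg _) (lossChi_le_one L x)
            · rw [norm_smul, Real.norm_eq_abs, abs_of_nonneg (hu x).1, loss_norm_gradient]
              exact mul_le_mul (hDu x (by linarith)) (hM' L hL0 x) (norm_nonneg _) hD0
          have h2 := Real.rpow_le_rpow (norm_nonneg _) h1 hp0.le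
          have h3 := loss_add_rpow (norm_nonneg (g x)) (show 0 ≤ D * (M / L) by positivity)
            hp0.le
          linarith
        · rw [lossChi_zero hL0 hx2.le, gradient, lossChi_fderiv_outer hL0 hx2, map_zero,
            smul_zero, add_zero, zero_smul, norm_zero, Real.zero_rpow hp0.ne']
          positivity
    have hI1 : Integrable (fun x => lossEta (L / 2) k x * ‖g x‖ ^ p) volume := by
      refine (h.mem.isD.integrable_rpow hp0).mono'
        (((lossEta_contDiff (L / 2) k).continuous.aestronglyMeasurable).mul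
          (h.mem.isD.integrable_rpow hp0).aestronglyMeasurable) ?_
      filter_upwards with x
      rw [Real.norm_eq_abs, abs_of_nonneg (mul_nonneg (lossEta_nonneg _ k x)
        (Real.rpow_nonneg (norm_nonneg _) _))]
      exact mul_le_of_le_one_left (Real.rpow_nonneg (norm_nonneg _) _) (lossEta_le_one _ k x)
    have hI2 : Integrable (indicator (closedBall (0 : E n) L) (fun _ => c2)) volume := by
      rw [integrable_indicator_iff measurableSet_closedBall]
      exact integrableOn_const (isCompact_closedBall _ _).measure_lt_top.ne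
    have hI0 := h.mem.isD.integrable_rpow hp0
    have hle := integral_mono (hv.integrable_rpow hp0) (hI0.add ((hI1.add hI2).const_mul (2 ^ p)))
      hpt
    simp only [Pi.add_apply] at hle
    have hI3 : Integrable (fun x => lossEta (L / 2) k x * ‖g x‖ ^ p +
        indicator (closedBall (0 : E n) L) (fun _ => c2) x) volume := hI1.add hI2
    rw [integral_add hI0 (hI3.const_mul (2 ^ p)), integral_const_mul,
      integral_add hI1 hI2, integral_indicator measurableSet_closedBall, setIntegral_const,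
      smul_eq_mul] at hle
    have hvolL : (volume (closedBall (0 : E n) L)).toReal = L ^ n * ω := by
      rw [Measure.addHaar_closedBall _ _ hL0.le, ENNReal.toReal_mul,
        ENNReal.toReal_ofReal (by positivity), finrank_euclideanSpace_fin]
    have hvolL2 : (volume (closedBall (0 : E n) (L / 2))).toReal ≤ L ^ n * ω := by
      rw [← hvolL]
      refine ENNReal.toReal_mono (isCompact_closedBall _ _).measure_lt_top.ne ?_
      exact measure_mono (closedBall_subset_closedBall (by linarith))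
    have h3 : volume.real (closedBall (0 : E n) L) = L ^ n * ω := hvolL
    rw [h3] at hle
    have h4 : (k * (M / (L / 2)) * D) ^ p * (L ^ n * ω) =
        (2 * k * M * a0) ^ p * ω * L ^ (-(p - n + p * κ)) := by
      have h5 := loss_pow (a := 2 * k * M * a0) (L := L) (p := p) (κ := κ) (n := n)
        (by positivity) hL0
      have h6 : k * (M / (L / 2)) * D = 2 * k * M * a0 * L ^ (-κ) / L := by
        rw [hD]; field_simp
      rw [h6, ← mul_assoc, h5]
      ring
    have h7 : c2 * (L ^ n * ω) = (M * a0) ^ p * ω * L ^ (-(p - n + p * κ)) := by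
      have h5 := loss_pow (a := M * a0) (L := L) (p := p) (κ := κ) (n := n)
        (by positivity) hL0
      have h6 : D * (M / L) = M * a0 * L ^ (-κ) / L := by
        rw [hD]; field_simp
      rw [hc2, h6, ← mul_assoc, h5]
      ring
    have h8 : 2 ^ p * (k * (M / (L / 2)) * D) ^ p * (volume (closedBall (0 : E n) (L / 2))).toReal
        ≤ 2 ^ p * ((2 * k * M * a0) ^ p * ω * L ^ (-(p - n + p * κ))) := by
      rw [← h4]
      calc 2 ^ p * (k * (M / (L / 2)) * D) ^ p * (volume (closedBall (0 : E n) (L / 2))).toReal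
          ≤ 2 ^ p * (k * (M / (L / 2)) * D) ^ p * (L ^ n * ω) :=
            mul_le_mul_of_nonneg_left hvolL2 (by positivity)
        _ = _ := by ring
    have h9 : 0 ≤ L ^ (-(p - n + p * κ)) := by positivity
    have h10 : (0 : ℝ) < 2 ^ p := by positivity
    have h11 : energy p (fun x => lossChi L x • g x + u x • gradient (lossChi (n := n) L) x) =
        ∫ x, ‖lossChi L x • g x + u x • gradient (lossChi (n := n) L) x‖ ^ p := rfl
    have h12 : energy p g = ∫ x, ‖g x‖ ^ p := rfl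
    rw [h11, h12]
    have h13 : 2 ^ p * ((∫ x, lossEta (L / 2) k x * ‖g x‖ ^ p) + L ^ n * ω * c2) ≤
        2 ^ p * (2 ^ p * ((2 * k * M * a0) ^ p * ω * L ^ (-(p - n + p * κ))) +
          (M * a0) ^ p * ω * L ^ (-(p - n + p * κ))) := by
      refine mul_le_mul_of_nonneg_left ?_ h10.le
      rw [mul_comm (L ^ n * ω) c2, h7]
      linarith
    have h14 : (2 ^ p * (2 ^ p * (2 * k * M * a0) ^ p * ω + (M * a0) ^ p * ω) + 1) *
        L ^ (-(p - n + p * κ)) = 2 ^ p * (2 ^ p * ((2 * k * M * a0) ^ p * ω *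
          L ^ (-(p - n + p * κ))) + (M * a0) ^ p * ω * L ^ (-(p - n + p * κ))) +
          L ^ (-(p - n + p * κ)) := by ring
    rw [h14]
    linarith

end HMor
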