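import Pool.Agent.W_MP_55e37b_an.Defs
import Pool.Agent.W_MP_55e37b_an.Basics
import Pool.Agent.W_MP_55e37b_an.PosPart
import Pool.Agent.W_MP_55e37b_an.Morrey
import Pool.Agent.W_MP_55e37b_an.Ineq
import Pool.Agent.W_MP_55e37b_an.EL
import Pool.Agent.W_MP_55e37b_an.Comp

open MeasureTheory Metric Set Filter Topology
open scoped ENNReal

namespace HMor

variable {n : ℕ}

/-- derivative of a power of the distance -/
private theorem hasFDerivAt_dist_rpow {ζ x : E n} (hx : x ≠ ζ) (γ : ℝ) :
    HasFDerivAt (fun y : E n => dist y ζ ^ γ) ((γ * dist x ζ ^ (γ - 2)) • innerSL ℝ (x - ζ)) x := by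
  have h0 : 0 < ‖x - ζ‖ := norm_pos_iff.2 (sub_ne_zero.2 hx)
  have h1 : HasFDerivAt (fun y : E n => ‖y - ζ‖ ^ 2) (2 • innerSL ℝ (x - ζ)) x := by
    have h3 := (hasStrictFDerivAt_norm_sq (x - ζ)).hasFDerivAt
    have h4 : HasFDerivAt (fun y : E n => y - ζ) (ContinuousLinearMap.id ℝ (E n)) x :=
      (hasFDerivAt_id x).sub_const ζ
    have h5 := h3.comp x h4
    refine HasFDerivAt.congr_fderiv h5 ?_
    ext v
    simp
  have h2 := h1.rpow_const (p := γ / 2) (Or.inl (by positivity))
  have e1 : (fun y : E n => dist y ζ ^ γ) = fun y => (‖y - ζ‖ ^ 2) ^ (γ / 2) := by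
    funext y
    rw [dist_eq_norm, ← Real.rpow_natCast, ← Real.rpow_mul (norm_nonneg _)]
    congr 1
    push_cast
    ring
  rw [e1]
  refine h2.congr_fderiv ?_
  rw [dist_eq_norm]
  ext v
  simp only [_root_.smul_apply, innerSL_apply_apply, smul_eq_mul, nsmul_eq_mul]
  have e2 : (‖x - ζ‖ ^ 2) ^ (γ / 2 - 1) = ‖x - ζ‖ ^ (γ - 2) := by
    rw [← Real.rpow_natCast, ← Real.rpow_mul (norm_nonneg _)]
    congr 1
    push_cast
    ring
  rw [e2]
  push_cast
  ring

private theorem contDiffAt_dist_rpow {ζ x : E n} (hx : x ≠ ζ) (γ : ℝ)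
    {k : WithTop ℕ∞} : ContDiffAt ℝ k (fun y : E n => dist y ζ ^ γ) x := by
  have h0 : 0 < ‖x - ζ‖ := norm_pos_iff.2 (sub_ne_zero.2 hx)
  have h1 : ContDiffAt ℝ k (fun y : E n => ‖y - ζ‖) x :=
    (contDiffAt_id.sub contDiffAt_const).norm ℝ (sub_ne_zero.2 hx)
  have h2 := h1.rpow_const_of_ne (p := γ) h0.ne'
  simpa only [dist_eq_norm] using h2

/-- a cut-off power of the distance is smooth -/
private theorem contDiff_cut {ζ : E n} (χ : ContDiffBump ζ) (γ : ℝ) :
    ContDiff ℝ ((⊤ : ℕ∞) : WithTop ℕ∞) (fun y : E n => (1 - χ y) * dist y ζ ^ γ) := by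
  rw [contDiff_iff_contDiffAt]
  intro x
  by_cases hx : x = ζ
  · subst hx
    have : (fun y : E n => (1 - χ y) * dist y x ^ γ) =ᶠ[𝓝 x] fun _ => 0 := by
      filter_upwards [χ.eventuallyEq_one] with y hy
      simp [hy]
    exact contDiffAt_const.congr_of_eventuallyEq this
  · exact (contDiffAt_const.sub χ.contDiff.contDiffAt).mul (contDiffAt_dist_rpow hx γ)

theorem IsMin.lower_barrier (hn : 1 ≤ n) {p : ℝ} (hp : (n : ℝ) < p) {Ω : Set (E n)}
    {a : E n} {u : E n → ℝ} {g : E n → E n} (h : IsMin p Ω a u g) (hu : ∀ x, 0 ≤ u x)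
    {ζ : E n} {s R m : ℝ} (hs : 0 < s) (hsR : s < R) (hm : 0 < m) (hm1 : m ≤ 1)
    (hball : ball ζ R ⊆ Ω) (hum : ∀ x ∈ closedBall ζ s, m ≤ u x) (x : E n)
    (hx1 : s ≤ dist x ζ) (hx2 : dist x ζ ≤ R) :
    m * ((R ^ ((p - n) / (p - 1)) - (dist x ζ) ^ ((p - n) / (p - 1))) /
      (R ^ ((p - n) / (p - 1)) - s ^ ((p - n) / (p - 1)))) ≤ u x := by
  have hn' : (1 : ℝ) ≤ n := by exact_mod_cast hn
  have hp1 : 1 < p := lt_of_le_of_lt hn' hp
  set β : ℝ := (p - n) / (p - 1) with hβ
  have hβ0 : 0 < β := div_pos (by linarith) (by linarith)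
  have hR : 0 < R := hs.trans hsR
  have hD : 0 < R ^ β - s ^ β := sub_pos.2 (Real.rpow_lt_rpow hs.le hsR hβ0)
  set D : ℝ := R ^ β - s ^ β with hDdef
  let χ : ContDiffBump ζ := ⟨s / 3, s / 2, by positivity, by linarith⟩
  let χ3 : ContDiffBump ζ := ⟨R, R + 1, hR, by linarith⟩
  -- the barrier
  set B : E n → ℝ := fun y => m / D * (R ^ β - (1 - χ y) * dist y ζ ^ β) with hB
  have hBs : ContDiff ℝ ((⊤ : ℕ∞) : WithTop ℕ∞) B :=
    contDiff_const.mul (contDiff_const.sub (contDiff_cut χ β))
  have hB1 : ContDiff ℝ 1 B := hBs.of_le (by exact_mod_cast le_top)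
  have hmD : 0 < m / D := div_pos hm hD
  have hχ01 : ∀ y, 0 ≤ 1 - χ y ∧ 1 - χ y ≤ 1 := fun y =>
    ⟨by linarith [χ.le_one (x := y)], by linarith [χ.nonneg (x := y)]⟩
  have hχ0 : ∀ y, s ≤ dist y ζ → χ y = 0 := fun y hy =>
    χ.zero_of_le_dist (by show s / 2 ≤ _; linarith)
  have hBin : ∀ y, dist y ζ ≤ s → m ≤ B y := by
    intro y hy
    have h1 : (1 - χ y) * dist y ζ ^ β ≤ s ^ β := by
      calc (1 - χ y) * dist y ζ ^ β ≤ 1 * s ^ β := by
            apply mul_le_mul (hχ01 y).2 (Real.rpow_le_rpow dist_nonneg hy hβ0.le)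
              (Real.rpow_nonneg dist_nonneg _) zero_le_one
        _ = s ^ β := one_mul _
    calc m = m / D * D := by field_simp
      _ ≤ B y := by
        rw [hB]
        apply mul_le_mul_of_nonneg_left _ hmD.le
        rw [hDdef]; linarith
  have hBann : ∀ y, s ≤ dist y ζ → B y = m / D * (R ^ β - dist y ζ ^ β) := by
    intro y hy
    simp only [hB, hχ0 y hy, sub_zero, one_mul]
  have hBle : ∀ y, s ≤ dist y ζ → B y ≤ m := by
    intro y hy
    rw [hBann y hy]
    have h1 : s ^ β ≤ dist y ζ ^ β := Real.rpow_le_rpow hs.le hy hβ0.le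
    calc m / D * (R ^ β - dist y ζ ^ β) ≤ m / D * D := by
          apply mul_le_mul_of_nonneg_left _ hmD.le
          rw [hDdef]; linarith
      _ = m := by field_simp
  have hBout : ∀ y, R ≤ dist y ζ → B y ≤ 0 := by
    intro y hy
    rw [hBann y (hsR.le.trans hy)]
    have h1 : R ^ β ≤ dist y ζ ^ β := Real.rpow_le_rpow hR.le hy hβ0.le
    exact mul_nonpos_of_nonneg_of_nonpos hmD.le (by linarith)
  -- the comparison function
  have hWG : WG (fun y => min (B y) m) (fun y => if m < B y then 0 else gradient B y) := by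
    exact WG.pmin (WG.of_contDiff hB1) (WG.const m)
  have huWG : WG u g := h.mem.isD.wg hp1.le
  have hφWG := (hWG.sub huWG).posPart
  set φ : E n → ℝ := fun y => max (min (B y) m - u y) 0 with hφ
  set gφ : E n → E n := indicator {y | 0 < min (B y) m - u y}
    (fun y => (if m < B y then 0 else gradient B y) - g y) with hgφ
  have hpos : ∀ y, 0 < min (B y) m - u y → s < dist y ζ ∧ dist y ζ < R := by
    intro y hy
    constructor
    · by_contra hc
      have h1 := hum y (mem_closedBall.2 (not_lt.1 hc))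
      have h2 := min_le_right (B y) m
      linarith
    · by_contra hc
      have h1 := hBout y (not_lt.1 hc)
      have h2 := min_le_left (B y) m
      linarith [hu y]
  -- the gradient on the positivity set
  have hgrad : ∀ y, s < dist y ζ → gradient B y =
      (-(m / D * β * dist y ζ ^ (β - 2))) • (y - ζ) := by
    intro y hy
    have hyζ : y ≠ ζ := by
      rintro rfl
      rw [dist_self] at hy
      linarith
    have e1 : B =ᶠ[𝓝 y] fun z => m / D * (R ^ β - dist z ζ ^ β) := by
      have : {z : E n | s < dist z ζ} ∈ 𝓝 y :=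
        (isOpen_lt continuous_const (continuous_id.dist continuous_const)).mem_nhds hy
      filter_upwards [this] with z hz
      exact hBann z (le_of_lt hz)
    have e2 : HasFDerivAt (fun z => m / D * (R ^ β - dist z ζ ^ β))
        ((m / D) • (-((β * dist y ζ ^ (β - 2)) • innerSL ℝ (y - ζ)))) y :=
      ((hasFDerivAt_dist_rpow hyζ β).const_sub _).const_mul _
    have e3 : fderiv ℝ B y = (m / D) • (-((β * dist y ζ ^ (β - 2)) • innerSL ℝ (y - ζ))) := by
      rw [e1.fderiv_eq]
      exact e2.fderiv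
    have e4 : (m / D) • (-((β * dist y ζ ^ (β - 2)) • innerSL ℝ (y - ζ))) =
        InnerProductSpace.toDual ℝ (E n) ((-(m / D * β * dist y ζ ^ (β - 2))) • (y - ζ)) := by
      ext v
      simp only [_root_.smul_apply, _root_.neg_apply, innerSL_apply_apply, smul_eq_mul,
        InnerProductSpace.toDual_apply_apply, inner_smul_left, RCLike.conj_to_real]
      ring
    rw [gradient, e3, e4, LinearIsometryEquiv.symm_apply_apply]
  set c : ℝ := m / D * β with hc
  have hc0 : 0 < c := mul_pos hmD hβ0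
  set A : Set (E n) := {y | 0 < min (B y) m - u y} with hA
  have hucont : Continuous u := h.mem.isD.cont
  have hAopen : IsOpen A :=
    isOpen_lt continuous_const ((hB1.continuous.min continuous_const).sub hucont)
  have hAmeas : MeasurableSet A := hAopen.measurableSet
  set k : E n → E n := A.indicator (fun y => (-(c * dist y ζ ^ (β - 2))) • (y - ζ)) with hk
  have hkA : ∀ y ∈ A, k y = (-(c * dist y ζ ^ (β - 2))) • (y - ζ) := fun y hy => by
    rw [hk, indicator_of_mem hy]
  have hgφA : ∀ y ∈ A, gφ y = k y - g y := by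
    intro y hy
    have h1 := hpos y hy
    rw [hgφ, indicator_of_mem hy, hkA y hy, if_neg (not_lt.2 (hBle y h1.1.le)), hgrad y h1.1]
  have hgφnA : ∀ y, y ∉ A → gφ y = 0 := fun y hy => by
    rw [hgφ, indicator_of_notMem hy]
  have hgφeq : gφ = fun y => k y - A.indicator g y := by
    funext y
    by_cases hy : y ∈ A
    · rw [hgφA y hy, indicator_of_mem hy]
    · rw [hgφnA y hy, hk, indicator_of_notMem hy, indicator_of_notMem hy, sub_zero]
  have hnk : ∀ y, s < dist y ζ → ‖(-(c * dist y ζ ^ (β - 2))) • (y - ζ)‖ =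
      c * dist y ζ ^ (β - 1) := by
    intro y hy
    have hd : 0 < dist y ζ := hs.trans hy
    rw [norm_smul, norm_neg, Real.norm_of_nonneg (by positivity), ← dist_eq_norm, mul_assoc,
      ← Real.rpow_add_one hd.ne']
    congr 2
    ring
  have hβ1 : β ≤ 1 := by
    rw [hβ, div_le_one (by linarith)]
    linarith
  -- `k ∈ L^p`
  have hkLp : MemLp k (ENNReal.ofReal p) volume := by
    rw [hk, memLp_indicator_iff_restrict hAmeas]
    have hfin : IsFiniteMeasure (volume.restrict A) := by
      refine ⟨?_⟩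
      rw [Measure.restrict_apply_univ]
      refine lt_of_le_of_lt (measure_mono (t := ball ζ R) ?_) measure_ball_lt_top
      intro y hy
      exact mem_ball.2 (hpos y hy).2
    refine MemLp.of_bound (C := c * s ^ (β - 1)) ?_ ?_
    · apply Measurable.aestronglyMeasurable
      have : Measurable fun y : E n => dist y ζ ^ (β - 2) :=
        (continuous_id.dist continuous_const).measurable.pow_const _
      exact ((this.const_mul c).neg).smul (measurable_id.sub_const ζ)
    · refine (ae_restrict_iff' hAmeas).2 (Eventually.of_forall fun y hy => ?_)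
      have h1 := hpos y hy
      rw [hnk y h1.1]
      apply mul_le_mul_of_nonneg_left _ hc0.le
      exact Real.rpow_le_rpow_of_nonpos hs h1.1.le (by linarith)
  have hgφLp : MemLp gφ (ENNReal.ofReal p) volume := by
    rw [hgφeq]
    exact hkLp.sub (h.mem.isD.memLp.indicator hAmeas)
  have hφD : IsD p φ gφ := ⟨hφWG.cont, hgφLp, hφWG.weak⟩
  have hφ0 : ∀ y, y ∉ A → φ y = 0 := fun y hy => max_eq_right (not_lt.1 hy)
  have hφD0 : IsD0 p Ω φ gφ := by
    refine ⟨hφD, fun y hy => hφ0 y fun hyA => hy (hball (mem_ball.2 (hpos y hyA).2))⟩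
  have hφa : φ a = 0 := by
    apply hφ0
    intro haA
    have h1 : 0 < min (B a) m - u a := haA
    have h2 := min_le_right (B a) m
    rw [h.one] at h1
    linarith
  have heuler := h.euler hp1 hφD0 hφa
  -- the radial field
  set ψ : E n → ℝ := fun y => χ3 y * ((1 - χ y) * dist y ζ ^ (-(n : ℝ))) with hψ
  have hψs : ContDiff ℝ ((⊤ : ℕ∞) : WithTop ℕ∞) ψ := χ3.contDiff.mul (contDiff_cut χ _)
  have hψc : HasCompactSupport ψ := χ3.hasCompactSupport.mul_right
  have hψA : ∀ y, s < dist y ζ → dist y ζ < R → ψ y = dist y ζ ^ (-(n : ℝ)) := by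
    intro y h1 h2
    have e1 : χ3 y = 1 := χ3.one_of_mem_closedBall (mem_closedBall.2 h2.le)
    simp only [hψ, e1, hχ0 y h1.le, sub_zero, one_mul]
  have hrad := hφWG.test_radial hψs hψc ζ
  have hrad0 : ∫ x, φ x * (fderiv ℝ ψ x (x - ζ) + n * ψ x) = 0 := by
    rw [← integral_zero (E n) ℝ (μ := volume)]
    congr 1
    funext y
    by_cases hy : y ∈ A
    · have h1 := hpos y hy
      have hyζ : y ≠ ζ := by
        rintro rfl
        rw [dist_self] at h1
        linarith [h1.1]
      have e1 : ψ =ᶠ[𝓝 y] fun z => dist z ζ ^ (-(n : ℝ)) := by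
        have hop : IsOpen {z : E n | s < dist z ζ ∧ dist z ζ < R} :=
          (isOpen_lt continuous_const (continuous_id.dist continuous_const)).inter
            (isOpen_lt (continuous_id.dist continuous_const) continuous_const)
        have : {z : E n | s < dist z ζ ∧ dist z ζ < R} ∈ 𝓝 y := hop.mem_nhds h1
        filter_upwards [this] with z hz
        exact hψA z hz.1 hz.2
      have hd : 0 < dist y ζ := hs.trans h1.1
      rw [e1.fderiv_eq, (hasFDerivAt_dist_rpow hyζ _).fderiv, hψA y h1.1 h1.2]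
      simp only [_root_.smul_apply, innerSL_apply_apply, smul_eq_mul]
      rw [real_inner_self_eq_norm_sq, ← dist_eq_norm]
      have e2 : dist y ζ ^ (-(n : ℝ) - 2) * dist y ζ ^ 2 = dist y ζ ^ (-(n : ℝ)) := by
        rw [← Real.rpow_natCast (dist y ζ) 2, ← Real.rpow_add hd]
        congr 1
        push_cast
        ring
      rw [mul_assoc, e2]
      ring
    · rw [hφ0 y hy, zero_mul]
  rw [hrad0, neg_zero] at hrad
  -- exponents
  have hexp : (β - 1) * (p - 2) + (β - 2) = -(n : ℝ) := by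
    have : p - 1 ≠ 0 := by linarith
    rw [hβ]
    field_simp
    ring
  have hkint : ∀ y, ‖k y‖ ^ (p - 2) * inner ℝ (k y) (gφ y) =
      (-(c ^ (p - 1))) * (inner ℝ (gφ y) (y - ζ) * ψ y) := by
    intro y
    by_cases hy : y ∈ A
    · have h1 := hpos y hy
      have hd : 0 < dist y ζ := hs.trans h1.1
      rw [hkA y hy, hnk y h1.1, hψA y h1.1 h1.2, inner_smul_left, RCLike.conj_to_real,
        Real.mul_rpow hc0.le (by positivity), ← Real.rpow_mul hd.le, real_inner_comm]
      have e2 : c ^ (p - 1) = c ^ (p - 2) * c := by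
        rw [← Real.rpow_add_one hc0.ne']
        congr 1
        ring
      have e3 : dist y ζ ^ (-(n : ℝ)) = dist y ζ ^ ((β - 1) * (p - 2)) * dist y ζ ^ (β - 2) := by
        rw [← Real.rpow_add hd, hexp]
      rw [e2, e3]
      ring
    · rw [hgφnA y hy, inner_zero_right, inner_zero_left]
      ring
  have hkzero : ∫ y, ‖k y‖ ^ (p - 2) * inner ℝ (k y) (gφ y) = 0 := by
    simp_rw [hkint]
    rw [integral_const_mul, hrad, mul_zero]
  have hi1 := integrable_el hp1 hkLp hgφLp
  have hi2 := integrable_el hp1 h.mem.isD.memLp hgφLp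
  have hcomp := comparison hn hp hφD
    (g := g) (h := k)
    (Eventually.of_forall fun y hy => by
      by_cases hyA : y ∈ A
      · exact hgφA y hyA
      · exact absurd (hgφnA y hyA) hy)
    (hi1.sub hi2)
    (by rw [integral_sub hi1 hi2, hkzero, heuler, sub_zero]) hφa x
  have hfin : min (B x) m ≤ u x := by
    have : min (B x) m - u x ≤ 0 := max_eq_right_iff.1 hcomp
    linarith
  rw [min_eq_left (hBle x hx1), hBann x hx1] at hfin
  calc _ = m / D * (R ^ β - dist x ζ ^ β) := by ring
    _ ≤ u x := hfin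

end HMor
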