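import Pool.Agent.W_MP_55e37b_an.Defs
import Pool.Agent.W_MP_55e37b_an.Basics
import Pool.Agent.W_MP_55e37b_an.Morrey
import Pool.Agent.W_MP_55e37b_an.EL
import Pool.Agent.W_MP_55e37b_an.Exist
import Pool.Agent.W_MP_55e37b_an.Lower
import Pool.Agent.W_MP_55e37b_an.Loss
import Pool.Agent.W_MP_55e37b_an.Bridge

open MeasureTheory Metric Set Filter Topology
open scoped ENNReal

namespace HMor

variable {n : ℕ}

/-- Bessel's inequality for an orthonormal pair -/
theorem bessel_two {e w : E n} (he : ‖e‖ = 1) (hw : ‖w‖ = 1) (hew : inner ℝ e w = 0) (x : E n) :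
    (inner ℝ x w) ^ 2 + (inner ℝ x e) ^ 2 ≤ ‖x‖ ^ 2 := by
  have h1 : ‖x - (inner ℝ x w : ℝ) • w - (inner ℝ x e : ℝ) • e‖ ^ 2 =
      ‖x‖ ^ 2 - (inner ℝ x w) ^ 2 - (inner ℝ x e) ^ 2 := by
    rw [← real_inner_self_eq_norm_sq, ← real_inner_self_eq_norm_sq]
    simp only [inner_sub_left, inner_sub_right, real_inner_smul_left, real_inner_smul_right]
    have h2 : inner ℝ w w = (1 : ℝ) := by rw [real_inner_self_eq_norm_sq, hw]; norm_num
    have h3 : inner ℝ e e = (1 : ℝ) := by rw [real_inner_self_eq_norm_sq, he]; norm_num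
    have h4 : inner ℝ w e = (0 : ℝ) := by rw [real_inner_comm, hew]
    have h5 : inner ℝ w x = inner ℝ x w := real_inner_comm _ _
    have h6 : inner ℝ e x = inner ℝ x e := real_inner_comm _ _
    rw [h2, h3, h4, hew, h5, h6]
    ring
  have h7 := sq_nonneg ‖x - (inner ℝ x w : ℝ) • w - (inner ℝ x e : ℝ) • e‖
  linarith

/-- the touched set `G_L` -/
def touchSet (e w : E n) (δ L : ℝ) : Set (E n) :=
  {x : E n | ‖x‖ < L ∧ -(δ / L) * (inner ℝ x w) ^ 2 < inner ℝ x e}

theorem isOpen_touchSet (e w : E n) (δ L : ℝ) : IsOpen (touchSet e w δ L) := by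
  have h1 : IsOpen {x : E n | ‖x‖ < L} := isOpen_lt continuous_norm continuous_const
  have h2 : IsOpen {x : E n | -(δ / L) * (inner ℝ x w) ^ 2 < inner ℝ x e} :=
    isOpen_lt (by fun_prop) (by fun_prop)
  exact h1.inter h2

theorem zero_notMem_touchSet (e w : E n) (δ L : ℝ) : (0 : E n) ∉ touchSet e w δ L := by
  intro h
  have := h.2
  simp at this

theorem ball_subset_touchSet {e w : E n} (he : ‖e‖ = 1) (hw : ‖w‖ = 1) (hew : inner ℝ e w = 0)
    {δ L r : ℝ} (hδ : 0 < δ) (hL : 8 ≤ L) (hL2 : 2 * δ ≤ L) (hr : 0 < r) (hr1 : r ≤ 1) :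
    ball (e + r • w) (Real.sqrt (1 + r ^ 2 * δ / L)) ⊆ touchSet e w δ L := by
  intro x hx
  have hL0 : 0 < L := by linarith
  have ha : δ / L ≤ 1 / 2 := by
    rw [div_le_iff₀ hL0]; linarith
  have ha0 : 0 < δ / L := div_pos hδ hL0
  have hτ0 : 0 ≤ r ^ 2 * δ / L := by positivity
  have hτ1 : r ^ 2 * δ / L ≤ 1 := by
    have : r ^ 2 * δ / L = r ^ 2 * (δ / L) := by ring
    rw [this]
    have : r ^ 2 ≤ 1 := by nlinarith
    nlinarith
  set R := Real.sqrt (1 + r ^ 2 * δ / L) with hR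
  have hR2 : R ^ 2 = 1 + r ^ 2 * δ / L := Real.sq_sqrt (by linarith)
  have hR0 : 0 ≤ R := Real.sqrt_nonneg _
  have hRle : R ≤ 2 := by nlinarith
  rw [mem_ball, dist_eq_norm] at hx
  constructor
  · have h1 : ‖x‖ ≤ ‖x - (e + r • w)‖ + ‖e + r • w‖ := by
      have := norm_add_le (x - (e + r • w)) (e + r • w)
      simpa using this
    have h2 : ‖e + r • w‖ ≤ 1 + r := by
      refine (norm_add_le _ _).trans ?_
      rw [norm_smul, he, hw, Real.norm_eq_abs, abs_of_pos hr, mul_one]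
    linarith
  · by_contra hcon
    push Not at hcon
    have hb := bessel_two he hw hew (x - (e + r • w))
    have e1 : inner ℝ (x - (e + r • w)) w = inner ℝ x w - r := by
      rw [inner_sub_left, inner_add_left, real_inner_smul_left, hew, real_inner_self_eq_norm_sq, hw]
      ring
    have e2 : inner ℝ (x - (e + r • w)) e = inner ℝ x e - 1 := by
      rw [inner_sub_left, inner_add_left, real_inner_smul_left, real_inner_comm e w, hew,
        real_inner_self_eq_norm_sq, he]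
      ring
    rw [e1, e2] at hb
    set s := inner ℝ x w
    set t := inner ℝ x e
    have h3 : (t - 1) ^ 2 ≥ 1 + 2 * (δ / L) * s ^ 2 := by
      have h4 : 1 + δ / L * s ^ 2 ≤ 1 - t := by linarith
      have h5 : 0 ≤ δ / L * s ^ 2 := by positivity
      nlinarith
    have h6 : (s - r) ^ 2 + 2 * (δ / L) * s ^ 2 - 2 * (δ / L) * r ^ 2 / 2 =
        (1 - 2 * (δ / L)) * (s - r) ^ 2 + (2 * (δ / L) / 2) * (2 * s - r) ^ 2 := by ring
    have h7 : 0 ≤ (1 - 2 * (δ / L)) * (s - r) ^ 2 + (2 * (δ / L) / 2) * (2 * s - r) ^ 2 := by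
      have : 0 ≤ 1 - 2 * (δ / L) := by linarith
      positivity
    have h8 : R ^ 2 ≤ ‖x - (e + r • w)‖ ^ 2 := by
      rw [hR2]
      have : r ^ 2 * δ / L = 2 * (δ / L) * r ^ 2 / 2 := by ring
      rw [this]
      linarith
    have h9 : ‖x - (e + r • w)‖ ^ 2 < R ^ 2 := by
      apply pow_lt_pow_left₀ hx (norm_nonneg _) (by norm_num)
    linarith

/-- lower bound for `R^β - 1` -/
theorem rpow_half_ge {τ β : ℝ} (hτ : 0 ≤ τ) (hτ1 : τ ≤ 1) (hβ : 0 ≤ β) :
    1 + β * τ / 4 ≤ (Real.sqrt (1 + τ)) ^ β := by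
  have h1 : 0 < 1 + τ := by linarith
  rw [Real.sqrt_eq_rpow, ← Real.rpow_mul h1.le, Real.rpow_def_of_pos h1]
  have h2 := Real.add_one_le_exp (Real.log (1 + τ) * (1 / 2 * β))
  have h3 : 1 - (1 + τ)⁻¹ ≤ Real.log (1 + τ) := Real.one_sub_inv_le_log_of_pos h1
  have h4 : τ / 2 ≤ 1 - (1 + τ)⁻¹ := by
    have : 1 - (1 + τ)⁻¹ = τ / (1 + τ) := by field_simp; ring
    rw [this]
    rw [div_le_div_iff₀ (by norm_num) h1]
    nlinarith
  have h5 : τ / 2 ≤ Real.log (1 + τ) := h4.trans h3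
  have h6 : τ / 2 * (1 / 2 * β) ≤ Real.log (1 + τ) * (1 / 2 * β) :=
    mul_le_mul_of_nonneg_right h5 (by positivity)
  have h7 : β * τ / 4 = τ / 2 * (1 / 2 * β) := by ring
  linarith

/-- the minimiser of `G_L = {x ∈ B(0,L) : x·e > -(δ/L)(x·w)²}` beats the halfspace for large `L` -/
theorem core (hn : 2 ≤ n) {p : ℝ} (hp : (n : ℝ) < p) {e w : E n} (he : ‖e‖ = 1) (hw : ‖w‖ = 1)
    (hew : inner ℝ e w = 0) {δ : ℝ} (hδ : 0 < δ) :
    ∃ L : ℝ, 0 < L ∧ ∃ (u : E n → ℝ) (g : E n → E n),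
      IsD0 p {x : E n | ‖x‖ < L ∧ -(δ / L) * (inner ℝ x w) ^ 2 < inner ℝ x e} u g ∧ u e = 1 ∧
      energy p g < cH p e := by
  have hn1 : 1 ≤ n := by omega
  have hn2 : (2 : ℝ) ≤ n := by exact_mod_cast hn
  have hp2 : 2 < p := by linarith
  have hp1 : 1 < p := by linarith
  have hp0 : 0 < p := by linarith
  have hee : inner ℝ e e = (1 : ℝ) := by rw [real_inner_self_eq_norm_sq, he]; norm_num
  have hww : inner ℝ w w = (1 : ℝ) := by rw [real_inner_self_eq_norm_sq, hw]; norm_num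
  have hwe : inner ℝ w e = (0 : ℝ) := by rw [real_inner_comm, hew]
  -- the halfspace
  have hHo : IsOpen (halfspace e 0) := isOpen_lt continuous_const (by fun_prop)
  have h0H : (0 : E n) ∉ halfspace e 0 := by simp [halfspace]
  have hHu : halfspace e 0 ≠ univ := fun h => h0H (h ▸ mem_univ _)
  have heH : e ∈ halfspace e 0 := by show (0:ℝ) < inner ℝ e e; rw [hee]; norm_num
  obtain ⟨h, gh, hmin, hbd⟩ := exists_min hn1 hp hp2.le hHo hHu heH
  have hEH : energy p gh ≤ cH p e := by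
    apply le_csInf (cH_nonempty he)
    rintro c ⟨u, g, hu, hu1, rfl⟩
    exact hmin.le u g hu hu1
  obtain ⟨C, hC, hcut⟩ := hmin.cutoff hn hp he hbd
  obtain ⟨Cm, hCm, hMor⟩ := morrey hn1 hp
  have henn : ∀ g : E n → E n, 0 ≤ energy p g := fun g =>
    integral_nonneg fun x => Real.rpow_nonneg (norm_nonneg _) _
  set E0 := energy p gh + C with hE0
  have hE0pos : 0 < E0 := by have := henn gh; linarith
  set κ := 1 - (n : ℝ) / p with hκ
  have hκ0 : 0 < κ := by
    rw [hκ, sub_pos, div_lt_one hp0]; exact hp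
  set q := p - n + p * (((n : ℝ) - 1) / (p - 1)) with hq
  have hqn : 0 < q - n := by
    have : q - n = (p - 2) * (p - n) / (p - 1) := by
      rw [hq]
      have : p - 1 ≠ 0 := by linarith
      field_simp
      ring
    rw [this]
    apply div_pos (mul_pos (by linarith) (by linarith)) (by linarith)
  have hq0 : 0 < q := by linarith
  -- choice of r
  obtain ⟨r, hr0, hr1, hr⟩ : ∃ r : ℝ, 0 < r ∧ r ≤ 1 / 4 ∧
      Cm * (2 * r) ^ κ * E0 ^ (1 / p) ≤ 1 / 2 := by
    have ht : Tendsto (fun r : ℝ => Cm * (2 * r) ^ κ * E0 ^ (1 / p)) (𝓝 0) (𝓝 0) := by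
      have hcont : Continuous (fun r : ℝ => Cm * (2 * r) ^ κ * E0 ^ (1 / p)) := by
        refine Continuous.mul (Continuous.mul continuous_const ?_) continuous_const
        exact (continuous_const.mul continuous_id).rpow_const (fun x => Or.inr hκ0.le)
      have := hcont.tendsto 0
      simpa [Real.zero_rpow hκ0.ne'] using this
    have h1 : ∀ᶠ r in 𝓝 (0 : ℝ), Cm * (2 * r) ^ κ * E0 ^ (1 / p) < 1 / 2 :=
      ht.eventually (gt_mem_nhds (by norm_num))
    have h2 : ∀ᶠ r in 𝓝[>] (0 : ℝ), Cm * (2 * r) ^ κ * E0 ^ (1 / p) < 1 / 2 ∧ r < 1 / 4 := by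
      apply Filter.Eventually.filter_mono nhdsWithin_le_nhds
      exact h1.and (gt_mem_nhds (by norm_num))
    obtain ⟨r, ⟨h3, h4⟩, h5⟩ := (h2.and self_mem_nhdsWithin).exists
    exact ⟨r, h5, h4.le, h3.le⟩
  set β := (p - n) / (p - 1) with hβ
  have hβ0 : 0 < β := div_pos (by linarith) (by linarith)
  have hβ1 : β ≤ 1 := by
    rw [hβ, div_le_one (by linarith)]
    linarith
  -- constants
  set c₁ := β * (r ^ 2 * δ) / 16 with hc₁
  have hc₁0 : 0 < c₁ := by positivity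
  set c₂ := (c₁ / (Cm * (δ * r ^ 2) ^ κ)) ^ p with hc₂
  have hc₂0 : 0 < c₂ := by positivity
  set c₃ := 2 ^ (1 - p) * c₂ with hc₃
  have hc₃0 : 0 < c₃ := by positivity
  -- choice of L
  obtain ⟨L, hL8, hL2, hLC⟩ : ∃ L : ℝ, 8 ≤ L ∧ 2 * δ ≤ L ∧ C / c₃ < L ^ (q - n) := by
    have h1 := (tendsto_rpow_atTop hqn).eventually (eventually_gt_atTop (C / c₃))
    obtain ⟨L, ⟨h2, h3⟩, h4⟩ := ((h1.and (eventually_ge_atTop 8)).and
      (eventually_ge_atTop (2 * δ))).exists
    exact ⟨L, h3, h4, h2⟩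
  have hL0 : 0 < L := by linarith
  obtain ⟨v, gv, hv, hve, hvE⟩ := hcut L hL8
  have heG : e ∈ touchSet e w δ L := by
    refine ⟨by rw [he]; linarith, ?_⟩
    rw [hew, hee]; norm_num
  have hGu : touchSet e w δ L ≠ univ := fun h => zero_notMem_touchSet e w δ L (h ▸ mem_univ _)
  obtain ⟨u, g, umin, ubd⟩ := exists_min hn1 hp hp2.le (isOpen_touchSet e w δ L) hGu heG
  have hsub : halfspace e 0 ∩ ball 0 L ⊆ touchSet e w δ L := by
    rintro x ⟨hx1, hx2⟩
    refine ⟨by simpa using hx2, ?_⟩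
    have h1 : (0 : ℝ) < inner ℝ x e := hx1
    have h2 : 0 ≤ δ / L * (inner ℝ x w) ^ 2 := by positivity
    linarith
  have hgap := umin.gap hp2.le (hv.mono hsub) hve
  have h2p : (0 : ℝ) < 2 ^ (1 - p) := by positivity
  have hdn := henn (fun x => gv x - g x)
  have hLq : L ^ (-q) ≤ 1 := Real.rpow_le_one_of_one_le_of_nonpos (by linarith) (by linarith)
  have hEg : energy p g ≤ E0 := by
    have h1 : energy p g ≤ energy p gv := by nlinarith
    have h2 : C * L ^ (-q) ≤ C := by nlinarith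
    linarith
  -- u ≥ 1/2 near e
  have hu_half : ∀ x ∈ closedBall (e + r • w) r, (1 / 2 : ℝ) ≤ u x := by
    intro x hx
    have h1 : ‖x - e‖ ≤ 2 * r := by
      rw [mem_closedBall, dist_eq_norm] at hx
      have : x - e = (x - (e + r • w)) + r • w := by abel
      rw [this]
      refine (norm_add_le _ _).trans ?_
      rw [norm_smul, hw, Real.norm_eq_abs, abs_of_pos hr0]
      linarith
    have h2 := hMor u g umin.mem.isD x e
    have h3 : Cm * ‖x - e‖ ^ κ * energy p g ^ (1 / p) ≤ Cm * (2 * r) ^ κ * E0 ^ (1 / p) := by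
      have h4 : ‖x - e‖ ^ κ ≤ (2 * r) ^ κ := Real.rpow_le_rpow (norm_nonneg _) h1 hκ0.le
      have h5 : energy p g ^ (1 / p) ≤ E0 ^ (1 / p) :=
        Real.rpow_le_rpow (henn g) hEg (by positivity)
      have h6 : 0 ≤ energy p g ^ (1 / p) := Real.rpow_nonneg (henn g) _
      have h7 : 0 ≤ ‖x - e‖ ^ κ := Real.rpow_nonneg (norm_nonneg _) _
      gcongr
    rw [umin.one] at h2
    have h8 := (abs_le.1 (h2.trans (h3.trans hr))).1
    linarith
  -- the barrier
  set R := Real.sqrt (1 + r ^ 2 * δ / L) with hR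
  have hball : ball (e + r • w) R ⊆ touchSet e w δ L :=
    ball_subset_touchSet he hw hew hδ hL8 hL2 hr0 (by linarith)
  have hτ0 : 0 ≤ r ^ 2 * δ / L := by positivity
  have hτ1 : r ^ 2 * δ / L ≤ 1 := by
    rw [div_le_one hL0]
    have : r ^ 2 ≤ 1 := by nlinarith
    nlinarith
  have hR1 : 1 ≤ R := by
    rw [hR, Real.one_le_sqrt]; linarith
  have hR2 : R ≤ 2 := by
    rw [hR]
    apply Real.sqrt_le_iff.2
    constructor <;> linarith
  set z : E n := r • w with hz
  have hdz : dist z (e + r • w) = 1 := by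
    rw [dist_eq_norm]
    have : z - (e + r • w) = -e := by rw [hz]; abel
    rw [this, norm_neg, he]
  have huz : c₁ / L ≤ u z := by
    have h1 := umin.lower_barrier hn1 hp (fun x => (ubd x).1) (ζ := e + r • w) (s := r) (R := R)
      (m := 1 / 2) hr0 (by linarith) (by norm_num) (by norm_num) hball hu_half z
      (by rw [hdz]; linarith) (by rw [hdz]; exact hR1)
    rw [hdz, Real.one_rpow] at h1
    have h2 : 1 + β * (r ^ 2 * δ / L) / 4 ≤ R ^ β := rpow_half_ge hτ0 hτ1 hβ0.le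
    have h3 : R ^ β ≤ 2 := by
      calc R ^ β ≤ R ^ (1 : ℝ) := Real.rpow_le_rpow_of_exponent_le hR1 hβ1
        _ = R := Real.rpow_one _
        _ ≤ 2 := hR2
    have h4 : 0 < r ^ β := Real.rpow_pos_of_pos hr0 _
    have h5 : r ^ β < 1 := Real.rpow_lt_one hr0.le (by linarith) hβ0
    have h6 : 1 ≤ R ^ β := Real.one_le_rpow hR1 hβ0.le
    have h7 : (R ^ β - 1) / 2 ≤ (R ^ β - 1) / (R ^ β - r ^ β) := by
      apply div_le_div_of_nonneg_left (by linarith) (by linarith) (by linarith)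
    have h8 : c₁ / L ≤ 1 / 2 * ((R ^ β - 1) / 2) := by
      have : c₁ / L = 1 / 2 * ((β * (r ^ 2 * δ / L) / 4) / 2) := by
        rw [hc₁]; ring
      rw [this]
      have h9 : β * (r ^ 2 * δ / L) / 4 ≤ R ^ β - 1 := by linarith
      linarith
    linarith
  -- the second point
  set z' : E n := z - (δ * r ^ 2 / L) • e with hz'
  have hzz' : ‖z - z'‖ = δ * r ^ 2 / L := by
    rw [hz', sub_sub_cancel, norm_smul, he, mul_one, Real.norm_eq_abs, abs_of_pos (by positivity)]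
  have hze : inner ℝ z e = (0 : ℝ) := by rw [hz, real_inner_smul_left, hwe, mul_zero]
  have hze' : inner ℝ z' e = -(δ * r ^ 2 / L) := by
    rw [hz', inner_sub_left, hze, real_inner_smul_left, hee]; ring
  have hzw : inner ℝ z w = r := by rw [hz, real_inner_smul_left, hww, mul_one]
  have hzw' : inner ℝ z' w = r := by
    rw [hz', inner_sub_left, hzw, real_inner_smul_left, hew]; ring
  have huz' : u z' = 0 := by
    apply umin.mem.zero
    intro hmem
    have := hmem.2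
    rw [hze', hzw'] at this
    have h1 : -(δ / L) * r ^ 2 = -(δ * r ^ 2 / L) := by ring
    linarith
  have hvz : v z = 0 := by
    apply hv.zero
    rintro ⟨h1, -⟩
    have : (0 : ℝ) < inner ℝ z e := h1
    linarith
  have hvz' : v z' = 0 := by
    apply hv.zero
    rintro ⟨h1, -⟩
    have h2 : (0 : ℝ) < inner ℝ z' e := h1
    have h3 : 0 < δ * r ^ 2 / L := by positivity
    linarith
  -- Morrey for v - u
  have hD := IsD.sub hp1.le hv.isD umin.mem.isD
  have hM := hMor _ _ hD z z'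
  simp only [hvz, hvz', huz'] at hM
  have huz0 : 0 ≤ u z := (ubd z).1
  have hM' : u z ≤ Cm * (δ * r ^ 2 / L) ^ κ * energy p (fun x => gv x - g x) ^ (1 / p) := by
    rw [hzz'] at hM
    have : |0 - u z - (0 - 0)| = u z := by
      rw [sub_zero, sub_zero, zero_sub, abs_neg, abs_of_nonneg huz0]
    rwa [this] at hM
  have hlow : c₂ * L ^ (-(n : ℝ)) ≤ energy p (fun x => gv x - g x) := by
    have hdr : 0 < δ * r ^ 2 := by positivity
    have h1 : (δ * r ^ 2 / L) ^ κ = (δ * r ^ 2) ^ κ * L ^ (-κ) := by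
      rw [Real.div_rpow hdr.le hL0.le, Real.rpow_neg hL0.le]; rfl
    have hLκ : 0 < L ^ (-κ) := Real.rpow_pos_of_pos hL0 _
    have hdκ : 0 < (δ * r ^ 2) ^ κ := Real.rpow_pos_of_pos hdr _
    have h2 : c₁ / L ≤ Cm * ((δ * r ^ 2) ^ κ * L ^ (-κ)) *
        energy p (fun x => gv x - g x) ^ (1 / p) := by
      rw [← h1]; exact huz.trans hM'
    have h3 : c₁ / (Cm * (δ * r ^ 2) ^ κ) * (L ^ (κ - 1)) ≤
        energy p (fun x => gv x - g x) ^ (1 / p) := by
      have h4 : L ^ (κ - 1) = L ^ κ / L := by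
        rw [Real.rpow_sub hL0, Real.rpow_one]
      have h5 : L ^ κ * L ^ (-κ) = 1 := by
        rw [← Real.rpow_add hL0]; simp
      rw [h4]
      have h6 : c₁ / (Cm * (δ * r ^ 2) ^ κ) * (L ^ κ / L) =
          (c₁ / L) * (L ^ κ / (Cm * (δ * r ^ 2) ^ κ)) := by ring
      rw [h6]
      have hLκ' : 0 < L ^ κ := Real.rpow_pos_of_pos hL0 _
      have h7 : 0 < L ^ κ / (Cm * (δ * r ^ 2) ^ κ) := by positivity
      calc (c₁ / L) * (L ^ κ / (Cm * (δ * r ^ 2) ^ κ))
          ≤ (Cm * ((δ * r ^ 2) ^ κ * L ^ (-κ)) *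
        energy p (fun x => gv x - g x) ^ (1 / p)) * (L ^ κ / (Cm * (δ * r ^ 2) ^ κ)) :=
            mul_le_mul_of_nonneg_right h2 h7.le
        _ = (L ^ κ * L ^ (-κ)) * energy p (fun x => gv x - g x) ^ (1 / p) := by
            field_simp
        _ = energy p (fun x => gv x - g x) ^ (1 / p) := by rw [h5, one_mul]
    have h8 : (c₁ / (Cm * (δ * r ^ 2) ^ κ) * (L ^ (κ - 1))) ^ p ≤
        (energy p (fun x => gv x - g x) ^ (1 / p)) ^ p :=
      Real.rpow_le_rpow (by positivity) h3 hp0.le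
    rw [← Real.rpow_mul hdn, one_div, inv_mul_cancel₀ hp0.ne', Real.rpow_one,
      Real.mul_rpow (by positivity) (by positivity), ← Real.rpow_mul hL0.le] at h8
    have h9 : (κ - 1) * p = -(n : ℝ) := by
      rw [hκ]; field_simp; ring
    rw [h9] at h8
    exact h8
  refine ⟨L, hL0, u, g, umin.mem, umin.one, ?_⟩
  refine lt_of_lt_of_le ?_ hEH
  -- comparison of the powers
  have h1 : c₃ * L ^ (-(n : ℝ)) ≤ 2 ^ (1 - p) * energy p (fun x => gv x - g x) := by
    rw [hc₃, mul_assoc]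
    exact mul_le_mul_of_nonneg_left hlow h2p.le
  have h2 : C * L ^ (-q) < c₃ * L ^ (-(n : ℝ)) := by
    have h3 : L ^ (-(n : ℝ)) = L ^ (q - n) * L ^ (-q) := by
      rw [← Real.rpow_add hL0]; congr 1; ring
    rw [h3, ← mul_assoc]
    apply mul_lt_mul_of_pos_right _ (Real.rpow_pos_of_pos hL0 _)
    rw [div_lt_iff₀ hc₃0] at hLC
    linarith
  linarith

end HMor
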