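import Pool.Agent.W_MP_55e37b_an.Defs

open MeasureTheory Metric Set Filter Topology
open scoped ENNReal

namespace HMor

variable {n : ℕ}

/-- supporting halfspace at a nearest point -/
theorem convex_subset_halfspace {Ω : Set (E n)} (hΩ : IsOpen Ω) (hc : Convex ℝ Ω) {x y : E n}
    (hx : x ∈ Ω) (hy : y ∉ Ω) (hxy : dist x y = infDist x Ωᶜ) :
    Ω ⊆ halfspace ((dist x y)⁻¹ • (x - y)) (inner ℝ y ((dist x y)⁻¹ • (x - y))) := by
  have hne : x ≠ y := fun h => hy (h ▸ hx)
  have hd : 0 < dist x y := dist_pos.mpr hne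
  have hball : ball x (dist x y) ⊆ Ω := by
    intro w hw
    by_contra hwΩ
    have h1 : infDist x Ωᶜ ≤ dist x w := infDist_le_dist_of_mem hwΩ
    rw [mem_ball, dist_comm] at hw
    linarith
  -- strict negativity is impossible
  have key : ∀ z ∈ Ω, ¬ inner ℝ (z - y) (x - y) < 0 := by
    intro z hz hneg
    -- w = y + t (y - z)
    have hyx : ‖y - x‖ = dist x y := by rw [dist_comm, dist_eq_norm]
    obtain ⟨t, ht0, ht1⟩ : ∃ t : ℝ, 0 < t ∧ t * ‖y - z‖ ^ 2 < -2 * inner ℝ (z - y) (x - y) := by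
      refine ⟨(-inner ℝ (z - y) (x - y)) / (‖y - z‖ ^ 2 + 1), ?_, ?_⟩
      · apply div_pos (by linarith) (by positivity)
      · have h1 : 0 < ‖y - z‖ ^ 2 + 1 := by positivity
        rw [div_mul_eq_mul_div, div_lt_iff₀ h1]
        nlinarith [sq_nonneg ‖y - z‖]
    have hw : y + t • (y - z) ∈ ball x (dist x y) := by
      rw [mem_ball, dist_eq_norm]
      have e1 : y + t • (y - z) - x = (y - x) + t • (y - z) := by abel
      rw [e1, ← hyx]
      have e2 : ‖(y - x) + t • (y - z)‖ ^ 2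
          = ‖y - x‖ ^ 2 + 2 * (t * inner ℝ (z - y) (x - y)) + t ^ 2 * ‖y - z‖ ^ 2 := by
        rw [norm_add_sq_real, inner_smul_right, norm_smul, mul_pow]
        have e3 : inner ℝ (y - x) (y - z) = inner ℝ (z - y) (x - y) := by
          rw [← neg_sub x y, ← neg_sub z y, inner_neg_neg, real_inner_comm]
        rw [e3, Real.norm_eq_abs, sq_abs]
      have e4 : ‖(y - x) + t • (y - z)‖ ^ 2 < ‖y - x‖ ^ 2 := by
        rw [e2]
        nlinarith
      exact lt_of_pow_lt_pow_left₀ 2 (norm_nonneg _) e4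
    have hwΩ := hball hw
    apply hy
    have hcomb := hc hwΩ hz (a := 1 / (1 + t)) (b := t / (1 + t)) (by positivity) (by positivity)
      (by field_simp)
    have e5 : (1 / (1 + t)) • (y + t • (y - z)) + (t / (1 + t)) • z = y := by
      have h2 : (1 + t) ≠ 0 := by positivity
      have e6 : (1 / (1 + t)) • (y + t • (y - z)) + (t / (1 + t)) • z
          = ((1 / (1 + t)) * (1 + t)) • y + ((t / (1 + t)) - (1 / (1 + t)) * t) • z := by
        module
      rw [e6]
      have e7 : (1 / (1 + t)) * (1 + t) = 1 := by field_simp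
      have e8 : (t / (1 + t)) - (1 / (1 + t)) * t = 0 := by field_simp; ring
      rw [e7, e8, one_smul, zero_smul, add_zero]
    rw [e5] at hcomb
    exact hcomb
  intro z hz
  show inner ℝ y ((dist x y)⁻¹ • (x - y)) < inner ℝ z ((dist x y)⁻¹ • (x - y))
  rw [inner_smul_right, inner_smul_right]
  apply mul_lt_mul_of_pos_left _ (inv_pos.mpr hd)
  by_contra hcon
  push Not at hcon
  -- perturb z
  obtain ⟨ε, hε, hεΩ⟩ := Metric.isOpen_iff.mp hΩ z hz
  have hxy0 : 0 < ‖x - y‖ := by rw [← dist_eq_norm]; exact hd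
  let δ : ℝ := ε / (2 * ‖x - y‖)
  have hδ : 0 < δ := by positivity
  have hz' : z - δ • (x - y) ∈ Ω := by
    apply hεΩ
    rw [mem_ball, dist_eq_norm]
    have : z - δ • (x - y) - z = -(δ • (x - y)) := by abel
    rw [this, norm_neg, norm_smul, Real.norm_eq_abs, abs_of_pos hδ]
    have : δ * ‖x - y‖ = ε / 2 := by
      simp only [δ]; field_simp
    rw [this]; linarith
  apply key _ hz'
  have e1 : z - δ • (x - y) - y = (z - y) - δ • (x - y) := by abel
  rw [e1, inner_sub_left, inner_smul_left, inner_sub_left, real_inner_self_eq_norm_sq]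
  simp only [RCLike.conj_to_real]
  have : 0 < δ * ‖x - y‖ ^ 2 := by positivity
  linarith

/-- points of nearby segments are close -/
theorem lineMap_dist_le (a z z' : E n) {s : ℝ} (hs0 : 0 ≤ s) (hs1 : s ≤ 1) :
    dist (AffineMap.lineMap a z' s : E n) (AffineMap.lineMap a z s) ≤ dist z' z := by
  rw [AffineMap.lineMap_apply_module, AffineMap.lineMap_apply_module, dist_eq_norm, dist_eq_norm]
  have : (1 - s) • a + s • z' - ((1 - s) • a + s • z) = s • (z' - z) := by module
  rw [this, norm_smul, Real.norm_eq_abs, abs_of_nonneg hs0]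
  calc s * ‖z' - z‖ ≤ 1 * ‖z' - z‖ := by gcongr
    _ = ‖z' - z‖ := one_mul _

theorem exists_two_sides {Ω : Set (E n)} (hΩ : IsOpen Ω) (hc : IsPreconnected Ω)
    (hnc : ¬ Convex ℝ Ω) :
    ∃ v x z : E n, v ∈ Ω ∧ x ∈ Ω ∧ z ∈ Ω ∧ segment ℝ v x ⊆ Ω ∧ segment ℝ v z ⊆ Ω ∧
      ¬ (segment ℝ x z ⊆ Ω) := by
  by_contra hcon
  push Not at hcon
  apply hnc
  rw [convex_iff_segment_subset]
  intro a ha b hb
  let A : Set (E n) := {z | z ∈ Ω ∧ segment ℝ a z ⊆ Ω}
  have hAopen : IsOpen A := by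
    rw [Metric.isOpen_iff]
    rintro z ⟨hz, hseg⟩
    have hcomp : IsCompact (segment ℝ a z) := by
      rw [segment_eq_image_lineMap]
      exact isCompact_Icc.image (AffineMap.lineMap_continuous)
    obtain ⟨δ, hδ, hδΩ⟩ := hcomp.exists_thickening_subset_open hΩ hseg
    refine ⟨δ, hδ, ?_⟩
    intro z' hz'
    have hall : segment ℝ a z' ⊆ Ω := by
      rw [segment_eq_image_lineMap]
      rintro _ ⟨s, hs, rfl⟩
      apply hδΩ
      rw [mem_thickening_iff]
      refine ⟨AffineMap.lineMap a z s, ?_, ?_⟩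
      · rw [segment_eq_image_lineMap]; exact ⟨s, hs, rfl⟩
      · exact lt_of_le_of_lt (lineMap_dist_le a z z' hs.1 hs.2) hz'
    exact ⟨hall (right_mem_segment ℝ a z'), hall⟩
  have hsub : Ω ⊆ A := by
    apply hc.subset_of_closure_inter_subset hAopen
    · refine ⟨a, ha, ha, ?_⟩
      rw [segment_same]
      intro w hw
      rw [mem_singleton_iff] at hw
      rw [hw]; exact ha
    · rintro z ⟨hzc, hz⟩
      obtain ⟨r, hr, hrΩ⟩ := Metric.isOpen_iff.mp hΩ z hz
      obtain ⟨z', hz'A, hz'⟩ := Metric.mem_closure_iff.mp hzc r hr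
      refine ⟨hz, ?_⟩
      apply hcon z' a z hz'A.1 ha hz
      · rw [segment_symm]; exact hz'A.2
      · have hz'ball : z' ∈ ball z r := by rw [mem_ball, dist_comm]; exact hz'
        exact ((convex_ball z r).segment_subset hz'ball (mem_ball_self hr)).trans hrΩ
  exact (hsub hb).2

/-- a connected open set that is not convex contains two sides of a triangle but not the third,
and it contains the whole triangle minus the third side -/
theorem exists_triangle {Ω : Set (E n)} (hΩ : IsOpen Ω) (hc : IsPreconnected Ω)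
    (hnc : ¬ Convex ℝ Ω) :
    ∃ v x z : E n, v ∈ Ω ∧ x ∈ Ω ∧ z ∈ Ω ∧ ¬ (segment ℝ x z ⊆ Ω) ∧
      ∀ t : ℝ, 0 ≤ t → t < 1 →
        segment ℝ (AffineMap.lineMap v x t) (AffineMap.lineMap v z t) ⊆ Ω := by
  obtain ⟨v, x, z, hv, hx, hz, hvx, hvz, hxz⟩ := exists_two_sides hΩ hc hnc
  let F : ℝ × ℝ → E n := fun q =>
    AffineMap.lineMap (AffineMap.lineMap v x q.1 : E n) (AffineMap.lineMap v z q.1) q.2
  have hF : Continuous F := by
    have : F = fun q : ℝ × ℝ => (1 - q.2) • ((1 - q.1) • v + q.1 • x)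
        + q.2 • ((1 - q.1) • v + q.1 • z) := by
      funext q
      simp only [F, AffineMap.lineMap_apply_module]
    rw [this]
    fun_prop
  let S : Set (ℝ × ℝ) := (Icc 0 1 ×ˢ Icc 0 1) ∩ F ⁻¹' Ωᶜ
  have hS : IsCompact S :=
    (isCompact_Icc.prod isCompact_Icc).inter_right (hΩ.isClosed_compl.preimage hF)
  let T : Set ℝ := Prod.fst '' S
  have hT : IsCompact T := hS.image continuous_fst
  have hTne : T.Nonempty := by
    rw [not_subset] at hxz
    obtain ⟨w, hw, hwΩ⟩ := hxz
    rw [segment_eq_image_lineMap] at hw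
    obtain ⟨s, hs, rfl⟩ := hw
    refine ⟨1, ⟨(1, s), ⟨⟨⟨zero_le_one, le_refl _⟩, hs⟩, ?_⟩, rfl⟩⟩
    show F (1, s) ∉ Ω
    simp only [F, AffineMap.lineMap_apply_one]
    exact hwΩ
  obtain ⟨τ, hτT, hτmin⟩ := hT.exists_isLeast hTne
  obtain ⟨⟨τ', s⟩, ⟨⟨hτ01, hs01⟩, hFΩ⟩, hfst⟩ := hτT
  simp only at hfst
  subst hfst
  have hτ01' : 0 ≤ τ' ∧ τ' ≤ 1 := hτ01
  have hgood : ∀ t : ℝ, 0 ≤ t → t < τ' →
      segment ℝ (AffineMap.lineMap v x t) (AffineMap.lineMap v z t) ⊆ Ω := by
    intro t ht0 ht1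
    rw [segment_eq_image_lineMap]
    rintro _ ⟨r, hr, rfl⟩
    by_contra hcon
    have : t ∈ T := ⟨(t, r), ⟨⟨⟨ht0, by linarith [hτ01'.2]⟩, hr⟩, hcon⟩, rfl⟩
    have := hτmin this
    linarith
  refine ⟨v, AffineMap.lineMap v x τ', AffineMap.lineMap v z τ', hv, ?_, ?_, ?_, ?_⟩
  · apply hvx
    rw [segment_eq_image_lineMap]
    exact ⟨τ', hτ01, rfl⟩
  · apply hvz
    rw [segment_eq_image_lineMap]
    exact ⟨τ', hτ01, rfl⟩
  · intro hsub
    apply hFΩ
    apply hsub
    rw [segment_eq_image_lineMap]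
    exact ⟨s, hs01, rfl⟩
  · intro t ht0 ht1
    have hτpos : 0 < τ' := by
      rcases lt_or_eq_of_le hτ01'.1 with h | h
      · exact h
      · exfalso
        apply hFΩ
        have : F (τ', s) = v := by
          rw [← h]
          simp only [F, AffineMap.lineMap_apply_zero, AffineMap.lineMap_same]
          rfl
        rw [this]
        exact hv
    have e : ∀ w : E n, (AffineMap.lineMap v (AffineMap.lineMap v w τ' : E n) t : E n)
        = AffineMap.lineMap v w (τ' * t) := by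
      intro w
      simp only [AffineMap.lineMap_apply_module]
      module
    rw [e x, e z]
    apply hgood
    · positivity
    · calc τ' * t < τ' * 1 := by gcongr
        _ = τ' := mul_one _

theorem convex_of_dim_one {Ω : Set (E 1)} (hΩ : IsOpen Ω) (hc : IsPreconnected Ω) :
    Convex ℝ Ω := by
  have hcont : Continuous (fun x : E 1 => x 0) := by fun_prop
  have hpre : IsPreconnected ((fun x : E 1 => x 0) '' Ω) := hc.image _ hcont.continuousOn
  have hconv : Convex ℝ ((fun x : E 1 => x 0) '' Ω) := hpre.ordConnected.convex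
  intro x hx y hy a b ha hb hab
  obtain ⟨w, hw, hwe⟩ := hconv (mem_image_of_mem _ hx) (mem_image_of_mem _ hy) ha hb hab
  have : w = a • x + b • y := by
    ext i
    rw [Subsingleton.elim i 0]
    simpa using hwe
  rw [← this]
  exact hw

end HMor
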