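import Pool.Agent.W_MP_55e37b_an.Defs
import Pool.Agent.W_MP_55e37b_an.Geom

open MeasureTheory Metric Set Filter Topology
open scoped ENNReal

namespace HMor

variable {n : ℕ}

private theorem disc_dependent {X Z : E 2} (h : X 0 * Z 1 - X 1 * Z 0 = 0) (hne : X ≠ Z) :
    ∃ c d : ℝ, c + d < 0 ∧ c • X + d • Z = 0 := by
  have key : ∀ k : Fin 2, (Z k) • X + (- X k) • Z = 0 := by
    intro k
    ext i
    fin_cases k <;> fin_cases i <;> simp <;> linarith
  have hk : ∃ k : Fin 2, Z k ≠ X k := by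
    by_contra hcon
    push Not at hcon
    exact hne (by ext i; exact (hcon i).symm)
  obtain ⟨k, hk⟩ := hk
  rcases lt_or_gt_of_ne hk with hlt | hgt
  · exact ⟨Z k, - X k, by linarith, key k⟩
  · refine ⟨- Z k, X k, by linarith, ?_⟩
    have := congrArg (fun u => -u) (key k)
    simp only [neg_add, neg_zero] at this
    rw [← this]
    simp

/-- a connected open planar set that is not convex is touched by a disc from outside -/
theorem exists_touching_disc {Ω : Set (E 2)} (hΩ : IsOpen Ω) (hc : IsPreconnected Ω)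
    (hnc : ¬ Convex ℝ Ω) :
    ∃ (y q : E 2) (r : ℝ), y ∉ Ω ∧ y ≠ q ∧ 0 < r ∧ ball y r \ closedBall q (dist y q) ⊆ Ω := by
  obtain ⟨v, x, z, hv, hx, hz, hseg, htri⟩ := exists_triangle hΩ hc hnc
  obtain ⟨p, hp, hpΩ⟩ := not_subset.mp hseg
  obtain ⟨a, b, ha, hb, hab, rfl⟩ := hp
  obtain ⟨X, hX⟩ : ∃ X, X = x - v := ⟨_, rfl⟩
  obtain ⟨Z, hZ⟩ : ∃ Z, Z = z - v := ⟨_, rfl⟩
  have hxX : x = v + X := by rw [hX]; abel
  have hzZ : z = v + Z := by rw [hZ]; abel
  -- the triangle
  have htri' : ∀ a b : ℝ, 0 ≤ a → 0 ≤ b → a + b < 1 → v + a • X + b • Z ∈ Ω := by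
    intro a b ha hb hab
    rcases (add_nonneg ha hb).eq_or_lt with h0 | h0
    · have ha0 : a = 0 := by linarith
      have hb0 : b = 0 := by linarith
      simpa [ha0, hb0] using hv
    · refine htri (a + b) h0.le hab ⟨a / (a + b), b / (a + b), by positivity, by positivity, ?_, ?_⟩
      · field_simp
      · rw [AffineMap.lineMap_apply_module', AffineMap.lineMap_apply_module', ← hX, ← hZ]
        have h1 : a / (a + b) + b / (a + b) = 1 := by field_simp
        rw [smul_add, smul_add, smul_smul, smul_smul, div_mul_cancel₀ _ h0.ne',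
          div_mul_cancel₀ _ h0.ne']
        have h2 : v = (a / (a + b)) • v + (b / (a + b)) • v := by
          rw [← add_smul, h1, one_smul]
        nth_rewrite 3 [h2]
        abel
  have hpe : a • x + b • z = v + a • X + b • Z := by
    rw [hxX, hzZ, smul_add, smul_add]
    have h2 : v = a • v + b • v := by
      rw [← add_smul, hab, one_smul]
    nth_rewrite 3 [h2]
    abel
  rw [hpe] at hpΩ
  have hapos : 0 < a := by
    rcases ha.eq_or_lt with h | h
    · exfalso
      apply hpΩ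
      have : b = 1 := by linarith
      rw [← h, this, zero_smul, one_smul, add_zero, ← hzZ]
      exact hz
    · exact h
  have hbpos : 0 < b := by
    rcases hb.eq_or_lt with h | h
    · exfalso
      apply hpΩ
      have : a = 1 := by linarith
      rw [← h, this, zero_smul, one_smul, add_zero, ← hxX]
      exact hx
    · exact h
  have hXZ : X ≠ Z := by
    intro h
    apply hpΩ
    rw [← h, add_assoc, ← add_smul, hab, one_smul, ← hxX]
    exact hx
  -- the determinant
  obtain ⟨D, hD⟩ : ∃ D, D = X 0 * Z 1 - X 1 * Z 0 := ⟨_, rfl⟩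
  have hD0 : D ≠ 0 := by
    intro h0
    obtain ⟨c, d, hcd, hrel⟩ := disc_dependent (by rw [← hD]; exact h0) hXZ
    obtain ⟨s, hs⟩ : ∃ s, s = min (a / (|c| + 1)) (b / (|d| + 1)) := ⟨_, rfl⟩
    have hspos : 0 < s := by rw [hs]; positivity
    have h1 : s * |c| ≤ a := by
      have : s ≤ a / (|c| + 1) := hs ▸ min_le_left _ _
      have h2 : s * (|c| + 1) ≤ a := by
        rwa [le_div_iff₀ (by positivity)] at this
      nlinarith
    have h2 : s * |d| ≤ b := by
      have : s ≤ b / (|d| + 1) := hs ▸ min_le_right _ _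
      have h2 : s * (|d| + 1) ≤ b := by
        rwa [le_div_iff₀ (by positivity)] at this
      nlinarith
    have h3 : 0 ≤ a + s * c := by
      have := neg_abs_le c
      nlinarith
    have h4 : 0 ≤ b + s * d := by
      have := neg_abs_le d
      nlinarith
    have h5 := htri' (a + s * c) (b + s * d) h3 h4 (by nlinarith)
    apply hpΩ
    convert h5 using 1
    have : (a + s * c) • X + (b + s * d) • Z = a • X + b • Z + s • (c • X + d • Z) := by
      module
    rw [add_assoc, add_assoc, this, hrel, smul_zero, add_zero]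
  -- the coordinates
  obtain ⟨A, hA⟩ : ∃ A : E 2 → ℝ, A = fun P => ((P - v) 0 * Z 1 - (P - v) 1 * Z 0) / D := ⟨_, rfl⟩
  obtain ⟨B, hB⟩ : ∃ B : E 2 → ℝ, B = fun P => (X 0 * (P - v) 1 - X 1 * (P - v) 0) / D := ⟨_, rfl⟩
  have hAc : Continuous A := by rw [hA]; fun_prop
  have hBc : Continuous B := by rw [hB]; fun_prop
  have hrep : ∀ P, P = v + A P • X + B P • Z := by
    intro P
    ext i
    fin_cases i
    · simp [hA, hB]
      field_simp
      rw [hD]
      ring
    · simp [hA, hB]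
      field_simp
      rw [hD]
      ring
  have hAv : ∀ s t : ℝ, A (v + s • X + t • Z) = s := by
    intro s t
    simp [hA]
    field_simp
    rw [hD]
    ring
  have hBv : ∀ s t : ℝ, B (v + s • X + t • Z) = t := by
    intro s t
    simp [hB]
    field_simp
    rw [hD]
    ring
  -- the room beyond x and z
  obtain ⟨η, hη, hη1, hηx, hηz⟩ : ∃ η : ℝ, 0 < η ∧ η ≤ 1 ∧
      (∀ s : ℝ, 1 ≤ s → s ≤ 1 + η → v + s • X ∈ Ω) ∧
      (∀ s : ℝ, 1 ≤ s → s ≤ 1 + η → v + s • Z ∈ Ω) := by
    have e1 : ∀ᶠ s : ℝ in 𝓝 1, v + s • X ∈ Ω := by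
      have hcont : ContinuousAt (fun s : ℝ => v + s • X) 1 := by fun_prop
      apply hcont.eventually_mem
      apply hΩ.mem_nhds
      simpa [← hxX] using hx
    have e2 : ∀ᶠ s : ℝ in 𝓝 1, v + s • Z ∈ Ω := by
      have hcont : ContinuousAt (fun s : ℝ => v + s • Z) 1 := by fun_prop
      apply hcont.eventually_mem
      apply hΩ.mem_nhds
      simpa [← hzZ] using hz
    obtain ⟨ε, hε, hball⟩ := Metric.eventually_nhds_iff.mp (e1.and e2)
    refine ⟨min (ε / 2) 1, by positivity, min_le_right _ _, ?_, ?_⟩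
    · intro s hs1 hs2
      refine (hball (y := s) ?_).1
      have := min_le_left (ε / 2) 1
      rw [Real.dist_eq, abs_lt]
      constructor <;> linarith
    · intro s hs1 hs2
      refine (hball (y := s) ?_).2
      have := min_le_left (ε / 2) 1
      rw [Real.dist_eq, abs_lt]
      constructor <;> linarith
  -- the trapezoid
  obtain ⟨S, hS⟩ : ∃ S : Set (E 2), S = {P | 0 ≤ A P ∧ 0 ≤ B P ∧ 1 / 2 ≤ A P + B P ∧
      A P + B P ≤ 1 + η} := ⟨_, rfl⟩
  have hSclosed : IsClosed S := by
    rw [hS]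
    refine (isClosed_le continuous_const hAc).inter ((isClosed_le continuous_const hBc).inter
      ((isClosed_le continuous_const (hAc.add hBc)).inter
        (isClosed_le (hAc.add hBc) continuous_const)))
  have hSnorm : ∀ P ∈ S, ‖P - x‖ ≤ 3 * ‖X‖ + 2 * ‖Z‖ := by
    intro P hP
    rw [hS] at hP
    obtain ⟨h1, h2, h3, h4⟩ := hP
    have : P - x = (A P - 1) • X + B P • Z := by
      nth_rewrite 1 [hrep P]
      rw [hxX]
      module
    rw [this]
    refine (norm_add_le _ _).trans ?_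
    rw [norm_smul, norm_smul, Real.norm_eq_abs, Real.norm_eq_abs]
    have h5 : |A P - 1| ≤ 3 := by rw [abs_le]; constructor <;> linarith
    have h6 : |B P| ≤ 2 := by rw [abs_le]; constructor <;> linarith
    gcongr
  have hKcomp : IsCompact (S \ Ω) := by
    apply Metric.isCompact_of_isClosed_isBounded
    · exact hSclosed.sdiff hΩ
    · rw [Metric.isBounded_iff_subset_closedBall x]
      refine ⟨3 * ‖X‖ + 2 * ‖Z‖, ?_⟩
      intro P hP
      rw [mem_closedBall, dist_eq_norm]
      exact hSnorm P hP.1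
  have hpS : v + a • X + b • Z ∈ S := by
    rw [hS]
    simp only [mem_setOf_eq, hAv, hBv]
    refine ⟨ha, hb, ?_, ?_⟩ <;> linarith
  -- the normal
  obtain ⟨N, hN⟩ : ∃ N : E 2, N = D • !₂[(X 1 - Z 1), - (X 0 - Z 0)] := ⟨_, rfl⟩
  have hinner : ∀ P, inner ℝ (P - x) N = - (A P + B P - 1) * D ^ 2 := by
    intro P
    have : P - x = (A P - 1) • X + B P • Z := by
      nth_rewrite 1 [hrep P]
      rw [hxX]
      module
    rw [this, hN]
    simp [PiLp.inner_apply, Fin.sum_univ_two]
    rw [hD]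
    ring
  have hNpos : 0 < ‖N‖ := by
    rw [norm_pos_iff]
    intro h0
    have := hinner v
    rw [h0, inner_zero_right] at this
    have h1 : A v = 0 := by simpa using hAv 0 0
    have h2 : B v = 0 := by simpa using hBv 0 0
    rw [h1, h2] at this
    have h3 : D ^ 2 = 0 := by linarith
    exact hD0 (pow_eq_zero_iff (two_ne_zero) |>.mp h3)
  obtain ⟨C, hC⟩ : ∃ C, C = 3 * ‖X‖ + 2 * ‖Z‖ := ⟨_, rfl⟩
  have hC0 : 0 ≤ C := by rw [hC]; positivity
  obtain ⟨T, hT⟩ : ∃ T, T = (C ^ 2 + 1) / (2 * η * D ^ 2) := ⟨_, rfl⟩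
  have hD2 : 0 < D ^ 2 := by positivity
  have hTpos : 0 < T := by rw [hT]; positivity
  have hTeq : 2 * T * η * D ^ 2 = C ^ 2 + 1 := by
    rw [hT]
    field_simp
  obtain ⟨q, hq⟩ : ∃ q, q = x - T • N := ⟨_, rfl⟩
  have hdist : ∀ P, dist P q ^ 2 = ‖P - x‖ ^ 2 - 2 * T * (A P + B P - 1) * D ^ 2 +
      T ^ 2 * ‖N‖ ^ 2 := by
    intro P
    rw [dist_eq_norm, hq, show P - (x - T • N) = (P - x) + T • N by abel,
      norm_add_sq_real, inner_smul_right, hinner, norm_smul, Real.norm_eq_abs, mul_pow, sq_abs]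
    ring
  obtain ⟨y, hyK, hymax⟩ := hKcomp.exists_isMaxOn ⟨_, hpS, hpΩ⟩
    (f := fun P => dist P q) (by fun_prop)
  have hyS := hyK.1
  rw [hS] at hyS
  obtain ⟨hA0, hB0, hAB1, hAB2⟩ := hyS
  have hyge : T ^ 2 * ‖N‖ ^ 2 ≤ dist y q ^ 2 := by
    have h1 : dist (v + a • X + b • Z) q ≤ dist y q := hymax ⟨hpS, hpΩ⟩
    have h2 : dist (v + a • X + b • Z) q ^ 2 ≤ dist y q ^ 2 := by gcongr
    refine le_trans ?_ h2
    rw [hdist, hAv, hBv, hab]
    nlinarith [sq_nonneg ‖(v + a • X + b • Z) - x‖]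
  have hdpos : 0 < dist y q := by
    by_contra hcon
    have : dist y q = 0 := le_antisymm (not_lt.mp hcon) dist_nonneg
    rw [this] at hyge
    have : 0 < T ^ 2 * ‖N‖ ^ 2 := by positivity
    linarith
  -- y is an interior point of S
  have hABge : 1 ≤ A y + B y := by
    by_contra hcon
    apply hyK.2
    rw [hrep y]
    exact htri' _ _ hA0 hB0 (not_le.mp hcon)
  have hApos : 0 < A y := by
    rcases hA0.eq_or_lt with h | h
    · exfalso
      apply hyK.2
      rw [hrep y, ← h, zero_smul, add_zero]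
      exact hηz _ (by linarith) (by linarith)
    · exact h
  have hBpos : 0 < B y := by
    rcases hB0.eq_or_lt with h | h
    · exfalso
      apply hyK.2
      rw [hrep y, ← h, zero_smul, add_zero]
      exact hηx _ (by linarith) (by linarith)
    · exact h
  have hABlt : A y + B y < 1 + η := by
    rcases hAB2.eq_or_lt with h | h
    · exfalso
      have h1 := hdist y
      rw [h] at h1
      have h2 : ‖y - x‖ ^ 2 ≤ C ^ 2 := by
        have := hSnorm y hyK.1
        rw [← hC] at this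
        gcongr
      nlinarith
    · exact h
  have hnhds : S ∈ 𝓝 y := by
    have e1 : ∀ᶠ P in 𝓝 y, 0 < A P := hAc.continuousAt.eventually_const_lt hApos
    have e2 : ∀ᶠ P in 𝓝 y, 0 < B P := hBc.continuousAt.eventually_const_lt hBpos
    have e3 : ∀ᶠ P in 𝓝 y, 1 / 2 < A P + B P :=
      (hAc.add hBc).continuousAt.eventually_const_lt
        (show (1 : ℝ) / 2 < A y + B y by linarith)
    have e4 : ∀ᶠ P in 𝓝 y, A P + B P < 1 + η :=
      (hAc.add hBc).continuousAt.eventually_lt_const hABlt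
    filter_upwards [e1, e2, e3, e4] with P h1 h2 h3 h4
    rw [hS]
    exact ⟨h1.le, h2.le, h3.le, h4.le⟩
  obtain ⟨r, hr, hball⟩ := Metric.mem_nhds_iff.mp hnhds
  refine ⟨y, q, r, hyK.2, dist_pos.mp hdpos, hr, ?_⟩
  rintro P ⟨hP1, hP2⟩
  by_contra hPΩ
  apply hP2
  rw [mem_closedBall]
  exact hymax ⟨hball hP1, hPΩ⟩

end HMor
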