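import Pool.Agent.W_MP_55e37b_an.Defs
import Pool.Agent.W_MP_55e37b_an.Lower

open MeasureTheory Metric Set Filter Topology
open scoped ENNReal

namespace HMor

variable {n : ℕ}

theorem IsMin.pos (hn : 1 ≤ n) {p : ℝ} (hp : (n : ℝ) < p) {Ω : Set (E n)} (hΩ : IsOpen Ω)
    (hc : IsPreconnected Ω) {a : E n} (ha : a ∈ Ω) {u : E n → ℝ} {g : E n → E n}
    (h : IsMin p Ω a u g) (hu : ∀ x, 0 ≤ u x) : ∀ x ∈ Ω, 0 < u x := by
  have hn' : (1 : ℝ) ≤ n := by exact_mod_cast hn
  have hp1 : 1 < p := lt_of_le_of_lt hn' hp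
  have hucont : Continuous u := h.mem.isD.cont
  set P : Set (E n) := {x | 0 < u x} with hP
  have hPopen : IsOpen P := isOpen_lt continuous_const hucont
  have hPne : (Ω ∩ P).Nonempty := ⟨a, ha, by rw [hP, mem_ofPred_eq, h.one]; exact one_pos⟩
  have hcl : closure (Ω ∩ P) ∩ Ω ⊆ Ω ∩ P := by
    rintro z ⟨hz1, hz2⟩
    refine ⟨hz2, ?_⟩
    obtain ⟨d, hd, hball⟩ := Metric.isOpen_iff.1 hΩ z hz2
    obtain ⟨ζ, hζ, hζz⟩ := Metric.mem_closure_iff.1 hz1 (d / 4) (by positivity)
    by_cases hzζ : z = ζ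
    · rw [hzζ]; exact hζ.2
    have hdist : 0 < dist z ζ := dist_pos.2 hzζ
    have huζ : 0 < u ζ := hζ.2
    -- lower bound near `ζ`
    obtain ⟨s₀, hs₀, hs₀'⟩ := Metric.continuousAt_iff.1 hucont.continuousAt (u ζ / 2)
      (by positivity)
    set s : ℝ := min (s₀ / 2) (dist z ζ / 2) with hs
    have hspos : 0 < s := lt_min (by positivity) (by positivity)
    set m : ℝ := min (u ζ / 2) 1 with hm
    have hmpos : 0 < m := lt_min (by positivity) one_pos
    have hRball : ball ζ (d / 2) ⊆ Ω := by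
      intro w hw
      apply hball
      rw [mem_ball] at hw ⊢
      calc dist w z ≤ dist w ζ + dist ζ z := dist_triangle _ _ _
        _ < d / 2 + d / 4 := by rw [dist_comm ζ z]; linarith
        _ < d := by linarith
    have hum : ∀ w ∈ closedBall ζ s, m ≤ u w := by
      intro w hw
      have h1 : dist w ζ < s₀ := by
        have := mem_closedBall.1 hw
        have h2 := min_le_left (s₀ / 2) (dist z ζ / 2)
        linarith
      have h2 := hs₀' h1
      rw [Real.dist_eq, abs_lt] at h2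
      have h3 := min_le_left (u ζ / 2) 1
      linarith [h2.1]
    have hsR : s < d / 2 := by
      have h2 := min_le_right (s₀ / 2) (dist z ζ / 2)
      linarith
    have hlow := h.lower_barrier hn hp hu hspos hsR hmpos (min_le_right _ _) hRball hum z
      (by
        have h2 := min_le_right (s₀ / 2) (dist z ζ / 2)
        linarith) (by linarith)
    refine lt_of_lt_of_le ?_ hlow
    have hβ0 : 0 < (p - n) / (p - 1) := div_pos (by linarith) (by linarith)
    apply mul_pos hmpos
    apply div_pos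
    · exact sub_pos.2 (Real.rpow_lt_rpow dist_nonneg (by linarith) hβ0)
    · exact sub_pos.2 (Real.rpow_lt_rpow hspos.le hsR hβ0)
  have hsub : Ω ⊆ Ω ∩ P := by
    by_contra hcon
    obtain ⟨w, hwΩ, hwP⟩ := not_subset.1 hcon
    have hopen1 : IsOpen (Ω ∩ P) := hΩ.inter hPopen
    have hopen2 : IsOpen (closure (Ω ∩ P))ᶜ := isClosed_closure.isOpen_compl
    have := hc (Ω ∩ P) (closure (Ω ∩ P))ᶜ hopen1 hopen2
      (by
        intro y hy
        by_cases hyc : y ∈ closure (Ω ∩ P)
        · exact Or.inl (hcl ⟨hyc, hy⟩)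
        · exact Or.inr hyc)
      (by
        obtain ⟨b, hb⟩ := hPne
        exact ⟨b, hb.1, hb⟩)
      ⟨w, hwΩ, fun hcl' => hwP (hcl ⟨hcl', hwΩ⟩)⟩
    obtain ⟨y, -, hy1, hy2⟩ := this
    exact hy2 (subset_closure hy1)
  intro x hx
  exact (hsub hx).2

end HMor
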