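import Pool.Agent.W_MP_55e37b_an.Defs
import Pool.Agent.W_MP_55e37b_an.Core
import Pool.Agent.W_MP_55e37b_an.Sim
import Pool.Agent.W_MP_55e37b_an.Bridge
import Pool.Agent.W_MP_55e37b_an.Attain
import Pool.Agent.W_MP_55e37b_an.Pos
import Pool.Agent.W_MP_55e37b_an.Geom
import Pool.Agent.W_MP_55e37b_an.Disc

open MeasureTheory Metric Set Filter Topology
open scoped ENNReal

namespace HMor

variable {n : ℕ}

theorem energy_nonneg (p : ℝ) (g : E n → E n) : 0 ≤ energy p g :=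
  integral_nonneg fun _ => Real.rpow_nonneg (norm_nonneg _) _

theorem lam_le {p : ℝ} {Ω : Set (E n)} {u : E n → ℝ} {g : E n → E n} (hu : IsD0 p Ω u g)
    (hu0 : u ≠ 0) : lam p Ω ≤ ratio p Ω u g :=
  iInf_le_of_le u (iInf_le_of_le g (iInf_le_of_le hu (iInf_le _ hu0)))

/-- `Ω` is touched at `y` from outside by the parabolic cylinder
`{x : (x-y)·ν ≤ -c ((x-y)·w)²}` -/
theorem touching (hn : 2 ≤ n) {p : ℝ} (hp : (n : ℝ) < p) {e : E n} (he : ‖e‖ = 1)
    {Ω : Set (E n)} (hΩ : IsOpen Ω) {y ν w : E n} (hν : ‖ν‖ = 1) (hw : ‖w‖ = 1)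
    (hνw : inner ℝ ν w = 0) {c r : ℝ} (hc : 0 < c) (hr : 0 < r) (hy : y ∉ Ω)
    (h : {x : E n | ‖x - y‖ < r ∧ -c * (inner ℝ (x - y) w) ^ 2 < inner ℝ (x - y) ν} ⊆ Ω) :
    lam p Ω < lam p (halfspace e 0) := by
  have hn1 : 1 ≤ n := by omega
  have hn2 : (2 : ℝ) ≤ n := by exact_mod_cast hn
  have hp1 : 1 < p := by linarith
  obtain ⟨L, hL, u, g, hu, hu1, hE⟩ := core hn hp hν hw hνw (mul_pos hc hr)
  set s := L / r with hs
  have hs0 : 0 < s := div_pos hL hr
  set t := r / L with ht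
  have ht0 : 0 < t := div_pos hr hL
  have hst : s * t = 1 := by rw [hs, ht]; field_simp
  set A : E n ≃ₗᵢ[ℝ] E n := LinearIsometryEquiv.refl ℝ (E n) with hA
  have hD := hu.isD.comp_sim hp1.le A (-(s • y)) hs0
  have hEn := energy_comp_sim p g A (-(s • y)) hs0
  set g' : E n → E n := fun x => s • A.symm (g (-(s • y) + s • A x)) with hg'
  have hu' : IsD0 p Ω (fun x => u (-(s • y) + s • A x)) g' := by
    refine ⟨hD, fun x hx => ?_⟩
    apply hu.zero
    intro hmem
    apply hx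
    apply h
    obtain ⟨h1, h2⟩ := hmem
    have hx' : -(s • y) + s • A x = s • (x - y) := by
      rw [hA]; simp [smul_sub]; abel
    rw [hx'] at h1 h2
    rw [norm_smul, Real.norm_eq_abs, abs_of_pos hs0] at h1
    rw [real_inner_smul_left, real_inner_smul_left] at h2
    constructor
    · rw [hs, div_mul_eq_mul_div, div_lt_iff₀ hr] at h1
      exact lt_of_mul_lt_mul_left h1 hL.le
    · have h3 : -(c * r / L) * (s * inner ℝ (x - y) w) ^ 2 =
          s * (-c * (inner ℝ (x - y) w) ^ 2) := by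
        rw [hs]; field_simp
      rw [h3] at h2
      exact lt_of_mul_lt_mul_left h2 hs0.le
  set x₁ : E n := y + t • ν with hx₁
  have hx₁s : -(s • y) + s • A x₁ = ν := by
    rw [hA, hx₁]
    simp only [LinearIsometryEquiv.coe_refl, id, smul_add, smul_smul, hst, one_smul]
    abel
  have hux₁ : u (-(s • y) + s • A x₁) = 1 := by
    rw [hx₁s, hu1]
  have hx₁Ω : x₁ ∈ Ω := by
    by_contra hcon
    have := hu'.zero x₁ hcon
    rw [hux₁] at this
    exact one_ne_zero this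
  have hΩu : Ω ≠ univ := fun hh => hy (hh ▸ mem_univ _)
  have hne : (fun x => u (-(s • y) + s • A x)) ≠ 0 := by
    intro hh
    have h0 : u (-(s • y) + s • A x₁) = 0 := congrFun hh x₁
    rw [hux₁] at h0
    exact one_ne_zero h0
  have h1 := lam_le hu' hne
  have h2 := ratio_le hn1 hp hΩ hΩu hu' hx₁Ω (by rw [hux₁]; exact one_ne_zero)
  rw [hux₁, abs_one, Real.one_rpow, div_one, hEn] at h2
  have hd : infDist x₁ Ωᶜ ≤ t := by
    refine (infDist_le_dist_of_mem (show y ∈ Ωᶜ from hy)).trans ?_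
    rw [dist_eq_norm, hx₁, add_sub_cancel_left, norm_smul, hν, mul_one, Real.norm_eq_abs,
      abs_of_pos ht0]
  have h3 : (infDist x₁ Ωᶜ) ^ (p - n) * (s ^ (p - n) * energy p g) ≤ energy p g := by
    have h4 : (infDist x₁ Ωᶜ) ^ (p - n) ≤ t ^ (p - n) :=
      Real.rpow_le_rpow infDist_nonneg hd (by linarith)
    have h5 : 0 ≤ s ^ (p - n) * energy p g :=
      mul_nonneg (Real.rpow_nonneg hs0.le _) (energy_nonneg p g)
    calc _ ≤ t ^ (p - n) * (s ^ (p - n) * energy p g) := mul_le_mul_of_nonneg_right h4 h5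
      _ = (s * t) ^ (p - n) * energy p g := by
          rw [Real.mul_rpow hs0.le ht0.le]; ring
      _ = energy p g := by rw [hst, Real.one_rpow, one_mul]
  rw [lam_halfspace hn1 hp he, cH_eq hn1 hp he hν]
  calc lam p Ω ≤ ENNReal.ofReal ((infDist x₁ Ωᶜ) ^ (p - n) * (s ^ (p - n) * energy p g)) :=
        h1.trans h2
    _ ≤ ENNReal.ofReal (energy p g) := ENNReal.ofReal_le_ofReal h3
    _ < ENNReal.ofReal (cH p ν) := (ENNReal.ofReal_lt_ofReal_iff (cH_pos hn1 hp hν)).2 hE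

theorem convex_extremal (hn : 1 ≤ n) {p : ℝ} (hp : (n : ℝ) < p) {e : E n} (he : ‖e‖ = 1)
    {Ω : Set (E n)} (hΩ : IsOpen Ω) (hΩ' : Ω ≠ univ) (hc : Convex ℝ Ω)
    (hl : lam p Ω = lam p (halfspace e 0)) (hext : HasExtremal p Ω) :
    ∃ (ν : E n) (c : ℝ), ‖ν‖ = 1 ∧ Ω = halfspace ν c := by
  have hn1 : (1 : ℝ) ≤ n := by exact_mod_cast hn
  have hp1 : 1 < p := by linarith
  obtain ⟨u, g, hu, hu0, hr⟩ := hext
  obtain ⟨x₀, hx₀, hux₀, hr'⟩ := ratio_attained hn hp hΩ hΩ' hu hu0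
  have hcne : (Ωᶜ).Nonempty := by
    rw [nonempty_compl]; exact hΩ'
  obtain ⟨y, hy, hxy⟩ := (hΩ.isClosed_compl).exists_infDist_eq_dist hcne x₀
  set d := dist x₀ y with hd
  have hd0 : 0 < d := by
    rw [hd, dist_pos]
    rintro rfl
    exact hy hx₀
  rw [hxy] at hr'
  have hsub := convex_subset_halfspace hΩ hc hx₀ hy hxy.symm
  rw [← hd] at hsub
  set ν : E n := d⁻¹ • (x₀ - y) with hν
  have hxyn : ‖x₀ - y‖ = d := by rw [hd, dist_eq_norm]
  have hν1 : ‖ν‖ = 1 := by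
    rw [hν, norm_smul, hxyn, Real.norm_eq_abs, abs_of_pos (inv_pos.2 hd0), inv_mul_cancel₀ hd0.ne']
  have hin : inner ℝ (x₀ - y) ν = d := by
    rw [hν, real_inner_smul_right, real_inner_self_eq_norm_sq, hxyn]
    field_simp
  have hux : 0 < |u x₀| := abs_pos.2 hux₀
  have hcH := cH_pos hn hp he
  -- the energy
  have hEn : d ^ (p - n) * energy p g / |u x₀| ^ p = cH p e := by
    have h1 : ENNReal.ofReal (d ^ (p - n) * energy p g / |u x₀| ^ p) =
        ENNReal.ofReal (cH p e) := by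
      rw [← hr', hr, hl, lam_halfspace hn hp he]
    have h2 : 0 ≤ d ^ (p - n) * energy p g / |u x₀| ^ p :=
      div_nonneg (mul_nonneg (Real.rpow_nonneg hd0.le _) (energy_nonneg p g))
        (Real.rpow_nonneg hux.le _)
    exact (ENNReal.ofReal_eq_ofReal_iff h2 hcH.le).1 h1
  obtain ⟨g', hg'D, hg'n⟩ := hu.isD.abs hp1.le
  have hD := hg'D.const_mul hp1.le (|u x₀|)⁻¹
  have hU : IsD0 p Ω (fun x => (|u x₀|)⁻¹ * |u x|) (fun x => (|u x₀|)⁻¹ • g' x) :=
    ⟨hD, fun x hx => by simp [hu.zero x hx]⟩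
  have hEU : energy p (fun x => (|u x₀|)⁻¹ • g' x) = cH p e * d ^ ((n : ℝ) - p) := by
    have h1 : energy p (fun x => (|u x₀|)⁻¹ • g' x) = (|u x₀|)⁻¹ ^ p * energy p g := by
      unfold energy
      rw [← integral_const_mul]
      congr 1
      ext x
      rw [norm_smul, hg'n, Real.norm_eq_abs, abs_of_pos (inv_pos.2 hux),
        Real.mul_rpow (inv_pos.2 hux).le (norm_nonneg _)]
    have h2 : d ^ ((n : ℝ) - p) = (d ^ (p - n))⁻¹ := by
      rw [← Real.rpow_neg hd0.le, neg_sub]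
    rw [h1, ← hEn, h2, Real.inv_rpow hux.le]
    have h3 : 0 < d ^ (p - n) := Real.rpow_pos_of_pos hd0 _
    field_simp
  have hmin : IsMin p (halfspace ν (inner ℝ y ν)) x₀ (fun x => (|u x₀|)⁻¹ * |u x|)
      (fun x => (|u x₀|)⁻¹ • g' x) := by
    refine ⟨hU.mono hsub, by simp only [inv_mul_cancel₀ hux.ne'], fun u' g'' hu' hu1 => ?_⟩
    have h1 := halfspace_energy_ge hn hp he hν1 hu' (x := x₀) (by rw [hin]; exact hd0)
    rw [hu1, abs_one, Real.one_rpow, one_mul, hin] at h1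
    rw [hEU, mul_comm]
    exact h1
  have hHo : IsOpen (halfspace ν (inner ℝ y ν)) := isOpen_lt continuous_const (by fun_prop)
  have hHc : IsPreconnected (halfspace ν (inner ℝ y ν)) := by
    apply Convex.isPreconnected
    intro a ha b hb s t hs ht hst
    have ha' : inner ℝ y ν < inner ℝ a ν := ha
    have hb' : inner ℝ y ν < inner ℝ b ν := hb
    show inner ℝ y ν < inner ℝ (s • a + t • b) ν
    rw [inner_add_left, real_inner_smul_left, real_inner_smul_left]
    rcases hs.eq_or_lt with h0 | h0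
    · subst h0
      have : t = 1 := by linarith
      subst this
      linarith
    · have h1 : s * inner ℝ y ν < s * inner ℝ a ν := mul_lt_mul_of_pos_left ha' h0
      have h2 : t * inner ℝ y ν ≤ t * inner ℝ b ν := mul_le_mul_of_nonneg_left hb'.le ht
      have h3 : inner ℝ y ν = s * inner ℝ y ν + t * inner ℝ y ν := by
        rw [← add_mul, hst, one_mul]
      linarith
  refine ⟨ν, inner ℝ y ν, hν1, Subset.antisymm hsub fun x hx => ?_⟩
  have hpos := hmin.pos hn hp hHo hHc (hsub hx₀) (fun x => by positivity) x hx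
  by_contra hcon
  simp [hu.zero x hcon] at hpos

end HMor
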