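import Pool.Agent.W_MP_55e37b_an.Defs
import Pool.Agent.W_MP_55e37b_an.Final

open MeasureTheory Metric Set Filter Topology
open scoped ENNReal

namespace HMor

variable {n : ℕ}

theorem exists_orthonormal (hn : 2 ≤ n) (ν : E n) :
    ∃ w : E n, ‖w‖ = 1 ∧ inner ℝ ν w = 0 := by
  have h1 : (ℝ ∙ ν)ᗮ ≠ ⊥ := by
    intro h
    rw [Submodule.orthogonal_eq_bot_iff] at h
    have h2 : Module.finrank ℝ (ℝ ∙ ν) ≤ 1 := by
      refine (finrank_span_le_card ({ν} : Set (E n))).trans ?_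
      simp
    rw [h, finrank_top, finrank_euclideanSpace, Fintype.card_fin] at h2
    omega
  obtain ⟨w, hw, hw0⟩ := Submodule.exists_mem_ne_zero_of_ne_bot h1
  have hwn : 0 < ‖w‖ := norm_pos_iff.2 hw0
  refine ⟨‖w‖⁻¹ • w, ?_, ?_⟩
  · rw [norm_smul, norm_inv, norm_norm, inv_mul_cancel₀ hwn.ne']
  · rw [real_inner_smul_right, Submodule.mem_orthogonal_singleton_iff_inner_right.1 hw, mul_zero]

/-- touching from outside by a ball -/
theorem touching_ball (hn : 2 ≤ n) {p : ℝ} (hp : (n : ℝ) < p) {e : E n} (he : ‖e‖ = 1)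
    {Ω : Set (E n)} (hΩ : IsOpen Ω) {y q : E n} {r : ℝ} (hy : y ∉ Ω) (hyq : y ≠ q) (hr : 0 < r)
    (h : ball y r \ closedBall q (dist y q) ⊆ Ω) : lam p Ω < lam p (halfspace e 0) := by
  set ρ := dist y q with hρ
  have hρ0 : 0 < ρ := dist_pos.2 hyq
  have hyqn : ‖y - q‖ = ρ := by rw [hρ, dist_eq_norm]
  set ν : E n := ρ⁻¹ • (y - q) with hν
  have hν1 : ‖ν‖ = 1 := by
    rw [hν, norm_smul, hyqn, Real.norm_eq_abs, abs_of_pos (inv_pos.2 hρ0), inv_mul_cancel₀ hρ0.ne']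
  obtain ⟨w, hw, hνw⟩ := exists_orthonormal hn ν
  refine touching hn hp he hΩ hν1 hw hνw (c := 1 / (2 * ρ)) (r := r) (by positivity) hr hy ?_
  rintro x ⟨hx1, hx2⟩
  apply h
  refine ⟨by rw [mem_ball, dist_eq_norm]; exact hx1, ?_⟩
  intro hx3
  rw [mem_closedBall, dist_eq_norm] at hx3
  have h1 : x - q = (x - y) + ρ • ν := by
    rw [hν, smul_smul, mul_inv_cancel₀ hρ0.ne', one_smul]; abel
  have h2 : ‖x - q‖ ^ 2 = ‖x - y‖ ^ 2 + 2 * ρ * inner ℝ (x - y) ν + ρ ^ 2 := by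
    rw [h1, norm_add_sq_real, real_inner_smul_right, norm_smul, hν1, mul_one, Real.norm_eq_abs,
      sq_abs]
    ring
  have h3 : ‖x - q‖ ^ 2 ≤ ρ ^ 2 := pow_le_pow_left₀ (norm_nonneg _) hx3 2
  have h4 : (inner ℝ (x - y) w) ^ 2 ≤ ‖x - y‖ ^ 2 := by
    have := bessel_two hν1 hw hνw (x - y)
    nlinarith [sq_nonneg (inner ℝ (x - y) ν)]
  have h5 : -(inner ℝ (x - y) w) ^ 2 < 2 * ρ * inner ℝ (x - y) ν := by
    have h6 : -(1 / (2 * ρ)) * inner ℝ (x - y) w ^ 2 * (2 * ρ) <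
        inner ℝ (x - y) ν * (2 * ρ) := mul_lt_mul_of_pos_right hx2 (by positivity)
    have h7 : -(1 / (2 * ρ)) * inner ℝ (x - y) w ^ 2 * (2 * ρ) = -(inner ℝ (x - y) w) ^ 2 := by
      field_simp
    rw [h7] at h6
    linarith
  linarith

/-- Every connected nonconvex planar open set has a constant strictly below the halfplane's. -/
theorem planar_strict {p : ℝ} (hp : (2 : ℝ) < p) {e : E 2} (he : ‖e‖ = 1)
    {Ω : Set (E 2)} (hΩ : IsOpen Ω) (hc : IsPreconnected Ω) (hnc : ¬ Convex ℝ Ω) :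
    lam p Ω < lam p (halfspace e 0) := by
  obtain ⟨y, q, r, hy, hyq, hr, h⟩ := exists_touching_disc hΩ hc hnc
  exact touching_ball le_rfl (by exact_mod_cast hp) he hΩ hy hyq hr h

/-- Q1 in dimensions one and two. -/
theorem low_dim (hn : 1 ≤ n) (hn2 : n ≤ 2) {p : ℝ} (hp : (n : ℝ) < p) {e : E n} (he : ‖e‖ = 1)
    {Ω : Set (E n)} (hΩ : IsOpen Ω) (hc : IsPreconnected Ω) (hΩ' : Ω ≠ univ)
    (hl : lam p Ω = lam p (halfspace e 0)) (hext : HasExtremal p Ω) :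
    ∃ (ν : E n) (c : ℝ), ‖ν‖ = 1 ∧ Ω = halfspace ν c := by
  apply convex_extremal hn hp he hΩ hΩ' _ hl hext
  obtain rfl | rfl : n = 1 ∨ n = 2 := by omega
  · exact convex_of_dim_one hΩ hc
  · by_contra hnc
    have := planar_strict (by exact_mod_cast hp) he hΩ hc hnc
    rw [hl] at this
    exact lt_irrefl _ this

end HMor
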