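import Mathlib
import Pool.Agent.W_MP_55e37b_an.Defs
import Pool.Agent.W_MP_55e37b_an.Planar

set_option autoImplicit false

namespace HMor.PlanarStrictOld

open HMor

/-- In the plane every connected nonconvex open set has a constant strictly smaller than the
constant of the half-plane. -/
theorem result (p : ℝ) (hp : (2 : ℝ) < p) (e : E 2) (he : ‖e‖ = 1) (Ω : Set (E 2))
    (hΩ : IsOpen Ω) (hc : IsConnected Ω) (hnc : ¬ Convex ℝ Ω) :
    lam p Ω < lam p (halfspace e 0) :=
  planar_strict hp he hΩ hc.isPreconnected hnc

end HMor.PlanarStrictOld
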